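import Mathlib

/-!
# Rayless graphs are comparability-type graphs of trees with finite branches

Given a graph without infinite path, every vertex `x` receives a finite set `pred x` such that the
relation `y ∈ pred x` is a tree order without infinite chains and every edge joins comparable
vertices.
-/

set_option autoImplicit false

namespace Pool.Agent.TH764.OG

open Set

universe u

/-- `pred x` is the set of proper predecessors of `x` in a tree order in which every element has
finitely many predecessors and which has no infinite ascending chain. -/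
structure TreeOrd {X : Type u} (pred : X → Set X) : Prop where
  irr : ∀ x, x ∉ pred x
  tr : ∀ x y z, z ∈ pred y → y ∈ pred x → z ∈ pred x
  chain : ∀ x y z, y ∈ pred x → z ∈ pred x → y = z ∨ y ∈ pred z ∨ z ∈ pred y
  fin : ∀ x, (pred x).Finite
  wf : WellFounded (fun a b : X => b ∈ pred a)

section Rayless

variable {X : Type u} (G : SimpleGraph X)

/-- adjacency outside a list -/
def RL (l : List X) (a b : X) : Prop := G.Adj a b ∧ a ∉ l ∧ b ∉ l

/-- component of `x` outside the list `l` -/
def comp (l : List X) (x : X) : Set X := {y | Relation.ReflTransGen (RL G l) x y}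

lemma RL_symm {l : List X} {a b : X} (h : RL G l a b) : RL G l b a :=
  ⟨h.1.symm, h.2.2, h.2.1⟩

lemma comp_self (l : List X) (x : X) : x ∈ comp G l x := Relation.ReflTransGen.refl

lemma comp_symm {l : List X} {x y : X} (h : y ∈ comp G l x) : x ∈ comp G l y := by
  have h' : Relation.ReflTransGen (RL G l) x y := h
  change Relation.ReflTransGen (RL G l) y x
  induction h' with
  | refl => exact Relation.ReflTransGen.refl
  | tail hab hbc ih => exact Relation.ReflTransGen.head (RL_symm G hbc) (ih hab)

lemma comp_eq {l : List X} {x y : X} (h : y ∈ comp G l x) : comp G l y = comp G l x := by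
  ext z
  exact ⟨fun hz => Relation.ReflTransGen.trans h hz,
    fun hz => Relation.ReflTransGen.trans (comp_symm G h) hz⟩

lemma comp_anti {l l' : List X} (hl : ∀ a ∈ l, a ∈ l') (x : X) : comp G l' x ⊆ comp G l x := by
  intro y hy
  have hy' : Relation.ReflTransGen (RL G l') x y := hy
  change Relation.ReflTransGen (RL G l) x y
  induction hy' with
  | refl => exact Relation.ReflTransGen.refl
  | tail hab hbc ih =>
    exact Relation.ReflTransGen.tail (ih hab) ⟨hbc.1, fun h' => hbc.2.1 (hl _ h'),
      fun h' => hbc.2.2 (hl _ h')⟩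

lemma comp_notMem {l : List X} {x y : X} (hx : x ∉ l) (h : y ∈ comp G l x) : y ∉ l := by
  rcases Relation.ReflTransGen.cases_tail h with h1 | ⟨z, _, h2⟩
  · rw [h1]; exact hx
  · exact h2.2.2

lemma comp_adj {l : List X} {x u : X} (hx : x ∉ l) (hxu : x ≠ u) (hu : u ∈ comp G l x) :
    ∃ z ∈ comp G (u :: l) x, G.Adj u z := by
  have hx' : x ∉ u :: l := by
    simp only [List.mem_cons, not_or]
    exact ⟨hxu, hx⟩
  have key : ∀ y, Relation.ReflTransGen (RL G l) x y →
      (y ∈ comp G (u :: l) x ∨ ∃ z ∈ comp G (u :: l) x, G.Adj u z) := by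
    intro y hy
    induction hy with
    | refl => exact Or.inl (comp_self G _ _)
    | @tail b c _ hbc ih =>
      rcases ih with ih | ih
      · by_cases hc : c = u
        · right
          subst hc
          exact ⟨b, ih, hbc.1.symm⟩
        · left
          have hb : b ∉ u :: l := comp_notMem G hx' ih
          refine Relation.ReflTransGen.tail ih ⟨hbc.1, hb, ?_⟩
          simp only [List.mem_cons, not_or]
          exact ⟨hc, hbc.2.2⟩
      · exact Or.inr ih
  rcases key u hu with h | h
  · exact absurd (List.mem_cons_self) (comp_notMem G hx' h)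
  · exact h

open Classical in
/-- choose a vertex of `C` adjacent to the vertices in `o` -/
noncomputable def ch [Nonempty X] (C : Set X) (o : Option X) : X :=
  if h : ∃ u ∈ C, ∀ v ∈ o, G.Adj v u then h.choose else Classical.arbitrary X

open Classical in
/-- the list of the first vertices chosen on the way to `x`, most recent first -/
noncomputable def fl [Nonempty X] (x : X) : ℕ → List X
  | 0 => []
  | n + 1 => if x ∈ fl x n then fl x n
      else ch G (comp G (fl x n) x) (fl x n).head? :: fl x n

/-- the `n`-th chosen vertex -/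
noncomputable def U [Nonempty X] (x : X) (n : ℕ) : X :=
  ch G (comp G (fl G x n) x) (fl G x n).head?

variable [Nonempty X]

lemma fl_succ {x : X} {n : ℕ} (h : x ∉ fl G x n) : fl G x (n + 1) = U G x n :: fl G x n := by
  simp only [fl, U]
  rw [if_neg h]

lemma fl_mono_succ (x : X) (n : ℕ) : ∀ a ∈ fl G x n, a ∈ fl G x (n + 1) := by
  intro a ha
  by_cases h : x ∈ fl G x n
  · simp only [fl]
    rw [if_pos h]; exact ha
  · rw [fl_succ G h]
    exact List.mem_cons_of_mem _ ha

lemma fl_mono (x : X) {m n : ℕ} (h : m ≤ n) : ∀ a ∈ fl G x m, a ∈ fl G x n := by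
  induction n, h using Nat.le_induction with
  | base => exact fun a ha => ha
  | succ n _ ih => exact fun a ha => fl_mono_succ G x n a (ih a ha)

lemma ch_spec {C : Set X} {o : Option X} (h : ∃ u ∈ C, ∀ v ∈ o, G.Adj v u) :
    ch G C o ∈ C ∧ ∀ v ∈ o, G.Adj v (ch G C o) := by
  simp only [ch]
  rw [dif_pos h]
  exact h.choose_spec

/-- the choice is always possible -/
lemma ch_ok (x : X) (n : ℕ) : x ∉ fl G x n →
    ∃ u ∈ comp G (fl G x n) x, ∀ v ∈ (fl G x n).head?, G.Adj v u := by
  induction n with
  | zero =>
    intro _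
    exact ⟨x, comp_self G _ _, by simp [fl]⟩
  | succ n ih =>
    intro h
    have h0 : x ∉ fl G x n := fun h' => h (fl_mono_succ G x n x h')
    have h1 := ch_spec G (ih h0)
    rw [fl_succ G h0] at h ⊢
    have hne : x ≠ U G x n := fun h' => h (by rw [← h']; exact List.mem_cons_self)
    obtain ⟨z, hz, hadj⟩ := comp_adj G h0 hne h1.1
    refine ⟨z, hz, ?_⟩
    intro v hv
    simp only [List.head?_cons, Option.mem_def, Option.some.injEq] at hv
    subst hv
    exact hadj

lemma U_mem {x : X} {n : ℕ} (h : x ∉ fl G x n) : U G x n ∈ comp G (fl G x n) x :=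
  (ch_spec G (ch_ok G x n h)).1

lemma U_notMem {x : X} {n : ℕ} (h : x ∉ fl G x n) : U G x n ∉ fl G x n :=
  comp_notMem G h (U_mem G h)

lemma U_adj {x : X} {n : ℕ} (h : x ∉ fl G x (n + 1)) : G.Adj (U G x n) (U G x (n + 1)) := by
  have h0 : x ∉ fl G x n := fun h' => h (fl_mono_succ G x n x h')
  have h1 := (ch_spec G (ch_ok G x (n + 1) h)).2
  apply h1
  rw [fl_succ G h0]
  simp

lemma U_mem_fl {x : X} {m n : ℕ} (hmn : m < n) (h : x ∉ fl G x m) : U G x m ∈ fl G x n := by
  apply fl_mono G x (Nat.succ_le_of_lt hmn)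
  rw [Nat.succ_eq_add_one, fl_succ G h]
  exact List.mem_cons_self

lemma U_ne {x : X} {m n : ℕ} (hmn : m < n) (h : x ∉ fl G x n) : U G x m ≠ U G x n := by
  intro he
  have h0 : x ∉ fl G x m := fun h' => h (fl_mono G x hmn.le x h')
  exact U_notMem G h (he ▸ U_mem_fl G hmn h0)

lemma mem_fl {x : X} (n : ℕ) : ∀ y ∈ fl G x n, ∃ j < n, x ∉ fl G x j ∧ y = U G x j := by
  induction n with
  | zero => intro y hy; simp [fl] at hy
  | succ n ih =>
    intro y hy
    by_cases h : x ∈ fl G x n
    · simp only [fl] at hy
      rw [if_pos h] at hy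
      obtain ⟨j, h1, h2⟩ := ih y hy
      exact ⟨j, h1.trans (Nat.lt_succ_self n), h2⟩
    · rw [fl_succ G h] at hy
      rcases List.mem_cons.1 hy with h1 | h1
      · exact ⟨n, Nat.lt_succ_self n, h, h1⟩
      · obtain ⟨j, h1, h2⟩ := ih y h1
        exact ⟨j, h1.trans (Nat.lt_succ_self n), h2⟩

/-- two vertices which are still in the same component see the same list -/
lemma fl_eq_of_comp {x y : X} (n : ℕ) (hx : x ∉ fl G x n) (hy : y ∈ comp G (fl G x n) x) :
    ∀ i ≤ n, fl G y i = fl G x i := by
  intro i
  induction i with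
  | zero => intro _; rfl
  | succ i ih =>
    intro hi
    have hi' : i ≤ n := (Nat.le_succ i).trans hi
    have h1 := ih hi'
    have hxi : x ∉ fl G x i := fun h' => hx (fl_mono G x hi' x h')
    have hyi : y ∈ comp G (fl G x i) x := comp_anti G (fl_mono G x hi') x hy
    have hyi' : y ∉ fl G y i := by rw [h1]; exact comp_notMem G hxi hyi
    rw [fl_succ G hxi, fl_succ G hyi', h1]
    congr 1
    simp only [U]
    rw [h1, comp_eq G hyi]

lemma fl_U {x : X} {j : ℕ} (h : x ∉ fl G x j) : ∀ i ≤ j, fl G (U G x j) i = fl G x i :=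
  fl_eq_of_comp G j h (U_mem G h)

lemma U_U {x : X} {j : ℕ} (h : x ∉ fl G x j) : ∀ i ≤ j, U G (U G x j) i = U G x i := by
  intro i hi
  have h1 := fl_U G h i hi
  have h2 : U G x j ∈ comp G (fl G x i) x := comp_anti G (fl_mono G x hi) x (U_mem G h)
  simp only [U] at h1 h2 ⊢
  rw [h1, comp_eq G h2]

variable (hG : ∀ v : ℕ → X, Function.Injective v → (∀ n, G.Adj (v n) (v (n + 1))) → False)

include hG in
lemma exists_mem (x : X) : ∃ n, x ∈ fl G x n := by
  by_contra hcon
  push Not at hcon
  refine hG (fun n => U G x n) ?_ (fun n => U_adj G (hcon (n + 1)))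
  intro m n hmn
  rcases lt_trichotomy m n with h | h | h
  · exact absurd hmn (U_ne G h (hcon n))
  · exact h
  · exact absurd hmn.symm (U_ne G h (hcon m))

/-- the stage at which `x` is chosen -/
lemma exists_stage (hG : ∀ v : ℕ → X, Function.Injective v → (∀ n, G.Adj (v n) (v (n + 1))) → False)
    (x : X) : ∃ m, x ∉ fl G x m ∧ U G x m = x := by
  classical
  have hex := exists_mem G hG x
  have h1 := Nat.find_spec hex
  have h0 : Nat.find hex ≠ 0 := by
    intro h
    rw [h] at h1
    simp [fl] at h1
  obtain ⟨m, hm⟩ := Nat.exists_eq_succ_of_ne_zero h0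
  have h2 : x ∉ fl G x m := Nat.find_min hex (by omega)
  refine ⟨m, h2, ?_⟩
  rw [hm, Nat.succ_eq_add_one, fl_succ G h2] at h1
  rcases List.mem_cons.1 h1 with h3 | h3
  · exact h3.symm
  · exact absurd h3 h2

/-- **Tree order of a rayless graph.** -/
theorem exists_treeOrd
    (hG : ∀ v : ℕ → X, Function.Injective v → (∀ n, G.Adj (v n) (v (n + 1))) → False) :
    ∃ pred : X → Set X, TreeOrd pred ∧ ∀ x y, G.Adj x y → x ∈ pred y ∨ y ∈ pred x := by
  classical
  choose m hm1 hm2 using exists_stage G hG
  have huniq : ∀ x j, x ∉ fl G x j → U G x j = x → j = m x := by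
    intro x j hj hU
    rcases lt_trichotomy j (m x) with h | h | h
    · have := U_mem_fl G h hj
      rw [hU] at this
      exact absurd this (hm1 x)
    · exact h
    · have := U_mem_fl G h (hm1 x)
      rw [hm2] at this
      exact absurd this hj
  have hnot : ∀ x i, i ≤ m x → x ∉ fl G x i := fun x i hi h => hm1 x (fl_mono G x hi x h)
  -- the stage of a chosen vertex
  have hstage : ∀ x i, i ≤ m x → m (U G x i) = i := by
    intro x i hi
    have h1 := hnot x i hi
    symm
    apply huniq
    · rw [fl_U G h1 i le_rfl]; exact U_notMem G h1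
    · exact U_U G h1 i le_rfl
  let pred : X → Set X := fun x => {y | y ∈ fl G x (m x)}
  have hpred : ∀ x y, y ∈ pred x ↔ ∃ i < m x, y = U G x i := by
    intro x y
    constructor
    · intro hy
      obtain ⟨j, h1, _, h3⟩ := mem_fl G (m x) y hy
      exact ⟨j, h1, h3⟩
    · rintro ⟨i, h1, rfl⟩
      exact U_mem_fl G h1 (hnot x i h1.le)
  have hpm : ∀ x y, y ∈ pred x → m y < m x ∧ y = U G x (m y) := by
    intro x y hy
    obtain ⟨i, h1, h2⟩ := (hpred x y).1 hy
    have h3 := hstage x i h1.le
    rw [← h2] at h3
    rw [h3]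
    exact ⟨h1, h2⟩
  have hcoh : ∀ x y, y ∈ pred x → ∀ i ≤ m y, U G y i = U G x i := by
    intro x y hy i hi
    obtain ⟨h1, h2⟩ := hpm x y hy
    have h3 := U_U G (hnot x (m y) h1.le) i hi
    rwa [← h2] at h3
  refine ⟨pred, ⟨?_, ?_, ?_, ?_, ?_⟩, ?_⟩
  · intro x; exact hm1 x
  · intro x y z hz hy
    obtain ⟨i, h1, h2⟩ := (hpred y z).1 hz
    rw [hpred]
    refine ⟨i, h1.trans (hpm x y hy).1, ?_⟩
    rw [h2]
    exact hcoh x y hy i h1.le
  · intro x y z hy hz
    obtain ⟨hy1, hy2⟩ := hpm x y hy
    obtain ⟨hz1, hz2⟩ := hpm x z hz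
    rcases lt_trichotomy (m y) (m z) with h | h | h
    · right; left
      rw [hpred]
      exact ⟨m y, h, by rw [hcoh x z hz _ h.le]; exact hy2⟩
    · left; rw [hy2, hz2, h]
    · right; right
      rw [hpred]
      exact ⟨m z, h, by rw [hcoh x y hy _ h.le]; exact hz2⟩
  · intro x
    exact List.finite_toSet (fl G x (m x))
  · rw [wellFounded_iff_isEmpty_descending_chain]
    refine ⟨fun ⟨f, hf⟩ => ?_⟩
    have hf' : ∀ n, f n ∈ pred (f (n + 1)) := hf
    have hfm : ∀ n, n ≤ m (f n) := by
      intro n
      induction n with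
      | zero => exact Nat.zero_le _
      | succ n ih => exact Nat.succ_le_of_lt (lt_of_le_of_lt ih (hpm _ _ (hf' n)).1)
    have hfc : ∀ n k, ∀ i ≤ m (f n), U G (f n) i = U G (f (n + k)) i := by
      intro n k
      induction k with
      | zero => intro i _; rfl
      | succ k ih =>
        intro i hi
        have hmono : m (f n) ≤ m (f (n + k)) := by
          clear ih hi
          induction k with
          | zero => exact le_rfl
          | succ k ih => exact ih.trans (hpm _ _ (hf' (n + k))).1.le
        rw [ih i hi]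
        exact hcoh _ _ (hf' (n + k)) i (hi.trans hmono)
    refine hG (fun n => U G (f n) n) ?_ ?_
    · intro a b hab
      have main : ∀ a b, a < b → U G (f a) a ≠ U G (f b) b := by
        intro a b hlt
        obtain ⟨k, rfl⟩ := Nat.exists_eq_add_of_le hlt.le
        rw [hfc a k a (hfm a)]
        exact U_ne G hlt (hnot _ _ (hfm _))
      rcases lt_trichotomy a b with h | h | h
      · exact absurd hab (main a b h)
      · exact h
      · exact absurd hab.symm (main b a h)
    · intro n
      have h1 : U G (f n) n = U G (f (n + 1)) n := hfc n 1 n (hfm n)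
      rw [h1]
      exact U_adj G (hnot _ _ (hfm (n + 1)))
  · intro x y hxy
    by_contra hcon
    push Not at hcon
    have hfl : ∀ i, i ≤ m x → i ≤ m y → fl G x i = fl G y i := by
      intro i
      induction i with
      | zero => intro _ _; rfl
      | succ i ih =>
        intro h1 h2
        have h3 := ih ((Nat.le_succ i).trans h1) ((Nat.le_succ i).trans h2)
        have h4 := hnot x i ((Nat.le_succ i).trans h1)
        have h5 := hnot y i ((Nat.le_succ i).trans h2)
        have h6 : y ∈ comp G (fl G x i) x :=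
          Relation.ReflTransGen.single ⟨hxy, h4, by rw [h3]; exact h5⟩
        rw [fl_succ G h4, fl_succ G h5, h3]
        congr 1
        simp only [U]
        rw [← h3, comp_eq G h6]
    -- at the smaller stage both vertices see the same choice
    have hU : ∀ i, i ≤ m x → i ≤ m y → U G x i = U G y i := by
      intro i h1 h2
      have h3 := hfl i h1 h2
      have h4 := hnot x i h1
      have h5 := hnot y i h2
      have h6 : y ∈ comp G (fl G x i) x :=
        Relation.ReflTransGen.single ⟨hxy, h4, by rw [h3]; exact h5⟩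
      simp only [U]
      rw [← h3, comp_eq G h6]
    rcases lt_trichotomy (m x) (m y) with h | h | h
    · apply hcon.1
      rw [hpred]
      exact ⟨m x, h, by rw [← hU _ le_rfl h.le, hm2]⟩
    · have := hU (m x) le_rfl h.le
      rw [hm2, h, hm2] at this
      exact hxy.ne this
    · apply hcon.2
      rw [hpred]
      exact ⟨m y, h, by rw [hU _ h.le le_rfl, hm2]⟩

end Rayless

end Pool.Agent.TH764.OG
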