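import Mathlib
import Pool.Agent.TH764.OG.Tree

/-!
# Generic sets and large antichains: the common framework
-/

set_option autoImplicit false

namespace Pool.Agent.TH764.OG

open Set Cardinal Ordinal

/-- vertices in `C` none of whose predecessors is in `C` -/
def AA {X : Type} (pred : X → Set X) (C : Set X) : Set X := {x | x ∈ C ∧ ∀ y ∈ pred x, y ∉ C}

/-- the set `C` extends a condition (ones, zeros) in `D` -/
def Meets {X : Type} (D : Set X → Set X → Prop) (C : Set X) : Prop :=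
  ∃ O Z, D O Z ∧ O ⊆ C ∧ Disjoint Z C

/-- density for conditions of size `< lam` -/
def DenseC {X : Type} (lam : Cardinal.{0}) (D : Set X → Set X → Prop) : Prop :=
  ∀ O Z : Set X, #O < lam → #Z < lam → Disjoint O Z →
    ∃ O' Z' : Set X, #O' < lam ∧ #Z' < lam ∧ O ⊆ O' ∧ Z ⊆ Z' ∧ Disjoint O' Z' ∧ D O' Z'

/-- there are generic sets for families of at most `kap` dense sets -/
def Gen (X : Type) (lam kap : Cardinal.{0}) : Prop :=
  ∀ (ι : Type) (D : ι → Set X → Set X → Prop), #ι ≤ kap → (∀ i, DenseC lam (D i)) →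
    ∃ C : Set X, ∀ i, Meets (D i) C

lemma mk_union_lt {X : Type} {lam : Cardinal.{0}} (hlam : ℵ₀ ≤ lam) {A B : Set X}
    (hA : #A < lam) (hB : #B < lam) : #(A ∪ B : Set X) < lam :=
  lt_of_le_of_lt (Cardinal.mk_union_le A B) (Cardinal.add_lt_of_lt hlam hA hB)

lemma mk_sub_lt {X : Type} {lam : Cardinal.{0}} {A B : Set X}
    (hB : #B < lam) (h : A ⊆ B) : #A < lam :=
  lt_of_le_of_lt (Cardinal.mk_le_mk_of_subset h) hB

lemma Gen.rel {X : Type} {lam kap : Cardinal.{0}} (hlam : ℵ₀ ≤ lam) (h : Gen X lam kap)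
    {ι : Type} (D : ι → Set X → Set X → Prop) (hι : #ι ≤ kap) (hD : ∀ i, DenseC lam (D i))
    (R : Set X) (hR : #R < lam) : ∃ C : Set X, Disjoint R C ∧ ∀ i, Meets (D i) C := by
  obtain ⟨C, hC⟩ := h ι (fun i O Z => D i (O \ R) (Z ∪ R)) hι (by
    intro i O Z hO hZ hOZ
    obtain ⟨O', Z', h1, h2, h3, h4, h5, h6⟩ := hD i (O \ R) (Z ∪ R)
      (mk_sub_lt hO Set.sdiff_subset) (mk_union_lt hlam hZ hR) (by
        rw [Set.disjoint_left] at hOZ ⊢
        rintro x ⟨hx1, hx2⟩ hx3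
        rcases hx3 with hx3 | hx3
        · exact hOZ hx1 hx3
        · exact hx2 hx3)
    rw [Set.disjoint_left] at h5 hOZ
    have e1 : (O' ∪ O) \ R = O' := by
      ext x
      simp only [Set.mem_sdiff, Set.mem_union]
      constructor
      · rintro ⟨hx | hx, hxR⟩
        · exact hx
        · exact h3 ⟨hx, hxR⟩
      · intro hx
        exact ⟨Or.inl hx, fun hxR => h5 hx (h4 (Or.inr hxR))⟩
    have e2 : (Z' \ O) ∪ R = Z' := by
      ext x
      simp only [Set.mem_sdiff, Set.mem_union]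
      constructor
      · rintro (⟨hx, _⟩ | hx)
        · exact hx
        · exact h4 (Or.inr hx)
      · intro hx
        by_cases hxR : x ∈ R
        · exact Or.inr hxR
        · exact Or.inl ⟨hx, fun hxO => h5 (h3 ⟨hxO, hxR⟩) hx⟩
    refine ⟨O' ∪ O, Z' \ O, mk_union_lt hlam h1 hO, mk_sub_lt h2 Set.sdiff_subset,
      Set.subset_union_right, ?_, ?_, ?_⟩
    · intro x hx
      exact ⟨h4 (Or.inl hx), fun hxO => hOZ hxO hx⟩
    · rw [Set.disjoint_left]
      rintro x (hx | hx) ⟨hx2, hx3⟩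
      · exact h5 hx hx2
      · exact hx3 hx
    · beta_reduce
      rw [e1, e2]
      exact h6)
  refine ⟨C \ R, Set.disjoint_sdiff_right, ?_⟩
  intro i
  obtain ⟨O, Z, h1, h2, h3⟩ := hC i
  refine ⟨O \ R, Z ∪ R, h1, Set.sdiff_subset_sdiff_left h2, ?_⟩
  rw [Set.disjoint_left] at h3 ⊢
  rintro x (hx | hx) ⟨hx1, hx2⟩
  · exact h3 hx hx1
  · exact hx2 hx

/-! ### Order types -/

section Types

variable {X : Type} [LinearOrder X] [WellFoundedLT X]

lemma type_mono {A B : Set X} (h : A ⊆ B) : typeLT A ≤ typeLT B := by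
  rw [Ordinal.type_le_iff']
  exact ⟨RelEmbedding.ofMonotone (fun a : A => (⟨a.1, h a.2⟩ : B)) (fun a b hab => hab)⟩

lemma type_mul_le {ι : Type} [LinearOrder ι] [WellFoundedLT ι] (T : ι → Set X) (S : Set X)
    (hT : ∀ i j, i < j → ∀ a ∈ T i, ∀ b ∈ T j, a < b) (hS : ∀ i, T i ⊆ S) (β : Ordinal.{0})
    (hβ : ∀ i, β ≤ typeLT (T i)) : β * typeLT ι ≤ typeLT S := by
  have h1 : ∀ i, Nonempty (((· < ·) : β.ToType → β.ToType → Prop) ↪r
      ((· < ·) : T i → T i → Prop)) := by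
    intro i
    rw [← Ordinal.type_le_iff', Ordinal.type_toType]
    exact hβ i
  have e : ∀ i, (((· < ·) : β.ToType → β.ToType → Prop) ↪r ((· < ·) : T i → T i → Prop)) :=
    fun i => (h1 i).some
  have h2 : β * typeLT ι =
      Ordinal.type (Prod.Lex ((· < ·) : ι → ι → Prop) ((· < ·) : β.ToType → β.ToType → Prop)) := by
    rw [Ordinal.type_prod_lex, Ordinal.type_toType]
  rw [h2, Ordinal.type_le_iff']
  refine ⟨RelEmbedding.ofMonotone
    (fun p : ι × β.ToType => (⟨(e p.1 p.2).1, hS p.1 (e p.1 p.2).2⟩ : S)) ?_⟩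
  rintro ⟨i, a⟩ ⟨j, b⟩ hab
  change ((e i a).1 : X) < (e j b).1
  rw [Prod.lex_def] at hab
  rcases hab with hab | ⟨h3, h4⟩
  · exact hT i j hab _ (e i a).2 _ (e j b).2
  · simp only at h3 h4
    subst h3
    exact (e i).map_rel_iff.2 h4

lemma type_add_le (T₁ T₂ S : Set X) (hT : ∀ a ∈ T₁, ∀ b ∈ T₂, a < b) (h1 : T₁ ⊆ S) (h2 : T₂ ⊆ S) :
    typeLT T₁ + typeLT T₂ ≤ typeLT S := by
  rw [← Ordinal.type_sum_lex, Ordinal.type_le_iff']
  refine ⟨RelEmbedding.ofMonotone (fun p : T₁ ⊕ T₂ => (match p with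
    | Sum.inl a => ⟨a.1, h1 a.2⟩
    | Sum.inr b => ⟨b.1, h2 b.2⟩ : S)) ?_⟩
  rintro (a | a) (b | b) hab
  · have h3 : a < b := by simpa using hab
    exact h3
  · exact hT a.1 a.2 b.1 b.2
  · exact absurd hab Sum.lex_inr_inl
  · have h3 : a < b := by simpa using hab
    exact h3

end Types

/-! ### The property `PP` -/

section PPsec

variable {X : Type} [LinearOrder X] [WellFoundedLT X] (pred : X → Set X) (lam kap : Cardinal.{0})
  (Adm : Set X → Prop)

/-- There is an admissible root set `R` such that every sufficiently generic set `C` disjoint from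
`R` satisfies: `S ∩ AA pred C` has order type at least `β`. -/
def PP (S : Set X) (β : Ordinal.{0}) : Prop :=
  ∃ R : Set X, Adm R ∧ ∃ (ι : Type) (D : ι → Set X → Set X → Prop), #ι ≤ kap ∧
    (∀ i, DenseC lam (D i)) ∧
    ∀ C : Set X, (∀ i, Meets (D i) C) → Disjoint R C → β ≤ typeLT (S ∩ AA pred C : Set X)

/-- root property for the index order `I` -/
def RootProp (I : Type) [LinearOrder I] : Prop :=
  ∀ R : I → Set X, (∀ i, Adm (R i)) → ∃ R' : Set X, Adm R' ∧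
    ∀ D : Set X, #D < lam → Disjoint D R' → ∀ i, ∃ j, i ≤ j ∧ Disjoint (R j) D

variable {pred lam kap Adm}

lemma PP.step (hkap : ℵ₀ ≤ kap) (hlam : ℵ₀ ≤ lam) (hAdm : ∀ R, Adm R → #R < lam)
    {I : Type} [LinearOrder I] (hI : #I ≤ kap) (hroot : RootProp lam Adm I)
    (Sf : I → Set X) (βf : I → Ordinal.{0}) (h : ∀ i, PP pred lam kap Adm (Sf i) (βf i))
    (S : Set X) (β : Ordinal.{0})
    (grow : ∀ A : Set X, (∀ i, ∃ j, i ≤ j ∧ βf j ≤ typeLT (Sf j ∩ A : Set X)) →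
      β ≤ typeLT (S ∩ A : Set X)) : PP pred lam kap Adm S β := by
  choose R hR ι D hι hD hC using h
  obtain ⟨R', hR', hR''⟩ := hroot R hR
  refine ⟨R', hR', (Σ i, ι i) ⊕ I, fun p => match p with
    | Sum.inl q => D q.1 q.2
    | Sum.inr i => fun O Z => ¬ Disjoint R' O ∨ ∃ j, i ≤ j ∧ R j ⊆ Z, ?_, ?_, ?_⟩
  · rw [Cardinal.mk_sum, Cardinal.lift_id, Cardinal.lift_id, Cardinal.mk_sigma]
    refine (add_le_add ((Cardinal.sum_le_sum _ _ hι).trans ?_) hI).trans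
      (Cardinal.add_eq_self hkap).le
    rw [Cardinal.sum_const, Cardinal.lift_id, Cardinal.lift_id]
    exact (mul_le_mul' hI le_rfl).trans (Cardinal.mul_eq_self hkap).le
  · rintro (⟨i, j⟩ | i)
    · exact hD i j
    · intro O Z hO hZ hOZ
      by_cases hd : Disjoint R' O
      · obtain ⟨j, hij, hj⟩ := hR'' O hO hd.symm i
        refine ⟨O, Z ∪ R j, hO, mk_union_lt hlam hZ (hAdm _ (hR j)), subset_rfl,
          Set.subset_union_left, ?_, Or.inr ⟨j, hij, Set.subset_union_right⟩⟩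
        rw [Set.disjoint_union_right]
        exact ⟨hOZ, hj.symm⟩
      · exact ⟨O, Z, hO, hZ, subset_rfl, subset_rfl, hOZ, Or.inl hd⟩
  · intro C hmeet hdis
    apply grow
    intro i
    obtain ⟨O, Z, h1, h2, h3⟩ := hmeet (Sum.inr i)
    rcases h1 with h1 | ⟨j, hij, hj⟩
    · exact absurd (hdis.mono_right h2) h1
    · refine ⟨j, hij, hC j C (fun k => hmeet (Sum.inl ⟨j, k⟩)) (h3.mono_left hj)⟩

lemma PP.base (hpred : ∀ x, x ∉ pred x) (hlam : ℵ₀ ≤ lam)
    (hAdm : ∀ R, Adm R → #R < lam) (hAdm' : ∀ x, Adm (insert x (pred x)))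
    {I : Type} [LinearOrder I] (hI : #I ≤ kap) (hroot : RootProp lam Adm I)
    (x : I → X) (hx : ∀ R, Adm R → ∀ i, ∃ i', i ≤ i' ∧ ∀ j, i' ≤ j → x j ∉ R)
    (S : Set X) (β : Ordinal.{0})
    (grow : ∀ A : Set X, (∀ i, ∃ j, i ≤ j ∧ x j ∈ A) → β ≤ typeLT (S ∩ A : Set X)) :
    PP pred lam kap Adm S β := by
  obtain ⟨R', hR', hR''⟩ := hroot (fun i => insert (x i) (pred (x i))) (fun i => hAdm' _)
  refine ⟨R', hR', I, fun i O Z => ¬ Disjoint R' O ∨ ∃ j, i ≤ j ∧ x j ∈ O ∧ pred (x j) ⊆ Z,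
    hI, ?_, ?_⟩
  · intro i O Z hO hZ hOZ
    by_cases hd : Disjoint R' O
    · obtain ⟨i', hi', hx'⟩ := hx R' hR' i
      obtain ⟨j, hij, hj⟩ := hR'' ((O ∪ Z) \ R')
        (mk_sub_lt (mk_union_lt hlam hO hZ) Set.sdiff_subset) Set.disjoint_sdiff_left i'
      rw [Set.disjoint_left] at hj hd hOZ
      have hxR : x j ∉ R' := hx' j hij
      have hxO : x j ∉ O ∪ Z := fun h => hj (Set.mem_insert _ _) ⟨h, hxR⟩
      have hfull : #(insert (x j) (pred (x j)) : Set X) < lam := hAdm _ (hAdm' _)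
      refine ⟨insert (x j) O, Z ∪ pred (x j), ?_, ?_, Set.subset_insert _ _,
        Set.subset_union_left, ?_, Or.inr ⟨j, hi'.trans hij, Set.mem_insert _ _,
        Set.subset_union_right⟩⟩
      · refine lt_of_le_of_lt Cardinal.mk_insert_le (Cardinal.add_lt_of_lt hlam hO ?_)
        exact lt_of_lt_of_le Cardinal.one_lt_aleph0 hlam
      · exact mk_union_lt hlam hZ (mk_sub_lt hfull (Set.subset_insert _ _))
      · rw [Set.disjoint_left]
        rintro y (rfl | hy) (hy2 | hy2)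
        · exact hxO (Or.inr hy2)
        · exact hpred _ hy2
        · exact hOZ hy hy2
        · exact hj (Set.mem_insert_of_mem _ hy2) ⟨Or.inl hy, fun h => hd h hy⟩
    · exact ⟨O, Z, hO, hZ, subset_rfl, subset_rfl, hOZ, Or.inl hd⟩
  · intro C hmeet hdis
    apply grow
    intro i
    obtain ⟨O, Z, h1, h2, h3⟩ := hmeet i
    rcases h1 with h1 | ⟨j, hij, hj1, hj2⟩
    · exact absurd (hdis.mono_right h2) h1
    · refine ⟨j, hij, h2 hj1, ?_⟩
      intro y hy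
      exact Set.disjoint_left.1 h3 (hj2 hy)

lemma PP.union {Adm' : Set X → Prop} (hkap : ℵ₀ ≤ kap) {I : Type} (hI : #I ≤ kap)
    (hun : ∀ R : I → Set X, (∀ i, Adm (R i)) → Adm' (⋃ i, R i))
    (Sf : I → Set X) (βf : I → Ordinal.{0}) (h : ∀ i, PP pred lam kap Adm (Sf i) (βf i))
    (S : Set X) (β : Ordinal.{0})
    (grow : ∀ A : Set X, (∀ i, βf i ≤ typeLT (Sf i ∩ A : Set X)) →
      β ≤ typeLT (S ∩ A : Set X)) : PP pred lam kap Adm' S β := by
  choose R hR ι D hι hD hC using h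
  refine ⟨⋃ i, R i, hun R hR, Σ i, ι i, fun q => D q.1 q.2, ?_, ?_, ?_⟩
  · rw [Cardinal.mk_sigma]
    refine (Cardinal.sum_le_sum _ _ hι).trans ?_
    rw [Cardinal.sum_const, Cardinal.lift_id, Cardinal.lift_id]
    exact (mul_le_mul' hI le_rfl).trans (Cardinal.mul_eq_self hkap).le
  · rintro ⟨i, j⟩
    exact hD i j
  · intro C hmeet hdis
    apply grow
    intro i
    exact hC i C (fun k => hmeet ⟨i, k⟩) (hdis.mono_left (Set.subset_iUnion R i))

lemma PP.mono {S S' : Set X} {β β' : Ordinal.{0}} (h : PP pred lam kap Adm S β) (hS : S ⊆ S')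
    (hβ : β' ≤ β) : PP pred lam kap Adm S' β' := by
  obtain ⟨R, hR, ι, D, h1, h2, h3⟩ := h
  exact ⟨R, hR, ι, D, h1, h2, fun C hC hd =>
    hβ.trans ((h3 C hC hd).trans (type_mono (Set.inter_subset_inter_left _ hS)))⟩

lemma PP.adm {Adm' : Set X → Prop} {S : Set X} {β : Ordinal.{0}}
    (h : PP pred lam kap Adm S β) (hA : ∀ R, Adm R → Adm' R) : PP pred lam kap Adm' S β := by
  obtain ⟨R, hR, h'⟩ := h
  exact ⟨R, hA R hR, h'⟩

/-- the sum of two blocks -/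
lemma PP.add (hkap : ℵ₀ ≤ kap) (hun : ∀ R₁ R₂ : Set X, Adm R₁ → Adm R₂ → Adm (R₁ ∪ R₂))
    {S₁ S₂ S : Set X} {β₁ β₂ : Ordinal.{0}} (h₁ : PP pred lam kap Adm S₁ β₁)
    (h₂ : PP pred lam kap Adm S₂ β₂) (hlt : ∀ a ∈ S₁, ∀ b ∈ S₂, a < b) (hS₁ : S₁ ⊆ S)
    (hS₂ : S₂ ⊆ S) : PP pred lam kap Adm S (β₁ + β₂) := by
  obtain ⟨R₁, hR₁, ι₁, D₁, a1, a2, a3⟩ := h₁
  obtain ⟨R₂, hR₂, ι₂, D₂, b1, b2, b3⟩ := h₂
  refine ⟨R₁ ∪ R₂, hun _ _ hR₁ hR₂, ι₁ ⊕ ι₂, Sum.elim D₁ D₂, ?_, ?_, ?_⟩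
  · rw [Cardinal.mk_sum, Cardinal.lift_id, Cardinal.lift_id]
    exact (add_le_add a1 b1).trans (Cardinal.add_eq_self hkap).le
  · rintro (i | i)
    · exact a2 i
    · exact b2 i
  · intro C hmeet hdis
    rw [Set.disjoint_union_left] at hdis
    have h3 := a3 C (fun i => hmeet (Sum.inl i)) hdis.1
    have h4 := b3 C (fun i => hmeet (Sum.inr i)) hdis.2
    refine (add_le_add h3 h4).trans ?_
    exact type_add_le _ _ _ (fun a ha b hb => hlt a ha.1 b hb.1)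
      (Set.inter_subset_inter_left _ hS₁) (Set.inter_subset_inter_left _ hS₂)

end PPsec

end Pool.Agent.TH764.OG
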