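import Mathlib
import Pool.Agent.TH764.OG.Frame

/-!
# Large antichains from sets generic for finite conditions
-/

set_option autoImplicit false

namespace Pool.Agent.TH764.OG

open Set Cardinal Ordinal

section Root

variable {X : Type} {pred : X → Set X}

/-- finite chains closed under predecessors -/
def IsPath (pred : X → Set X) (R : Set X) : Prop :=
  R.Finite ∧ (∀ y ∈ R, pred y ⊆ R) ∧ ∀ y ∈ R, ∀ z ∈ R, y = z ∨ y ∈ pred z ∨ z ∈ pred y

lemma isPath_empty : IsPath pred ∅ :=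
  ⟨Set.finite_empty, fun y hy => absurd hy (Set.notMem_empty y),
    fun y hy => absurd hy (Set.notMem_empty y)⟩

lemma isPath_insert (hT : TreeOrd pred) (x : X) : IsPath pred (insert x (pred x)) := by
  refine ⟨(hT.fin x).insert x, ?_, ?_⟩
  · rintro y (rfl | hy) z hz
    · exact Or.inr hz
    · exact Or.inr (hT.tr x y z hz hy)
  · rintro y (rfl | hy) z (rfl | hz)
    · exact Or.inl rfl
    · exact Or.inr (Or.inr hz)
    · exact Or.inr (Or.inl hy)
    · exact hT.chain x y z hy hz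

lemma finite_bound {I : Type} [LinearOrder I] {D : Set X} (hD : D.Finite) (P : X → I → Prop)
    (h : ∀ d ∈ D, ∃ i, ∀ j, i ≤ j → P d j) (i : I) :
    ∃ i', i ≤ i' ∧ ∀ d ∈ D, ∀ j, i' ≤ j → P d j := by
  induction D, hD using Set.Finite.induction_on with
  | empty => exact ⟨i, le_rfl, fun d hd => absurd hd (Set.notMem_empty d)⟩
  | @insert a s _ _ ih =>
    obtain ⟨i₁, h1, h2⟩ := ih (fun d hd => h d (Set.mem_insert_of_mem _ hd))
    obtain ⟨i₂, h3⟩ := h a (Set.mem_insert _ _)
    refine ⟨max i₁ i₂, h1.trans (le_max_left _ _), ?_⟩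
    rintro d (rfl | hd) j hj
    · exact h3 j ((le_max_right _ _).trans hj)
    · exact h2 d hd j ((le_max_left _ _).trans hj)

lemma finite_of_lt {D : Set X} (h : #D < ℵ₀) : D.Finite := by
  haveI : Finite D := Cardinal.lt_aleph0_iff_finite.1 h
  exact Set.toFinite D

/-- The root property for finite chains. -/
theorem rootProp_path (hT : TreeOrd pred) (I : Type) [LinearOrder I] :
    RootProp ℵ₀ (IsPath pred) I := by
  intro R hR
  let M : Set X := {r | ∀ i, ∃ j, i ≤ j ∧ r ∈ R j}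
  by_cases hM : M.Nonempty
  · let r := hT.wf.min M hM
    have hr : r ∈ M := hT.wf.min_mem M hM
    have hr' : ∀ d, r ∈ pred d → d ∉ M := fun d hd hdM => hT.wf.not_lt_min (s := M) hdM hd
    refine ⟨insert r (pred r), isPath_insert hT r, ?_⟩
    intro D hD hdis i
    have hDf := finite_of_lt hD
    obtain ⟨i', h1, h2⟩ := finite_bound hDf (fun d j => r ∈ R j → d ∉ R j) (by
      intro d hd
      have hd1 : d ∉ insert r (pred r) := Set.disjoint_left.1 hdis hd
      by_cases hrd : r ∈ pred d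
      · have h3 := hr' d hrd
        simp only [M, Set.mem_ofPred_eq, not_forall, not_exists, not_and] at h3
        obtain ⟨i₀, h4⟩ := h3
        exact ⟨i₀, fun j hj _ => h4 j hj⟩
      · refine ⟨i, fun j _ hrj hdj => ?_⟩
        rcases (hR j).2.2 d hdj r hrj with h5 | h5 | h5
        · exact hd1 (h5 ▸ Set.mem_insert _ _)
        · exact hd1 (Set.mem_insert_of_mem _ h5)
        · exact hrd h5) i
    obtain ⟨j, h3, h4⟩ := hr i'
    refine ⟨j, h1.trans h3, ?_⟩
    rw [Set.disjoint_right]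
    intro d hd
    exact h2 d hd j h3 h4
  · refine ⟨∅, isPath_empty, ?_⟩
    intro D hD _ i
    have hDf := finite_of_lt hD
    obtain ⟨i', h1, h2⟩ := finite_bound hDf (fun d j => d ∉ R j) (by
      intro d _
      have h3 : d ∉ M := fun h => hM ⟨d, h⟩
      simp only [M, Set.mem_ofPred_eq, not_forall, not_exists, not_and] at h3
      obtain ⟨i₀, h4⟩ := h3
      exact ⟨i₀, fun j hj => h4 j hj⟩) i
    refine ⟨i', h1, ?_⟩
    rw [Set.disjoint_right]
    intro d hd
    exact h2 d hd i' le_rfl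

end Root

section Main

variable {X : Type} [LinearOrder X] [WellFoundedLT X] {pred : X → Set X}

lemma card_le_of_strictMonoOn {β : Ordinal.{0}} (φ : Ordinal.{0} → X)
    (hφ : StrictMonoOn φ (Set.Iio β)) : β.card ≤ #X := by
  rw [← Cardinal.mk_toType β]
  refine Cardinal.mk_le_of_injective (f := fun i : β.ToType => φ (ToType.toOrd i : Ordinal.{0})) ?_
  intro i j hij
  have h1 := hφ.injOn (ToType.toOrd i).2 (ToType.toOrd j).2 hij
  have h2 : ToType.toOrd i = ToType.toOrd j := Subtype.ext h1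
  exact ToType.mk.symm.injective h2

lemma omega0_le_type_of_infinite {J : Set ℕ} (hJ : ∀ i, ∃ j, i ≤ j ∧ j ∈ J) :
    ω ≤ typeLT J := by
  have hinf : J.Infinite := Set.infinite_of_forall_exists_gt (fun i => by
    obtain ⟨j, h1, h2⟩ := hJ (i + 1)
    exact ⟨j, h2, by omega⟩)
  have h1 : ℵ₀ ≤ #J := by
    rw [Cardinal.aleph0_le_mk_iff]
    exact hinf.to_subtype
  calc ω = Cardinal.ord ℵ₀ := Cardinal.ord_aleph0.symm
    _ ≤ Cardinal.ord #J := Cardinal.ord_le_ord.2 h1
    _ ≤ typeLT J := Cardinal.ord_le_type _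

/-- powers of `ω` -/
theorem pp_opow (hT : TreeOrd pred) (γ : Ordinal.{0}) : 1 ≤ γ → ∀ φ : Ordinal.{0} → X,
    StrictMonoOn φ (Set.Iio (ω ^ γ)) →
    PP pred ℵ₀ #X (IsPath pred) (φ '' Set.Iio (ω ^ γ)) (ω ^ γ) := by
  have hAdm : ∀ R : Set X, IsPath pred R → #R < ℵ₀ := fun R hR =>
    Cardinal.lt_aleph0_iff_finite.2 hR.1.to_subtype
  induction γ using WellFoundedLT.induction with
  | ind γ ih =>
  intro hγ φ hφ
  have hω : (0 : Ordinal.{0}) < ω := Ordinal.omega0_pos
  have hkap : ℵ₀ ≤ #X := by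
    refine le_trans ?_ (card_le_of_strictMonoOn φ hφ)
    rw [Ordinal.aleph0_le_card]
    calc ω = ω ^ (1 : Ordinal.{0}) := (Ordinal.opow_one _).symm
      _ ≤ ω ^ γ := Ordinal.opow_le_opow_right hω hγ
  rcases Ordinal.zero_or_succ_or_isSuccLimit γ with h0 | ⟨γ', hγ'⟩ | hlim
  · subst h0
    exact absurd hγ (not_le.2 zero_lt_one)
  · have hγ'' : γ = γ' + 1 := by rw [← hγ']; exact (Order.succ_eq_add_one γ')
    subst hγ''
    rcases eq_or_ne γ' 0 with rfl | hne
    · -- base
      rw [zero_add, Ordinal.opow_one] at hφ ⊢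
      have hmem : ∀ n : ℕ, (n : Ordinal.{0}) ∈ Set.Iio ω := fun n => Ordinal.natCast_lt_omega0 n
      have hinj : Function.Injective (fun n : ℕ => φ (n : Ordinal.{0})) := by
        intro a b hab
        exact_mod_cast hφ.injOn (hmem a) (hmem b) hab
      refine PP.base hT.irr le_rfl hAdm (isPath_insert hT) (I := ℕ) ?_ (rootProp_path hT ℕ)
        (fun n : ℕ => φ (n : Ordinal.{0})) ?_ _ _ ?_
      · rw [Cardinal.mk_nat]; exact hkap
      · intro R hR i
        have hfin : {j : ℕ | φ (j : Ordinal.{0}) ∈ R}.Finite := by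
          refine Set.Finite.preimage (hinj.injOn) hR.1
        obtain ⟨b, hb⟩ := hfin.bddAbove
        refine ⟨max i (b + 1), le_max_left _ _, ?_⟩
        intro j hj hjR
        have h1 : j ≤ b := hb hjR
        have h2 : b + 1 ≤ j := (le_max_right _ _).trans hj
        omega
      · intro A hA
        have hJ := omega0_le_type_of_infinite (J := {j : ℕ | φ (j : Ordinal.{0}) ∈ A}) hA
        refine hJ.trans ?_
        rw [Ordinal.type_le_iff']
        refine ⟨RelEmbedding.ofMonotone (fun j => (⟨φ ((j : ℕ) : Ordinal.{0}),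
          ⟨_, hmem _, rfl⟩, j.2⟩ : ↑(φ '' Set.Iio ω ∩ A))) ?_⟩
        intro a b hab
        have h3 : (a : ℕ) < b := hab
        have h4 : (((a : ℕ) : Ordinal.{0})) < ((b : ℕ) : Ordinal.{0}) := by exact_mod_cast h3
        exact hφ (hmem _) (hmem _) h4
    · -- successor step
      have hγ1 : 1 ≤ γ' := Ordinal.one_le_iff_ne_zero.2 hne
      have hlt : γ' < γ' + 1 := Order.lt_add_one_iff.2 le_rfl
      have hpow : ω ^ (γ' + 1) = ω ^ γ' * ω := by rw [Ordinal.opow_add, Ordinal.opow_one]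
      have hin : ∀ n : ℕ, ∀ ξ < ω ^ γ', ω ^ γ' * n + ξ < ω ^ (γ' + 1) := by
        intro n ξ hξ
        rw [hpow]
        calc ω ^ γ' * n + ξ < ω ^ γ' * n + ω ^ γ' := (add_lt_add_iff_left _).2 hξ
          _ = ω ^ γ' * ((n : Ordinal.{0}) + 1) := by rw [mul_add_one]
          _ ≤ ω ^ γ' * ω := mul_le_mul_right (Order.add_one_le_of_lt (Ordinal.natCast_lt_omega0 n)) _
      have hblk : ∀ m n : ℕ, m < n → ∀ ξ < ω ^ γ', ∀ ζ, ω ^ γ' * m + ξ < ω ^ γ' * n + ζ := by
        intro m n hmn ξ hξ ζ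
        calc ω ^ γ' * m + ξ < ω ^ γ' * m + ω ^ γ' := (add_lt_add_iff_left _).2 hξ
          _ = ω ^ γ' * ((m : Ordinal.{0}) + 1) := by rw [mul_add_one]
          _ ≤ ω ^ γ' * n := mul_le_mul_right (by exact_mod_cast hmn) _
          _ ≤ _ := le_self_add
      refine PP.step hkap le_rfl hAdm (I := ℕ) (by rw [Cardinal.mk_nat]; exact hkap)
        (rootProp_path hT ℕ)
        (fun n : ℕ => (fun ξ => φ (ω ^ γ' * n + ξ)) '' Set.Iio (ω ^ γ')) (fun _ => ω ^ γ')
        ?_ _ _ ?_
      · intro n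
        apply ih γ' hlt hγ1
        intro a ha b hb hab
        exact hφ (hin n a ha) (hin n b hb) ((add_lt_add_iff_left _).2 hab)
      · intro A hA
        rw [hpow]
        let J : Set ℕ := {n | ω ^ γ' ≤ typeLT (((fun ξ => φ (ω ^ γ' * n + ξ)) '' Set.Iio (ω ^ γ')) ∩ A : Set X)}
        have hJ : ω ≤ typeLT J := omega0_le_type_of_infinite hA
        refine (mul_le_mul_right hJ _).trans ?_
        rw [← hpow]
        refine type_mul_le (ι := J) (fun n => (((fun ξ => φ (ω ^ γ' * (n : ℕ) + ξ)) ''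
          Set.Iio (ω ^ γ')) ∩ A : Set X)) _ ?_ ?_ _ (fun n => n.2)
        · intro i j hij a ha b hb
          obtain ⟨⟨ξ, hξ, rfl⟩, _⟩ := ha
          obtain ⟨⟨ζ, hζ, rfl⟩, _⟩ := hb
          exact hφ (hin _ _ hξ) (hin _ _ hζ) (hblk _ _ hij ξ hξ ζ)
        · rintro i a ⟨⟨ξ, hξ, rfl⟩, ha⟩
          exact ⟨⟨_, hin _ _ hξ, rfl⟩, ha⟩
  · -- limit step
    have hle : γ ≤ ω ^ γ := Ordinal.right_le_opow γ Ordinal.one_lt_omega0
    have hinc : ∀ i : γ.ToType, ((ToType.toOrd i : Ordinal.{0})) + 1 < γ := fun i =>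
      hlim.succ_lt (ToType.toOrd i).2
    refine PP.step hkap le_rfl hAdm (I := γ.ToType) ?_ (rootProp_path hT γ.ToType)
      (fun i => φ '' Set.Iio (ω ^ ((ToType.toOrd i : Ordinal.{0}) + 1)))
      (fun i => ω ^ ((ToType.toOrd i : Ordinal.{0}) + 1)) ?_ _ _ ?_
    · rw [Cardinal.mk_toType]
      exact (Ordinal.card_le_card hle).trans (card_le_of_strictMonoOn φ hφ)
    · intro i
      apply ih _ (hinc i) le_add_self
      apply hφ.mono
      intro ξ hξ
      exact lt_of_lt_of_le hξ (Ordinal.opow_le_opow_right hω (hinc i).le)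
    · intro A hA
      refine le_of_forall_lt (fun δ hδ => ?_)
      obtain ⟨c, hc, hδc⟩ := (Ordinal.lt_opow_of_isSuccLimit hω.ne' hlim).1 hδ
      obtain ⟨j, hj1, hj2⟩ := hA (ToType.mk ⟨c, hc⟩)
      have h1 : c ≤ (ToType.toOrd j : Ordinal.{0}) := by
        have h2 : ToType.toOrd (ToType.mk (⟨c, hc⟩ : Set.Iio γ)) ≤ ToType.toOrd j := by
          rwa [OrderIso.le_iff_le]
        have h3 : ToType.toOrd (ToType.mk (⟨c, hc⟩ : Set.Iio γ)) = ⟨c, hc⟩ := by
          simp
        rw [h3] at h2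
        exact h2
      have h4 : ω ^ c ≤ ω ^ ((ToType.toOrd j : Ordinal.{0}) + 1) :=
        Ordinal.opow_le_opow_right hω (h1.trans le_self_add)
      refine lt_of_lt_of_le (lt_of_lt_of_le hδc h4) (hj2.trans (type_mono ?_))
      refine Set.inter_subset_inter_left _ (Set.image_mono ?_)
      intro ξ hξ
      exact lt_of_lt_of_le hξ (Ordinal.opow_le_opow_right hω (hinc j).le)

/-- all limit ordinals -/
theorem pp_limit (hT : TreeOrd pred) (β : Ordinal.{0}) : (β = 0 ∨ Order.IsSuccLimit β) →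
    ∀ φ : Ordinal.{0} → X, StrictMonoOn φ (Set.Iio β) →
    PP pred ℵ₀ #X Set.Finite (φ '' Set.Iio β) β := by
  induction β using WellFoundedLT.induction with
  | ind β ih =>
  intro hβ φ hφ
  rcases hβ with rfl | hβ
  · refine ⟨∅, Set.finite_empty, PEmpty, PEmpty.elim, by simp, fun i => i.elim, ?_⟩
    intro C _ _
    exact zero_le
  · have hβ0 : β ≠ 0 := fun h => by
      rw [h] at hβ
      exact hβ.ne_bot rfl
    have hω : (0 : Ordinal.{0}) < ω := Ordinal.omega0_pos
    have hωβ : ω ≤ β := Ordinal.omega0_le_of_isSuccLimit hβ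
    let γ := Ordinal.log ω β
    have h1 : ω ^ γ ≤ β := Ordinal.opow_log_le_self ω hβ0
    have h2 : β < ω ^ (γ + 1) := by
      have := Ordinal.lt_opow_succ_log_self Ordinal.one_lt_omega0 β
      rwa [Order.succ_eq_add_one] at this
    have hγ1 : 1 ≤ γ := by
      rw [Ordinal.one_le_iff_ne_zero]
      intro h0
      rw [h0, zero_add, Ordinal.opow_one] at h2
      exact absurd hωβ (not_le.2 h2)
    have hkap : ℵ₀ ≤ #X := by
      refine le_trans ?_ (card_le_of_strictMonoOn φ hφ)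
      rw [Ordinal.aleph0_le_card]
      exact hωβ
    obtain ⟨δ, hδ⟩ : ∃ δ, β = ω ^ γ + δ := ⟨β - ω ^ γ, (Ordinal.add_sub_cancel_of_le h1).symm⟩
    have hδlt : δ < β := by
      have hle : δ ≤ β := by rw [hδ]; exact le_add_self
      refine lt_of_le_of_ne hle ?_
      intro he
      have h3 : ω ^ γ + β = β := by
        conv_rhs => rw [hδ]
        rw [he]
      have h4 := Ordinal.add_eq_right_iff_mul_omega0_le.1 h3
      rw [Ordinal.opow_add, Ordinal.opow_one] at h2
      exact absurd h4 (not_le.2 h2)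
    have hδ' : δ = 0 ∨ Order.IsSuccLimit δ := by
      rcases Ordinal.zero_or_succ_or_isSuccLimit δ with h0 | ⟨ε, hε⟩ | hlim
      · exact Or.inl h0
      · exfalso
        have h3 : β = Order.succ (ω ^ γ + ε) := by
          rw [hδ, ← hε, Ordinal.add_succ]
        rw [h3] at hβ
        exact Order.not_isSuccLimit_succ _ hβ
      · exact Or.inr hlim
    have hin : ∀ ξ < δ, ω ^ γ + ξ < β := by
      intro ξ hξ
      rw [hδ]
      exact (add_lt_add_iff_left _).2 hξ
    have hP1 := (pp_opow hT γ hγ1 φ (hφ.mono (fun ξ hξ => lt_of_lt_of_le hξ h1))).adm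
      (Adm' := Set.Finite) (fun R hR => hR.1)
    have hP2 := ih δ hδlt hδ' (fun ξ => φ (ω ^ γ + ξ)) (by
      intro a ha b hb hab
      exact hφ (hin a ha) (hin b hb) ((add_lt_add_iff_left _).2 hab))
    have hadd := PP.add hkap (fun R₁ R₂ h h' => h.union h') (S := φ '' Set.Iio β) hP1 hP2 ?_ ?_ ?_
    · rwa [← hδ] at hadd
    · rintro _ ⟨a, ha, rfl⟩ _ ⟨b, hb, rfl⟩
      exact hφ (lt_of_lt_of_le ha h1) (hin b hb) (lt_of_lt_of_le ha le_self_add)
    · exact Set.image_mono (fun ξ hξ => lt_of_lt_of_le hξ h1)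
    · rintro _ ⟨b, hb, rfl⟩
      exact ⟨_, hin b hb, rfl⟩

end Main

/-- From `PP` to independent sets. -/
theorem exists_indep {α : Ordinal.{0}} {lam kap : Cardinal.{0}} (hlam : ℵ₀ ≤ lam)
    (hgen : Gen α.ToType lam kap) (pred : α.ToType → Set α.ToType) {Adm : Set α.ToType → Prop}
    (hAdm : ∀ R, Adm R → #R < lam) (S : Set α.ToType) (h : PP pred lam kap Adm S α) :
    ∃ A : Set α.ToType, (∀ x ∈ A, ∀ y ∈ A, x ∉ pred y) ∧ typeLT A = α := by
  obtain ⟨R, hR, ι, D, h1, h2, h3⟩ := h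
  obtain ⟨C, hC1, hC2⟩ := hgen.rel hlam D h1 h2 R (hAdm R hR)
  refine ⟨AA pred C, ?_, ?_⟩
  · intro x hx y hy hxy
    exact hy.2 x hxy hx.1
  · apply le_antisymm
    · calc typeLT (AA pred C) ≤ typeLT (Set.univ : Set α.ToType) := type_mono (Set.subset_univ _)
        _ = α := by
          conv_rhs => rw [← Ordinal.type_toType α]
          exact Ordinal.type_eq.2 ⟨⟨Equiv.Set.univ _, Iff.rfl⟩⟩
    · exact (h3 C hC2 hC1).trans (type_mono Set.inter_subset_right)

/-- Every generic hypothesis for finite conditions follows from a covering hypothesis. -/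
theorem gen_of_cover {X : Type} {kap : Cardinal.{0}}
    (hcov : ∀ (ι : Type) (U : ι → Set (X → Bool)), #ι ≤ kap → (∀ i, IsOpen (U i)) →
      (∀ i, Dense (U i)) → (⋂ i, U i).Nonempty) : Gen X ℵ₀ kap := by
  classical
  intro ι D hι hD
  obtain ⟨c, hc⟩ := hcov ι (fun i => {c | ∃ O Z : Set X, #O < ℵ₀ ∧ #Z < ℵ₀ ∧ D i O Z ∧
    (∀ x ∈ O, c x = true) ∧ ∀ x ∈ Z, c x = false}) hι (by
      intro i
      have h1 : {c : X → Bool | ∃ O Z : Set X, #O < ℵ₀ ∧ #Z < ℵ₀ ∧ D i O Z ∧
          (∀ x ∈ O, c x = true) ∧ ∀ x ∈ Z, c x = false} =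
          ⋃ (O : Set X) (Z : Set X) (_ : #O < ℵ₀ ∧ #Z < ℵ₀ ∧ D i O Z),
            ((⋂ x ∈ O, {c : X → Bool | c x = true}) ∩ ⋂ x ∈ Z, {c : X → Bool | c x = false}) := by
        ext c
        simp only [Set.mem_ofPred_eq, Set.mem_iUnion, Set.mem_inter_iff, Set.mem_iInter,
          exists_prop]
        constructor
        · rintro ⟨O, Z, h1, h2, h3, h4, h5⟩
          exact ⟨O, Z, ⟨h1, h2, h3⟩, h4, h5⟩
        · rintro ⟨O, Z, ⟨h1, h2, h3⟩, h4, h5⟩
          exact ⟨O, Z, h1, h2, h3, h4, h5⟩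
      rw [h1]
      refine isOpen_iUnion fun O => isOpen_iUnion fun Z => isOpen_iUnion fun h => ?_
      have hb : ∀ (x : X) (b : Bool), IsOpen {c : X → Bool | c x = b} := fun x b => by
        have h2 : Continuous (fun c : X → Bool => c x) := continuous_apply x
        exact (isOpen_discrete ({b} : Set Bool)).preimage h2
      exact ((finite_of_lt h.1).isOpen_biInter fun x _ => hb x true).inter
        ((finite_of_lt h.2.1).isOpen_biInter fun x _ => hb x false)) (by
      intro i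
      rw [dense_iff_inter_open]
      rintro V hV ⟨c, hcV⟩
      obtain ⟨F, u, h1, h2⟩ := isOpen_pi_iff.1 hV c hcV
      obtain ⟨O', Z', h3, h4, h5, h6, h7, h8⟩ := hD i {x | x ∈ F ∧ c x = true}
        {x | x ∈ F ∧ c x = false} (Cardinal.lt_aleph0_iff_finite.2
          (F.finite_toSet.subset (fun x hx => hx.1)).to_subtype)
        (Cardinal.lt_aleph0_iff_finite.2
          (F.finite_toSet.subset (fun x hx => hx.1)).to_subtype) (by
          rw [Set.disjoint_left]
          rintro x ⟨_, hx⟩ ⟨_, hx'⟩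
          rw [hx] at hx'
          exact absurd hx' (by decide))
      rw [Set.disjoint_left] at h7
      refine ⟨fun x => decide (x ∈ O'), h2 ?_, O', Z', h3, h4, h8, ?_, ?_⟩
      · intro x hx
        have h9 : decide (x ∈ O') = c x := by
          cases hcx : c x with
          | true => exact decide_eq_true (h5 ⟨hx, hcx⟩)
          | false => exact decide_eq_false (fun h => h7 h (h6 ⟨hx, hcx⟩))
        beta_reduce
        rw [h9]
        exact (h1 x hx).2
      · intro x hx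
        exact decide_eq_true hx
      · intro x hx
        exact decide_eq_false (fun h => h7 h hx))
  refine ⟨{x | c x = true}, ?_⟩
  intro i
  obtain ⟨O, Z, _, _, h3, h4, h5⟩ := Set.mem_iInter.1 hc i
  refine ⟨O, Z, h3, h4, ?_⟩
  rw [Set.disjoint_left]
  intro x hx hx'
  have h6 : c x = true := hx'
  rw [h5 x hx] at h6
  exact absurd h6 (by decide)

end Pool.Agent.TH764.OG
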