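import Mathlib
import Pool.Agent.TH764.OG.Frame

/-!
# Generic sets and large antichains: general properties of the antichain
-/

set_option autoImplicit false

namespace Pool.Agent.TH764.OG

open Set Cardinal Ordinal

section PQsec

variable {X : Type} (pred : X → Set X) (lam kap : Cardinal.{0}) (Adm : Set X → Prop)

/-- There is an admissible root set `R` such that every sufficiently generic set `C` disjoint from
`R` satisfies `Q (AA pred C)`. -/
def PQ (Q : Set X → Prop) : Prop :=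
  ∃ R : Set X, Adm R ∧ ∃ (ι : Type) (D : ι → Set X → Set X → Prop), #ι ≤ kap ∧
    (∀ i, DenseC lam (D i)) ∧
    ∀ C : Set X, (∀ i, Meets (D i) C) → Disjoint R C → Q (AA pred C)

variable {pred lam kap Adm}

lemma PQ.step (hkap : ℵ₀ ≤ kap) (hlam : ℵ₀ ≤ lam) (hAdm : ∀ R, Adm R → #R < lam)
    {I : Type} [LinearOrder I] (hI : #I ≤ kap) (hroot : RootProp lam Adm I)
    (Qf : I → Set X → Prop) (h : ∀ i, PQ pred lam kap Adm (Qf i)) :
    PQ pred lam kap Adm (fun A => ∀ i, ∃ j, i ≤ j ∧ Qf j A) := by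
  choose R hR ι D hι hD hC using h
  obtain ⟨R', hR', hR''⟩ := hroot R hR
  refine ⟨R', hR', (Σ i, ι i) ⊕ I, fun p => match p with
    | Sum.inl q => D q.1 q.2
    | Sum.inr i => fun O Z => ¬ Disjoint R' O ∨ ∃ j, i ≤ j ∧ R j ⊆ Z, ?_, ?_, ?_⟩
  · rw [Cardinal.mk_sum, Cardinal.lift_id, Cardinal.lift_id, Cardinal.mk_sigma]
    refine (add_le_add ((Cardinal.sum_le_sum _ _ hι).trans ?_) hI).trans
      (Cardinal.add_eq_self hkap).le
    rw [Cardinal.sum_const, Cardinal.lift_id, Cardinal.lift_id]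
    exact (mul_le_mul' hI le_rfl).trans (Cardinal.mul_eq_self hkap).le
  · rintro (⟨i, j⟩ | i)
    · exact hD i j
    · intro O Z hO hZ hOZ
      by_cases hd : Disjoint R' O
      · obtain ⟨j, hij, hj⟩ := hR'' O hO hd.symm i
        refine ⟨O, Z ∪ R j, hO, mk_union_lt hlam hZ (hAdm _ (hR j)), subset_rfl,
          Set.subset_union_left, ?_, Or.inr ⟨j, hij, Set.subset_union_right⟩⟩
        rw [Set.disjoint_union_right]
        exact ⟨hOZ, hj.symm⟩
      · exact ⟨O, Z, hO, hZ, subset_rfl, subset_rfl, hOZ, Or.inl hd⟩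
  · intro C hmeet hdis i
    obtain ⟨O, Z, h1, h2, h3⟩ := hmeet (Sum.inr i)
    rcases h1 with h1 | ⟨j, hij, hj⟩
    · exact absurd (hdis.mono_right h2) h1
    · refine ⟨j, hij, hC j C (fun k => hmeet (Sum.inl ⟨j, k⟩)) (h3.mono_left hj)⟩

lemma PQ.base (hpred : ∀ x, x ∉ pred x) (hlam : ℵ₀ ≤ lam)
    (hAdm : ∀ R, Adm R → #R < lam) (hAdm' : ∀ x, Adm (insert x (pred x)))
    {I : Type} [LinearOrder I] (hI : #I ≤ kap) (hroot : RootProp lam Adm I)
    (x : I → X) (hx : ∀ R, Adm R → ∀ i, ∃ i', i ≤ i' ∧ ∀ j, i' ≤ j → x j ∉ R) :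
    PQ pred lam kap Adm (fun A => ∀ i, ∃ j, i ≤ j ∧ x j ∈ A) := by
  obtain ⟨R', hR', hR''⟩ := hroot (fun i => insert (x i) (pred (x i))) (fun i => hAdm' _)
  refine ⟨R', hR', I, fun i O Z => ¬ Disjoint R' O ∨ ∃ j, i ≤ j ∧ x j ∈ O ∧ pred (x j) ⊆ Z,
    hI, ?_, ?_⟩
  · intro i O Z hO hZ hOZ
    by_cases hd : Disjoint R' O
    · obtain ⟨i', hi', hx'⟩ := hx R' hR' i
      obtain ⟨j, hij, hj⟩ := hR'' ((O ∪ Z) \ R')
        (mk_sub_lt (mk_union_lt hlam hO hZ) Set.sdiff_subset) Set.disjoint_sdiff_left i'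
      rw [Set.disjoint_left] at hj hd hOZ
      have hxR : x j ∉ R' := hx' j hij
      have hxO : x j ∉ O ∪ Z := fun h => hj (Set.mem_insert _ _) ⟨h, hxR⟩
      have hfull : #(insert (x j) (pred (x j)) : Set X) < lam := hAdm _ (hAdm' _)
      refine ⟨insert (x j) O, Z ∪ pred (x j), ?_, ?_, Set.subset_insert _ _,
        Set.subset_union_left, ?_, Or.inr ⟨j, hi'.trans hij, Set.mem_insert _ _,
        Set.subset_union_right⟩⟩
      · refine lt_of_le_of_lt Cardinal.mk_insert_le (Cardinal.add_lt_of_lt hlam hO ?_)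
        exact lt_of_lt_of_le Cardinal.one_lt_aleph0 hlam
      · exact mk_union_lt hlam hZ (mk_sub_lt hfull (Set.subset_insert _ _))
      · rw [Set.disjoint_left]
        rintro y (rfl | hy) (hy2 | hy2)
        · exact hxO (Or.inr hy2)
        · exact hpred _ hy2
        · exact hOZ hy hy2
        · exact hj (Set.mem_insert_of_mem _ hy2) ⟨Or.inl hy, fun h => hd h hy⟩
    · exact ⟨O, Z, hO, hZ, subset_rfl, subset_rfl, hOZ, Or.inl hd⟩
  · intro C hmeet hdis i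
    obtain ⟨O, Z, h1, h2, h3⟩ := hmeet i
    rcases h1 with h1 | ⟨j, hij, hj1, hj2⟩
    · exact absurd (hdis.mono_right h2) h1
    · refine ⟨j, hij, h2 hj1, ?_⟩
      intro y hy
      exact Set.disjoint_left.1 h3 (hj2 hy)

lemma PQ.union {Adm' : Set X → Prop} (hkap : ℵ₀ ≤ kap) {I : Type} (hI : #I ≤ kap)
    (hun : ∀ R : I → Set X, (∀ i, Adm (R i)) → Adm' (⋃ i, R i))
    (Qf : I → Set X → Prop) (h : ∀ i, PQ pred lam kap Adm (Qf i)) :
    PQ pred lam kap Adm' (fun A => ∀ i, Qf i A) := by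
  choose R hR ι D hι hD hC using h
  refine ⟨⋃ i, R i, hun R hR, Σ i, ι i, fun q => D q.1 q.2, ?_, ?_, ?_⟩
  · rw [Cardinal.mk_sigma]
    refine (Cardinal.sum_le_sum _ _ hι).trans ?_
    rw [Cardinal.sum_const, Cardinal.lift_id, Cardinal.lift_id]
    exact (mul_le_mul' hI le_rfl).trans (Cardinal.mul_eq_self hkap).le
  · rintro ⟨i, j⟩
    exact hD i j
  · intro C hmeet hdis i
    exact hC i C (fun k => hmeet ⟨i, k⟩) (hdis.mono_left (Set.subset_iUnion R i))

lemma PQ.imp {Q Q' : Set X → Prop} (h : PQ pred lam kap Adm Q) (hQ : ∀ A, Q A → Q' A) :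
    PQ pred lam kap Adm Q' := by
  obtain ⟨R, hR, ι, D, h1, h2, h3⟩ := h
  exact ⟨R, hR, ι, D, h1, h2, fun C hC hd => hQ _ (h3 C hC hd)⟩

lemma PQ.adm {Adm' : Set X → Prop} {Q : Set X → Prop}
    (h : PQ pred lam kap Adm Q) (hA : ∀ R, Adm R → Adm' R) : PQ pred lam kap Adm' Q := by
  obtain ⟨R, hR, h'⟩ := h
  exact ⟨R, hA R hR, h'⟩

end PQsec

/-! ### Generic sets for conditions of size `< κ` -/

section GenReg

variable {κ : Cardinal.{0}}

lemma bdd_of_lt (hκ : κ.IsRegular) {M : Type} (hM : #M < κ) (f : M → κ.ord.ToType) :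
    ∃ e, ∀ m, f m < e := by
  let g : M → Ordinal.{0} := fun m => ((ToType.mk.symm (f m) : Set.Iio κ.ord) : Ordinal.{0})
  have hg : ∀ m, g m < κ.ord := fun m => (ToType.mk.symm (f m) : Set.Iio κ.ord).2
  have hlim := Cardinal.isSuccLimit_ord hκ.aleph0_le
  have hsup : (⨆ m, Order.succ (g m)) < κ.ord := by
    refine Ordinal.iSup_lt_of_lt_cof ?_ (fun m => hlim.succ_lt (hg m))
    rw [hκ.cof_ord]; exact hM
  refine ⟨ToType.mk ⟨_, hsup⟩, fun m => ?_⟩
  rw [← OrderIso.symm_apply_apply (ToType.mk (o := κ.ord)).symm (f m)]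
  simp only [OrderIso.symm_symm]
  rw [OrderIso.lt_iff_lt, ← Subtype.coe_lt_coe]
  exact lt_of_lt_of_le (Order.lt_succ (g m)) (Ordinal.le_iSup (fun m => Order.succ (g m)) m)

lemma mk_Iio_lt' (i : κ.ord.ToType) : #(Set.Iio i) < κ := by
  have := Cardinal.mk_Iio_lt i (by simp)
  rwa [Cardinal.mk_ord_toType] at this

lemma iUnion_lt (hκ : κ.IsRegular) {ι X : Type} (hι : #ι < κ) (t : ι → Set X)
    (ht : ∀ i, #(t i) < κ) : #(⋃ i, t i : Set X) < κ :=
  (Cardinal.card_iUnion_lt_iff_forall_of_isRegular hκ hι).2 ht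

/-- Recursion of length `κ`. -/
theorem gen_regular (hκ : κ.IsRegular) (X : Type) : Gen X κ κ := by
  classical
  intro ι D hι hD
  have hι' : #ι ≤ #κ.ord.ToType := by rwa [Cardinal.mk_ord_toType]
  obtain ⟨e⟩ := (Cardinal.le_def _ _).1 hι'
  -- the dense set treated at stage `i`
  let E : κ.ord.ToType → Set X → Set X → Prop := fun i =>
    if h : ∃ j, e j = i then D h.choose else fun _ _ => True
  have hE : ∀ i, DenseC κ (E i) := by
    intro i
    by_cases h : ∃ j, e j = i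
    · simp only [E, dif_pos h]
      exact hD _
    · simp only [E, dif_neg h]
      intro O Z hO hZ hOZ
      exact ⟨O, Z, hO, hZ, subset_rfl, subset_rfl, hOZ, trivial⟩
  have hEj : ∀ j, E (e j) = D j := by
    intro j
    have h : ∃ k, e k = e j := ⟨j, rfl⟩
    simp only [E, dif_pos h]
    rw [e.injective h.choose_spec]
  -- one step
  have hstep : ∀ (i : κ.ord.ToType) (p : Set X × Set X), ∃ q : Set X × Set X,
      #p.1 < κ → #p.2 < κ → Disjoint p.1 p.2 →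
      #q.1 < κ ∧ #q.2 < κ ∧ p.1 ⊆ q.1 ∧ p.2 ⊆ q.2 ∧ Disjoint q.1 q.2 ∧ E i q.1 q.2 := by
    intro i p
    by_cases h : #p.1 < κ ∧ #p.2 < κ ∧ Disjoint p.1 p.2
    · obtain ⟨O', Z', h'⟩ := hE i p.1 p.2 h.1 h.2.1 h.2.2
      exact ⟨(O', Z'), fun _ _ _ => h'⟩
    · exact ⟨p, fun h1 h2 h3 => absurd ⟨h1, h2, h3⟩ h⟩
  choose st hst using hstep
  let F : (i : κ.ord.ToType) → ((j : κ.ord.ToType) → j < i → Set X × Set X) → Set X × Set X :=
    fun i f => st i (⋃ j : Set.Iio i, (f j.1 j.2).1, ⋃ j : Set.Iio i, (f j.1 j.2).2)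
  let P : κ.ord.ToType → Set X × Set X := WellFounded.fix (wellFounded_lt (α := κ.ord.ToType)) F
  have hP : ∀ i, P i = st i (⋃ j : Set.Iio i, (P j.1).1, ⋃ j : Set.Iio i, (P j.1).2) := by
    intro i
    exact WellFounded.fix_eq _ _ _
  have main : ∀ i, #(P i).1 < κ ∧ #(P i).2 < κ ∧ Disjoint (P i).1 (P i).2 ∧
      (∀ j < i, (P j).1 ⊆ (P i).1 ∧ (P j).2 ⊆ (P i).2) ∧ E i (P i).1 (P i).2 := by
    intro i
    induction i using WellFoundedLT.induction with
    | ind i ih =>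
    have h1 : #(⋃ j : Set.Iio i, (P j.1).1 : Set X) < κ :=
      iUnion_lt hκ (mk_Iio_lt' i) _ (fun j => (ih j.1 j.2).1)
    have h2 : #(⋃ j : Set.Iio i, (P j.1).2 : Set X) < κ :=
      iUnion_lt hκ (mk_Iio_lt' i) _ (fun j => (ih j.1 j.2).2.1)
    have h3 : Disjoint (⋃ j : Set.Iio i, (P j.1).1) (⋃ j : Set.Iio i, (P j.1).2) := by
      rw [Set.disjoint_left]
      intro x hx hx'
      obtain ⟨⟨j, hj⟩, hx⟩ := Set.mem_iUnion.1 hx
      obtain ⟨⟨k, hk⟩, hx'⟩ := Set.mem_iUnion.1 hx'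
      rcases lt_trichotomy j k with h | h | h
      · exact Set.disjoint_left.1 (ih k hk).2.2.1 (((ih k hk).2.2.2.1 j h).1 hx) hx'
      · subst h
        exact Set.disjoint_left.1 (ih j hj).2.2.1 hx hx'
      · exact Set.disjoint_left.1 (ih j hj).2.2.1 hx (((ih j hj).2.2.2.1 k h).2 hx')
    have h4 := hst i (⋃ j : Set.Iio i, (P j.1).1, ⋃ j : Set.Iio i, (P j.1).2) h1 h2 h3
    rw [← hP i] at h4
    refine ⟨h4.1, h4.2.1, h4.2.2.2.2.1, ?_, h4.2.2.2.2.2⟩
    intro j hj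
    exact ⟨(Set.subset_iUnion (fun k : Set.Iio i => (P k.1).1) ⟨j, hj⟩).trans h4.2.2.1,
      (Set.subset_iUnion (fun k : Set.Iio i => (P k.1).2) ⟨j, hj⟩).trans h4.2.2.2.1⟩
  refine ⟨⋃ i, (P i).1, ?_⟩
  intro j
  refine ⟨(P (e j)).1, (P (e j)).2, ?_, Set.subset_iUnion (fun i => (P i).1) (e j), ?_⟩
  · have h := (main (e j)).2.2.2.2
    rwa [hEj j] at h
  · rw [Set.disjoint_left]
    intro x hx hx'
    obtain ⟨k, hk⟩ := Set.mem_iUnion.1 hx'
    rcases lt_trichotomy k (e j) with h | h | h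
    · exact Set.disjoint_left.1 (main (e j)).2.2.1 (((main (e j)).2.2.2.1 k h).1 hk) hx
    · subst h
      exact Set.disjoint_left.1 (main (e j)).2.2.1 hk hx
    · exact Set.disjoint_left.1 (main k).2.2.1 hk (((main k).2.2.2.1 (e j) h).2 hx)

end GenReg

end Pool.Agent.TH764.OG
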