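import Mathlib
import Pool.Agent.TH764.OG.Frame2

/-!
# Multiples of a regular cardinal: large antichains from sets generic for small conditions
-/

set_option autoImplicit false

namespace Pool.Agent.TH764.OG

open Set Cardinal Ordinal

variable {κ θ : Cardinal.{0}}

/-! ### Counting and the root property -/

lemma exists_Iio {θ : Cardinal.{0}} (hθ : θ.IsRegular) {M : Type} (hM : #M < θ) :
    ∃ e : θ.ord.ToType, #M ≤ #(Set.Iio e) := by
  have h1 : #M ≤ #θ.ord.ToType := by rw [Cardinal.mk_ord_toType]; exact hM.le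
  obtain ⟨f⟩ := (Cardinal.le_def _ _).1 h1
  obtain ⟨e, he⟩ := bdd_of_lt hθ hM f
  exact ⟨e, Cardinal.mk_le_of_injective (f := fun m => (⟨f m, he m⟩ : Set.Iio e))
    (fun a b hab => f.injective (congrArg Subtype.val hab))⟩

lemma count_small (hκ : κ.IsRegular) (hθ : θ.IsRegular) (hθκ : θ < κ)
    (hpow : ∀ l < κ, ∀ m < θ, l ^ m < κ) {X : Type} (N : Set X) (hN : #N < κ) :
    #{R : Set X // R ⊆ N ∧ #R < θ} < κ := by
  have h1 : ({R : Set X | R ⊆ N ∧ #R < θ} : Set (Set X)) ⊆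
      ⋃ e : θ.ord.ToType, {R : Set X | R ⊆ N ∧ #R ≤ #(Set.Iio e)} := by
    intro R hR
    obtain ⟨e, he⟩ := exists_Iio hθ hR.2
    exact Set.mem_iUnion.2 ⟨e, hR.1, he⟩
  have h2 : #(⋃ e : θ.ord.ToType, {R : Set X | R ⊆ N ∧ #R ≤ #(Set.Iio e)} : Set (Set X)) < κ := by
    refine iUnion_lt hκ (by rw [Cardinal.mk_ord_toType]; exact hθκ) _ ?_
    intro e
    refine lt_of_le_of_lt (Cardinal.mk_bounded_subset_le N #(Set.Iio e)) ?_
    exact hpow _ (max_lt hN (lt_of_le_of_lt hθ.aleph0_le hθκ)) _ (mk_Iio_lt' e)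
  exact lt_of_le_of_lt (Cardinal.mk_le_mk_of_subset h1) h2

theorem rootProp_reg (hκ : κ.IsRegular) (hθ : θ.IsRegular) (hθκ : θ < κ)
    (hpow : ∀ l < κ, ∀ m < θ, l ^ m < κ) (X : Type) :
    RootProp κ (fun R : Set X => #R < θ) κ.ord.ToType := by
  classical
  intro R hR
  by_contra hcon
  have h1 : ∀ R' : Set X, ∃ (D : Set X) (i : κ.ord.ToType), #R' < θ → #D < κ ∧ Disjoint D R' ∧
      ∀ j, i ≤ j → ¬ Disjoint (R j) D := by
    intro R'
    by_contra h2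
    push Not at h2
    apply hcon
    have hne : Nonempty κ.ord.ToType := by
      rw [← Cardinal.mk_ne_zero_iff, Cardinal.mk_ord_toType]
      exact (Cardinal.aleph0_pos.trans_le hκ.aleph0_le).ne'
    refine ⟨R', (h2 ∅ hne.some).1, ?_⟩
    intro D hD hdis i
    exact (h2 D i).2 hD hdis
  choose D b hDb using h1
  let F : (i : θ.ord.ToType) → ((j : θ.ord.ToType) → j < i → Set X) → Set X :=
    fun i f => ⋃ j : Set.Iio i, (f j.1 j.2 ∪
      ⋃ R' : {R' : Set X // R' ⊆ f j.1 j.2 ∧ #R' < θ}, D R'.1)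
  let N : θ.ord.ToType → Set X := WellFounded.fix (wellFounded_lt (α := θ.ord.ToType)) F
  have hN : ∀ i, N i = ⋃ j : Set.Iio i, (N j.1 ∪
      ⋃ R' : {R' : Set X // R' ⊆ N j.1 ∧ #R' < θ}, D R'.1) := by
    intro i
    exact WellFounded.fix_eq _ _ _
  have hNlt : ∀ i, #(N i) < κ := by
    intro i
    induction i using WellFoundedLT.induction with
    | ind i ih =>
    rw [hN i]
    refine iUnion_lt hκ ((mk_Iio_lt' i).trans hθκ) _ ?_
    rintro ⟨j, hj⟩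
    refine mk_union_lt hκ.aleph0_le (ih j hj) ?_
    refine iUnion_lt hκ (count_small hκ hθ hθκ hpow _ (ih j hj)) _ ?_
    rintro ⟨R', hR'⟩
    exact (hDb R' hR'.2).1
  have hmono : ∀ i j, j < i → N j ⊆ N i := by
    intro i j hj x hx
    rw [hN i]
    exact Set.mem_iUnion.2 ⟨⟨j, hj⟩, Or.inl hx⟩
  have hcl : ∀ i j, j < i → ∀ R' ⊆ N j, #R' < θ → D R' ⊆ N i := by
    intro i j hj R' hR' hR'' x hx
    rw [hN i]
    exact Set.mem_iUnion.2 ⟨⟨j, hj⟩, Or.inr (Set.mem_iUnion.2 ⟨⟨R', hR', hR''⟩, hx⟩)⟩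
  have hNt : #(⋃ i, N i : Set X) < κ :=
    iUnion_lt hκ (by rw [Cardinal.mk_ord_toType]; exact hθκ) _ hNlt
  have hsmall : ∀ R' : Set X, R' ⊆ ⋃ i, N i → #R' < θ → D R' ⊆ ⋃ i, N i := by
    intro R' hR' hlt
    have h2 : ∀ x : R', ∃ i, x.1 ∈ N i := fun x => Set.mem_iUnion.1 (hR' x.2)
    choose ix hix using h2
    obtain ⟨e, he⟩ := bdd_of_lt hθ hlt ix
    obtain ⟨e', he'⟩ := bdd_of_lt hθ (M := PUnit) (by
      rw [Cardinal.mk_punit]; exact lt_of_lt_of_le Cardinal.one_lt_aleph0 hθ.aleph0_le)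
      (fun _ => e)
    refine (hcl e' e (he' PUnit.unit) R' ?_ hlt).trans (Set.subset_iUnion N e')
    intro x hx
    exact hmono e (ix ⟨x, hx⟩) (he ⟨x, hx⟩) (hix ⟨x, hx⟩)
  obtain ⟨j, hj⟩ := bdd_of_lt hκ (count_small hκ hθ hθκ hpow _ hNt) (fun R' => b R'.1)
  have h3 : #(R j ∩ ⋃ i, N i : Set X) < θ := mk_sub_lt (hR j) Set.inter_subset_left
  have h4 := hDb _ h3
  have h5 := h4.2.2 j (hj ⟨_, Set.inter_subset_right, h3⟩).le
  rw [Set.not_disjoint_iff] at h5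
  obtain ⟨x, hx1, hx2⟩ := h5
  exact Set.disjoint_left.1 h4.2.1 hx2 ⟨hx1, hsmall _ Set.inter_subset_right h3 hx2⟩

/-! ### Order types -/

lemma le_type_unbounded (hκ : κ.IsRegular) {J : Set κ.ord.ToType}
    (hJ : ∀ i, ∃ j, i ≤ j ∧ j ∈ J) : κ.ord ≤ typeLT J := by
  by_contra hcon
  rw [not_le, Cardinal.lt_ord, Ordinal.card_type] at hcon
  obtain ⟨e, he⟩ := bdd_of_lt hκ hcon (fun j : J => j.1)
  obtain ⟨j, hj1, hj2⟩ := hJ e
  exact absurd (he ⟨j, hj2⟩) (not_lt.2 hj1)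

lemma mul_add_lt_mul {B K i ξ : Ordinal.{0}} (hi : i < K) (hξ : ξ < B) : B * i + ξ < B * K := by
  calc B * i + ξ < B * i + B := (add_lt_add_iff_left _).2 hξ
    _ = B * (i + 1) := by rw [mul_add_one]
    _ ≤ B * K := mul_le_mul_right (Order.add_one_le_of_lt hi) _

lemma mul_add_lt_mul_add {B i j ξ ζ : Ordinal.{0}} (hij : i < j) (hξ : ξ < B) :
    B * i + ξ < B * j + ζ := (mul_add_lt_mul hij hξ).trans_le le_self_add

section Main

variable {X : Type} [LinearOrder X] [WellFoundedLT X] {pred : X → Set X}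

/-- growth: `κ` many blocks -/
lemma grow_blocks (hκ : κ.IsRegular) (B : Ordinal.{0}) (φ : Ordinal.{0} → X)
    (hφ : StrictMonoOn φ (Set.Iio (B * κ.ord))) (A : Set X)
    (hA : ∀ i : κ.ord.ToType, ∃ j, i ≤ j ∧
      B ≤ typeLT ((fun ξ => φ (B * (ToType.toOrd j : Ordinal.{0}) + ξ)) '' Set.Iio B ∩ A : Set X)) :
    B * κ.ord ≤ typeLT (φ '' Set.Iio (B * κ.ord) ∩ A : Set X) := by
  let J : Set κ.ord.ToType := {j | B ≤ typeLT
    ((fun ξ => φ (B * (ToType.toOrd j : Ordinal.{0}) + ξ)) '' Set.Iio B ∩ A : Set X)}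
  have hJ : κ.ord ≤ typeLT J := le_type_unbounded hκ hA
  refine (mul_le_mul_right hJ _).trans ?_
  refine type_mul_le (ι := J) (fun j => ((fun ξ => φ (B * (ToType.toOrd (j : κ.ord.ToType) :
    Ordinal.{0}) + ξ)) '' Set.Iio B ∩ A : Set X)) _ ?_ ?_ _ (fun j => j.2)
  · intro i j hij a ha b hb
    obtain ⟨⟨ξ, hξ, rfl⟩, _⟩ := ha
    obtain ⟨⟨ζ, hζ, rfl⟩, _⟩ := hb
    have h1 : (ToType.toOrd (i : κ.ord.ToType) : Ordinal.{0}) < ToType.toOrd (j : κ.ord.ToType) := by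
      have h2 : (i : κ.ord.ToType) < j := hij
      have h3 := (ToType.mk.symm (α := Set.Iio κ.ord)).lt_iff_lt.2 h2
      exact h3
    exact hφ (mul_add_lt_mul (ToType.toOrd (i : κ.ord.ToType)).2 hξ)
      (mul_add_lt_mul (ToType.toOrd (j : κ.ord.ToType)).2 hζ) (mul_add_lt_mul_add h1 hξ)
  · rintro j a ⟨⟨ξ, hξ, rfl⟩, ha⟩
    exact ⟨⟨_, mul_add_lt_mul (ToType.toOrd (j : κ.ord.ToType)).2 hξ, rfl⟩, ha⟩

end Main

end Pool.Agent.TH764.OG
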