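import Mathlib
import Pool.Agent.TH764.OG.Reg

/-!
# Multiples of a regular cardinal `κ` below `κ ^ (θ + 2)`
-/

set_option autoImplicit false

namespace Pool.Agent.TH764.OG

open Set Cardinal Ordinal

variable {κ θ : Cardinal.{0}} {X : Type} [LinearOrder X] [WellFoundedLT X] {pred : X → Set X}

lemma toOrd_lt_toOrd {o : Ordinal.{0}} {i j : o.ToType} :
    (ToType.toOrd i : Ordinal.{0}) < ToType.toOrd j ↔ i < j :=
  (ToType.mk.symm (α := Set.Iio o)).lt_iff_lt

lemma toOrd_le_toOrd {o : Ordinal.{0}} {i j : o.ToType} :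
    (ToType.toOrd i : Ordinal.{0}) ≤ ToType.toOrd j ↔ i ≤ j :=
  (ToType.mk.symm (α := Set.Iio o)).le_iff_le

/-- powers with exponent below `θ` -/
theorem pq_lt (hT : TreeOrd pred) (hκ : κ.IsRegular) (hθ : θ.IsRegular) (hθκ : θ < κ)
    (hpow : ∀ l < κ, ∀ m < θ, l ^ m < κ) (ν : Ordinal.{0}) : 1 ≤ ν → ν < θ.ord →
    ∀ φ : Ordinal.{0} → X, StrictMonoOn φ (Set.Iio (κ.ord ^ ν)) →
    PQ pred κ κ (fun R => #R < θ)
      (fun A => κ.ord ^ ν ≤ typeLT (φ '' Set.Iio (κ.ord ^ ν) ∩ A : Set X)) := by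
  have hroot := rootProp_reg hκ hθ hθκ hpow X
  have hAdm : ∀ R : Set X, #R < θ → #R < κ := fun R hR => hR.trans hθκ
  have hI : #κ.ord.ToType ≤ κ := by rw [Cardinal.mk_ord_toType]
  have hK : (0 : Ordinal.{0}) < κ.ord := by
    rw [Cardinal.ord_pos]
    exact Cardinal.aleph0_pos.trans_le hκ.aleph0_le
  have hK1 : (1 : Ordinal.{0}) < κ.ord := by
    rw [Cardinal.lt_ord, Ordinal.card_one]
    exact Cardinal.one_lt_aleph0.trans_le hκ.aleph0_le
  induction ν using WellFoundedLT.induction with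
  | ind ν ih =>
  intro hν hνθ φ hφ
  rcases Ordinal.zero_or_succ_or_isSuccLimit ν with h0 | ⟨ν', hν'⟩ | hlim
  · subst h0
    exact absurd hν (not_le.2 zero_lt_one)
  · have hν'' : ν = ν' + 1 := by rw [← hν']; exact (Order.succ_eq_add_one ν')
    subst hν''
    rcases eq_or_ne ν' 0 with rfl | hne
    · -- base
      rw [zero_add, Ordinal.opow_one] at hφ
      have hmem : ∀ i : κ.ord.ToType, (ToType.toOrd i : Ordinal.{0}) ∈ Set.Iio κ.ord :=
        fun i => (ToType.toOrd i).2
      have hinj : Function.Injective (fun i : κ.ord.ToType => φ (ToType.toOrd i : Ordinal.{0})) := by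
        intro a b hab
        exact ToType.mk.symm.injective (Subtype.ext (hφ.injOn (hmem a) (hmem b) hab))
      refine (PQ.base (Adm := fun R : Set X => #R < θ) (I := κ.ord.ToType) hT.irr hκ.aleph0_le hAdm ?_ hI hroot
        (fun i : κ.ord.ToType => φ (ToType.toOrd i : Ordinal.{0})) ?_).imp ?_
      · intro x
        exact lt_of_lt_of_le (Cardinal.lt_aleph0_iff_finite.2 ((hT.fin x).insert x).to_subtype)
          hθ.aleph0_le
      · intro R hR i
        have h1 : #{j : κ.ord.ToType // φ (ToType.toOrd j : Ordinal.{0}) ∈ R} < κ := by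
          refine lt_of_le_of_lt ?_ (hAdm R hR)
          exact Cardinal.mk_le_of_injective (f := fun j => (⟨_, j.2⟩ : R))
            (fun a b hab => Subtype.ext (hinj (congrArg Subtype.val hab)))
        obtain ⟨e, he⟩ := bdd_of_lt hκ h1 (fun j => j.1)
        refine ⟨max i e, le_max_left _ _, fun j hj hjR => ?_⟩
        exact absurd (he ⟨j, hjR⟩) (not_lt.2 ((le_max_right _ _).trans hj))
      · intro A hA
        have hJ := le_type_unbounded hκ
          (J := {j : κ.ord.ToType | φ (ToType.toOrd j : Ordinal.{0}) ∈ A}) hA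
        rw [zero_add, Ordinal.opow_one]
        refine hJ.trans ?_
        rw [Ordinal.type_le_iff']
        refine ⟨RelEmbedding.ofMonotone (fun j => (⟨φ (ToType.toOrd (j : κ.ord.ToType) : Ordinal.{0}),
          ⟨_, hmem _, rfl⟩, j.2⟩ : ↑(φ '' Set.Iio κ.ord ∩ A))) ?_⟩
        intro a b hab
        have h3 : (a : κ.ord.ToType) < b := hab
        exact hφ (hmem _) (hmem _) (toOrd_lt_toOrd.2 h3)
    · -- successor step
      have hν1 : 1 ≤ ν' := by
        rw [Order.one_le_iff_pos]
        exact pos_iff_ne_zero.2 hne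
      have hlt : ν' < ν' + 1 := Order.lt_add_one_iff.2 le_rfl
      have hpow' : κ.ord ^ (ν' + 1) = κ.ord ^ ν' * κ.ord := by
        rw [Ordinal.opow_add, Ordinal.opow_one]
      rw [hpow'] at hφ
      refine (PQ.step (Adm := fun R : Set X => #R < θ) hκ.aleph0_le hκ.aleph0_le hAdm hI hroot
        (fun (j : κ.ord.ToType) A => κ.ord ^ ν' ≤ typeLT
          ((fun ξ => φ (κ.ord ^ ν' * (ToType.toOrd j : Ordinal.{0}) + ξ)) ''
            Set.Iio (κ.ord ^ ν') ∩ A : Set X)) ?_).imp ?_
      · intro j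
        apply ih ν' hlt hν1 (hlt.trans hνθ)
        intro a ha b hb hab
        exact hφ (mul_add_lt_mul (ToType.toOrd j).2 ha) (mul_add_lt_mul (ToType.toOrd j).2 hb)
          ((add_lt_add_iff_left _).2 hab)
      · intro A hA
        rw [hpow']
        exact grow_blocks hκ _ φ hφ A hA
  · -- limit step
    have hinc : ∀ i : ν.ToType, ((ToType.toOrd i : Ordinal.{0})) + 1 < ν := fun i =>
      hlim.succ_lt (ToType.toOrd i).2
    have hcard : #ν.ToType < θ := by
      rw [Cardinal.mk_toType]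
      exact Cardinal.lt_ord.1 hνθ
    refine (PQ.union (Adm := fun R : Set X => #R < θ) (Adm' := fun R : Set X => #R < θ) hκ.aleph0_le (hcard.trans hθκ).le
      (fun R hR => iUnion_lt hθ hcard R hR)
      (fun (i : ν.ToType) A => κ.ord ^ ((ToType.toOrd i : Ordinal.{0}) + 1) ≤ typeLT
        (φ '' Set.Iio (κ.ord ^ ((ToType.toOrd i : Ordinal.{0}) + 1)) ∩ A : Set X)) ?_).imp ?_
    · intro i
      apply ih _ (hinc i) le_add_self ((hinc i).trans hνθ)
      apply hφ.mono
      intro ξ hξ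
      exact lt_of_lt_of_le hξ (Ordinal.opow_le_opow_right hK (hinc i).le)
    · intro A hA
      refine le_of_forall_lt (fun δ hδ => ?_)
      obtain ⟨c, hc, hδc⟩ := (Ordinal.lt_opow_of_isSuccLimit hK.ne' hlim).1 hδ
      have h3 : ToType.toOrd (ToType.mk (⟨c, hc⟩ : Set.Iio ν)) = ⟨c, hc⟩ := by
        simp
      have h4 := hA (ToType.mk (⟨c, hc⟩ : Set.Iio ν))
      rw [h3] at h4
      have h5 : κ.ord ^ c ≤ κ.ord ^ (c + 1) := Ordinal.opow_le_opow_right hK le_self_add
      refine lt_of_lt_of_le (lt_of_lt_of_le hδc h5) (h4.trans (type_mono ?_))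
      refine Set.inter_subset_inter_left _ (Set.image_mono ?_)
      intro ξ hξ
      exact lt_of_lt_of_le hξ (Ordinal.opow_le_opow_right hK (Order.add_one_le_of_lt hc))

end Pool.Agent.TH764.OG
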