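import Mathlib
import Pool.Agent.TH764.OG.RegMain

/-!
# Multiples of a regular cardinal `κ` below `κ ^ (θ + 2)`: the top levels
-/

set_option autoImplicit false

namespace Pool.Agent.TH764.OG

open Set Cardinal Ordinal

variable {κ θ : Cardinal.{0}} {X : Type} [LinearOrder X] [WellFoundedLT X] {pred : X → Set X}

lemma opow_le_of_forall {K T : Ordinal.{0}} (hK : 0 < K) (hT : Order.IsSuccLimit T)
    {β : Ordinal.{0}} (h : ∀ c : T.ToType, K ^ ((ToType.toOrd c : Ordinal.{0}) + 1) ≤ β) :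
    K ^ T ≤ β := by
  refine le_of_forall_lt (fun δ hδ => ?_)
  obtain ⟨c, hc, hδc⟩ := (Ordinal.lt_opow_of_isSuccLimit hK.ne' hT).1 hδ
  have h3 : ToType.toOrd (ToType.mk (⟨c, hc⟩ : Set.Iio T)) = ⟨c, hc⟩ := by
    simp
  have h4 := h (ToType.mk (⟨c, hc⟩ : Set.Iio T))
  rw [h3] at h4
  exact lt_of_lt_of_le (lt_of_lt_of_le hδc (Ordinal.opow_le_opow_right hK le_self_add)) h4

/-- exponent `θ` -/
theorem pq_T (hT : TreeOrd pred) (hκ : κ.IsRegular) (hθ : θ.IsRegular) (hθκ : θ < κ)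
    (hpow : ∀ l < κ, ∀ m < θ, l ^ m < κ)
    (φ : Ordinal.{0} → X) (hφ : StrictMonoOn φ (Set.Iio (κ.ord ^ θ.ord))) :
    PQ pred κ κ (fun R => #R < κ)
      (fun A => κ.ord ^ θ.ord ≤ typeLT (φ '' Set.Iio (κ.ord ^ θ.ord) ∩ A : Set X)) := by
  have hK : (0 : Ordinal.{0}) < κ.ord := by
    rw [Cardinal.ord_pos]
    exact Cardinal.aleph0_pos.trans_le hκ.aleph0_le
  have hlim : Order.IsSuccLimit θ.ord := Cardinal.isSuccLimit_ord hθ.aleph0_le
  have hinc : ∀ i : θ.ord.ToType, ((ToType.toOrd i : Ordinal.{0})) + 1 < θ.ord := fun i =>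
    hlim.succ_lt (ToType.toOrd i).2
  have hcard : #θ.ord.ToType < κ := by
    rw [Cardinal.mk_ord_toType]
    exact hθκ
  refine (PQ.union (Adm := fun R : Set X => #R < θ) (Adm' := fun R : Set X => #R < κ)
    hκ.aleph0_le hcard.le
    (fun R hR => iUnion_lt hκ hcard R (fun i => (hR i).trans hθκ))
    (fun (i : θ.ord.ToType) A => κ.ord ^ ((ToType.toOrd i : Ordinal.{0}) + 1) ≤ typeLT
      (φ '' Set.Iio (κ.ord ^ ((ToType.toOrd i : Ordinal.{0}) + 1)) ∩ A : Set X)) ?_).imp ?_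
  · intro i
    refine pq_lt hT hκ hθ hθκ hpow _ le_add_self (hinc i) φ (hφ.mono ?_)
    intro ξ hξ
    exact lt_of_lt_of_le hξ (Ordinal.opow_le_opow_right hK (hinc i).le)
  · intro A hA
    refine opow_le_of_forall hK hlim (fun c => (hA c).trans (type_mono ?_))
    refine Set.inter_subset_inter_left _ (Set.image_mono ?_)
    intro ξ hξ
    exact lt_of_lt_of_le hξ (Ordinal.opow_le_opow_right hK (hinc c).le)

/-- A greedy sequence. -/
lemma exists_greedy (hκ : κ.IsRegular) (F : κ.ord.ToType → κ.ord.ToType) :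
    ∃ g : κ.ord.ToType → κ.ord.ToType, ∀ ξ, ∀ η < ξ, F (g η) ≤ g ξ := by
  classical
  have h1 : ∀ (ξ : κ.ord.ToType) (f : Set.Iio ξ → κ.ord.ToType), ∃ e, ∀ m, f m < e :=
    fun ξ f => bdd_of_lt hκ (mk_Iio_lt' ξ) f
  choose b hb using h1
  let G : (ξ : κ.ord.ToType) → ((η : κ.ord.ToType) → η < ξ → κ.ord.ToType) → κ.ord.ToType :=
    fun ξ f => b ξ (fun η => F (f η.1 η.2))
  let g : κ.ord.ToType → κ.ord.ToType := WellFounded.fix (wellFounded_lt (α := κ.ord.ToType)) G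
  have hg : ∀ ξ, g ξ = b ξ (fun η => F (g η.1)) := by
    intro ξ
    exact WellFounded.fix_eq _ _ _
  refine ⟨g, fun ξ η hη => ?_⟩
  rw [hg ξ]
  exact (hb ξ (fun η => F (g η.1)) ⟨η, hη⟩).le

/-- exponent `θ + 1` -/
theorem pq_T1 (hT : TreeOrd pred) (hκ : κ.IsRegular) (hθ : θ.IsRegular) (hθκ : θ < κ)
    (hpow : ∀ l < κ, ∀ m < θ, l ^ m < κ)
    (φ : Ordinal.{0} → X) (hφ : StrictMonoOn φ (Set.Iio (κ.ord ^ θ.ord * κ.ord))) :
    PQ pred κ κ (fun R => #R < κ)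
      (fun A => κ.ord ^ θ.ord * κ.ord ≤
        typeLT (φ '' Set.Iio (κ.ord ^ θ.ord * κ.ord) ∩ A : Set X)) := by
  classical
  have hK : (0 : Ordinal.{0}) < κ.ord := by
    rw [Cardinal.ord_pos]
    exact Cardinal.aleph0_pos.trans_le hκ.aleph0_le
  have hlim : Order.IsSuccLimit θ.ord := Cardinal.isSuccLimit_ord hθ.aleph0_le
  have hinc : ∀ i : θ.ord.ToType, ((ToType.toOrd i : Ordinal.{0})) + 1 < θ.ord := fun i =>
    hlim.succ_lt (ToType.toOrd i).2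
  have hcard : #θ.ord.ToType < κ := by
    rw [Cardinal.mk_ord_toType]
    exact hθκ
  have hsub : ∀ (i : θ.ord.ToType) (ξ : Ordinal.{0}),
      ξ < κ.ord ^ ((ToType.toOrd i : Ordinal.{0}) + 1) → ξ < κ.ord ^ θ.ord := fun i ξ hξ =>
    lt_of_lt_of_le hξ (Ordinal.opow_le_opow_right hK (hinc i).le)
  refine (PQ.union (Adm := fun R : Set X => #R < θ) (Adm' := fun R : Set X => #R < κ)
    hκ.aleph0_le hcard.le
    (fun R hR => iUnion_lt hκ hcard R (fun i => (hR i).trans hθκ))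
    (fun (i : θ.ord.ToType) A => ∀ k : κ.ord.ToType, ∃ j : κ.ord.ToType, k ≤ j ∧
      κ.ord ^ ((ToType.toOrd i : Ordinal.{0}) + 1) ≤ typeLT
      ((fun ξ => φ (κ.ord ^ θ.ord * (ToType.toOrd j : Ordinal.{0}) + ξ)) ''
        Set.Iio (κ.ord ^ ((ToType.toOrd i : Ordinal.{0}) + 1)) ∩ A : Set X)) ?_).imp ?_
  · intro i
    refine PQ.step hκ.aleph0_le hκ.aleph0_le (fun R hR => hR.trans hθκ)
      (by rw [Cardinal.mk_ord_toType]) (rootProp_reg hκ hθ hθκ hpow X)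
      (fun (j : κ.ord.ToType) A => κ.ord ^ ((ToType.toOrd i : Ordinal.{0}) + 1) ≤ typeLT
        ((fun ξ => φ (κ.ord ^ θ.ord * (ToType.toOrd j : Ordinal.{0}) + ξ)) ''
          Set.Iio (κ.ord ^ ((ToType.toOrd i : Ordinal.{0}) + 1)) ∩ A : Set X)) ?_
    intro j
    refine pq_lt hT hκ hθ hθκ hpow _ le_add_self (hinc i) _ ?_
    intro a ha b hb hab
    exact hφ (mul_add_lt_mul (ToType.toOrd j).2 (hsub i a ha))
      (mul_add_lt_mul (ToType.toOrd j).2 (hsub i b hb)) ((add_lt_add_iff_left _).2 hab)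
  · intro A hA
    choose jf hjf1 hjf2 using hA
    have h1 : ∀ k : κ.ord.ToType, ∃ e, ∀ c : θ.ord.ToType, jf c k < e :=
      fun k => bdd_of_lt hκ hcard (fun c => jf c k)
    choose F hF using h1
    obtain ⟨g, hg⟩ := exists_greedy hκ F
    let Tk : κ.ord.ToType → Set X := fun k => {x | x ∈ A ∧ ∃ j : κ.ord.ToType, k ≤ j ∧ j < F k ∧
      ∃ ξ < κ.ord ^ θ.ord, φ (κ.ord ^ θ.ord * (ToType.toOrd j : Ordinal.{0}) + ξ) = x}
    have hTk : ∀ k, κ.ord ^ θ.ord ≤ typeLT (Tk k) := by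
      intro k
      refine opow_le_of_forall hK hlim (fun c => (hjf2 c k).trans (type_mono ?_))
      rintro x ⟨⟨ξ, hξ, rfl⟩, hxA⟩
      exact ⟨hxA, jf c k, hjf1 c k, hF k c, ξ, hsub c ξ hξ, rfl⟩
    have h2 := type_mul_le (ι := κ.ord.ToType) (fun ξ => Tk (g ξ))
      (φ '' Set.Iio (κ.ord ^ θ.ord * κ.ord) ∩ A : Set X) ?_ ?_ (κ.ord ^ θ.ord)
      (fun ξ => hTk (g ξ))
    · rwa [Ordinal.type_toType] at h2
    · intro η ξ hηξ a ha b hb
      obtain ⟨_, j, hj1, hj2, ζ, hζ, rfl⟩ := ha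
      obtain ⟨_, j', hj1', hj2', ζ', hζ', rfl⟩ := hb
      have h3 : j < j' := lt_of_lt_of_le hj2 ((hg ξ η hηξ).trans hj1')
      exact hφ (mul_add_lt_mul (ToType.toOrd j).2 hζ) (mul_add_lt_mul (ToType.toOrd j').2 hζ')
        (mul_add_lt_mul_add (toOrd_lt_toOrd.2 h3) hζ)
    · rintro ξ x ⟨hxA, j, _, _, ζ, hζ, rfl⟩
      exact ⟨⟨_, mul_add_lt_mul (ToType.toOrd j).2 hζ, rfl⟩, hxA⟩

/-- all exponents up to `θ + 1` -/
theorem pq_pow (hT : TreeOrd pred) (hκ : κ.IsRegular) (hθ : θ.IsRegular) (hθκ : θ < κ)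
    (hpow : ∀ l < κ, ∀ m < θ, l ^ m < κ) (ν : Ordinal.{0}) (h1 : 1 ≤ ν) (h2 : ν < θ.ord + 2)
    (φ : Ordinal.{0} → X) (hφ : StrictMonoOn φ (Set.Iio (κ.ord ^ ν))) :
    PQ pred κ κ (fun R => #R < κ)
      (fun A => κ.ord ^ ν ≤ typeLT (φ '' Set.Iio (κ.ord ^ ν) ∩ A : Set X)) := by
  rcases lt_trichotomy ν θ.ord with h | h | h
  · exact (pq_lt hT hκ hθ hθκ hpow ν h1 h φ hφ).adm (fun R hR => lt_trans hR hθκ)
  · subst h
    exact pq_T hT hκ hθ hθκ hpow φ hφ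
  · have h3 : ν = θ.ord + 1 := by
      apply le_antisymm
      · have h4 : θ.ord + 2 = (θ.ord + 1) + 1 := by
          rw [add_assoc, one_add_one_eq_two]
        rw [h4] at h2
        exact Order.lt_add_one_iff.1 h2
      · exact Order.add_one_le_of_lt h
    subst h3
    have h5 : κ.ord ^ (θ.ord + 1) = κ.ord ^ θ.ord * κ.ord := by
      rw [Ordinal.opow_add, Ordinal.opow_one]
    rw [h5] at hφ
    refine (pq_T1 hT hκ hθ hθκ hpow φ hφ).imp ?_
    intro A hA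
    rw [h5]
    exact hA

omit [LinearOrder X] [WellFoundedLT X] in
lemma PQ.and {lam kap : Cardinal.{0}} {Adm : Set X → Prop} (hkap : ℵ₀ ≤ kap)
    (hun : ∀ R₁ R₂ : Set X, Adm R₁ → Adm R₂ → Adm (R₁ ∪ R₂))
    {Q₁ Q₂ : Set X → Prop} (h₁ : PQ pred lam kap Adm Q₁) (h₂ : PQ pred lam kap Adm Q₂) :
    PQ pred lam kap Adm (fun A => Q₁ A ∧ Q₂ A) := by
  obtain ⟨R₁, hR₁, ι₁, D₁, a1, a2, a3⟩ := h₁
  obtain ⟨R₂, hR₂, ι₂, D₂, b1, b2, b3⟩ := h₂
  refine ⟨R₁ ∪ R₂, hun _ _ hR₁ hR₂, ι₁ ⊕ ι₂, Sum.elim D₁ D₂, ?_, ?_, ?_⟩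
  · rw [Cardinal.mk_sum, Cardinal.lift_id, Cardinal.lift_id]
    exact (add_le_add a1 b1).trans (Cardinal.add_eq_self hkap).le
  · rintro (i | i)
    · exact a2 i
    · exact b2 i
  · intro C hmeet hdis
    rw [Set.disjoint_union_left] at hdis
    exact ⟨a3 C (fun i => hmeet (Sum.inl i)) hdis.1, b3 C (fun i => hmeet (Sum.inr i)) hdis.2⟩

/-- all multiples of `κ` below `κ ^ (θ + 2)` -/
theorem pq_mult (hT : TreeOrd pred) (hκ : κ.IsRegular) (hθ : θ.IsRegular) (hθκ : θ < κ)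
    (hpow : ∀ l < κ, ∀ m < θ, l ^ m < κ) (α : Ordinal.{0}) : κ.ord ∣ α →
    α < κ.ord ^ (θ.ord + 2) → ∀ φ : Ordinal.{0} → X, StrictMonoOn φ (Set.Iio α) →
    PQ pred κ κ (fun R => #R < κ) (fun A => α ≤ typeLT (φ '' Set.Iio α ∩ A : Set X)) := by
  have hK : (0 : Ordinal.{0}) < κ.ord := by
    rw [Cardinal.ord_pos]
    exact Cardinal.aleph0_pos.trans_le hκ.aleph0_le
  have hK1 : (1 : Ordinal.{0}) < κ.ord := by
    rw [Cardinal.lt_ord, Ordinal.card_one]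
    exact Cardinal.one_lt_aleph0.trans_le hκ.aleph0_le
  induction α using WellFoundedLT.induction with
  | ind α ih =>
  intro hdvd hα φ hφ
  rcases eq_or_ne α 0 with rfl | h0
  · refine ⟨∅, ?_, PEmpty, PEmpty.elim, by simp, fun i => i.elim, ?_⟩
    · change #(∅ : Set X) < κ
      rw [Cardinal.mk_eq_zero]
      exact Cardinal.aleph0_pos.trans_le hκ.aleph0_le
    · intro C _ _
      exact zero_le
  · have hKα : κ.ord ≤ α := Ordinal.le_of_dvd h0 hdvd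
    let ν := Ordinal.log κ.ord α
    have h1 : κ.ord ^ ν ≤ α := Ordinal.opow_log_le_self κ.ord h0
    have h2 : α < κ.ord ^ (ν + 1) := by
      have := Ordinal.lt_opow_succ_log_self hK1 α
      rwa [Order.succ_eq_add_one] at this
    have hν1 : 1 ≤ ν := by
      rw [Order.one_le_iff_pos, pos_iff_ne_zero]
      intro h3
      rw [h3, zero_add, Ordinal.opow_one] at h2
      exact absurd hKα (not_le.2 h2)
    have hν2 : ν < θ.ord + 2 := (Ordinal.opow_lt_opow_iff_right hK1).1 (h1.trans_lt hα)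
    have hB : κ.ord ^ ν ≠ 0 := (Ordinal.opow_pos ν hK).ne'
    let q := α / κ.ord ^ ν
    let r := α % κ.ord ^ ν
    have hqr : κ.ord ^ ν * q + r = α := Ordinal.div_add_mod α (κ.ord ^ ν)
    have hr : r < κ.ord ^ ν := Ordinal.mod_lt α hB
    have hq : q < κ.ord := by
      refine (Ordinal.lt_mul_iff_div_lt hB).1 ?_
      rw [Ordinal.opow_add, Ordinal.opow_one] at h2
      exact h2
    have hKν : κ.ord ∣ κ.ord ^ ν := by
      obtain ⟨δ, hδ⟩ : ∃ δ, ν = 1 + δ := ⟨ν - 1, (Ordinal.add_sub_cancel_of_le hν1).symm⟩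
      rw [hδ, Ordinal.opow_add, Ordinal.opow_one]
      exact dvd_mul_right _ _
    have hrdvd : κ.ord ∣ r := by
      have h3 : κ.ord ∣ κ.ord ^ ν * q := hKν.mul_right q
      rw [← hqr] at hdvd
      exact (Ordinal.dvd_add_iff h3).1 hdvd
    have hrα : r < α := hr.trans_le h1
    have hqcard : #q.ToType < κ := by
      rw [Cardinal.mk_toType]
      exact Cardinal.lt_ord.1 hq
    have hin1 : ∀ ξ, ξ < κ.ord ^ ν * q → ξ < α := fun ξ hξ =>
      lt_of_lt_of_le hξ (by rw [← hqr]; exact le_self_add)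
    have hin2 : ∀ ξ, ξ < r → κ.ord ^ ν * q + ξ < α := by
      intro ξ hξ
      rw [← hqr]
      exact (add_lt_add_iff_left _).2 hξ
    have hP1 : PQ pred κ κ (fun R => #R < κ)
        (fun A => κ.ord ^ ν * q ≤ typeLT (φ '' Set.Iio (κ.ord ^ ν * q) ∩ A : Set X)) := by
      refine (PQ.union (Adm := fun R : Set X => #R < κ) (Adm' := fun R : Set X => #R < κ)
        hκ.aleph0_le hqcard.le (fun R hR => iUnion_lt hκ hqcard R hR)
        (fun (i : q.ToType) A => κ.ord ^ ν ≤ typeLT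
          ((fun ξ => φ (κ.ord ^ ν * (ToType.toOrd i : Ordinal.{0}) + ξ)) ''
            Set.Iio (κ.ord ^ ν) ∩ A : Set X)) ?_).imp ?_
      · intro i
        refine pq_pow hT hκ hθ hθκ hpow ν hν1 hν2 _ ?_
        intro a ha b hb hab
        exact hφ (hin1 _ (mul_add_lt_mul (ToType.toOrd i).2 ha))
          (hin1 _ (mul_add_lt_mul (ToType.toOrd i).2 hb)) ((add_lt_add_iff_left _).2 hab)
      · intro A hA
        have h3 := type_mul_le (ι := q.ToType) (fun i =>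
          ((fun ξ => φ (κ.ord ^ ν * (ToType.toOrd i : Ordinal.{0}) + ξ)) ''
            Set.Iio (κ.ord ^ ν) ∩ A : Set X)) (φ '' Set.Iio (κ.ord ^ ν * q) ∩ A : Set X) ?_ ?_
          (κ.ord ^ ν) hA
        · rwa [Ordinal.type_toType] at h3
        · intro i j hij a ha b hb
          obtain ⟨⟨ξ, hξ, rfl⟩, _⟩ := ha
          obtain ⟨⟨ζ, hζ, rfl⟩, _⟩ := hb
          exact hφ (hin1 _ (mul_add_lt_mul (ToType.toOrd i).2 hξ))
            (hin1 _ (mul_add_lt_mul (ToType.toOrd j).2 hζ))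
            (mul_add_lt_mul_add (toOrd_lt_toOrd.2 hij) hξ)
        · rintro j a ⟨⟨ξ, hξ, rfl⟩, ha⟩
          exact ⟨⟨_, mul_add_lt_mul (ToType.toOrd j).2 hξ, rfl⟩, ha⟩
    have hP2 := ih r hrα hrdvd (hrα.trans hα) (fun ξ => φ (κ.ord ^ ν * q + ξ)) (by
      intro a ha b hb hab
      exact hφ (hin2 _ ha) (hin2 _ hb) ((add_lt_add_iff_left _).2 hab))
    refine (PQ.and hκ.aleph0_le (fun R₁ R₂ h h' => mk_union_lt hκ.aleph0_le h h') hP1 hP2).imp ?_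
    rintro A ⟨hA1, hA2⟩
    have h3 := (add_le_add hA1 hA2).trans (type_add_le
      (φ '' Set.Iio (κ.ord ^ ν * q) ∩ A : Set X)
      ((fun ξ => φ (κ.ord ^ ν * q + ξ)) '' Set.Iio r ∩ A : Set X) (φ '' Set.Iio α ∩ A : Set X)
      ?_ ?_ ?_)
    · rwa [hqr] at h3
    · rintro _ ⟨⟨a, ha, rfl⟩, _⟩ _ ⟨⟨b, hb, rfl⟩, _⟩
      exact hφ (hin1 _ ha) (hin2 _ hb) (lt_of_lt_of_le ha le_self_add)
    · rintro _ ⟨⟨a, ha, rfl⟩, h⟩
      exact ⟨⟨a, hin1 _ ha, rfl⟩, h⟩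
    · rintro _ ⟨⟨b, hb, rfl⟩, h⟩
      exact ⟨⟨_, hin2 _ hb, rfl⟩, h⟩

end Pool.Agent.TH764.OG
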