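import Mathlib
import Pool.Agent.TH764.OG.RegTop

/-!
# Generic colourings and families of small sets
-/

set_option autoImplicit false

namespace Pool.Agent.TH764.OG

open Set Cardinal Ordinal

variable {κ : Cardinal.{0}}

/-- intervals `[a, b)`, where `b` may be missing -/
def Ival {X : Type} [LinearOrder X] (a : X) (b : Option X) : Set X :=
  {x | a ≤ x ∧ ∀ b' ∈ b, x < b'}

section Types

variable {X : Type} [LinearOrder X] [WellFoundedLT X]

/-- If `A` is large in every interval in which `S` is large, and the type of `S` is at least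
`κ * β`, so is the type of `A`. -/
theorem type_ge_of_intervals (hκ : ℵ₀ ≤ κ) {S A : Set X}
    (h : ∀ a b, κ ≤ #(S ∩ Ival a b : Set X) → κ ≤ #(A ∩ Ival a b : Set X))
    {β : Ordinal.{0}} (hβ : κ.ord * β ≤ typeLT S) : κ.ord * β ≤ typeLT A := by
  classical
  have hK : (0 : Ordinal.{0}) < κ.ord := by
    rw [Cardinal.ord_pos]
    exact Cardinal.aleph0_pos.trans_le hκ
  rcases eq_or_ne β 0 with rfl | hβ0
  · rw [mul_zero]; exact zero_le
  rw [← Ordinal.type_toType (κ.ord * β), Ordinal.type_le_iff'] at hβ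
  obtain ⟨f⟩ := hβ
  have hpos : (0 : Ordinal.{0}) < κ.ord * β := mul_pos hK (pos_iff_ne_zero.2 hβ0)
  let ψ : Ordinal.{0} → X := fun ξ =>
    if hξ : ξ < κ.ord * β then (f (ToType.mk (⟨ξ, hξ⟩ : Set.Iio (κ.ord * β)))).1
    else (f (ToType.mk (⟨0, hpos⟩ : Set.Iio (κ.ord * β)))).1
  have hψS : ∀ ξ < κ.ord * β, ψ ξ ∈ S := by
    intro ξ hξ
    simp only [ψ, dif_pos hξ]
    exact (f _).2
  have hψ : ∀ ξ ζ, ξ < ζ → ζ < κ.ord * β → ψ ξ < ψ ζ := by
    intro ξ ζ hξζ hζ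
    simp only [ψ, dif_pos hζ, dif_pos (hξζ.trans hζ)]
    exact f.map_rel_iff.2 ((OrderIso.lt_iff_lt _).2 hξζ)
  have hmul : ∀ i : β.ToType, κ.ord * (ToType.toOrd i : Ordinal.{0}) < κ.ord * β := fun i =>
    mul_lt_mul_of_pos_left (ToType.toOrd i).2 hK
  let I : β.ToType → Set X := fun i => Ival (ψ (κ.ord * (ToType.toOrd i : Ordinal.{0})))
    (if κ.ord * ((ToType.toOrd i : Ordinal.{0}) + 1) < κ.ord * β then
      some (ψ (κ.ord * ((ToType.toOrd i : Ordinal.{0}) + 1))) else none)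
  have hI : ∀ i, κ ≤ #(S ∩ I i : Set X) := by
    intro i
    have hin : ∀ t : κ.ord.ToType, κ.ord * (ToType.toOrd i : Ordinal.{0}) +
        (ToType.toOrd t : Ordinal.{0}) < κ.ord * β := fun t =>
      mul_add_lt_mul (ToType.toOrd i).2 (ToType.toOrd t).2
    conv_lhs => rw [← Cardinal.mk_ord_toType κ]
    refine Cardinal.mk_le_of_injective (f := fun t : κ.ord.ToType =>
      (⟨ψ (κ.ord * (ToType.toOrd i : Ordinal.{0}) + (ToType.toOrd t : Ordinal.{0})), ?_, ?_, ?_⟩ :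
        (S ∩ I i : Set X))) ?_
    · exact hψS _ (hin t)
    · rcases eq_or_ne (ToType.toOrd t : Ordinal.{0}) 0 with h0 | h0
      · rw [h0, add_zero]
      · refine (hψ _ _ ?_ (hin t)).le
        conv_lhs => rw [← add_zero (κ.ord * (ToType.toOrd i : Ordinal.{0}))]
        exact (add_lt_add_iff_left _).2 (pos_iff_ne_zero.2 h0)
    · intro b' hb'
      by_cases hlt : κ.ord * ((ToType.toOrd i : Ordinal.{0}) + 1) < κ.ord * β
      · rw [if_pos hlt, Option.mem_some_iff] at hb'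
        subst hb'
        refine hψ _ _ ?_ hlt
        rw [mul_add_one]
        exact (add_lt_add_iff_left _).2 (ToType.toOrd t).2
      · rw [if_neg hlt] at hb'
        exact absurd hb' (Option.not_mem_none _)
    · intro t t' htt'
      have h1 : ψ (κ.ord * (ToType.toOrd i : Ordinal.{0}) + (ToType.toOrd t : Ordinal.{0})) =
        ψ (κ.ord * (ToType.toOrd i : Ordinal.{0}) + (ToType.toOrd t' : Ordinal.{0})) :=
        congrArg Subtype.val htt'
      rcases lt_trichotomy t t' with h2 | h2 | h2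
      · exact absurd h1 (hψ _ _ ((add_lt_add_iff_left _).2 (toOrd_lt_toOrd.2 h2)) (hin t')).ne
      · exact h2
      · exact absurd h1.symm (hψ _ _ ((add_lt_add_iff_left _).2 (toOrd_lt_toOrd.2 h2)) (hin t)).ne
  have hmain := type_mul_le (ι := β.ToType) (fun i => (A ∩ I i : Set X)) A ?_
    (fun i => Set.inter_subset_left) κ.ord ?_
  · rwa [Ordinal.type_toType] at hmain
  · intro i j hij a ha b hb
    have h1 : (ToType.toOrd i : Ordinal.{0}) + 1 ≤ ToType.toOrd j :=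
      Order.add_one_le_of_lt (toOrd_lt_toOrd.2 hij)
    have h2 : κ.ord * ((ToType.toOrd i : Ordinal.{0}) + 1) ≤ κ.ord * (ToType.toOrd j : Ordinal.{0}) :=
      mul_le_mul_right h1 _
    have h3 : κ.ord * ((ToType.toOrd i : Ordinal.{0}) + 1) < κ.ord * β := h2.trans_lt (hmul j)
    have h4 : a < ψ (κ.ord * ((ToType.toOrd i : Ordinal.{0}) + 1)) :=
      ha.2.2 _ (by rw [if_pos h3]; exact rfl)
    refine h4.trans_le (le_trans ?_ hb.2.1)
    rcases h2.lt_or_eq with h5 | h5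
    · exact (hψ _ _ h5 (hmul j)).le
    · rw [h5]
  · intro i
    have h1 : κ ≤ #(A ∩ I i : Set X) := h _ _ (hI i)
    exact (Cardinal.ord_le_ord.2 h1).trans (Cardinal.ord_le_type _)

end Types

/-! ### Generic colourings -/

section Coloring

variable {X : Type} {pred : X → Set X}

/-- `G` is the graph of a partial function -/
def Fn {Y : Type} (G : Set (X × Y)) : Prop := ∀ x a b, (x, a) ∈ G → (x, b) ∈ G → a = b

lemma col_step {Y : Type} [Nontrivial Y] (hirr : ∀ x, x ∉ pred x) (hfin : ∀ x, (pred x).Finite)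
    (ξ : Y) (I : Set X) (G : Set (X × Y)) : ∃ E : Set (X × Y), E.Finite ∧
      (Fn G → Fn (G ∪ E)) ∧
      ((∃ x ∈ I, (∀ a, (x, a) ∉ G) ∧ (x, ξ) ∈ G ∪ E ∧
        ∀ y ∈ pred x, ∃ η, η ≠ ξ ∧ (y, η) ∈ G ∪ E) ∨
        ∀ x ∈ I, (∃ a, (x, a) ∈ G) ∨ ∃ y ∈ pred x, (y, ξ) ∈ G) := by
  classical
  by_cases hex : ∃ x ∈ I, (∀ a, (x, a) ∉ G) ∧ ∀ y ∈ pred x, (y, ξ) ∉ G
  · obtain ⟨x, hxI, hxG, hxp⟩ := hex
    obtain ⟨η, hη⟩ : ∃ η, η ≠ ξ := exists_ne ξ
    refine ⟨{(x, ξ)} ∪ (fun y => (y, η)) '' {y | y ∈ pred x ∧ ∀ a, (y, a) ∉ G},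
      (Set.finite_singleton _).union (((hfin x).subset (fun y hy => hy.1)).image _), ?_,
      Or.inl ⟨x, hxI, hxG, ?_, ?_⟩⟩
    · rintro hG2
      rintro z a b (ha | ha | ⟨y, hy, hya⟩) (hb | hb | ⟨w, hw, hwb⟩)
      · exact hG2 z a b ha hb
      · obtain ⟨rfl, rfl⟩ := Prod.mk.inj (Set.mem_singleton_iff.1 hb)
        exact absurd ha (hxG a)
      · obtain ⟨rfl, rfl⟩ := Prod.mk.inj hwb
        exact absurd ha (hw.2 a)
      · obtain ⟨rfl, rfl⟩ := Prod.mk.inj (Set.mem_singleton_iff.1 ha)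
        exact absurd hb (hxG b)
      · obtain ⟨rfl, rfl⟩ := Prod.mk.inj (Set.mem_singleton_iff.1 ha)
        exact (Prod.mk.inj (Set.mem_singleton_iff.1 hb)).2.symm
      · obtain ⟨rfl, rfl⟩ := Prod.mk.inj (Set.mem_singleton_iff.1 ha)
        obtain ⟨rfl, rfl⟩ := Prod.mk.inj hwb
        exact absurd hw.1 (hirr _)
      · obtain ⟨rfl, rfl⟩ := Prod.mk.inj hya
        exact absurd hb (hy.2 b)
      · obtain ⟨rfl, rfl⟩ := Prod.mk.inj (Set.mem_singleton_iff.1 hb)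
        obtain ⟨rfl, rfl⟩ := Prod.mk.inj hya
        exact absurd hy.1 (hirr _)
      · obtain ⟨rfl, rfl⟩ := Prod.mk.inj hya
        exact (Prod.mk.inj hwb).2
    · exact Or.inr (Or.inl rfl)
    · intro y hy
      by_cases hyG : ∃ a, (y, a) ∈ G
      · obtain ⟨a, ha⟩ := hyG
        refine ⟨a, ?_, Or.inl ha⟩
        rintro rfl
        exact hxp y hy ha
      · push Not at hyG
        exact ⟨η, hη, Or.inr (Or.inr ⟨y, ⟨hy, hyG⟩, rfl⟩)⟩
  · refine ⟨∅, Set.finite_empty, fun h => by rwa [Set.union_empty], Or.inr ?_⟩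
    intro x hx
    by_contra hcon
    push Not at hcon
    exact hex ⟨x, hx, hcon.1, hcon.2⟩

lemma mk_iUnion_finite_lt (hκ : ℵ₀ ≤ κ) {ι Y : Type} (hι : #ι < κ) (F : ι → Set Y)
    (hF : ∀ i, (F i).Finite) : #(⋃ i, F i : Set Y) < κ := by
  rcases finite_or_infinite ι with h | h
  · have h1 : (⋃ i, F i).Finite := Set.finite_iUnion hF
    exact lt_of_lt_of_le (Cardinal.lt_aleph0_iff_finite.2 h1.to_subtype) hκ
  · refine lt_of_le_of_lt ((Cardinal.mk_iUnion_le_sum_mk).trans ?_) hι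
    have h2 : Cardinal.sum (fun i => #(F i)) ≤ Cardinal.sum (fun _ : ι => ℵ₀) :=
      Cardinal.sum_le_sum _ _ (fun i =>
        (Cardinal.lt_aleph0_iff_finite.2 (hF i).to_subtype).le)
    refine h2.trans ?_
    rw [Cardinal.sum_const, Cardinal.lift_id, Cardinal.lift_id]
    have h3 : ℵ₀ ≤ #ι := Cardinal.aleph0_le_mk ι
    exact (mul_le_mul' le_rfl h3).trans (Cardinal.mul_eq_self h3).le

/-- Generic colourings of a set with finite predecessor sets. -/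
theorem exists_coloring (hκ : ℵ₀ ≤ κ) (hirr : ∀ x, x ∉ pred x)
    (hfin : ∀ x, (pred x).Finite) {ι : Type} (hι : #ι ≤ κ) (I : ι → Set X) :
    ∃ c : X → κ.ord.ToType, ∀ ξ i, κ ≤ #({x | ∀ y ∈ pred x, c y ≠ ξ} ∩ I i : Set X) →
      κ ≤ #({x | c x = ξ ∧ ∀ y ∈ pred x, c y ≠ ξ} ∩ I i : Set X) := by
  classical
  let J : Type := (κ.ord.ToType × ι) × κ.ord.ToType
  have hJ : #J ≤ #κ.ord.ToType := by
    simp only [J, Cardinal.mk_prod, Cardinal.lift_id, Cardinal.mk_ord_toType]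
    refine (mul_le_mul' (mul_le_mul' le_rfl hι) le_rfl).trans ?_
    rw [Cardinal.mul_eq_self hκ, Cardinal.mul_eq_self hκ]
  obtain ⟨e⟩ := (Cardinal.le_def _ _).1 hJ
  have hinf : Infinite κ.ord.ToType := by
    rw [← Cardinal.aleph0_le_mk_iff, Cardinal.mk_ord_toType]
    exact hκ
  have hne : Nonempty κ.ord.ToType := inferInstance
  have hstep : ∀ (s : κ.ord.ToType) (G : Set (X × κ.ord.ToType)),
      ∃ E : Set (X × κ.ord.ToType), E.Finite ∧
      (Fn G → Fn (G ∪ E)) ∧ ∀ j : J, e j = s →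
      ((∃ x ∈ I j.1.2, (∀ a, (x, a) ∉ G) ∧ (x, j.1.1) ∈ G ∪ E ∧
        ∀ y ∈ pred x, ∃ η, η ≠ j.1.1 ∧ (y, η) ∈ G ∪ E) ∨
        ∀ x ∈ I j.1.2, (∃ a, (x, a) ∈ G) ∨ ∃ y ∈ pred x, (y, j.1.1) ∈ G) := by
    intro s G
    by_cases h : ∃ j, e j = s
    · obtain ⟨j, hj⟩ := h
      obtain ⟨E, h1, h2, h3⟩ := col_step hirr hfin j.1.1 (I j.1.2) G
      refine ⟨E, h1, h2, ?_⟩
      intro j' hj'
      have : j' = j := e.injective (hj'.trans hj.symm)
      subst this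
      exact h3
    · exact ⟨∅, Set.finite_empty, fun h => by rwa [Set.union_empty], fun j hj => absurd ⟨j, hj⟩ h⟩
  choose st hst1 hst2 hst3 using hstep
  let F : (s : κ.ord.ToType) → ((r : κ.ord.ToType) → r < s → Set (X × κ.ord.ToType)) →
      Set (X × κ.ord.ToType) := fun s f => (⋃ r : Set.Iio s, f r.1 r.2) ∪
        st s (⋃ r : Set.Iio s, f r.1 r.2)
  let P : κ.ord.ToType → Set (X × κ.ord.ToType) :=
    WellFounded.fix (wellFounded_lt (α := κ.ord.ToType)) F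
  have hP : ∀ s, P s = (⋃ r : Set.Iio s, P r.1) ∪ st s (⋃ r : Set.Iio s, P r.1) := by
    intro s
    exact WellFounded.fix_eq _ _ _
  have hmono : ∀ s r, r < s → P r ⊆ P s := by
    intro s r hrs
    rw [hP s]
    exact (Set.subset_iUnion (fun k : Set.Iio s => P k.1) ⟨r, hrs⟩).trans Set.subset_union_left
  have hsub : ∀ s, P s ⊆ ⋃ r : Set.Iic s, st r.1 (⋃ k : Set.Iio r.1, P k.1) := by
    intro s
    induction s using WellFoundedLT.induction with
    | ind s ih =>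
    rw [hP s]
    rintro p (hp | hp)
    · obtain ⟨⟨r, hr⟩, hp⟩ := Set.mem_iUnion.1 hp
      obtain ⟨⟨k, hk⟩, hp⟩ := Set.mem_iUnion.1 (ih r hr hp)
      exact Set.mem_iUnion.2 ⟨⟨k, Set.mem_Iic.2 ((Set.mem_Iic.1 hk).trans (le_of_lt hr))⟩, hp⟩
    · exact Set.mem_iUnion.2 ⟨⟨s, Set.mem_Iic.2 le_rfl⟩, hp⟩
  have hsub' : ∀ s, (⋃ r : Set.Iio s, P r.1) ⊆
      ⋃ r : Set.Iio s, st r.1 (⋃ k : Set.Iio r.1, P k.1) := by
    intro s p hp
    obtain ⟨⟨r, hr⟩, hp⟩ := Set.mem_iUnion.1 hp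
    obtain ⟨⟨k, hk⟩, hp⟩ := Set.mem_iUnion.1 (hsub r hp)
    exact Set.mem_iUnion.2 ⟨⟨k, Set.mem_Iio.2 ((Set.mem_Iic.1 hk).trans_lt hr)⟩, hp⟩
  have hsmall : ∀ s, #(⋃ r : Set.Iio s, P r.1 : Set (X × κ.ord.ToType)) < κ := by
    intro s
    exact lt_of_le_of_lt (Cardinal.mk_le_mk_of_subset (hsub' s))
      (mk_iUnion_finite_lt hκ (mk_Iio_lt' s) _ (fun r => hst1 _ _))
  have hgood : ∀ s, Fn (P s) := by
    intro s
    induction s using WellFoundedLT.induction with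
    | ind s ih =>
    rw [hP s]
    apply hst2
    intro x a b ha hb
    obtain ⟨⟨r, hr⟩, ha⟩ := Set.mem_iUnion.1 ha
    obtain ⟨⟨k, hk⟩, hb⟩ := Set.mem_iUnion.1 hb
    rcases lt_trichotomy r k with h | h | h
    · exact ih k hk x a b (hmono k r h ha) hb
    · subst h
      exact ih r hr x a b ha hb
    · exact ih r hr x a b ha (hmono r k h hb)
  have hfun : ∀ x a b, (x, a) ∈ ⋃ s, P s → (x, b) ∈ ⋃ s, P s → a = b := by
    intro x a b ha hb
    obtain ⟨r, ha⟩ := Set.mem_iUnion.1 ha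
    obtain ⟨k, hb⟩ := Set.mem_iUnion.1 hb
    rcases lt_trichotomy r k with h | h | h
    · exact hgood k x a b (hmono k r h ha) hb
    · subst h
      exact hgood r x a b ha hb
    · exact hgood r x a b ha (hmono r k h hb)
  let c : X → κ.ord.ToType := fun x => if h : ∃ a, (x, a) ∈ ⋃ s, P s then h.choose else hne.some
  have hc : ∀ x a s, (x, a) ∈ P s → c x = a := by
    intro x a s h
    have h1 : ∃ a, (x, a) ∈ ⋃ s, P s := ⟨a, Set.mem_iUnion.2 ⟨s, h⟩⟩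
    simp only [c, dif_pos h1]
    exact hfun x _ _ h1.choose_spec (Set.mem_iUnion.2 ⟨s, h⟩)
  refine ⟨c, fun ξ i hbig => ?_⟩
  have hall : ∀ t : κ.ord.ToType, ∃ x ∈ I i, (∀ a, (x, a) ∉ ⋃ r : Set.Iio (e ((ξ, i), t)), P r.1) ∧
      (x, ξ) ∈ P (e ((ξ, i), t)) ∧ ∀ y ∈ pred x, ∃ η, η ≠ ξ ∧ (y, η) ∈ P (e ((ξ, i), t)) := by
    intro t
    have h1 := hst3 (e ((ξ, i), t)) (⋃ r : Set.Iio (e ((ξ, i), t)), P r.1) ((ξ, i), t) rfl
    rw [← hP] at h1
    rcases h1 with h1 | h1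
    · exact h1
    · exfalso
      have h2 : ({x | ∀ y ∈ pred x, c y ≠ ξ} ∩ I i : Set X) ⊆
          Prod.fst '' (⋃ r : Set.Iio (e ((ξ, i), t)), P r.1) := by
        rintro x ⟨hx1, hx2⟩
        rcases h1 x hx2 with ⟨a, ha⟩ | ⟨y, hy, hyξ⟩
        · exact ⟨(x, a), ha, rfl⟩
        · obtain ⟨⟨r, hr⟩, hyr⟩ := Set.mem_iUnion.1 hyξ
          exact absurd (hc y ξ r hyr) (hx1 y hy)
      have h3 : #(Prod.fst '' (⋃ r : Set.Iio (e ((ξ, i), t)), P r.1) : Set X) < κ :=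
        lt_of_le_of_lt Cardinal.mk_image_le (hsmall (e ((ξ, i), t)))
      exact absurd hbig (not_le.2 (mk_sub_lt h3 h2))
  choose xt hxt1 hxt2 hxt3 hxt4 using hall
  conv_lhs => rw [← Cardinal.mk_ord_toType κ]
  refine Cardinal.mk_le_of_injective (f := fun t : κ.ord.ToType =>
    (⟨xt t, ⟨hc _ _ _ (hxt3 t), ?_⟩, hxt1 t⟩ :
      ({x | c x = ξ ∧ ∀ y ∈ pred x, c y ≠ ξ} ∩ I i : Set X))) ?_
  · intro y hy hcy
    obtain ⟨η, hη1, hη2⟩ := hxt4 t y hy
    exact hη1 ((hc y η _ hη2).symm.trans hcy)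
  · intro t t' htt'
    have h1 : xt t = xt t' := congrArg Subtype.val htt'
    have key : ∀ u v, e ((ξ, i), u) < e ((ξ, i), v) → xt u ≠ xt v := by
      intro u v huv huv'
      refine hxt2 v ξ (Set.mem_iUnion.2 ⟨⟨e ((ξ, i), u), huv⟩, ?_⟩)
      rw [← huv']
      exact hxt3 u
    rcases lt_trichotomy (e ((ξ, i), t)) (e ((ξ, i), t')) with h | h | h
    · exact absurd h1 (key _ _ h)
    · exact (Prod.mk.inj (e.injective h)).2
    · exact absurd h1.symm (key _ _ h)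

end Coloring

end Pool.Agent.TH764.OG
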