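import Mathlib
import Pool.Agent.TH764.OG.Color
import Pool.Agent.TH764.OG.Cohen
import Pool.Agent.Results.MP_820435_lc.NeverProvableAbove

/-!
# The relation `α → (α, infinite path)²` and families of small sets
-/

set_option autoImplicit false

namespace Pool.Agent.TH764.OG

open Set Cardinal Ordinal

/-- The relation `α → (α, infinite path)²`. -/
def Rel (α : Ordinal.{0}) : Prop :=
  ∀ G : SimpleGraph α.ToType,
    (∃ Y : Set α.ToType, G.IsIndepSet Y ∧ typeLT Y = α) ∨
    ∃ f : ℕ → α.ToType, Function.Injective f ∧ ∀ n, G.Adj (f n) (f (n + 1))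

/-- There are `κ` many subsets of `α` of order type less than `α` such that each point of `α`
belongs to all but finitely many of them. -/
def SmallCover (κ : Cardinal.{0}) (α : Ordinal.{0}) : Prop :=
  ∃ S : κ.ord.ToType → Set α.ToType, (∀ ξ, typeLT (S ξ) < α) ∧ ∀ x, {ξ | x ∉ S ξ}.Finite

lemma type_le_self {α : Ordinal.{0}} (S : Set α.ToType) : typeLT S ≤ α := by
  calc typeLT S ≤ typeLT (Set.univ : Set α.ToType) := type_mono (Set.subset_univ _)
    _ = α := by
      conv_rhs => rw [← Ordinal.type_toType α]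
      exact Ordinal.type_eq.2 ⟨⟨Equiv.Set.univ _, Iff.rfl⟩⟩

/-- In ZFC: a failure of the relation gives small sets. -/
theorem smallCover_of_not_rel {κ : Cardinal.{0}} (hκ : ℵ₀ ≤ κ) {α : Ordinal.{0}} (h0 : α ≠ 0)
    (hdvd : κ.ord ∣ α) (hcard : α.card ≤ κ) (hR : ¬ Rel α) : SmallCover κ α := by
  classical
  unfold Rel at hR
  push Not at hR
  obtain ⟨G, hG1, hG2⟩ := hR
  have : Nonempty α.ToType := by
    rw [← Cardinal.mk_ne_zero_iff, Cardinal.mk_toType]
    exact fun h => h0 (Ordinal.card_eq_zero.1 h)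
  obtain ⟨pred, hT, hGT⟩ := exists_treeOrd G (by
    intro v hv hadj
    obtain ⟨n, hn⟩ := hG2 v hv
    exact hn (hadj n))
  have hX : #α.ToType ≤ κ := by rwa [Cardinal.mk_toType]
  have hι : #(α.ToType × Option α.ToType) ≤ κ := by
    rw [Cardinal.mk_prod, Cardinal.lift_id, Cardinal.lift_id, Cardinal.mk_option]
    have h1 : (1 : Cardinal.{0}) ≤ κ := (Cardinal.one_lt_aleph0.trans_le hκ).le
    refine (mul_le_mul' hX (add_le_add hX h1)).trans ?_
    rw [Cardinal.add_eq_self hκ, Cardinal.mul_eq_self hκ]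
  obtain ⟨c, hc⟩ := exists_coloring hκ hT.irr hT.fin hι
    (fun p : α.ToType × Option α.ToType => Ival p.1 p.2)
  refine ⟨fun ξ => {x | ∀ y ∈ pred x, c y ≠ ξ}, ?_, ?_⟩
  · intro ξ
    refine lt_of_le_of_ne (type_le_self _) ?_
    intro htype
    obtain ⟨β, hβ⟩ := hdvd
    have h1 : κ.ord * β ≤ typeLT {x : α.ToType | c x = ξ ∧ ∀ y ∈ pred x, c y ≠ ξ} := by
      refine type_ge_of_intervals hκ (S := {x | ∀ y ∈ pred x, c y ≠ ξ}) ?_ ?_
      · intro a b hab
        exact hc ξ (a, b) hab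
      · rw [htype, hβ]
    rw [← hβ] at h1
    refine hG1 {x : α.ToType | c x = ξ ∧ ∀ y ∈ pred x, c y ≠ ξ} ?_
      (le_antisymm (type_le_self _) h1)
    intro x hx y hy _ hxy
    rcases hGT x y hxy with h | h
    · exact hy.2 x h hx.1
    · exact hx.2 y h hy.1
  · intro x
    refine ((hT.fin x).image c).subset ?_
    intro ξ hξ
    have hξ' : ¬ ∀ y ∈ pred x, c y ≠ ξ := hξ
    push Not at hξ'
    exact hξ'

/-- Under `2 ^ μ = μ⁺` small sets give a failure of the relation. -/
theorem not_rel_of_smallCover {μ : Cardinal.{0}} (hμ : ℵ₀ ≤ μ)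
    (hpow : (2 : Cardinal.{0}) ^ μ = Order.succ μ) {α : Ordinal.{0}}
    (hdvd : (Order.succ μ).ord ∣ α) (hcard : α.card ≤ Order.succ μ)
    (hS : SmallCover (Order.succ μ) α) : ¬ Rel α := by
  classical
  intro hR
  have hκ : (Order.succ μ).IsRegular := Cardinal.isRegular_succ hμ
  obtain ⟨S, hS1, hS2⟩ := hS
  have hX : #α.ToType ≤ #(Order.succ μ).ord.ToType := by
    rwa [Cardinal.mk_toType, Cardinal.mk_ord_toType]
  obtain ⟨e⟩ := (Cardinal.le_def _ _).1 hX
  obtain ⟨G, hG1, hG2⟩ := Results.MP_820435_lc.NeverProvableAbove.graph_core hμ hpow e e.injective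
    (fun x => (hS2 x).toFinset)
  rcases hR G with ⟨Y, hY1, hY2⟩ | hp
  · obtain ⟨j, d, hjd⟩ := hG2 Y (by
      intro x hx y hy hxy
      exact hY1 hx hy (G.ne_of_adj hxy) hxy)
    obtain ⟨β, hβ⟩ := hdvd
    have h1 : (Order.succ μ).ord * β ≤ typeLT (S j) := by
      refine type_ge_of_intervals hκ.aleph0_le (S := Y) ?_ (by rw [hY2, hβ])
      intro a b hab
      by_contra hcon
      rw [not_le] at hcon
      have h2 : #(e ⁻¹' (Set.Iio d) : Set α.ToType) < Order.succ μ := by
        refine lt_of_le_of_lt ?_ (mk_Iio_lt' d)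
        exact Cardinal.mk_preimage_of_injective e (Set.Iio d) e.injective
      have h3 : (Y ∩ Ival a b : Set α.ToType) ⊆ (S j ∩ Ival a b) ∪ e ⁻¹' (Set.Iio d) := by
        rintro x ⟨hx1, hx2⟩
        by_cases hxS : x ∈ S j
        · exact Or.inl ⟨hxS, hx2⟩
        · refine Or.inr (hjd x hx1 ?_)
          rw [Set.Finite.mem_toFinset]
          exact hxS
      exact absurd hab (not_le.2 (mk_sub_lt (mk_union_lt hκ.aleph0_le hcon h2) h3))
    rw [← hβ] at h1
    exact absurd (hS1 j) (not_lt.2 h1)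
  · exact hG1 hp

end Pool.Agent.TH764.OG
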