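import Mathlib
import Pool.Agent.TH764.OG.Cohen
import Pool.Agent.TH764.OG.RegTop

/-!
# Reduction of `α → (α, infinite path)²` to indecomposable ordinals
-/

set_option autoImplicit false

namespace Pool.Agent.TH764.OG

open Set Cardinal Ordinal

/-! ### Trees of this kind have no infinite path in the comparability graph -/

section NoRay

variable {X : Type} {pred : X → Set X}

lemma exists_min_pred (hT : TreeOrd pred) (s : Set X) (hs : s.Finite) (hne : s.Nonempty) :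
    ∃ r ∈ s, ∀ y ∈ s, y ∉ pred r := by
  obtain ⟨r, hr, hmin⟩ := Set.exists_min_image s (fun y => (pred y).ncard) hs hne
  refine ⟨r, hr, fun y hy hyr => ?_⟩
  have h1 : pred y ⊂ pred r := by
    refine ⟨fun z hz => hT.tr r y z hz hyr, fun h => hT.irr y (h hyr)⟩
  exact absurd (hmin y hy) (not_le.2 (Set.ncard_lt_ncard h1 (hT.fin r)))

lemma ray_up (hT : TreeOrd pred) (w : ℕ → X)
    (hadj : ∀ n, w n ∈ pred (w (n + 1)) ∨ w (n + 1) ∈ pred (w n)) (Q : X → Prop)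
    (hQ : ∀ n, Q (w n)) :
    ∃ r', Q r' ∧ ∀ n, r' = w n ∨ r' ∈ pred (w n) := by
  obtain ⟨r', hr', hmin⟩ := exists_min_pred hT ({y | y ∈ insert (w 0) (pred (w 0)) ∧ Q y})
    (((hT.fin (w 0)).insert (w 0)).subset (fun y hy => hy.1))
    ⟨w 0, Set.mem_insert _ _, hQ 0⟩
  have key : ∀ n, w (n + 1) ∈ pred r' → False := by
    intro n hn
    refine hmin (w (n + 1)) ⟨?_, hQ _⟩ hn
    rcases hr'.1 with h | h
    · rw [h] at hn
      exact Set.mem_insert_of_mem _ hn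
    · exact Set.mem_insert_of_mem _ (hT.tr _ _ _ hn h)
  refine ⟨r', hr'.2, fun n => ?_⟩
  induction n with
  | zero =>
    rcases hr'.1 with h | h
    · exact Or.inl h
    · exact Or.inr h
  | succ n ih =>
    rcases hadj n with h | h
    · rcases ih with ih | ih
      · exact Or.inr (ih ▸ h)
      · exact Or.inr (hT.tr _ _ _ ih h)
    · rcases ih with ih | ih
      · rw [← ih] at h
        exact (key n h).elim
      · rcases hT.chain _ _ _ h ih with h' | h' | h'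
        · exact Or.inl h'.symm
        · exact (key n h').elim
        · exact Or.inr h'

lemma no_ray_above (hT : TreeOrd pred) (r : X) : ∀ v : ℕ → X, Function.Injective v →
    (∀ n, v n ∈ pred (v (n + 1)) ∨ v (n + 1) ∈ pred (v n)) →
    (∀ n, r = v n ∨ r ∈ pred (v n)) → False := by
  refine hT.wf.induction (C := fun r => ∀ v : ℕ → X, Function.Injective v →
    (∀ n, v n ∈ pred (v (n + 1)) ∨ v (n + 1) ∈ pred (v n)) →
    (∀ n, r = v n ∨ r ∈ pred (v n)) → False) r ?_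
  intro r ih v hv hadj hr
  obtain ⟨m, hm⟩ : ∃ m, ∀ n, m ≤ n → r ∈ pred (v n) := by
    by_cases hex : ∃ n₀, r = v n₀
    · obtain ⟨n₀, hn₀⟩ := hex
      refine ⟨n₀ + 1, fun n hn => ?_⟩
      rcases hr n with h | h
      · have := hv (hn₀.symm.trans h)
        omega
      · exact h
    · push Not at hex
      exact ⟨0, fun n _ => (hr n).resolve_left (hex n)⟩
  obtain ⟨r', hr'1, hr'2⟩ := ray_up hT (fun n => v (m + n)) (fun n => hadj (m + n))
    (fun y => r ∈ pred y) (fun n => hm _ (Nat.le_add_right _ _))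
  exact ih r' hr'1 (fun n => v (m + n)) (fun a b hab => by
    have := hv hab
    omega) (fun n => hadj (m + n)) hr'2

theorem no_ray (hT : TreeOrd pred) (v : ℕ → X) (hv : Function.Injective v)
    (hadj : ∀ n, v n ∈ pred (v (n + 1)) ∨ v (n + 1) ∈ pred (v n)) : False := by
  obtain ⟨r, _, hr⟩ := ray_up hT v hadj (fun _ => True) (fun _ => trivial)
  exact no_ray_above hT r v hv hadj hr

end NoRay

/-! ### Order types -/

section Types

variable {X : Type} [LinearOrder X] [WellFoundedLT X]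

lemma exists_mono {δ : Ordinal.{0}} {A : Set X} (h : δ ≤ typeLT A) (h0 : δ ≠ 0) :
    ∃ ψ : Ordinal.{0} → X, (∀ ξ < δ, ψ ξ ∈ A) ∧ StrictMonoOn ψ (Set.Iio δ) := by
  classical
  rw [← Ordinal.type_toType δ, Ordinal.type_le_iff'] at h
  obtain ⟨f⟩ := h
  have hpos : 0 < δ := pos_iff_ne_zero.2 h0
  refine ⟨fun ξ => if hξ : ξ < δ then (f (ToType.mk (⟨ξ, hξ⟩ : Set.Iio δ))).1
    else (f (ToType.mk (⟨0, hpos⟩ : Set.Iio δ))).1, ?_, ?_⟩
  · intro ξ hξ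
    simp only [dif_pos hξ]
    exact (f _).2
  · intro ξ hξ ζ hζ hξζ
    have hξ' : ξ < δ := hξ
    have hζ' : ζ < δ := hζ
    simp only [dif_pos hξ', dif_pos hζ']
    exact f.map_rel_iff.2 ((OrderIso.lt_iff_lt _).2 hξζ)

lemma le_type_image {δ : Ordinal.{0}} {ψ : Ordinal.{0} → X} (hψ : StrictMonoOn ψ (Set.Iio δ))
    {A : Set X} (hA : ∀ ξ < δ, ψ ξ ∈ A) : δ ≤ typeLT A := by
  conv_lhs => rw [← Ordinal.type_toType δ]
  rw [Ordinal.type_le_iff']
  refine ⟨RelEmbedding.ofMonotone (fun i : δ.ToType => (⟨ψ (ToType.toOrd i : Ordinal.{0}),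
    hA _ (ToType.toOrd i).2⟩ : A)) ?_⟩
  intro a b hab
  exact hψ (ToType.toOrd a).2 (ToType.toOrd b).2 (toOrd_lt_toOrd.2 hab)

/-- powers of `ω` are indecomposable -/
theorem indec (γ : Ordinal.{0}) : ∀ A P Q : Set X, A ⊆ P ∪ Q → ω ^ γ ≤ typeLT A →
    ω ^ γ ≤ typeLT P ∨ ω ^ γ ≤ typeLT Q := by
  have hω : (0 : Ordinal.{0}) < ω := Ordinal.omega0_pos
  induction γ using WellFoundedLT.induction with
  | ind γ ih =>
  intro A P Q hA hγ
  rcases Ordinal.zero_or_succ_or_isSuccLimit γ with rfl | ⟨γ', hγ'⟩ | hlim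
  · rw [Ordinal.opow_zero] at hγ ⊢
    obtain ⟨ψ, hψ, _⟩ := exists_mono hγ one_ne_zero
    have h1 : ∀ {B : Set X}, ψ 0 ∈ B → 1 ≤ typeLT B := by
      intro B hB
      refine le_type_image (ψ := ψ) ?_ ?_
      · intro a ha b hb hab
        rw [Set.mem_Iio, Order.lt_one_iff] at ha hb
        rw [ha, hb] at hab
        exact absurd hab (lt_irrefl _)
      · intro ξ hξ
        rw [Order.lt_one_iff] at hξ
        rw [hξ]
        exact hB
    rcases hA (hψ 0 zero_lt_one) with h | h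
    · exact Or.inl (h1 h)
    · exact Or.inr (h1 h)
  · have hγ'' : γ = γ' + 1 := by rw [← hγ']; exact (Order.succ_eq_add_one γ')
    subst hγ''
    have hlt : γ' < γ' + 1 := Order.lt_add_one_iff.2 le_rfl
    have hpow : ω ^ (γ' + 1) = ω ^ γ' * ω := by rw [Ordinal.opow_add, Ordinal.opow_one]
    have hne : ω ^ (γ' + 1) ≠ 0 := (Ordinal.opow_pos _ hω).ne'
    obtain ⟨ψ, hψA, hψ⟩ := exists_mono hγ hne
    rw [hpow] at hψA hψ
    have hin : ∀ n : ℕ, ∀ ξ < ω ^ γ', ω ^ γ' * (n : Ordinal.{0}) + ξ < ω ^ γ' * ω := fun n ξ hξ =>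
      mul_add_lt_mul (Ordinal.natCast_lt_omega0 n) hξ
    have hpiece : ∀ n : ℕ, ω ^ γ' ≤ typeLT
        ((fun ξ => ψ (ω ^ γ' * (n : Ordinal.{0}) + ξ)) '' Set.Iio (ω ^ γ') : Set X) := by
      intro n
      refine le_type_image (ψ := fun ξ => ψ (ω ^ γ' * (n : Ordinal.{0}) + ξ)) ?_
        (fun ξ hξ => ⟨ξ, hξ, rfl⟩)
      intro a ha b hb hab
      exact hψ (hin n a ha) (hin n b hb) ((add_lt_add_iff_left _).2 hab)
    have hIH : ∀ n : ℕ, ω ^ γ' ≤ typeLT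
        (((fun ξ => ψ (ω ^ γ' * (n : Ordinal.{0}) + ξ)) '' Set.Iio (ω ^ γ')) ∩ P : Set X) ∨
        ω ^ γ' ≤ typeLT
        (((fun ξ => ψ (ω ^ γ' * (n : Ordinal.{0}) + ξ)) '' Set.Iio (ω ^ γ')) ∩ Q : Set X) := by
      intro n
      refine ih γ' hlt _ _ _ ?_ (hpiece n)
      rintro x ⟨ξ, hξ, rfl⟩
      rcases hA (hψA _ (hin n ξ hξ)) with h | h
      · exact Or.inl ⟨⟨ξ, hξ, rfl⟩, h⟩
      · exact Or.inr ⟨⟨ξ, hξ, rfl⟩, h⟩
    have hfin : ∀ B : Set X, (∀ i, ∃ j, i ≤ j ∧ j ∈ {n : ℕ | ω ^ γ' ≤ typeLT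
        (((fun ξ => ψ (ω ^ γ' * (n : Ordinal.{0}) + ξ)) '' Set.Iio (ω ^ γ')) ∩ B : Set X)}) →
        ω ^ (γ' + 1) ≤ typeLT B := by
      intro B hB
      let J : Set ℕ := {n : ℕ | ω ^ γ' ≤ typeLT
        (((fun ξ => ψ (ω ^ γ' * (n : Ordinal.{0}) + ξ)) '' Set.Iio (ω ^ γ')) ∩ B : Set X)}
      have hJ : ω ≤ typeLT J := omega0_le_type_of_infinite hB
      rw [hpow]
      refine (mul_le_mul_right hJ _).trans ?_
      refine type_mul_le (ι := J) (fun n => (((fun ξ => ψ (ω ^ γ' * ((n : ℕ) : Ordinal.{0}) + ξ)) ''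
        Set.Iio (ω ^ γ')) ∩ B : Set X)) _ ?_ ?_ _ (fun n => n.2)
      · intro i j hij a ha b hb
        obtain ⟨⟨ξ, hξ, rfl⟩, _⟩ := ha
        obtain ⟨⟨ζ, hζ, rfl⟩, _⟩ := hb
        have h3 : ((i : ℕ) : Ordinal.{0}) < ((j : ℕ) : Ordinal.{0}) := by
          have h4 : (i : ℕ) < j := hij
          exact_mod_cast h4
        exact hψ (hin _ _ hξ) (hin _ _ hζ) (mul_add_lt_mul_add h3 hξ)
      · rintro n x ⟨_, hx⟩
        exact hx
    by_cases hP : ∀ i, ∃ j, i ≤ j ∧ j ∈ {n : ℕ | ω ^ γ' ≤ typeLT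
        (((fun ξ => ψ (ω ^ γ' * (n : Ordinal.{0}) + ξ)) '' Set.Iio (ω ^ γ')) ∩ P : Set X)}
    · exact Or.inl (hfin P hP)
    · right
      apply hfin
      push Not at hP
      obtain ⟨i₀, hi₀⟩ := hP
      intro i
      exact ⟨max i i₀, le_max_left _ _, (hIH _).resolve_left (hi₀ _ (le_max_right _ _))⟩
  · by_cases hP : ∀ c < γ, ω ^ c ≤ typeLT P
    · left
      refine le_of_forall_lt (fun δ hδ => ?_)
      obtain ⟨c, hc, hδc⟩ := (Ordinal.lt_opow_of_isSuccLimit hω.ne' hlim).1 hδ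
      exact hδc.trans_le (hP c hc)
    · right
      push Not at hP
      obtain ⟨c₀, hc₀, hP⟩ := hP
      refine le_of_forall_lt (fun δ hδ => ?_)
      obtain ⟨c, hc, hδc⟩ := (Ordinal.lt_opow_of_isSuccLimit hω.ne' hlim).1 hδ
      have h1 : max c c₀ < γ := max_lt hc hc₀
      have h2 := ih _ h1 A P Q hA ((Ordinal.opow_le_opow_right hω h1.le).trans hγ)
      rcases h2 with h2 | h2
      · exact absurd ((Ordinal.opow_le_opow_right hω (le_max_right _ _)).trans h2) (not_le.2 hP)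
      · exact hδc.trans_le ((Ordinal.opow_le_opow_right hω (le_max_left _ _)).trans h2)

/-- splitting into two full parts -/
theorem split_two {γ : Ordinal.{0}} (hγ : 1 ≤ γ) {P : Set X} (h : ω ^ γ ≤ typeLT P) :
    ∃ P₀ P₁ : Set X, P₀ ⊆ P ∧ P₁ ⊆ P ∧ Disjoint P₀ P₁ ∧ ω ^ γ ≤ typeLT P₀ ∧ ω ^ γ ≤ typeLT P₁ := by
  have hω : (0 : Ordinal.{0}) < ω := Ordinal.omega0_pos
  have hne : ω ^ γ ≠ 0 := (Ordinal.opow_pos _ hω).ne'
  obtain ⟨ψ, hψP, hψ⟩ := exists_mono h hne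
  have h2 : (2 : Ordinal.{0}) * ω ^ γ = ω ^ γ := by
    obtain ⟨δ, hδ⟩ : ∃ δ, γ = 1 + δ := ⟨γ - 1, (Ordinal.add_sub_cancel_of_le hγ).symm⟩
    rw [hδ, Ordinal.opow_add, Ordinal.opow_one, ← mul_assoc]
    have h3 : (2 : Ordinal.{0}) * ω = ω := by
      have := Ordinal.natCast_mul_omega0 (n := 2) (by norm_num)
      exact_mod_cast this
    rw [h3]
  have hlt0 : ∀ ξ < ω ^ γ, (2 : Ordinal.{0}) * ξ < ω ^ γ := by
    intro ξ hξ
    rw [← h2]
    exact mul_lt_mul_of_pos_left hξ (by norm_num)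
  have hlt1 : ∀ ξ < ω ^ γ, (2 : Ordinal.{0}) * ξ + 1 < ω ^ γ := by
    intro ξ hξ
    rw [← h2]
    exact mul_add_lt_mul hξ (by norm_num)
  refine ⟨(fun ξ => ψ (2 * ξ)) '' Set.Iio (ω ^ γ), (fun ξ => ψ (2 * ξ + 1)) '' Set.Iio (ω ^ γ),
    ?_, ?_, ?_, ?_, ?_⟩
  · rintro _ ⟨ξ, hξ, rfl⟩
    exact hψP _ (hlt0 ξ hξ)
  · rintro _ ⟨ξ, hξ, rfl⟩
    exact hψP _ (hlt1 ξ hξ)
  · rw [Set.disjoint_left]
    rintro _ ⟨ξ, hξ, rfl⟩ ⟨ζ, hζ, hζξ⟩
    have h3 : (2 : Ordinal.{0}) * ζ + 1 = 2 * ξ := hψ.injOn (hlt1 ζ hζ) (hlt0 ξ hξ) hζξ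
    rcases le_or_gt ξ ζ with h4 | h4
    · have h5 : (2 : Ordinal.{0}) * ξ ≤ 2 * ζ := mul_le_mul_right h4 _
      rw [← h3] at h5
      exact absurd h5 (not_le.2 (Order.lt_add_one_iff.2 le_rfl))
    · have h5 : (2 : Ordinal.{0}) * (ζ + 1) ≤ 2 * ξ := mul_le_mul_right (Order.add_one_le_of_lt h4) _
      rw [mul_add_one, ← h3, add_le_add_iff_left] at h5
      exact absurd h5 (by norm_num)
  · refine le_type_image (ψ := fun ξ => ψ (2 * ξ)) ?_ (fun ξ hξ => ⟨ξ, hξ, rfl⟩)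
    intro a ha b hb hab
    exact hψ (hlt0 a ha) (hlt0 b hb) (mul_lt_mul_of_pos_left hab (by norm_num))
  · refine le_type_image (ψ := fun ξ => ψ (2 * ξ + 1)) ?_ (fun ξ hξ => ⟨ξ, hξ, rfl⟩)
    intro a ha b hb hab
    exact hψ (hlt1 a ha) (hlt1 b hb) (mul_add_lt_mul_add hab (by norm_num))

end Types

end Pool.Agent.TH764.OG
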