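import Mathlib
import Pool.Agent.TH764.OG.Cnf
import Pool.Agent.TH764.OG.Char

/-!
# Reduction of `α → (α, infinite path)²` to the terms of the Cantor normal form
-/

set_option autoImplicit false

namespace Pool.Agent.TH764.OG

open Set Cardinal Ordinal

section Pair

variable {X : Type} [LinearOrder X] [WellFoundedLT X] {pred : X → Set X}

/-- antichain -/
def Anti (pred : X → Set X) (A : Set X) : Prop := ∀ x ∈ A, ∀ y ∈ A, x ∉ pred y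

/-- no comparabilities between the two sets -/
def NoEdge (pred : X → Set X) (A B : Set X) : Prop :=
  ∀ x ∈ A, ∀ y ∈ B, x ∉ pred y ∧ y ∉ pred x

omit [LinearOrder X] [WellFoundedLT X] in
lemma Anti.mono {A B : Set X} (h : Anti pred B) (hAB : A ⊆ B) : Anti pred A :=
  fun x hx y hy => h x (hAB hx) y (hAB hy)

lemma pair_half (hT : TreeOrd pred) {γ₁ γ₂ : Ordinal.{0}} (h1 : 1 ≤ γ₁)
    {A₁ P₁ Q₂ : Set X} (hA₁ : Anti pred A₁)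
    (hP₁ : P₁ ⊆ A₁) (hQ₂ : ∀ x ∈ Q₂, ∀ y ∈ A₁, x ∉ pred y)
    (hP : ω ^ γ₁ ≤ typeLT P₁) (hQ : ω ^ γ₂ ≤ typeLT Q₂) :
    ∃ A₁' A₂' : Set X, A₁' ⊆ P₁ ∧ A₂' ⊆ Q₂ ∧ ω ^ γ₁ ≤ typeLT A₁' ∧ ω ^ γ₂ ≤ typeLT A₂' ∧
      NoEdge pred A₁' A₂' := by
  obtain ⟨P0, P1, h3, h4, h5, h6, h7⟩ := split_two h1 hP
  rcases indec γ₂ Q₂ {x | x ∈ Q₂ ∧ ∃ y ∈ P0, y ∈ pred x} {x | x ∈ Q₂ ∧ ∀ y ∈ P0, y ∉ pred x} (by
    intro x hx
    by_cases h : ∃ y ∈ P0, y ∈ pred x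
    · exact Or.inl ⟨hx, h⟩
    · push Not at h
      exact Or.inr ⟨hx, h⟩) hQ with h | h
  · refine ⟨P1, _, h4, fun x hx => hx.1, h7, h, ?_⟩
    rintro y hy x ⟨hx, y', hy', hy'x⟩
    refine ⟨fun hyx => ?_, hQ₂ x hx y (hP₁ (h4 hy))⟩
    rcases hT.chain x y y' hyx hy'x with h8 | h8 | h8
    · subst h8
      exact Set.disjoint_left.1 h5 hy' hy
    · exact hA₁ y (hP₁ (h4 hy)) y' (hP₁ (h3 hy')) h8
    · exact hA₁ y' (hP₁ (h3 hy')) y (hP₁ (h4 hy)) h8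
  · refine ⟨P0, _, h3, fun x hx => hx.1, h6, h, ?_⟩
    rintro y hy x ⟨hx, hx'⟩
    exact ⟨hx' y hy, hQ₂ x hx y (hP₁ (h3 hy))⟩

lemma pair_base (hT : TreeOrd pred) {γ₁ γ₂ : Ordinal.{0}} (h1 : 1 ≤ γ₁) (h2 : 1 ≤ γ₂)
    {A₁ A₂ : Set X} (hA₁ : Anti pred A₁) (hA₂ : Anti pred A₂)
    (ht₁ : ω ^ γ₁ ≤ typeLT A₁) (ht₂ : ω ^ γ₂ ≤ typeLT A₂) :
    ∃ A₁' A₂' : Set X, A₁' ⊆ A₁ ∧ A₂' ⊆ A₂ ∧ ω ^ γ₁ ≤ typeLT A₁' ∧ ω ^ γ₂ ≤ typeLT A₂' ∧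
      NoEdge pred A₁' A₂' := by
  have c1 := indec γ₁ A₁ {y | y ∈ A₁ ∧ ∃ x ∈ A₂, y ∈ pred x} {y | y ∈ A₁ ∧ ∀ x ∈ A₂, y ∉ pred x} (by
    intro y hy
    by_cases h : ∃ x ∈ A₂, y ∈ pred x
    · exact Or.inl ⟨hy, h⟩
    · push Not at h
      exact Or.inr ⟨hy, h⟩) ht₁
  have c2 := indec γ₂ A₂ {y | y ∈ A₂ ∧ ∃ x ∈ A₁, y ∈ pred x} {y | y ∈ A₂ ∧ ∀ x ∈ A₁, y ∉ pred x} (by
    intro y hy
    by_cases h : ∃ x ∈ A₁, y ∈ pred x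
    · exact Or.inl ⟨hy, h⟩
    · push Not at h
      exact Or.inr ⟨hy, h⟩) ht₂
  rcases c1 with c1 | c1 <;> rcases c2 with c2 | c2
  · refine ⟨_, _, fun y hy => hy.1, fun y hy => hy.1, c1, c2, ?_⟩
    rintro y ⟨hy, x, hx, hyx⟩ z ⟨hz, w, hw, hzw⟩
    refine ⟨fun h => ?_, fun h => ?_⟩
    · exact hA₁ y hy w hw (hT.tr _ _ _ h hzw)
    · exact hA₂ z hz x hx (hT.tr _ _ _ h hyx)
  · obtain ⟨B₁, B₂, h3, h4, h5, h6, h7⟩ := pair_half hT (γ₂ := γ₂) h1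
      (P₁ := {y | y ∈ A₁ ∧ ∃ x ∈ A₂, y ∈ pred x}) (Q₂ := {y | y ∈ A₂ ∧ ∀ x ∈ A₁, y ∉ pred x})
      hA₁ (fun y hy => hy.1) (fun x hx y hy => hx.2 y hy) c1 c2
    exact ⟨B₁, B₂, fun y hy => (h3 hy).1, fun y hy => (h4 hy).1, h5, h6, h7⟩
  · obtain ⟨B₂, B₁, h3, h4, h5, h6, h7⟩ := pair_half hT (γ₂ := γ₁) h2
      (P₁ := {y | y ∈ A₂ ∧ ∃ x ∈ A₁, y ∈ pred x}) (Q₂ := {y | y ∈ A₁ ∧ ∀ x ∈ A₂, y ∉ pred x})
      hA₂ (fun y hy => hy.1) (fun x hx y hy => hx.2 y hy) c2 c1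
    exact ⟨B₁, B₂, fun y hy => (h4 hy).1, fun y hy => (h3 hy).1, h6, h5,
      fun x hx y hy => (h7 y hy x hx).symm⟩
  · refine ⟨_, _, fun y hy => hy.1, fun y hy => hy.1, c1, c2, ?_⟩
    rintro y ⟨hy, hy'⟩ z ⟨hz, hz'⟩
    exact ⟨hy' z hz, hz' y hy⟩

/-- decomposition of a limit ordinal -/
lemma limit_decomp {β : Ordinal.{0}} (hβ : Order.IsSuccLimit β) : ∃ γ δ : Ordinal.{0}, 1 ≤ γ ∧
    β = ω ^ γ + δ ∧ δ < β ∧ (δ = 0 ∨ Order.IsSuccLimit δ) := by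
  have hβ0 : β ≠ 0 := fun h => by
    rw [h] at hβ
    exact hβ.ne_bot rfl
  have hωβ : ω ≤ β := Ordinal.omega0_le_of_isSuccLimit hβ
  let γ := Ordinal.log ω β
  have h1 : ω ^ γ ≤ β := Ordinal.opow_log_le_self ω hβ0
  have h2 : β < ω ^ (γ + 1) := by
    have := Ordinal.lt_opow_succ_log_self Ordinal.one_lt_omega0 β
    rwa [Order.succ_eq_add_one] at this
  have hγ1 : 1 ≤ γ := by
    rw [Order.one_le_iff_pos, pos_iff_ne_zero]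
    intro h0
    rw [h0, zero_add, Ordinal.opow_one] at h2
    exact absurd hωβ (not_le.2 h2)
  obtain ⟨δ, hδ⟩ : ∃ δ, β = ω ^ γ + δ := ⟨β - ω ^ γ, (Ordinal.add_sub_cancel_of_le h1).symm⟩
  refine ⟨γ, δ, hγ1, hδ, ?_, ?_⟩
  · have hle : δ ≤ β := by rw [hδ]; exact le_add_self
    refine lt_of_le_of_ne hle ?_
    intro he
    have h3 : ω ^ γ + β = β := by
      conv_rhs => rw [hδ]
      rw [he]
    have h4 := Ordinal.add_eq_right_iff_mul_omega0_le.1 h3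
    rw [Ordinal.opow_add, Ordinal.opow_one] at h2
    exact absurd h4 (not_le.2 h2)
  · rcases Ordinal.zero_or_succ_or_isSuccLimit δ with h0 | ⟨ε, hε⟩ | hlim
    · exact Or.inl h0
    · exfalso
      have h3 : β = Order.succ (ω ^ γ + ε) := by
        rw [hδ, ← hε, Order.succ_eq_add_one, Order.succ_eq_add_one, add_assoc]
      rw [h3] at hβ
      exact Order.not_isSuccLimit_succ _ hβ
    · exact Or.inr hlim

lemma pair_gen (hT : TreeOrd pred) {γ₁ : Ordinal.{0}} (h1 : 1 ≤ γ₁) (α₂ : Ordinal.{0}) :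
    (α₂ = 0 ∨ Order.IsSuccLimit α₂) → ∀ A₁ A₂ : Set X, Anti pred A₁ → Anti pred A₂ →
    ω ^ γ₁ ≤ typeLT A₁ → α₂ ≤ typeLT A₂ →
    ∃ A₁' A₂' : Set X, A₁' ⊆ A₁ ∧ A₂' ⊆ A₂ ∧ ω ^ γ₁ ≤ typeLT A₁' ∧ α₂ ≤ typeLT A₂' ∧
      NoEdge pred A₁' A₂' := by
  induction α₂ using WellFoundedLT.induction with
  | ind α₂ ih =>
  intro hα A₁ A₂ hA₁ hA₂ ht₁ ht₂
  rcases hα with rfl | hα
  · exact ⟨A₁, ∅, subset_rfl, Set.empty_subset _, ht₁, zero_le,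
      fun x _ y hy => absurd hy (Set.notMem_empty y)⟩
  · obtain ⟨γ, δ, hγ, hαδ, hδ, hδ'⟩ := limit_decomp hα
    have h0 : α₂ ≠ 0 := (lt_of_le_of_lt (zero_le (a := δ)) hδ).ne'
    obtain ⟨ψ, hψA, hψ⟩ := exists_mono ht₂ h0
    have hlt1 : ∀ ξ < ω ^ γ, ξ < α₂ := fun ξ hξ => hξ.trans_le (by rw [hαδ]; exact le_self_add)
    have hlt2 : ∀ ξ < δ, ω ^ γ + ξ < α₂ := fun ξ hξ => by
      rw [hαδ]; exact (add_lt_add_iff_left _).2 hξ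
    have ha : ω ^ γ ≤ typeLT (ψ '' Set.Iio (ω ^ γ) : Set X) :=
      le_type_image (hψ.mono fun ξ hξ => hlt1 ξ hξ) (fun ξ hξ => ⟨ξ, hξ, rfl⟩)
    have hb : δ ≤ typeLT ((fun ξ => ψ (ω ^ γ + ξ)) '' Set.Iio δ : Set X) :=
      le_type_image (ψ := fun ξ => ψ (ω ^ γ + ξ))
        (fun a ha b hb hab => hψ (hlt2 a ha) (hlt2 b hb) ((add_lt_add_iff_left _).2 hab))
        (fun ξ hξ => ⟨ξ, hξ, rfl⟩)
    have hsub1 : ψ '' Set.Iio (ω ^ γ) ⊆ A₂ := by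
      rintro _ ⟨ξ, hξ, rfl⟩
      exact hψA _ (hlt1 ξ hξ)
    have hsub2 : (fun ξ => ψ (ω ^ γ + ξ)) '' Set.Iio δ ⊆ A₂ := by
      rintro _ ⟨ξ, hξ, rfl⟩
      exact hψA _ (hlt2 ξ hξ)
    obtain ⟨B₁, B₂, h3, h4, h5, h6, h7⟩ := pair_base hT h1 hγ hA₁ (hA₂.mono hsub1) ht₁ ha
    obtain ⟨C₁, C₂, h8, h9, h10, h11, h12⟩ := ih δ hδ hδ' B₁ _ (hA₁.mono h3) (hA₂.mono hsub2) h5 hb
    refine ⟨C₁, B₂ ∪ C₂, h8.trans h3, Set.union_subset (h4.trans hsub1) (h9.trans hsub2), h10,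
      ?_, ?_⟩
    · rw [hαδ]
      refine (add_le_add h6 h11).trans (type_add_le _ _ _ ?_ Set.subset_union_left
        Set.subset_union_right)
      intro a ha' b hb'
      obtain ⟨ξ, hξ, rfl⟩ := h4 ha'
      obtain ⟨ζ, hζ, rfl⟩ := h9 hb'
      exact hψ (hlt1 ξ hξ) (hlt2 ζ hζ) (lt_of_lt_of_le hξ le_self_add)
    · rintro x hx y (hy | hy)
      · exact h7 x (h8 hx) y hy
      · exact h12 x hx y hy

end Pair

/-- every tree order on a sequence of type `δ` has a large antichain -/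
def Good (δ : Ordinal.{0}) : Prop :=
  ∀ (X : Type) [LinearOrder X] [WellFoundedLT X] (pred : X → Set X), TreeOrd pred →
    ∀ φ : Ordinal.{0} → X, StrictMonoOn φ (Set.Iio δ) →
      ∃ A ⊆ φ '' Set.Iio δ, Anti pred A ∧ δ ≤ typeLT A

lemma Good.rel {α : Ordinal.{0}} (h : Good α) : Rel α := by
  classical
  intro G
  by_cases hpath : ∃ v : ℕ → α.ToType, Function.Injective v ∧ ∀ n, G.Adj (v n) (v (n + 1))
  · exact Or.inr hpath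
  left
  rcases isEmpty_or_nonempty α.ToType with he | hne
  · refine ⟨∅, fun x hx => absurd hx (Set.notMem_empty x), ?_⟩
    have h0 : α = 0 := by
      rw [← Ordinal.card_eq_zero, ← Cardinal.mk_toType, Cardinal.mk_eq_zero_iff]
      exact he
    exact le_antisymm (type_le_self _) (by rw [h0]; exact zero_le)
  · obtain ⟨pred, hT, hG⟩ := exists_treeOrd G (by
      intro v hv hadj
      exact hpath ⟨v, hv, hadj⟩)
    obtain ⟨x₀⟩ : Nonempty α.ToType := inferInstance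
    obtain ⟨A, _, hA, htype⟩ := h α.ToType pred hT
      (fun ξ => if h : ξ < α then ToType.mk (⟨ξ, h⟩ : Set.Iio α) else x₀) (by
        intro a ha b hb hab
        have ha' : a < α := ha
        have hb' : b < α := hb
        simp only [dif_pos ha', dif_pos hb']
        rw [OrderIso.lt_iff_lt]
        exact hab)
    refine ⟨A, ?_, le_antisymm (type_le_self _) htype⟩
    intro x hx y hy _ hxy
    rcases hG x y hxy with h | h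
    · exact hA x hx y hy h
    · exact hA y hy x hx h

lemma Rel.good {α : Ordinal.{0}} (h : Rel α) : Good α := by
  classical
  intro X _ _ pred hT φ hφ
  let ψ : α.ToType → X := fun i => φ (ToType.toOrd i : Ordinal.{0})
  have hψ : StrictMono ψ := fun a b hab =>
    hφ (ToType.toOrd a).2 (ToType.toOrd b).2 (toOrd_lt_toOrd.2 hab)
  let G : SimpleGraph α.ToType :=
    { Adj := fun x y => ψ x ∈ pred (ψ y) ∨ ψ y ∈ pred (ψ x)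
      symm := ⟨fun x y h => h.symm⟩
      loopless := ⟨fun x h => by
        rcases h with h | h <;> exact hT.irr _ h⟩ }
  rcases h G with ⟨Y, hY1, hY2⟩ | ⟨f, hf1, hf2⟩
  · refine ⟨ψ '' Y, ?_, ?_, ?_⟩
    · rintro _ ⟨y, _, rfl⟩
      exact ⟨_, (ToType.toOrd y).2, rfl⟩
    · rintro _ ⟨x, hx, rfl⟩ _ ⟨y, hy, rfl⟩ hxy
      have hne : x ≠ y := by
        rintro rfl
        exact hT.irr _ hxy
      exact hY1 hx hy hne (Or.inl hxy)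
    · conv_lhs => rw [← hY2]
      rw [Ordinal.type_le_iff']
      exact ⟨RelEmbedding.ofMonotone (fun y : Y => (⟨ψ y, ⟨y.1, y.2, rfl⟩⟩ : ψ '' Y))
        (fun a b hab => hψ hab)⟩
  · exact (no_ray hT (fun n => ψ (f n)) (hψ.injective.comp hf1) hf2).elim

lemma Good.add {γ δ : Ordinal.{0}} (hγ : 1 ≤ γ) (hδ : δ = 0 ∨ Order.IsSuccLimit δ)
    (h1 : Good (ω ^ γ)) (h2 : Good δ) : Good (ω ^ γ + δ) := by
  intro X _ _ pred hT φ hφ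
  have hlt1 : ∀ ξ < ω ^ γ, ξ < ω ^ γ + δ := fun ξ hξ => hξ.trans_le le_self_add
  have hlt2 : ∀ ξ < δ, ω ^ γ + ξ < ω ^ γ + δ := fun ξ hξ => (add_lt_add_iff_left _).2 hξ
  obtain ⟨A₁, hA₁, hA₁', ht₁⟩ := h1 X pred hT φ (hφ.mono fun ξ hξ => hlt1 ξ hξ)
  obtain ⟨A₂, hA₂, hA₂', ht₂⟩ := h2 X pred hT (fun ξ => φ (ω ^ γ + ξ))
    (fun a ha b hb hab => hφ (hlt2 a ha) (hlt2 b hb) ((add_lt_add_iff_left _).2 hab))
  obtain ⟨B₁, B₂, h3, h4, h5, h6, h7⟩ := pair_gen hT hγ δ hδ A₁ A₂ hA₁' hA₂' ht₁ ht₂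
  refine ⟨B₁ ∪ B₂, ?_, ?_, ?_⟩
  · rintro x (hx | hx)
    · obtain ⟨ξ, hξ, rfl⟩ := hA₁ (h3 hx)
      exact ⟨ξ, hlt1 ξ hξ, rfl⟩
    · obtain ⟨ξ, hξ, rfl⟩ := hA₂ (h4 hx)
      exact ⟨_, hlt2 ξ hξ, rfl⟩
  · rintro x (hx | hx) y (hy | hy)
    · exact hA₁' x (h3 hx) y (h3 hy)
    · exact (h7 x hx y hy).1
    · exact (h7 y hy x hx).2
    · exact hA₂' x (h4 hx) y (h4 hy)
  · refine (add_le_add h5 h6).trans (type_add_le _ _ _ ?_ Set.subset_union_left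
      Set.subset_union_right)
    intro a ha b hb
    obtain ⟨ξ, hξ, rfl⟩ := hA₁ (h3 ha)
    obtain ⟨ζ, hζ, rfl⟩ := hA₂ (h4 hb)
    exact hφ (hlt1 ξ hξ) (hlt2 ζ hζ) (lt_of_lt_of_le hξ le_self_add)

end Pool.Agent.TH764.OG
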