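import Mathlib
import Pool.Agent.TH764.OG.Cnf2

/-!
# Reduction of `α → (α, infinite path)²` to the terms of the Cantor normal form, continued
-/

set_option autoImplicit false

namespace Pool.Agent.TH764.OG

open Set Cardinal Ordinal

lemma dvd_or {x : Ordinal.{0}} (h : ω ∣ x) : x = 0 ∨ Order.IsSuccLimit x := by
  rcases eq_or_ne x 0 with h0 | h0
  · exact Or.inl h0
  · refine Or.inr ⟨?_, Ordinal.isSuccPrelimit_iff_omega0_dvd.2 h⟩
    rwa [isMin_iff_eq_bot]

lemma dvd_opow {γ : Ordinal.{0}} (hγ : 1 ≤ γ) : ω ∣ ω ^ γ := by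
  obtain ⟨δ, hδ⟩ : ∃ δ, γ = 1 + δ := ⟨γ - 1, (Ordinal.add_sub_cancel_of_le hγ).symm⟩
  rw [hδ, Ordinal.opow_add, Ordinal.opow_one]
  exact dvd_mul_right _ _

lemma good_zero : Good 0 := by
  intro X _ _ pred _ φ _
  exact ⟨∅, Set.empty_subset _, fun x hx => absurd hx (Set.notMem_empty x), zero_le⟩

/-- data of the leading term -/
lemma lead {α : Ordinal.{0}} (h0 : α ≠ 0) : ∃ (γ : Ordinal.{0}) (n : ℕ) (r : Ordinal.{0}),
    α = ω ^ γ * ((n + 1 : ℕ) : Ordinal.{0}) + r ∧ r < ω ^ γ ∧ ω ^ γ ≤ α ∧ α < ω ^ (γ + 1) ∧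
    (CNF ω α).map Prod.fst = γ :: (CNF ω r).map Prod.fst := by
  let γ := Ordinal.log ω α
  have hω : (0 : Ordinal.{0}) < ω := Ordinal.omega0_pos
  have hB : ω ^ γ ≠ 0 := (Ordinal.opow_pos γ hω).ne'
  have h1 : ω ^ γ ≤ α := Ordinal.opow_log_le_self ω h0
  have h2 : α < ω ^ (γ + 1) := by
    have := Ordinal.lt_opow_succ_log_self Ordinal.one_lt_omega0 α
    rwa [Order.succ_eq_add_one] at this
  have hq : α / ω ^ γ < ω := by
    refine (Ordinal.lt_mul_iff_div_lt hB).1 ?_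
    rw [Ordinal.opow_add, Ordinal.opow_one] at h2
    exact h2
  obtain ⟨m, hm⟩ := Ordinal.lt_omega0.1 hq
  have hqr : ω ^ γ * (α / ω ^ γ) + α % ω ^ γ = α := Ordinal.div_add_mod α (ω ^ γ)
  have hr : α % ω ^ γ < ω ^ γ := Ordinal.mod_lt α hB
  have hm0 : m ≠ 0 := by
    rintro rfl
    rw [hm, Nat.cast_zero, mul_zero, zero_add] at hqr
    rw [hqr] at hr
    exact absurd h1 (not_le.2 hr)
  obtain ⟨n, rfl⟩ := Nat.exists_eq_succ_of_ne_zero hm0
  refine ⟨γ, n, α % ω ^ γ, ?_, hr, h1, h2, ?_⟩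
  · rw [← hm]
    exact hqr.symm
  · rw [Ordinal.CNF.ne_zero h0]
    rfl

lemma good_of_terms (α : Ordinal.{0}) : ω ∣ α →
    (∀ γ ∈ (CNF ω α).map Prod.fst, Good (ω ^ γ)) → Good α := by
  induction α using WellFoundedLT.induction with
  | ind α ih =>
  intro hdvd hterm
  rcases eq_or_ne α 0 with rfl | h0
  · exact good_zero
  · obtain ⟨γ, n, r, hα, hr, h1, h2, h3⟩ := lead h0
    have hγ1 : 1 ≤ γ := by
      rw [Order.one_le_iff_pos, pos_iff_ne_zero]
      intro h4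
      rw [h4, zero_add, Ordinal.opow_one] at h2
      exact absurd (Ordinal.le_of_dvd h0 hdvd) (not_le.2 h2)
    have hdvd' : ∀ m : ℕ, ω ∣ ω ^ γ * (m : Ordinal.{0}) := fun m => (dvd_opow hγ1).mul_right _
    have hrd : ω ∣ r := by
      rw [hα] at hdvd
      exact (Ordinal.dvd_add_iff (hdvd' (n + 1))).1 hdvd
    rw [h3] at hterm
    have hGr : Good r := ih r (hr.trans_le h1) hrd (fun δ hδ => hterm δ (List.mem_cons_of_mem _ hδ))
    have hGγ : Good (ω ^ γ) := hterm γ List.mem_cons_self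
    have key : ∀ m : ℕ, Good (ω ^ γ * (m : Ordinal.{0}) + r) := by
      intro m
      induction m with
      | zero =>
        rw [Nat.cast_zero, mul_zero, zero_add]
        exact hGr
      | succ m ihm =>
        have h4 : ω ^ γ * ((m + 1 : ℕ) : Ordinal.{0}) + r =
            ω ^ γ + (ω ^ γ * (m : Ordinal.{0}) + r) := by
          have h5 : ((m + 1 : ℕ) : Ordinal.{0}) = 1 + (m : Ordinal.{0}) := by
            rw [Nat.add_comm]
            push_cast
            rfl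
          rw [h5, mul_add, mul_one, add_assoc]
        rw [h4]
        exact Good.add hγ1 (dvd_or (dvd_add (hdvd' m) hrd)) hGγ ihm
    rw [hα]
    exact key (n + 1)

/-- position of a term -/
lemma cnf_split (α : Ordinal.{0}) : ∀ γ ∈ (CNF ω α).map Prod.fst, ∃ β δ : Ordinal.{0},
    α = β + ω ^ γ + δ ∧ δ < ω ^ (γ + 1) := by
  induction α using WellFoundedLT.induction with
  | ind α ih =>
  intro γ' hγ'
  rcases eq_or_ne α 0 with rfl | h0
  · rw [Ordinal.CNF.zero_right] at hγ'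
    exact absurd hγ' (by simp)
  · obtain ⟨γ, n, r, hα, hr, h1, h2, h3⟩ := lead h0
    rw [h3] at hγ'
    rcases List.mem_cons.1 hγ' with rfl | hγ''
    · refine ⟨0, ω ^ γ' * (n : Ordinal.{0}) + r, ?_, ?_⟩
      · rw [zero_add]
        conv_lhs => rw [hα]
        have h5 : ((n + 1 : ℕ) : Ordinal.{0}) = 1 + (n : Ordinal.{0}) := by
          rw [Nat.add_comm]
          push_cast
          rfl
        rw [h5, mul_add, mul_one, add_assoc]
      · refine lt_of_le_of_lt ?_ h2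
        conv_rhs => rw [hα]
        exact add_le_add (mul_le_mul_right (by exact_mod_cast Nat.le_succ n) _) le_rfl
    · obtain ⟨β, δ, h4, h5⟩ := ih r (hr.trans_le h1) γ' hγ''
      refine ⟨ω ^ γ * ((n + 1 : ℕ) : Ordinal.{0}) + β, δ, ?_, h5⟩
      conv_lhs => rw [hα, h4]
      simp only [add_assoc]

lemma add_lt_add_of_lt {γ σ δ : Ordinal.{0}} (hσ : σ < ω ^ γ) (hδ : δ < ω ^ (γ + 1)) :
    σ + δ < ω ^ γ + δ := by
  refine lt_of_le_of_ne (add_le_add hσ.le le_rfl) ?_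
  intro h
  have h1 : σ + ω ^ γ = ω ^ γ := Ordinal.add_omega0_opow hσ
  rw [← h1, add_assoc, add_right_inj] at h
  have h2 := Ordinal.add_eq_right_iff_mul_omega0_le.1 h.symm
  rw [Ordinal.opow_add, Ordinal.opow_one] at hδ
  exact absurd h2 (not_le.2 hδ)

lemma type_le_add {X : Type} [LinearOrder X] [WellFoundedLT X] (A L R : Set X) (h : A ⊆ L ∪ R)
    (hLR : ∀ a ∈ L, ∀ b ∈ R, a < b) : typeLT A ≤ typeLT L + typeLT R := by
  classical
  rw [← Ordinal.type_sum_lex, Ordinal.type_le_iff']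
  refine ⟨RelEmbedding.ofMonotone (fun a : A => (if ha : a.1 ∈ L then Sum.inl ⟨a.1, ha⟩
    else Sum.inr ⟨a.1, (h a.2).resolve_left ha⟩ : L ⊕ R)) ?_⟩
  intro a b hab
  have hab' : a.1 < b.1 := hab
  by_cases ha : a.1 ∈ L <;> by_cases hb : b.1 ∈ L
  · simp only [dif_pos ha, dif_pos hb, Sum.lex_inl_inl]
    exact hab'
  · simp only [dif_pos ha, dif_neg hb]
    exact Sum.Lex.sep _ _
  · exact absurd (hLR b.1 hb a.1 ((h a.2).resolve_left ha)) (not_lt.2 hab'.le)
  · simp only [dif_neg ha, dif_neg hb, Sum.lex_inr_inr]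
    exact hab'

/-- a failure at a term gives a failure at the ordinal -/
theorem Rel.term {β γ δ : Ordinal.{0}} (hδ : δ < ω ^ (γ + 1)) (h : Rel (β + ω ^ γ + δ)) :
    Rel (ω ^ γ) := by
  classical
  intro G
  by_cases hpath : ∃ f : ℕ → (ω ^ γ).ToType, Function.Injective f ∧ ∀ n, G.Adj (f n) (f (n + 1))
  · exact Or.inr hpath
  left
  by_contra hind
  let α : Ordinal.{0} := β + ω ^ γ + δ
  have hinj : ∀ i j : (ω ^ γ).ToType, β + (ToType.toOrd i : Ordinal.{0}) =
      β + (ToType.toOrd j : Ordinal.{0}) → i = j := by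
    intro i j hij
    rw [add_right_inj] at hij
    exact ToType.mk.symm.injective (Subtype.ext hij)
  let G' : SimpleGraph α.ToType :=
    { Adj := fun x y => ∃ i j : (ω ^ γ).ToType,
        (ToType.toOrd x : Ordinal.{0}) = β + (ToType.toOrd i : Ordinal.{0}) ∧
        (ToType.toOrd y : Ordinal.{0}) = β + (ToType.toOrd j : Ordinal.{0}) ∧ G.Adj i j
      symm := ⟨fun x y ⟨i, j, h1, h2, h3⟩ => ⟨j, i, h2, h1, h3.symm⟩⟩
      loopless := ⟨fun x ⟨i, j, h1, h2, h3⟩ => by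
        have := hinj i j (h1.symm.trans h2)
        subst this
        exact G.loopless.irrefl i h3⟩ }
  rcases h G' with ⟨Y, hY1, hY2⟩ | ⟨f, hf1, hf2⟩
  · -- the middle part
    let M : Set (ω ^ γ).ToType := {i | ∃ x ∈ Y,
      (ToType.toOrd x : Ordinal.{0}) = β + (ToType.toOrd i : Ordinal.{0})}
    have hM : G.IsIndepSet M := by
      rintro i ⟨x, hx, hxi⟩ j ⟨y, hy, hyj⟩ hij hadj
      refine hY1 hx hy ?_ ⟨i, j, hxi, hyj, hadj⟩
      rintro rfl
      exact hij (hinj i j (hxi.symm.trans hyj))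
    have hσ : typeLT M < ω ^ γ :=
      lt_of_le_of_ne (type_le_self _) (fun h' => hind ⟨M, hM, h'⟩)
    have hlow : typeLT (Y ∩ {x | (ToType.toOrd x : Ordinal.{0}) < β} : Set α.ToType) ≤ β := by
      conv_rhs => rw [← Ordinal.type_toType β]
      rw [Ordinal.type_le_iff']
      exact ⟨RelEmbedding.ofMonotone (fun x => ToType.mk (⟨_, x.2.2⟩ : Set.Iio β))
        (fun a b hab => (OrderIso.lt_iff_lt _).2 (toOrd_lt_toOrd.2 hab))⟩
    have hmid : typeLT (Y ∩ {x | β ≤ (ToType.toOrd x : Ordinal.{0}) ∧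
        (ToType.toOrd x : Ordinal.{0}) < β + ω ^ γ} : Set α.ToType) ≤ typeLT M := by
      have hex : ∀ x : (Y ∩ {x | β ≤ (ToType.toOrd x : Ordinal.{0}) ∧
        (ToType.toOrd x : Ordinal.{0}) < β + ω ^ γ} : Set α.ToType), ∃ i : (ω ^ γ).ToType,
        (ToType.toOrd x.1 : Ordinal.{0}) = β + (ToType.toOrd i : Ordinal.{0}) := by
        rintro ⟨x, hx, hx1, hx2⟩
        have h1 : (ToType.toOrd x : Ordinal.{0}) - β < ω ^ γ := by
          rw [← add_lt_add_iff_left β, Ordinal.add_sub_cancel_of_le hx1]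
          exact hx2
        refine ⟨ToType.mk (⟨_, h1⟩ : Set.Iio (ω ^ γ)), ?_⟩
        have h3 : ToType.toOrd (ToType.mk (⟨(ToType.toOrd x : Ordinal.{0}) - β, h1⟩ :
            Set.Iio (ω ^ γ))) = ⟨(ToType.toOrd x : Ordinal.{0}) - β, h1⟩ := by simp
        rw [h3]
        exact (Ordinal.add_sub_cancel_of_le hx1).symm
      choose idx hidx using hex
      rw [Ordinal.type_le_iff']
      refine ⟨RelEmbedding.ofMonotone (fun x => (⟨idx x, x.1, x.2.1, hidx x⟩ : M)) ?_⟩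
      intro a b hab
      have h1 : (ToType.toOrd a.1 : Ordinal.{0}) < ToType.toOrd b.1 := toOrd_lt_toOrd.2 hab
      rw [hidx a, hidx b, add_lt_add_iff_left] at h1
      exact toOrd_lt_toOrd.1 h1
    have hhigh : typeLT (Y ∩ {x | β + ω ^ γ ≤ (ToType.toOrd x : Ordinal.{0})} : Set α.ToType) ≤
        δ := by
      conv_rhs => rw [← Ordinal.type_toType δ]
      rw [Ordinal.type_le_iff']
      have h1 : ∀ x : α.ToType, β + ω ^ γ ≤ (ToType.toOrd x : Ordinal.{0}) →
          (ToType.toOrd x : Ordinal.{0}) - (β + ω ^ γ) < δ := by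
        intro x hx
        rw [← add_lt_add_iff_left (β + ω ^ γ), Ordinal.add_sub_cancel_of_le hx]
        exact (ToType.toOrd x).2
      refine ⟨RelEmbedding.ofMonotone (fun x => ToType.mk (⟨_, h1 x.1 x.2.2⟩ : Set.Iio δ)) ?_⟩
      intro a b hab
      refine (OrderIso.lt_iff_lt _).2 ?_
      change (ToType.toOrd a.1 : Ordinal.{0}) - (β + ω ^ γ) <
        (ToType.toOrd b.1 : Ordinal.{0}) - (β + ω ^ γ)
      rw [← add_lt_add_iff_left (β + ω ^ γ), Ordinal.add_sub_cancel_of_le a.2.2,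
        Ordinal.add_sub_cancel_of_le b.2.2]
      exact toOrd_lt_toOrd.2 hab
    have hsum : typeLT Y ≤ β + (typeLT M + δ) := by
      refine (type_le_add Y (Y ∩ {x | (ToType.toOrd x : Ordinal.{0}) < β})
        (Y ∩ {x | β ≤ (ToType.toOrd x : Ordinal.{0})}) ?_ ?_).trans
        (add_le_add hlow ((type_le_add _ (Y ∩ {x | β ≤ (ToType.toOrd x : Ordinal.{0}) ∧
        (ToType.toOrd x : Ordinal.{0}) < β + ω ^ γ})
        (Y ∩ {x | β + ω ^ γ ≤ (ToType.toOrd x : Ordinal.{0})}) ?_ ?_).trans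
        (add_le_add hmid hhigh)))
      · intro x hx
        rcases lt_or_ge (ToType.toOrd x : Ordinal.{0}) β with h' | h'
        · exact Or.inl ⟨hx, h'⟩
        · exact Or.inr ⟨hx, h'⟩
      · rintro a ⟨_, ha⟩ b ⟨_, hb⟩
        exact toOrd_lt_toOrd.1 (lt_of_lt_of_le ha hb)
      · rintro x ⟨hx, hx'⟩
        rcases lt_or_ge (ToType.toOrd x : Ordinal.{0}) (β + ω ^ γ) with h' | h'
        · exact Or.inl ⟨hx, hx', h'⟩
        · exact Or.inr ⟨hx, h'⟩
      · rintro a ⟨_, _, ha⟩ b ⟨_, hb⟩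
        exact toOrd_lt_toOrd.1 (lt_of_lt_of_le ha hb)
    rw [hY2, add_assoc] at hsum
    exact absurd hsum (not_le.2 ((add_lt_add_iff_left β).2 (add_lt_add_of_lt hσ hδ)))
  · apply hpath
    choose a b ha hb hab using hf2
    have h1 : ∀ n, b n = a (n + 1) := fun n => hinj _ _ ((hb n).symm.trans (ha (n + 1)))
    refine ⟨a, ?_, fun n => ?_⟩
    · intro m n hmn
      apply hf1
      have h2 : (ToType.toOrd (f m) : Ordinal.{0}) = ToType.toOrd (f n) := by
        rw [ha m, ha n, hmn]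
      exact ToType.mk.symm.injective (Subtype.ext h2)
    · rw [← h1 n]
      exact hab n

/-- The reduction to the terms of the Cantor normal form. -/
theorem rel_iff_terms {α : Ordinal.{0}} (hα : Order.IsSuccLimit α) :
    Rel α ↔ ∀ γ ∈ (CNF ω α).map Prod.fst, Rel (ω ^ γ) := by
  constructor
  · intro h γ hγ
    obtain ⟨β, δ, h1, h2⟩ := cnf_split α γ hγ
    rw [h1] at h
    exact Rel.term h2 h
  · intro h
    exact (good_of_terms α (Ordinal.isSuccPrelimit_iff_omega0_dvd.1 hα.isSuccPrelimit)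
      (fun γ hγ => (h γ hγ).good)).rel

end Pool.Agent.TH764.OG
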