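import Mathlib
import Pool.Agent.TH764.OG.RegTop

/-!
# Families of small subsets of `κ ^ ν`
-/

set_option autoImplicit false

namespace Pool.Agent.TH764.OG

open Set Cardinal Ordinal

variable {κ θ : Cardinal.{0}} {X : Type} [LinearOrder X] [WellFoundedLT X]

/-- Any `θ` many subsets of `κ` of size `< κ` contain `θ` many that omit a common point. -/
def Stab (κ θ : Cardinal.{0}) : Prop :=
  ∀ (D : Type) (Z : D → Set κ.ord.ToType), θ ≤ #D → (∀ i, #(Z i) < κ) →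
    ∃ D' : Set D, θ ≤ #D' ∧ ∃ ζ, ∀ i ∈ D', ζ ∉ Z i

lemma exists_notMem_iUnion {ι : Type} (Z : ι → Set κ.ord.ToType)
    (h : #(⋃ i, Z i : Set κ.ord.ToType) < κ) : ∃ ζ, ∀ i, ζ ∉ Z i := by
  by_contra hcon
  push Not at hcon
  have h2 : (⋃ i, Z i) = Set.univ := by
    ext ζ
    simp only [Set.mem_iUnion, Set.mem_univ, iff_true]
    exact hcon ζ
  rw [h2, Cardinal.mk_univ, Cardinal.mk_ord_toType] at h
  exact lt_irrefl _ h

lemma stab_regular (hκ : κ.IsRegular) (hθκ : θ < κ) : Stab κ θ := by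
  intro D Z hD hZ
  obtain ⟨D', hD'⟩ := Cardinal.le_mk_iff_exists_set.1 hD
  obtain ⟨ζ, hζ⟩ := exists_notMem_iUnion (fun i : D' => Z i.1)
    (iUnion_lt hκ (by rw [hD']; exact hθκ) _ (fun i => hZ i.1))
  exact ⟨D', hD'.ge, ζ, fun i hi => hζ ⟨i, hi⟩⟩

lemma stab_singular (hκ : ℵ₀ ≤ κ) (hθ : θ.IsRegular) (hcof : κ.ord.cof < θ) (hθκ : θ < κ) :
    Stab κ θ := by
  intro D Z hD hZ
  obtain ⟨s, hs, hs'⟩ := Order.exists_cof_eq (α := κ.ord.ToType)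
  rw [Ordinal.cof_toType] at hs'
  have h1 : ∀ i, ∃ m : s, (#(Z i)).ord ≤ (ToType.toOrd m.1 : Ordinal.{0}) := by
    intro i
    have h2 : (#(Z i)).ord < κ.ord := Cardinal.ord_lt_ord.2 (hZ i)
    obtain ⟨m, hm, hm'⟩ := hs (ToType.mk (⟨_, h2⟩ : Set.Iio κ.ord))
    refine ⟨⟨m, hm⟩, ?_⟩
    have h3 := toOrd_le_toOrd.2 hm'
    simpa using h3
  choose m hm using h1
  obtain ⟨a, ha⟩ := Cardinal.infinite_pigeonhole_card m θ hD hθ.aleph0_le
    (by rw [hθ.cof_ord, hs']; exact hcof)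
  obtain ⟨D', hD'⟩ := Cardinal.le_mk_iff_exists_set.1 ha
  have hlt : #(⋃ i : D', Z i.1.1 : Set κ.ord.ToType) < κ := by
    refine lt_of_le_of_lt (Cardinal.mk_iUnion_le_sum_mk.trans
      (Cardinal.sum_le_sum _ (fun _ => ((ToType.toOrd a.1 : Ordinal.{0})).card) ?_)) ?_
    · intro i
      have h4 : m i.1.1 = a := i.1.2
      have h5 := hm i.1.1
      rw [h4] at h5
      have := Ordinal.card_le_card h5
      rwa [Cardinal.card_ord] at this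
    · rw [Cardinal.sum_const, Cardinal.lift_id, Cardinal.lift_id, hD']
      exact Cardinal.mul_lt_of_lt hκ hθκ (Cardinal.lt_ord.1 (ToType.toOrd a.1).2)
  obtain ⟨ζ, hζ⟩ := exists_notMem_iUnion _ hlt
  refine ⟨Subtype.val '' D', ?_, ζ, ?_⟩
  · rw [Cardinal.mk_image_eq Subtype.val_injective, hD']
  · rintro _ ⟨i, hi, rfl⟩
    exact hζ ⟨i, hi⟩

/-- If each block of `κ ^ ν * q` contains a part of `A` of type `κ ^ ν`, the type of `A` is at least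
`κ ^ ν * q`. -/
lemma type_blocks {B q : Ordinal.{0}} (φ : Ordinal.{0} → X)
    (hφ : StrictMonoOn φ (Set.Iio (B * q))) (A : Set X) (Z : Set q.ToType)
    (hZ : ∀ ζ ∈ Z, B ≤ typeLT ((fun ξ => φ (B * (ToType.toOrd ζ : Ordinal.{0}) + ξ)) ''
      Set.Iio B ∩ A : Set X)) : B * typeLT Z ≤ typeLT (φ '' Set.Iio (B * q) ∩ A : Set X) := by
  refine type_mul_le (ι := Z) (fun ζ =>
    ((fun ξ => φ (B * (ToType.toOrd ζ.1 : Ordinal.{0}) + ξ)) '' Set.Iio B ∩ A : Set X))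
    (φ '' Set.Iio (B * q) ∩ A : Set X) ?_ ?_ B (fun ζ => hZ ζ.1 ζ.2)
  · intro i j hij a ha b hb
    obtain ⟨⟨ξ, hξ, rfl⟩, _⟩ := ha
    obtain ⟨⟨ζ, hζ, rfl⟩, _⟩ := hb
    exact hφ (mul_add_lt_mul (ToType.toOrd i.1).2 hξ)
      (mul_add_lt_mul (ToType.toOrd j.1).2 hζ)
      (mul_add_lt_mul_add (toOrd_lt_toOrd.2 hij) hξ)
  · rintro j a ⟨⟨ξ, hξ, rfl⟩, ha⟩
    exact ⟨⟨_, mul_add_lt_mul (ToType.toOrd j.1).2 hξ, rfl⟩, ha⟩

lemma toOrd_mk' {o c : Ordinal.{0}} (hc : c < o) :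
    (ToType.toOrd (ToType.mk (⟨c, hc⟩ : Set.Iio o)) : Ordinal.{0}) = c := by
  have h3 : ToType.toOrd (ToType.mk (⟨c, hc⟩ : Set.Iio o)) = ⟨c, hc⟩ := by simp
  rw [h3]

lemma mk_sub_type {D : Type} (D' : Set D) (P : D → Prop) :
    #{i : D' | P i.1} ≤ #{i : D | P i} :=
  Cardinal.mk_le_of_injective (f := fun i : {i : D' | P i.1} => (⟨i.1.1, i.2⟩ : {i : D | P i}))
    (fun a b hab => by
      have h1 : a.1.1 = b.1.1 := congrArg (fun z : {i : D | P i} => z.1) hab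
      exact Subtype.ext (Subtype.ext h1))

/-- Exponents below `θ`. -/
theorem nf_lt (hκ : ℵ₀ ≤ κ) (hθ : θ.IsRegular) (hS : Stab κ θ) (ν : Ordinal.{0}) : ν < θ.ord →
    ∀ (D : Type) (T : D → Set X), θ ≤ #D → ∀ φ : Ordinal.{0} → X,
    StrictMonoOn φ (Set.Iio (κ.ord ^ ν)) →
    (∀ i, typeLT (φ '' Set.Iio (κ.ord ^ ν) ∩ T i : Set X) < κ.ord ^ ν) →
    ∃ ξ < κ.ord ^ ν, θ ≤ #{i | φ ξ ∉ T i} := by
  classical
  have hK : (0 : Ordinal.{0}) < κ.ord := by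
    rw [Cardinal.ord_pos]
    exact Cardinal.aleph0_pos.trans_le hκ
  induction ν using WellFoundedLT.induction with
  | ind ν ih =>
  intro hνθ D T hD φ hφ hT
  rcases Ordinal.zero_or_succ_or_isSuccLimit ν with h0 | ⟨ν', hν'⟩ | hlim
  · subst h0
    refine ⟨0, by rw [Ordinal.opow_zero]; exact zero_lt_one, ?_⟩
    have h1 : {i | φ 0 ∉ T i} = Set.univ := by
      ext i
      simp only [Set.mem_ofPred_eq, Set.mem_univ, iff_true]
      intro hmem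
      have h2 := hT i
      rw [Ordinal.opow_zero] at h2
      have h3 : (1 : Ordinal.{0}) ≤ typeLT (φ '' Set.Iio 1 ∩ T i : Set X) := by
        rw [Order.one_le_iff_pos, pos_iff_ne_zero]
        intro h4
        rw [Ordinal.type_eq_zero_iff_isEmpty] at h4
        exact h4.false ⟨φ 0, ⟨0, by simp, rfl⟩, hmem⟩
      exact absurd h2 (not_lt.2 h3)
    rw [h1, Cardinal.mk_univ]
    exact hD
  · have hν'' : ν = ν' + 1 := by rw [← hν']; exact (Order.succ_eq_add_one ν')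
    subst hν''
    have hlt : ν' < ν' + 1 := Order.lt_add_one_iff.2 le_rfl
    have hpow' : κ.ord ^ (ν' + 1) = κ.ord ^ ν' * κ.ord := by
      rw [Ordinal.opow_add, Ordinal.opow_one]
    have hB : 0 < κ.ord ^ ν' := Ordinal.opow_pos ν' hK
    rw [hpow'] at hφ hT ⊢
    let Z : D → Set κ.ord.ToType := fun i => {ζ | κ.ord ^ ν' ≤
      typeLT ((fun ξ => φ (κ.ord ^ ν' * (ToType.toOrd ζ : Ordinal.{0}) + ξ)) ''
        Set.Iio (κ.ord ^ ν') ∩ T i : Set X)}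
    have hZ : ∀ i, #(Z i) < κ := by
      intro i
      by_contra hcon
      rw [not_lt] at hcon
      have h1 : κ.ord ≤ typeLT (Z i) :=
        (Cardinal.ord_le_ord.2 hcon).trans (Cardinal.ord_le_type _)
      have h2 := type_blocks φ hφ (T i) (Z i) (fun ζ hζ => hζ)
      exact absurd ((mul_le_mul_right h1 _).trans h2) (not_le.2 (hT i))
    obtain ⟨D', hD', ζ, hζ⟩ := hS D Z hD hZ
    obtain ⟨ξ, hξ, hξ'⟩ := ih ν' hlt (hlt.trans hνθ) D' (fun i => T i.1) hD'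
      (fun ξ => φ (κ.ord ^ ν' * (ToType.toOrd ζ : Ordinal.{0}) + ξ)) (by
        intro a ha b hb hab
        exact hφ (mul_add_lt_mul (ToType.toOrd ζ).2 ha) (mul_add_lt_mul (ToType.toOrd ζ).2 hb)
          ((add_lt_add_iff_left _).2 hab)) (fun i => not_le.1 (hζ i.1 i.2))
    exact ⟨_, mul_add_lt_mul (ToType.toOrd ζ).2 hξ, hξ'.trans (mk_sub_type D' _)⟩
  · have h1 : ∀ i, ∃ c : ν.ToType, typeLT (φ '' Set.Iio (κ.ord ^ ν) ∩ T i : Set X) <
        κ.ord ^ (ToType.toOrd c : Ordinal.{0}) := by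
      intro i
      obtain ⟨c, hc, hc'⟩ := (Ordinal.lt_opow_of_isSuccLimit hK.ne' hlim).1 (hT i)
      exact ⟨ToType.mk ⟨c, hc⟩, by rwa [toOrd_mk' hc]⟩
    choose c hc using h1
    obtain ⟨a, ha⟩ := Cardinal.infinite_pigeonhole_card c θ hD hθ.aleph0_le
      (by rw [hθ.cof_ord, Cardinal.mk_toType]; exact Cardinal.lt_ord.1 hνθ)
    have hsub : Set.Iio (κ.ord ^ (ToType.toOrd a : Ordinal.{0})) ⊆ Set.Iio (κ.ord ^ ν) :=
      Set.Iio_subset_Iio (Ordinal.opow_le_opow_right hK (le_of_lt (ToType.toOrd a).2))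
    obtain ⟨ξ, hξ, hξ'⟩ := ih (ToType.toOrd a : Ordinal.{0}) (ToType.toOrd a).2
      (lt_trans (ToType.toOrd a).2 hνθ) (c ⁻¹' {a}) (fun i => T i.1) ha φ (hφ.mono hsub) (by
        intro i
        have h2 := hc i.1
        have h3 : c i.1 = a := i.2
        rw [h3] at h2
        exact lt_of_le_of_lt (type_mono (Set.inter_subset_inter_left _ (Set.image_mono hsub))) h2)
    exact ⟨ξ, hsub hξ, hξ'.trans (mk_sub_type _ _)⟩

/-- the argument for exponent `μ + 1` -/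
lemma grow_top (hκ : κ.IsRegular) {μ : Cardinal.{0}} (hμ : ℵ₀ ≤ μ) (hμκ : μ < κ)
    (φ : Ordinal.{0} → X) (hφ : StrictMonoOn φ (Set.Iio (κ.ord ^ μ.ord * κ.ord))) (A : Set X)
    (hA : ∀ (c : μ.ord.ToType) (k : κ.ord.ToType), ∃ j : κ.ord.ToType, k ≤ j ∧
      κ.ord ^ ((ToType.toOrd c : Ordinal.{0}) + 1) ≤ typeLT
      ((fun ξ => φ (κ.ord ^ μ.ord * (ToType.toOrd j : Ordinal.{0}) + ξ)) ''
        Set.Iio (κ.ord ^ ((ToType.toOrd c : Ordinal.{0}) + 1)) ∩ A : Set X)) :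
    κ.ord ^ μ.ord * κ.ord ≤ typeLT (φ '' Set.Iio (κ.ord ^ μ.ord * κ.ord) ∩ A : Set X) := by
  classical
  have hK : (0 : Ordinal.{0}) < κ.ord := by
    rw [Cardinal.ord_pos]
    exact Cardinal.aleph0_pos.trans_le hκ.aleph0_le
  have hlim : Order.IsSuccLimit μ.ord := Cardinal.isSuccLimit_ord hμ
  have hinc : ∀ i : μ.ord.ToType, ((ToType.toOrd i : Ordinal.{0})) + 1 < μ.ord := fun i =>
    hlim.succ_lt (ToType.toOrd i).2
  have hcard : #μ.ord.ToType < κ := by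
    rw [Cardinal.mk_ord_toType]
    exact hμκ
  have hsub : ∀ (i : μ.ord.ToType) (ξ : Ordinal.{0}),
      ξ < κ.ord ^ ((ToType.toOrd i : Ordinal.{0}) + 1) → ξ < κ.ord ^ μ.ord := fun i ξ hξ =>
    lt_of_lt_of_le hξ (Ordinal.opow_le_opow_right hK (hinc i).le)
  choose jf hjf1 hjf2 using hA
  have h1 : ∀ k : κ.ord.ToType, ∃ e, ∀ c : μ.ord.ToType, jf c k < e :=
    fun k => bdd_of_lt hκ hcard (fun c => jf c k)
  choose F hF using h1
  obtain ⟨g, hg⟩ := exists_greedy hκ F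
  let Tk : κ.ord.ToType → Set X := fun k => {x | x ∈ A ∧ ∃ j : κ.ord.ToType, k ≤ j ∧ j < F k ∧
    ∃ ξ < κ.ord ^ μ.ord, φ (κ.ord ^ μ.ord * (ToType.toOrd j : Ordinal.{0}) + ξ) = x}
  have hTk : ∀ k, κ.ord ^ μ.ord ≤ typeLT (Tk k) := by
    intro k
    refine opow_le_of_forall hK hlim (fun c => (hjf2 c k).trans (type_mono ?_))
    rintro x ⟨⟨ξ, hξ, rfl⟩, hxA⟩
    exact ⟨hxA, jf c k, hjf1 c k, hF k c, ξ, hsub c ξ hξ, rfl⟩
  have h2 := type_mul_le (ι := κ.ord.ToType) (fun ξ => Tk (g ξ))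
    (φ '' Set.Iio (κ.ord ^ μ.ord * κ.ord) ∩ A : Set X) ?_ ?_ (κ.ord ^ μ.ord)
    (fun ξ => hTk (g ξ))
  · rwa [Ordinal.type_toType] at h2
  · intro η ξ hηξ a ha b hb
    obtain ⟨_, j, hj1, hj2, ζ, hζ, rfl⟩ := ha
    obtain ⟨_, j', hj1', hj2', ζ', hζ', rfl⟩ := hb
    have h3 : j < j' := lt_of_lt_of_le hj2 ((hg ξ η hηξ).trans hj1')
    exact hφ (mul_add_lt_mul (ToType.toOrd j).2 hζ) (mul_add_lt_mul (ToType.toOrd j').2 hζ')
      (mul_add_lt_mul_add (toOrd_lt_toOrd.2 h3) hζ)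
  · rintro ξ x ⟨hxA, j, _, _, ζ, hζ, rfl⟩
    exact ⟨⟨_, mul_add_lt_mul (ToType.toOrd j).2 hζ, rfl⟩, hxA⟩

/-- a regular cardinal above an ordinal -/
lemma exists_regular {μ : Cardinal.{0}} (hμ : ℵ₀ ≤ μ) {ν : Ordinal.{0}} (hν : ν < μ.ord) :
    ∃ θ : Cardinal.{0}, θ.IsRegular ∧ θ ≤ μ ∧ ν < θ.ord := by
  rcases lt_or_ge ν.card ℵ₀ with h | h
  · exact ⟨ℵ₀, Cardinal.isRegular_aleph0, hμ, Cardinal.lt_ord.2 h⟩
  · exact ⟨Order.succ ν.card, Cardinal.isRegular_succ h, Order.succ_le_of_lt (Cardinal.lt_ord.1 hν),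
      Cardinal.lt_ord.2 (Order.lt_succ _)⟩

/-- regular `κ`, exponents below `μ` -/
theorem nf_reg_lt (hκ : κ.IsRegular) {μ : Cardinal.{0}} (hμ : ℵ₀ ≤ μ) (hμκ : μ < κ)
    {ν : Ordinal.{0}} (hν : ν < μ.ord) (D : Type) (T : D → Set X) (hD : μ ≤ #D)
    (φ : Ordinal.{0} → X) (hφ : StrictMonoOn φ (Set.Iio (κ.ord ^ ν)))
    (hT : ∀ i, typeLT (φ '' Set.Iio (κ.ord ^ ν) ∩ T i : Set X) < κ.ord ^ ν) :
    ∃ ξ < κ.ord ^ ν, ℵ₀ ≤ #{i | φ ξ ∉ T i} := by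
  obtain ⟨θ, h1, h2, h3⟩ := exists_regular hμ hν
  obtain ⟨ξ, hξ, hξ'⟩ := nf_lt hκ.aleph0_le h1 (stab_regular hκ (h2.trans_lt hμκ)) ν h3 D T
    (h2.trans hD) φ hφ hT
  exact ⟨ξ, hξ, h1.aleph0_le.trans hξ'⟩

/-- regular `κ`, exponents below `μ + 2` -/
theorem nf_regular (hκ : κ.IsRegular) {μ : Cardinal.{0}} (hμ : ℵ₀ ≤ μ) (hμκ : μ < κ)
    {ν : Ordinal.{0}} (hν : ν < μ.ord + 2) (D : Type) (T : D → Set X) (hD : κ ≤ #D)
    (φ : Ordinal.{0} → X) (hφ : StrictMonoOn φ (Set.Iio (κ.ord ^ ν)))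
    (hT : ∀ i, typeLT (φ '' Set.Iio (κ.ord ^ ν) ∩ T i : Set X) < κ.ord ^ ν) :
    ∃ ξ < κ.ord ^ ν, ℵ₀ ≤ #{i | φ ξ ∉ T i} := by
  classical
  have hK : (0 : Ordinal.{0}) < κ.ord := by
    rw [Cardinal.ord_pos]
    exact Cardinal.aleph0_pos.trans_le hκ.aleph0_le
  have hlim : Order.IsSuccLimit μ.ord := Cardinal.isSuccLimit_ord hμ
  rcases lt_trichotomy ν μ.ord with h | h | h
  · exact nf_reg_lt hκ hμ hμκ h D T (hμκ.le.trans hD) φ hφ hT
  · subst h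
    have h1 : ∀ i, ∃ c : μ.ord.ToType, typeLT (φ '' Set.Iio (κ.ord ^ μ.ord) ∩ T i : Set X) <
        κ.ord ^ (ToType.toOrd c : Ordinal.{0}) := by
      intro i
      obtain ⟨c, hc, hc'⟩ := (Ordinal.lt_opow_of_isSuccLimit hK.ne' hlim).1 (hT i)
      exact ⟨ToType.mk ⟨c, hc⟩, by rwa [toOrd_mk' hc]⟩
    choose c hc using h1
    obtain ⟨a, ha⟩ := Cardinal.infinite_pigeonhole_card c κ hD hκ.aleph0_le
      (by rw [hκ.cof_ord, Cardinal.mk_ord_toType]; exact hμκ)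
    have hsub : Set.Iio (κ.ord ^ (ToType.toOrd a : Ordinal.{0})) ⊆ Set.Iio (κ.ord ^ μ.ord) :=
      Set.Iio_subset_Iio (Ordinal.opow_le_opow_right hK (le_of_lt (ToType.toOrd a).2))
    obtain ⟨ξ, hξ, hξ'⟩ := nf_reg_lt hκ hμ hμκ (ToType.toOrd a).2 (c ⁻¹' {a}) (fun i => T i.1)
      (hμκ.le.trans ha) φ (hφ.mono hsub) (by
        intro i
        have h2 := hc i.1
        have h3 : c i.1 = a := i.2
        rw [h3] at h2
        exact lt_of_le_of_lt (type_mono (Set.inter_subset_inter_left _ (Set.image_mono hsub))) h2)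
    exact ⟨ξ, hsub hξ, hξ'.trans (mk_sub_type _ _)⟩
  · have h3 : ν = μ.ord + 1 := by
      apply le_antisymm
      · have h4 : μ.ord + 2 = (μ.ord + 1) + 1 := by
          rw [add_assoc, one_add_one_eq_two]
        rw [h4] at hν
        exact Order.lt_add_one_iff.1 hν
      · exact Order.add_one_le_of_lt h
    subst h3
    have h5 : κ.ord ^ (μ.ord + 1) = κ.ord ^ μ.ord * κ.ord := by
      rw [Ordinal.opow_add, Ordinal.opow_one]
    rw [h5] at hφ hT ⊢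
    have h6 : ∀ i, ∃ (c : μ.ord.ToType) (k : κ.ord.ToType), ∀ j : κ.ord.ToType, k ≤ j →
        typeLT ((fun ξ => φ (κ.ord ^ μ.ord * (ToType.toOrd j : Ordinal.{0}) + ξ)) ''
          Set.Iio (κ.ord ^ ((ToType.toOrd c : Ordinal.{0}) + 1)) ∩ T i : Set X) <
          κ.ord ^ ((ToType.toOrd c : Ordinal.{0}) + 1) := by
      intro i
      by_contra hcon
      push Not at hcon
      exact absurd (grow_top hκ hμ hμκ φ hφ (T i) hcon) (not_le.2 (hT i))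
    choose c k hck using h6
    obtain ⟨a, ha⟩ := Cardinal.infinite_pigeonhole_card c κ hD hκ.aleph0_le
      (by rw [hκ.cof_ord, Cardinal.mk_ord_toType]; exact hμκ)
    obtain ⟨D', hD'⟩ := Cardinal.le_mk_iff_exists_set.1 (hμκ.le.trans ha)
    obtain ⟨e, he⟩ := bdd_of_lt hκ (M := D') (by rw [hD']; exact hμκ) (fun i => k i.1.1)
    have hinc : (ToType.toOrd a : Ordinal.{0}) + 1 < μ.ord := hlim.succ_lt (ToType.toOrd a).2
    have hle : κ.ord ^ ((ToType.toOrd a : Ordinal.{0}) + 1) ≤ κ.ord ^ μ.ord :=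
      Ordinal.opow_le_opow_right hK hinc.le
    obtain ⟨ξ, hξ, hξ'⟩ := nf_reg_lt hκ hμ hμκ hinc D' (fun i => T i.1.1) hD'.ge
      (fun ξ => φ (κ.ord ^ μ.ord * (ToType.toOrd e : Ordinal.{0}) + ξ)) (by
        intro x hx y hy hxy
        exact hφ (mul_add_lt_mul (ToType.toOrd e).2 (lt_of_lt_of_le hx hle))
          (mul_add_lt_mul (ToType.toOrd e).2 (lt_of_lt_of_le hy hle))
          ((add_lt_add_iff_left _).2 hxy)) (by
        intro i
        have h2 := hck i.1.1 e (he i).le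
        have h3 : c i.1.1 = a := i.1.2
        rwa [h3] at h2)
    have hlt : κ.ord ^ μ.ord * (ToType.toOrd e : Ordinal.{0}) + ξ < κ.ord ^ μ.ord * κ.ord :=
      mul_add_lt_mul (ToType.toOrd e).2 (lt_of_lt_of_le hξ hle)
    refine ⟨κ.ord ^ μ.ord * (ToType.toOrd e : Ordinal.{0}) + ξ, hlt, hξ'.trans ?_⟩
    exact (mk_sub_type D' (fun i => φ (κ.ord ^ μ.ord * (ToType.toOrd e : Ordinal.{0}) + ξ) ∉
      T i.1)).trans (mk_sub_type _ _)

end Pool.Agent.TH764.OG
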