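import Mathlib
import Pool.Agent.TH764.OG.Fam
import Pool.Agent.TH764.OG.Char
import Pool.Agent.TH764.OG.Cnf3

/-!
# No small covers below `κ ^ (μ + 2)`, and the relation for all limit ordinals
-/

set_option autoImplicit false

namespace Pool.Agent.TH764.OG

open Set Cardinal Ordinal

variable {κ μ : Cardinal.{0}}

/-- the standard enumeration -/
lemma exists_enum' {α : Ordinal.{0}} (h0 : α ≠ 0) : ∃ φ : Ordinal.{0} → α.ToType,
    StrictMonoOn φ (Set.Iio α) := by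
  classical
  have : Nonempty α.ToType := by
    rw [← Cardinal.mk_ne_zero_iff, Cardinal.mk_toType]
    exact fun h => h0 (Ordinal.card_eq_zero.1 h)
  obtain ⟨x₀⟩ := this
  refine ⟨fun ξ => if h : ξ < α then ToType.mk (⟨ξ, h⟩ : Set.Iio α) else x₀, ?_⟩
  intro a ha b hb hab
  have ha' : a < α := ha
  have hb' : b < α := hb
  simp only [dif_pos ha', dif_pos hb']
  rw [OrderIso.lt_iff_lt]
  exact hab

theorem no_smallCover (hμ : ℵ₀ ≤ μ) (hμκ : μ < κ) {ν q : Ordinal.{0}} (hν : ν < μ.ord + 2)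
    (hq : q < κ.ord) : ¬ SmallCover κ (κ.ord ^ ν * q) := by
  classical
  rintro ⟨S, hS1, hS2⟩
  have hκ : ℵ₀ ≤ κ := hμ.trans hμκ.le
  have hne : Nonempty κ.ord.ToType := by
    rw [← Cardinal.mk_ne_zero_iff, Cardinal.mk_ord_toType]
    exact (Cardinal.aleph0_pos.trans_le hκ).ne'
  have h0 : κ.ord ^ ν * q ≠ 0 := fun h => by
    have h1 := hS1 hne.some
    have h2 : (0 : Ordinal.{0}) < κ.ord ^ ν * q := lt_of_le_of_lt zero_le h1
    exact h2.ne' h
  obtain ⟨φ, hφ⟩ := exists_enum' h0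
  have h1 : ∀ i, ∃ ζ : q.ToType,
      typeLT ((fun ξ => φ (κ.ord ^ ν * (ToType.toOrd ζ : Ordinal.{0}) + ξ)) ''
        Set.Iio (κ.ord ^ ν) ∩ S i : Set _) < κ.ord ^ ν := by
    intro i
    by_contra hcon
    push Not at hcon
    have h2 := type_blocks φ hφ (S i) Set.univ (fun ζ _ => hcon ζ)
    have h3 : typeLT (Set.univ : Set q.ToType) = q := by
      conv_rhs => rw [← Ordinal.type_toType q]
      exact Ordinal.type_eq.2 ⟨⟨Equiv.Set.univ _, Iff.rfl⟩⟩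
    rw [h3] at h2
    exact absurd (h2.trans (type_mono Set.inter_subset_right)) (not_le.2 (hS1 i))
  choose f hf using h1
  have hqc : #q.ToType < κ := by
    rw [Cardinal.mk_toType]
    exact Cardinal.lt_ord.1 hq
  have key : ∀ (a : q.ToType), ¬ ∃ ξ < κ.ord ^ ν, ℵ₀ ≤ #{i : f ⁻¹' {a} |
      φ (κ.ord ^ ν * (ToType.toOrd a : Ordinal.{0}) + ξ) ∉ S i.1} := by
    rintro a ⟨ξ, hξ, h2⟩
    have h3 := h2.trans (mk_sub_type (f ⁻¹' {a})
      (fun i => φ (κ.ord ^ ν * (ToType.toOrd a : Ordinal.{0}) + ξ) ∉ S i))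
    have h4 := hS2 (φ (κ.ord ^ ν * (ToType.toOrd a : Ordinal.{0}) + ξ))
    exact absurd (Cardinal.lt_aleph0_iff_finite.2 h4.to_subtype) (not_lt.2 h3)
  have hmono : ∀ a : q.ToType, StrictMonoOn
      (fun ξ => φ (κ.ord ^ ν * (ToType.toOrd a : Ordinal.{0}) + ξ)) (Set.Iio (κ.ord ^ ν)) := by
    intro a x hx y hy hxy
    exact hφ (mul_add_lt_mul (ToType.toOrd a).2 hx) (mul_add_lt_mul (ToType.toOrd a).2 hy)
      ((add_lt_add_iff_left _).2 hxy)
  have htype : ∀ (a : q.ToType) (i : f ⁻¹' {a}),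
      typeLT ((fun ξ => φ (κ.ord ^ ν * (ToType.toOrd a : Ordinal.{0}) + ξ)) ''
        Set.Iio (κ.ord ^ ν) ∩ S i.1 : Set _) < κ.ord ^ ν := by
    intro a i
    have h2 := hf i.1
    have h3 : f i.1 = a := i.2
    rwa [h3] at h2
  by_cases hreg : κ.IsRegular
  · obtain ⟨a, ha⟩ := Cardinal.infinite_pigeonhole_card f κ (by rw [Cardinal.mk_ord_toType]) hκ
      (by rw [hreg.cof_ord]; exact hqc)
    exact key a (nf_regular hreg hμ hμκ hν _ (fun i => S i.1) ha _ (hmono a) (htype a))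
  · have hcof : κ.ord.cof < κ := by
      by_contra hcon
      exact hreg ⟨hκ, not_lt.1 hcon⟩
    let m := max (max μ #q.ToType) κ.ord.cof
    have hm : m < κ := max_lt (max_lt hμκ hqc) hcof
    have hm1 : μ ≤ m := (le_max_left _ _).trans (le_max_left _ _)
    have hm2 : #q.ToType ≤ m := (le_max_right _ _).trans (le_max_left _ _)
    have hm3 : κ.ord.cof ≤ m := le_max_right _ _
    have hθ : (Order.succ m).IsRegular := Cardinal.isRegular_succ (hμ.trans hm1)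
    have hθκ : Order.succ m < κ := by
      refine lt_of_le_of_ne (Order.succ_le_of_lt hm) ?_
      intro h
      exact hreg (h ▸ hθ)
    obtain ⟨a, ha⟩ := Cardinal.infinite_pigeonhole_card f (Order.succ m)
      (by rw [Cardinal.mk_ord_toType]; exact hθκ.le) hθ.aleph0_le
      (by rw [hθ.cof_ord]; exact lt_of_le_of_lt hm2 (Order.lt_succ m))
    have hνθ : ν < (Order.succ m).ord := by
      have hlim := Cardinal.isSuccLimit_ord hθ.aleph0_le
      have h2 : μ.ord < (Order.succ m).ord :=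
        Cardinal.ord_lt_ord.2 (lt_of_le_of_lt hm1 (Order.lt_succ m))
      have h3 : μ.ord + 2 < (Order.succ m).ord := by
        rw [show μ.ord + 2 = μ.ord + 1 + 1 by rw [add_assoc, one_add_one_eq_two]]
        exact hlim.succ_lt (hlim.succ_lt h2)
      exact hν.trans h3
    obtain ⟨ξ, hξ, h4⟩ := nf_lt hκ hθ (stab_singular hκ hθ
      (lt_of_le_of_lt hm3 (Order.lt_succ m)) hθκ) ν hνθ _ (fun i => S i.1) ha _ (hmono a)
      (htype a)
    exact key a ⟨ξ, hξ, hθ.aleph0_le.trans h4⟩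

lemma ord_eq_opow (hκ : ℵ₀ ≤ κ) : ∃ η : Ordinal.{0}, κ.ord = ω ^ η := by
  rcases Ordinal.isPrincipal_add_iff_zero_or_omega0_opow.1 (Ordinal.isPrincipal_add_ord hκ)
    with h | ⟨η, h⟩
  · have h1 : (0 : Ordinal.{0}) < κ.ord := by
      rw [Cardinal.ord_pos]
      exact Cardinal.aleph0_pos.trans_le hκ
    exact absurd h h1.ne'
  · exact ⟨η, h.symm⟩

/-- the decomposition `ω ^ γ = κ ^ ν * q` -/
lemma opow_decomp (hκ : ℵ₀ ≤ κ) {γ : Ordinal.{0}} (hle : κ.ord ≤ ω ^ γ) :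
    ∃ ν q : Ordinal.{0}, 1 ≤ ν ∧ 0 < q ∧ q < κ.ord ∧ ω ^ γ = κ.ord ^ ν * q := by
  obtain ⟨η, hη⟩ := ord_eq_opow hκ
  have hηγ : η ≤ γ := by
    rw [hη] at hle
    exact (Ordinal.opow_le_opow_iff_right Ordinal.one_lt_omega0).1 hle
  have hη0 : η ≠ 0 := by
    rintro rfl
    rw [Ordinal.opow_zero] at hη
    have h1 : (1 : Ordinal.{0}) < κ.ord := by
      rw [Cardinal.lt_ord, Ordinal.card_one]
      exact Cardinal.one_lt_aleph0.trans_le hκ
    exact h1.ne' hη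
  have h1 : η * (γ / η) + γ % η = γ := Ordinal.div_add_mod γ η
  have h2 : γ % η < η := Ordinal.mod_lt γ hη0
  refine ⟨γ / η, ω ^ (γ % η), ?_, Ordinal.opow_pos _ Ordinal.omega0_pos, ?_, ?_⟩
  · rw [Order.one_le_iff_pos, pos_iff_ne_zero]
    intro h3
    rw [h3, mul_zero, zero_add] at h1
    rw [h1] at h2
    exact absurd hηγ (not_le.2 h2)
  · rw [hη]
    exact (Ordinal.opow_lt_opow_iff_right Ordinal.one_lt_omega0).2 h2
  · conv_lhs => rw [← h1]
    rw [Ordinal.opow_add, Ordinal.opow_mul, ← hη]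

lemma dvd_of_le_opow (hκ : ℵ₀ ≤ κ) {γ : Ordinal.{0}} (hle : κ.ord ≤ ω ^ γ) : κ.ord ∣ ω ^ γ := by
  obtain ⟨η, hη⟩ := ord_eq_opow hκ
  have hηγ : η ≤ γ := by
    rw [hη] at hle
    exact (Ordinal.opow_le_opow_iff_right Ordinal.one_lt_omega0).1 hle
  rw [hη, ← Ordinal.add_sub_cancel_of_le hηγ, Ordinal.opow_add]
  exact dvd_mul_right _ _

theorem rel_opow (hμ : ℵ₀ ≤ μ) {γ : Ordinal.{0}} (hμκ : μ < (ω ^ γ).card)
    (hlt : ω ^ γ < (ω ^ γ).card.ord ^ (μ.ord + 2)) : Rel (ω ^ γ) := by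
  have hκ : ℵ₀ ≤ (ω ^ γ).card := hμ.trans hμκ.le
  have hle : (ω ^ γ).card.ord ≤ ω ^ γ := Cardinal.ord_card_le _
  obtain ⟨ν, q, hν1, hq0, hq, h3⟩ := opow_decomp hκ hle
  have hK1 : (1 : Ordinal.{0}) < (ω ^ γ).card.ord := by
    rw [Cardinal.lt_ord, Ordinal.card_one]
    exact Cardinal.one_lt_aleph0.trans_le hκ
  have hν : ν < μ.ord + 2 := by
    have h4 : (ω ^ γ).card.ord ^ ν ≤ ω ^ γ := by
      conv_rhs => rw [h3]
      exact le_mul_of_one_le_right' (Order.one_le_iff_pos.2 hq0)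
    exact (Ordinal.opow_lt_opow_iff_right hK1).1 (h4.trans_lt hlt)
  by_contra hR
  have h5 := smallCover_of_not_rel hκ (Ordinal.opow_pos γ Ordinal.omega0_pos).ne'
    (dvd_of_le_opow hκ hle) le_rfl hR
  have h6 := no_smallCover hμ hμκ hν hq
  rw [← h3] at h6
  exact h6 h5

theorem rel_opow_countable {γ : Ordinal.{0}} (hγ : 1 ≤ γ) (hc : (ω ^ γ).card ≤ ℵ₀) :
    Rel (ω ^ γ) := by
  intro G
  by_cases hpath : ∃ f : ℕ → (ω ^ γ).ToType, Function.Injective f ∧ ∀ n, G.Adj (f n) (f (n + 1))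
  · exact Or.inr hpath
  left
  have h0 : (ω ^ γ : Ordinal.{0}) ≠ 0 := (Ordinal.opow_pos γ Ordinal.omega0_pos).ne'
  obtain ⟨φ, hφ⟩ := exists_enum' h0
  have : Nonempty (ω ^ γ).ToType := ⟨φ 0⟩
  obtain ⟨pred, hT, hG⟩ := exists_treeOrd G (by
    intro v hv hadj
    exact hpath ⟨v, hv, hadj⟩)
  have hcard : #(ω ^ γ).ToType = ℵ₀ := by
    rw [Cardinal.mk_toType]
    refine le_antisymm hc ?_
    have h1 : ω ≤ ω ^ γ := by
      conv_lhs => rw [← Ordinal.opow_one ω]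
      exact Ordinal.opow_le_opow_right Ordinal.omega0_pos hγ
    have h2 := Ordinal.card_le_card h1
    rwa [Ordinal.card_omega0] at h2
  have hgen : Gen (ω ^ γ).ToType ℵ₀ #(ω ^ γ).ToType := by
    rw [hcard]
    exact gen_regular Cardinal.isRegular_aleph0 _
  have hP := pp_opow hT γ hγ φ hφ
  obtain ⟨A, hA, htype⟩ := exists_indep le_rfl hgen pred
    (fun R hR => Cardinal.lt_aleph0_iff_finite.2 (Set.Finite.to_subtype hR.1)) _ hP
  refine ⟨A, ?_, htype⟩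
  intro x hx y hy _ hxy
  rcases hG x y hxy with h | h
  · exact hA x hx y hy h
  · exact hA y hy x hx h

lemma one_le_of_mem {α : Ordinal.{0}} (hα : Order.IsSuccLimit α) {γ : Ordinal.{0}}
    (hγ : γ ∈ (CNF ω α).map Prod.fst) : 1 ≤ γ := by
  rw [Order.one_le_iff_pos, pos_iff_ne_zero]
  rintro rfl
  obtain ⟨β, δ, h1, h2⟩ := cnf_split α 0 hγ
  rw [zero_add, Ordinal.opow_one] at h2
  rw [Ordinal.opow_zero] at h1
  obtain ⟨n, rfl⟩ := Ordinal.lt_omega0.1 h2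
  have h3 : ∃ β', α = β' + 1 := by
    cases n with
    | zero => exact ⟨β, by rw [h1, Nat.cast_zero, add_zero]⟩
    | succ n => exact ⟨β + 1 + n, by rw [h1, Nat.cast_succ, ← add_assoc]⟩
  obtain ⟨β', h4⟩ := h3
  have h5 : β' < α := by rw [h4]; exact Order.lt_add_one_iff.2 le_rfl
  have h6 := hα.succ_lt h5
  rw [Order.succ_eq_add_one, ← h4] at h6
  exact lt_irrefl _ h6

/-- The relation holds for all limit ordinals whose uncountable terms are below `κ ^ (μ + 2)`. -/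
theorem main_zfc {α : Ordinal.{0}} (hα : Order.IsSuccLimit α)
    (h : ∀ γ ∈ (CNF ω α).map Prod.fst, ℵ₀ < (ω ^ γ).card →
      ∃ μ : Cardinal.{0}, ℵ₀ ≤ μ ∧ μ < (ω ^ γ).card ∧ ω ^ γ < (ω ^ γ).card.ord ^ (μ.ord + 2)) :
    Rel α := by
  rw [rel_iff_terms hα]
  intro γ hγ
  rcases le_or_gt (ω ^ γ).card ℵ₀ with h1 | h1
  · exact rel_opow_countable (one_le_of_mem hα hγ) h1
  · obtain ⟨μ, h2, h3, h4⟩ := h γ hγ h1
    exact rel_opow h2 h3 h4

end Pool.Agent.TH764.OG
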