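import Mathlib
import Pool.Agent.TH764.OG.Char

/-!
# Families of small subsets of `ω₂ ^ ν`, `ν < ω₂`
-/

set_option autoImplicit false

namespace Pool.Agent.TH764.OG

open Set Cardinal Ordinal

open Results.MP_820435_lc.NeverProvableAbove (Sm Sm.mono sm_empty sm_singleton sm_append sm_block
  bdd_ctbl exists_inj_nat countable_Iic)

variable {K : Ordinal.{0}}

lemma sm_levels {S : Set Ordinal.{0}} {lam B : Ordinal.{0}} (hS : ∀ y ∈ S, log K y < lam)
    (h : ∀ e < lam, Sm {y | y ∈ S ∧ log K y = e} B) : Sm S (B * lam) :=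
  sm_block (ρ := fun y => log K y) (fun _ _ _ _ hxy => Ordinal.log_mono_right K hxy.le) hS h

lemma sm_coeff (hK : 1 < K) {S : Set Ordinal.{0}} {e lam B : Ordinal.{0}}
    (hS : ∀ y ∈ S, y / K ^ e < lam)
    (h : ∀ c < lam, ∃ R : Set Ordinal.{0}, Sm R B ∧ ∀ y ∈ S, y / K ^ e = c → y % K ^ e ∈ R) :
    Sm S (B * lam) := by
  have hB : K ^ e ≠ 0 := (Ordinal.opow_pos _ (zero_lt_one.trans hK)).ne'
  refine sm_block (ρ := fun y => y / K ^ e) ?_ hS ?_
  · intro x hx y hy hxy
    exact (Ordinal.le_div hB).2 ((Ordinal.mul_div_le x _).trans hxy.le)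
  · intro c hc
    obtain ⟨R, ⟨φ, hφ1, hφ2⟩, hR⟩ := h c hc
    refine ⟨fun y => φ (y % K ^ e), ?_, ?_⟩
    · rintro x ⟨hx, hxc⟩ y ⟨hy, hyc⟩ hxy
      refine hφ1 _ (hR x hx hxc) _ (hR y hy hyc) ?_
      have hxc' : x / K ^ e = c := hxc
      have hyc' : y / K ^ e = c := hyc
      have h1 := Ordinal.div_add_mod x (K ^ e)
      have h2 := Ordinal.div_add_mod y (K ^ e)
      rw [hxc'] at h1
      rw [hyc'] at h2
      rw [← h1, ← h2, add_lt_add_iff_left] at hxy
      exact hxy
    · rintro y ⟨hy, hyc⟩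
      exact hφ2 _ (hR y hy hyc)

lemma log_lt_of_lt (hK : 1 < K) {y β : Ordinal.{0}} (hβ : 0 < β) (hy : y < K ^ β) :
    log K y < β := by
  rcases eq_or_ne y 0 with rfl | h0
  · rwa [Ordinal.log_zero_right]
  · exact (Ordinal.opow_lt_opow_iff_right hK).1 ((Ordinal.opow_log_le_self K h0).trans_lt hy)

lemma div_lt (hK : 1 < K) {y e : Ordinal.{0}} (hye : log K y = e) : y / K ^ e < K := by
  rw [← hye]
  exact Ordinal.div_opow_log_lt y hK

lemma mod_lt' (hK : 1 < K) (y e : Ordinal.{0}) : y % K ^ e < K ^ e :=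
  Ordinal.mod_lt y (Ordinal.opow_pos _ (zero_lt_one.trans hK)).ne'

/-- the number of terms -/
theorem sm_count (hK : 1 < K) (m : ℕ) :
    Sm {y | y < K ^ K ∧ (CNF K y).length ≤ m} (K ^ ((2 * m : ℕ) : Ordinal.{0})) := by
  have hK0 : 0 < K := zero_lt_one.trans hK
  induction m with
  | zero =>
    refine Sm.mono (sm_singleton 0) ?_ (by simp)
    rintro y ⟨_, hy⟩
    rw [Nat.le_zero, List.length_eq_zero_iff] at hy
    by_contra h0
    have h0' : y ≠ 0 := h0
    rw [Ordinal.CNF.ne_zero h0'] at hy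
    exact absurd hy (List.cons_ne_nil _ _)
  | succ m ih =>
    have h1 : Sm {y | y < K ^ K ∧ (CNF K y).length ≤ m + 1}
        (K ^ ((2 * m : ℕ) : Ordinal.{0}) * K * K) := by
      refine sm_levels (K := K) (lam := K) ?_ ?_
      · rintro y ⟨hy, _⟩
        exact log_lt_of_lt hK hK0 hy
      · intro e he
        refine sm_coeff hK (e := e) (lam := K) ?_ ?_
        · rintro y ⟨_, hye⟩
          exact div_lt hK hye
        · intro c hc
          refine ⟨_, ih, ?_⟩
          rintro y ⟨⟨hy1, hy2⟩, hye⟩ _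
          refine ⟨(mod_lt' hK y e).trans_le (Ordinal.opow_le_opow_right hK0 he.le), ?_⟩
          subst hye
          rcases eq_or_ne y 0 with rfl | h0
          · rw [Ordinal.zero_mod, Ordinal.CNF.zero_right]
            exact Nat.zero_le _
          · rw [Ordinal.CNF.ne_zero h0, List.length_cons] at hy2
            omega
    refine h1.mono subset_rfl (le_of_eq ?_)
    rw [show ((2 * (m + 1) : ℕ) : Ordinal.{0}) = ((2 * m : ℕ) : Ordinal.{0}) + 1 + 1 by
      push_cast
      rw [mul_add, mul_one, ← one_add_one_eq_two, ← add_assoc]]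
    rw [Ordinal.opow_add _ _ 1, Ordinal.opow_add _ _ 1, Ordinal.opow_one]

/-- excluded indices -/
def El (h : Ordinal.{0} → Ordinal.{0}) (k : Ordinal.{0} → Ordinal.{0} → ℕ) :
    List (Ordinal.{0} × Ordinal.{0}) → Set Ordinal.{0}
  | [] => ∅
  | p :: l => El h k l ∪ {j | j < h p.1 ∧ k (h p.1) j ≤ l.length + 1}

lemma El_finite {h : Ordinal.{0} → Ordinal.{0}} {k : Ordinal.{0} → Ordinal.{0} → ℕ}
    (hk : ∀ e, Set.InjOn (k (h e)) (Set.Iio (h e))) (l : List (Ordinal.{0} × Ordinal.{0})) :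
    (El h k l).Finite := by
  induction l with
  | nil => exact Set.finite_empty
  | cons p l ih =>
    refine ih.union ?_
    refine Set.Finite.of_finite_image (f := k (h p.1)) ?_ ?_
    · refine (Set.finite_Iic (l.length + 1)).subset ?_
      rintro _ ⟨i, ⟨_, hi⟩, rfl⟩
      exact hi
    · intro a ha b hb hab
      exact hk p.1 ha.1 hb.1 hab

/-- the sets `T_j` -/
theorem sm_T (hK : 1 < K) {ν : Ordinal.{0}} (hν : ν ≤ K)
    {h : Ordinal.{0} → Ordinal.{0}} {k : Ordinal.{0} → Ordinal.{0} → ℕ} {j : Ordinal.{0}}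
    (A : Set Ordinal.{0}) (hA : A.Countable) (hAj : ∀ e < ν, h e ≤ j → e ∈ A)
    (β : Ordinal.{0}) : β ≤ ν → ∃ r < ω₁, Sm {y | y < K ^ β ∧ j ∉ El h k (CNF K y)} (K ^ r) := by
  classical
  have hK0 : 0 < K := zero_lt_one.trans hK
  induction β using WellFoundedLT.induction with
  | ind β ih =>
  intro hβ
  have ih' : ∀ e, ∃ r < ω₁, e < β → Sm {y | y < K ^ e ∧ j ∉ El h k (CNF K y)} (K ^ r) := by
    intro e
    by_cases he : e < β
    · obtain ⟨r, hr, hr'⟩ := ih e he (he.le.trans hβ)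
      exact ⟨r, hr, fun _ => hr'⟩
    · exact ⟨0, Ordinal.omega_pos 1, fun h => absurd h he⟩
  choose r hr1 hr2 using ih'
  have hlim : Order.IsSuccLimit (ω₁ : Ordinal.{0}) := isSuccLimit_omega 1
  have := hA.to_subtype
  obtain ⟨δ, hδ, hδ'⟩ := bdd_ctbl (fun e : A => r e.1 + 1) (fun e => hlim.succ_lt (hr1 e.1))
  have hs : max δ ω < ω₁ := max_lt hδ Ordinal.omega0_lt_omega_one
  refine ⟨max δ ω + 1, hlim.succ_lt hs, ?_⟩
  rw [Ordinal.opow_add, Ordinal.opow_one]
  refine sm_levels (K := K) (lam := K) ?_ ?_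
  · rintro y ⟨hy, _⟩
    exact log_lt_of_lt hK hK0 (hy.trans_le (Ordinal.opow_le_opow_right hK0 (hβ.trans hν)))
  · intro e he
    rcases lt_or_ge e β with heβ | heβ
    · rcases le_or_gt (h e) j with hej | hej
      · -- `e` in `A`
        have heA : e ∈ A := hAj e (heβ.trans_le hβ) hej
        have h1 : r e + 1 ≤ max δ ω := (hδ' ⟨e, heA⟩).trans (le_max_left _ _)
        refine Sm.mono (B := K ^ r e * K) (S := {y | (y < K ^ β ∧ j ∉ El h k (CNF K y)) ∧
          log K y = e}) ?_ subset_rfl ?_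
        · refine sm_coeff hK (e := e) (lam := K) ?_ ?_
          · rintro y ⟨_, hye⟩
            exact div_lt hK hye
          · intro c hc
            refine ⟨_, hr2 e heβ, ?_⟩
            rintro y ⟨⟨hy1, hy2⟩, hye⟩ _
            refine ⟨mod_lt' hK y e, ?_⟩
            subst hye
            rcases eq_or_ne y 0 with rfl | h0
            · rw [Ordinal.zero_mod, Ordinal.CNF.zero_right]
              exact Set.notMem_empty _
            · rw [Ordinal.CNF.ne_zero h0] at hy2
              exact fun hj => hy2 (Or.inl hj)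
        · rw [← Ordinal.opow_one K, ← Ordinal.opow_mul, one_mul, ← Ordinal.opow_mul, one_mul,
            ← Ordinal.opow_add]
          exact Ordinal.opow_le_opow_right hK0 h1
      · -- at most `k (h e) j` terms
        refine Sm.mono (sm_count hK (k (h e) j)) ?_ ?_
        · rintro y ⟨⟨hy1, hy2⟩, hye⟩
          refine ⟨hy1.trans_le (Ordinal.opow_le_opow_right hK0 (hβ.trans hν)), ?_⟩
          rcases eq_or_ne y 0 with rfl | h0
          · rw [Ordinal.CNF.zero_right]
            exact Nat.zero_le _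
          · rw [Ordinal.CNF.ne_zero h0, hye] at hy2
            rw [Ordinal.CNF.ne_zero h0, hye, List.length_cons]
            by_contra hcon
            rw [not_le] at hcon
            exact hy2 (Or.inr ⟨hej, hcon.le⟩)
        · exact Ordinal.opow_le_opow_right hK0 ((Ordinal.nat_lt_omega0 _).le.trans
            (le_max_right _ _))
    · refine Sm.mono (sm_singleton 0) ?_ (Order.one_le_iff_pos.2 (Ordinal.opow_pos _ hK0))
      rintro y ⟨⟨hy1, _⟩, hye⟩
      by_contra h0
      have h0' : y ≠ 0 := h0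
      have h1 := Ordinal.opow_log_le_self K h0'
      rw [hye] at h1
      exact absurd (h1.trans_lt hy1) (not_lt.2 (Ordinal.opow_le_opow_right hK0 heβ))

/-- excluded colours -/
def Kl (h : Ordinal.{0} → Ordinal.{0}) (k : Ordinal.{0} → Ordinal.{0} → ℕ)
    (f : Ordinal.{0} → Ordinal.{0} → Ordinal.{0}) :
    List (Ordinal.{0} × Ordinal.{0}) → Set Ordinal.{0}
  | [] => ∅
  | p :: l => Kl h k f l ∪ {ξ | ξ < p.2 ∧ f p.2 ξ ∈ El h k l}

lemma Kl_finite {h : Ordinal.{0} → Ordinal.{0}} {k : Ordinal.{0} → Ordinal.{0} → ℕ}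
    {f : Ordinal.{0} → Ordinal.{0} → Ordinal.{0}}
    (hk : ∀ e, Set.InjOn (k (h e)) (Set.Iio (h e))) (hf : ∀ c < K, Set.InjOn (f c) (Set.Iio c))
    (l : List (Ordinal.{0} × Ordinal.{0})) : (∀ p ∈ l, p.2 < K) → (Kl h k f l).Finite := by
  induction l with
  | nil => exact fun _ => Set.finite_empty
  | cons p l ih =>
    intro hl
    refine (ih (fun q hq => hl q (List.mem_cons_of_mem _ hq))).union ?_
    refine Set.Finite.of_finite_image (f := f p.2) ?_ ?_
    · refine (El_finite hk l).subset ?_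
      rintro _ ⟨i, ⟨_, hi⟩, rfl⟩
      exact hi
    · intro a ha b hb hab
      exact hf p.2 (hl p List.mem_cons_self) ha.1 hb.1 hab

/-- the sets of colours -/
theorem sm_K {κ : Cardinal.{0}} (hκ : κ.IsRegular) {ν : Ordinal.{0}}
    (hν : ν < κ.ord) {h : Ordinal.{0} → Ordinal.{0}} {k : Ordinal.{0} → Ordinal.{0} → ℕ}
    {f : Ordinal.{0} → Ordinal.{0} → Ordinal.{0}}
    (hA : ∀ j < ω₁, {e | e < ν ∧ h e ≤ j}.Countable)
    (hf : ∀ c < κ.ord, ∀ ξ < c, f c ξ < ω₁) {ξ : Ordinal.{0}} (hξ : ξ < κ.ord)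
    (β : Ordinal.{0}) : β ≤ ν → ∃ δ < κ.ord,
      Sm {y | y < κ.ord ^ β ∧ ξ ∉ Kl h k f (CNF κ.ord y)} (κ.ord ^ (ω₁ + 1) * δ) := by
  classical
  have hK1 : (1 : Ordinal.{0}) < κ.ord := by
    rw [Cardinal.lt_ord, Ordinal.card_one]
    exact Cardinal.one_lt_aleph0.trans_le hκ.aleph0_le
  have hK0 : (0 : Ordinal.{0}) < κ.ord := zero_lt_one.trans hK1
  have hlim : Order.IsSuccLimit κ.ord := Cardinal.isSuccLimit_ord hκ.aleph0_le
  have hmul := Ordinal.isPrincipal_mul_ord hκ.aleph0_le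
  induction β using WellFoundedLT.induction with
  | ind β ih =>
  intro hβ
  have ih' : ∀ e, ∃ δ < κ.ord, e < β →
      Sm {y | y < κ.ord ^ e ∧ ξ ∉ Kl h k f (CNF κ.ord y)} (κ.ord ^ (ω₁ + 1) * δ) := by
    intro e
    by_cases he : e < β
    · obtain ⟨r, hr, hr'⟩ := ih e he (he.le.trans hβ)
      exact ⟨r, hr, fun _ => hr'⟩
    · exact ⟨0, hK0, fun h => absurd h he⟩
  choose r hr1 hr2 using ih'
  have hξ1 : ξ + 1 < κ.ord := hlim.succ_lt hξ
  -- a common bound
  obtain ⟨δ, hδ, hδ'⟩ : ∃ δ < κ.ord, ∀ e < β, r e * (ξ + 1) + 1 ≤ δ := by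
    refine ⟨⨆ i : β.ToType, (r (ToType.toOrd i : Ordinal.{0}) * (ξ + 1) + 1), ?_, ?_⟩
    · refine Ordinal.iSup_lt_of_lt_cof ?_ (fun i => hlim.succ_lt (hmul (hr1 _) hξ1))
      rw [hκ.cof_ord, Cardinal.mk_toType]
      exact Cardinal.lt_ord.1 (hβ.trans_lt hν)
    · intro e he
      have h1 := Ordinal.le_iSup
        (fun i : β.ToType => r (ToType.toOrd i : Ordinal.{0}) * (ξ + 1) + 1) (ToType.mk ⟨e, he⟩)
      have h2 : (ToType.toOrd (ToType.mk (⟨e, he⟩ : Set.Iio β)) : Ordinal.{0}) = e := by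
        have h3 : ToType.toOrd (ToType.mk (⟨e, he⟩ : Set.Iio β)) = ⟨e, he⟩ := by simp
        rw [h3]
      rwa [h2] at h1
  have hone : (1 : Ordinal.{0}) ≤ κ.ord ^ (ω₁ + 1) := Order.one_le_iff_pos.2 (Ordinal.opow_pos _ hK0)
  have hδ1 : max δ 1 < κ.ord := max_lt hδ hK1
  refine ⟨max δ 1 * (β + 1), hmul hδ1 (hlim.succ_lt (hβ.trans_lt hν)), ?_⟩
  rw [← mul_assoc]
  refine sm_levels (K := κ.ord) (lam := β + 1) ?_ ?_
  · rintro y ⟨hy, _⟩
    rcases eq_or_ne β 0 with h0 | h0
    · rw [h0, Ordinal.opow_zero, Ordinal.lt_one_iff_zero] at hy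
      rw [hy, Ordinal.log_zero_right]
      exact lt_of_lt_of_le zero_lt_one le_add_self
    · exact (log_lt_of_lt hK1 (pos_iff_ne_zero.2 h0) hy).trans (Order.lt_add_one_iff.2 le_rfl)
  · intro e he
    rcases lt_or_ge e β with heβ | heβ
    · have h1 : r e * (ξ + 1) + 1 ≤ max δ 1 := (hδ' e heβ).trans (le_max_left _ _)
      refine Sm.mono (B := κ.ord ^ (ω₁ + 1) * r e * (ξ + 1) + κ.ord ^ (ω₁ + 1))
        (S := {y | (y < κ.ord ^ β ∧ ξ ∉ Kl h k f (CNF κ.ord y)) ∧ log κ.ord y = e}) ?_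
        subset_rfl ?_
      · refine sm_append (c := fun y => y / κ.ord ^ e ≤ ξ) ?_ ?_ ?_
        · intro x hx y hy hxy hc
          exact ((Ordinal.le_div (Ordinal.opow_pos _ hK0).ne').2
            ((Ordinal.mul_div_le x _).trans hxy.le)).trans hc
        · refine sm_coeff hK1 (e := e) (lam := ξ + 1) ?_ ?_
          · rintro y ⟨_, hyc⟩
            exact Order.lt_add_one_iff.2 hyc
          · intro c hc
            refine ⟨_, hr2 e heβ, ?_⟩
            rintro y ⟨⟨⟨hy1, hy2⟩, hye⟩, _⟩ _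
            refine ⟨mod_lt' hK1 y e, ?_⟩
            subst hye
            rcases eq_or_ne y 0 with rfl | h0
            · rw [Ordinal.zero_mod, Ordinal.CNF.zero_right]
              exact Set.notMem_empty _
            · rw [Ordinal.CNF.ne_zero h0] at hy2
              exact fun hj => hy2 (Or.inl hj)
        · have h2 : κ.ord ^ (ω₁ + 1) = κ.ord ^ ω₁ * κ.ord := by
            rw [Ordinal.opow_add, Ordinal.opow_one]
          rw [h2]
          refine sm_coeff hK1 (e := e) (lam := κ.ord) ?_ ?_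
          · rintro y ⟨⟨_, hye⟩, _⟩
            exact div_lt hK1 hye
          · intro c hc
            rcases le_or_gt c ξ with hcξ | hcξ
            · refine ⟨∅, sm_empty _ (fun x => Set.notMem_empty x), ?_⟩
              rintro y ⟨_, hyc⟩ hyc'
              rw [hyc'] at hyc
              exact absurd hcξ hyc
            · obtain ⟨r', hr', hT⟩ := sm_T hK1 hν.le (h := h) (k := k) (j := f c ξ)
                {e | e < ν ∧ h e ≤ f c ξ} (hA _ (hf c hc ξ hcξ)) (fun e he hej => ⟨he, hej⟩) e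
                (heβ.le.trans hβ)
              refine ⟨_, hT.mono subset_rfl (Ordinal.opow_le_opow_right hK0 hr'.le), ?_⟩
              rintro y ⟨⟨⟨hy1, hy2⟩, hye⟩, hyc⟩ hyc'
              refine ⟨mod_lt' hK1 y e, ?_⟩
              have h0 : y ≠ 0 := by
                rintro rfl
                rw [Ordinal.zero_div] at hyc'
                rw [← hyc'] at hcξ
                exact absurd hcξ (not_lt.2 zero_le)
              rw [Ordinal.CNF.ne_zero h0, hye] at hy2
              intro hmem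
              refine hy2 (Or.inr ⟨?_, ?_⟩)
              · change ξ < y / κ.ord ^ e
                rw [hyc']
                exact hcξ
              · change f (y / κ.ord ^ e) ξ ∈ _
                rw [hyc']
                exact hmem
      · calc κ.ord ^ (ω₁ + 1) * r e * (ξ + 1) + κ.ord ^ (ω₁ + 1)
            = κ.ord ^ (ω₁ + 1) * (r e * (ξ + 1) + 1) := by
              rw [mul_assoc, ← mul_add_one]
          _ ≤ κ.ord ^ (ω₁ + 1) * max δ 1 := mul_le_mul_right h1 _
    · refine Sm.mono (sm_singleton 0) ?_ ?_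
      · rintro y ⟨⟨hy1, _⟩, hye⟩
        by_contra h0
        have h0' : y ≠ 0 := h0
        have h1 := Ordinal.opow_log_le_self κ.ord h0'
        rw [hye] at h1
        exact absurd (h1.trans_lt hy1) (not_lt.2 (Ordinal.opow_le_opow_right hK0 heβ))
      · calc (1 : Ordinal.{0}) = 1 * 1 := (mul_one 1).symm
          _ ≤ κ.ord ^ (ω₁ + 1) * max δ 1 := mul_le_mul' hone (le_max_right _ _)

end Pool.Agent.TH764.OG
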