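import Mathlib
import Pool.Agent.TH764.OG.Neg

/-!
# Small covers of ordinals between `ω₂ ^ (ω₁ + 2)` and `ω₂ ^ ω₂`, and of their left multiples
-/

set_option autoImplicit false

namespace Pool.Agent.TH764.OG

open Set Cardinal Ordinal

open Results.MP_820435_lc.NeverProvableAbove (Sm exists_inj_nat countable_Iic)

/-- injections into `ω₁` -/
lemma exists_inj_omega1 {c : Ordinal.{0}} (hc : c < (Order.succ (ℵ₁ : Cardinal.{0})).ord) :
    ∃ f : Ordinal.{0} → Ordinal.{0}, Set.InjOn f (Set.Iio c) ∧ ∀ ξ, f ξ < ω₁ := by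
  classical
  have h1 : #c.ToType ≤ #(ℵ₁ : Cardinal.{0}).ord.ToType := by
    rw [Cardinal.mk_toType, Cardinal.mk_ord_toType]
    exact Order.lt_succ_iff.1 (Cardinal.lt_ord.1 hc)
  obtain ⟨e⟩ := (Cardinal.le_def _ _).1 h1
  have hω : (ℵ₁ : Cardinal.{0}).ord = ω₁ := Cardinal.ord_aleph 1
  refine ⟨fun ξ => if h : ξ < c then
    (ToType.toOrd (e (ToType.mk (⟨ξ, h⟩ : Set.Iio c))) : Ordinal.{0}) else 0, ?_, ?_⟩
  · intro x hx y hy hxy
    have hx' : x < c := hx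
    have hy' : y < c := hy
    simp only [dif_pos hx', dif_pos hy'] at hxy
    have h2 := e.injective (ToType.mk.symm.injective (Subtype.ext hxy))
    have h3 := ToType.mk.injective h2
    exact congrArg Subtype.val h3
  · intro ξ
    by_cases h : ξ < c
    · simp only [dif_pos h]
      rw [← hω]
      exact (ToType.toOrd _).2
    · simp only [dif_neg h]
      exact Ordinal.omega_pos 1

/-- The family of small sets. -/
theorem small_family2 {κ : Cardinal.{0}} (hκ : κ = Order.succ ℵ₁) {ν : Ordinal.{0}}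
    (hν : ν < κ.ord) : ∃ Kf : Ordinal.{0} → Set Ordinal.{0}, (∀ y, (Kf y).Finite) ∧
      ∀ ξ < κ.ord, ∃ δ < κ.ord, Sm {y | y < κ.ord ^ ν ∧ ξ ∉ Kf y} (κ.ord ^ (ω₁ + 1) * δ) := by
  classical
  have hreg : κ.IsRegular := by
    rw [hκ]
    exact Cardinal.isRegular_succ (Cardinal.aleph0_le_aleph 1)
  have hK1 : (1 : Ordinal.{0}) < κ.ord := by
    rw [Cardinal.lt_ord, Ordinal.card_one]
    exact Cardinal.one_lt_aleph0.trans_le hreg.aleph0_le
  obtain ⟨h, hh1, hh2⟩ := exists_inj_omega1 (by rw [← hκ]; exact hν)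
  have hk : ∀ δ : Ordinal.{0}, ∃ k : Ordinal.{0} → ℕ, δ < ω₁ → Set.InjOn k (Set.Iio δ) := by
    intro δ
    by_cases hδ : δ < ω₁
    · obtain ⟨k, hk⟩ := exists_inj_nat hδ
      exact ⟨k, fun _ => hk⟩
    · exact ⟨fun _ => 0, fun h => absurd h hδ⟩
  choose k hk using hk
  have hf : ∀ c : Ordinal.{0}, ∃ f : Ordinal.{0} → Ordinal.{0}, (∀ ξ, f ξ < ω₁) ∧
      (c < κ.ord → Set.InjOn f (Set.Iio c)) := by
    intro c
    by_cases hc : c < κ.ord
    · obtain ⟨f, hf1, hf2⟩ := exists_inj_omega1 (by rw [← hκ]; exact hc)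
      exact ⟨f, hf2, fun _ => hf1⟩
    · exact ⟨fun _ => 0, fun _ => Ordinal.omega_pos 1, fun h => absurd h hc⟩
  choose f hf1 hf2 using hf
  refine ⟨fun y => Kl h k f (CNF κ.ord y), fun y => ?_, fun ξ hξ => ?_⟩
  · exact Kl_finite (K := κ.ord) (fun e => hk _ (hh2 e)) hf2 _ (fun p hp =>
      Ordinal.CNF.snd_lt hK1 hp)
  · refine sm_K hreg hν ?_ (fun c hc ξ _ => hf1 c ξ) hξ ν le_rfl
    intro j hj
    have h1 : (Set.Iic j).Countable := by
      have := countable_Iic hj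
      exact Set.countable_coe_iff.1 this
    refine Set.MapsTo.countable_of_injOn (f := h) (t := Set.Iic j) ?_ ?_ h1
    · rintro e ⟨_, he⟩
      exact he
    · exact hh1.mono (fun e he => he.1)

/-- from `Sm` to order types -/
lemma type_le_of_sm {α B : Ordinal.{0}} {P : Ordinal.{0} → Prop} (h : Sm {y | y < α ∧ P y} B) :
    typeLT {x : α.ToType | P (ToType.toOrd x : Ordinal.{0})} ≤ B := by
  obtain ⟨φ, h1, h2⟩ := h
  have hm : ∀ x : {x : α.ToType | P (ToType.toOrd x : Ordinal.{0})},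
      (ToType.toOrd x.1 : Ordinal.{0}) ∈ {y | y < α ∧ P y} := fun x => ⟨(ToType.toOrd x.1).2, x.2⟩
  conv_rhs => rw [← Ordinal.type_toType B]
  rw [Ordinal.type_le_iff']
  refine ⟨RelEmbedding.ofMonotone (fun x => ToType.mk (⟨φ (ToType.toOrd x.1 : Ordinal.{0}),
    h2 _ (hm x)⟩ : Set.Iio B)) ?_⟩
  intro a b hab
  rw [OrderIso.lt_iff_lt]
  exact h1 _ (hm a) _ (hm b) (toOrd_lt_toOrd.2 hab)

/-- Small covers exist between `ω₂ ^ (ω₁ + 2)` and `ω₂ ^ ω₂`. -/
theorem smallCover_interval {κ : Cardinal.{0}} (hκ : κ = Order.succ ℵ₁) {α : Ordinal.{0}}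
    (h1 : κ.ord ^ (ω₁ + 2) ≤ α) (h2 : α < κ.ord ^ κ.ord) : SmallCover κ α := by
  have hreg : κ.IsRegular := by
    rw [hκ]
    exact Cardinal.isRegular_succ (Cardinal.aleph0_le_aleph 1)
  have hK1 : (1 : Ordinal.{0}) < κ.ord := by
    rw [Cardinal.lt_ord, Ordinal.card_one]
    exact Cardinal.one_lt_aleph0.trans_le hreg.aleph0_le
  have hK0 : (0 : Ordinal.{0}) < κ.ord := zero_lt_one.trans hK1
  obtain ⟨ν, hν, hαν⟩ := (Ordinal.lt_opow_of_isSuccLimit hK0.ne'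
    (Cardinal.isSuccLimit_ord hreg.aleph0_le)).1 h2
  obtain ⟨Kf, hfin, hsm⟩ := small_family2 hκ hν
  refine ⟨fun ξ => {x : α.ToType | (ToType.toOrd ξ : Ordinal.{0}) ∉
    Kf (ToType.toOrd x : Ordinal.{0})}, ?_, ?_⟩
  · intro ξ
    obtain ⟨δ, hδ, hS⟩ := hsm (ToType.toOrd ξ : Ordinal.{0}) (ToType.toOrd ξ).2
    refine lt_of_le_of_lt (type_le_of_sm (P := fun y => (ToType.toOrd ξ : Ordinal.{0}) ∉ Kf y)
      (hS.mono (fun y hy => ⟨lt_of_lt_of_le hy.1 hαν.le, hy.2⟩) le_rfl)) ?_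
    refine lt_of_lt_of_le ?_ h1
    rw [show (ω₁ + 2 : Ordinal.{0}) = (ω₁ + 1) + 1 by rw [add_assoc, one_add_one_eq_two],
      Ordinal.opow_add _ (ω₁ + 1) 1, Ordinal.opow_one]
    exact mul_lt_mul_of_pos_left hδ (Ordinal.opow_pos _ hK0)
  · intro x
    refine Set.Finite.subset ((hfin (ToType.toOrd x : Ordinal.{0})).preimage
      (f := fun ξ : κ.ord.ToType => (ToType.toOrd ξ : Ordinal.{0})) ?_) ?_
    · intro a _ b _ hab
      exact ToType.mk.symm.injective (Subtype.ext hab)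
    · intro ξ hξ
      exact Set.notMem_compl_iff.1 (fun h => hξ h)

/-- left multiples -/
theorem SmallCover.mul_left {κ : Cardinal.{0}} {α β : Ordinal.{0}} (hβ : 0 < β)
    (h : SmallCover κ α) : SmallCover κ (β * α) := by
  obtain ⟨S, hS1, hS2⟩ := h
  have hdiv : ∀ x : (β * α).ToType, (ToType.toOrd x : Ordinal.{0}) / β < α := fun x =>
    (Ordinal.lt_mul_iff_div_lt hβ.ne').1 (ToType.toOrd x).2
  let d : (β * α).ToType → α.ToType := fun x => ToType.mk ⟨_, hdiv x⟩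
  have hd : ∀ x, (ToType.toOrd (d x) : Ordinal.{0}) = (ToType.toOrd x : Ordinal.{0}) / β := by
    intro x
    have h3 : ToType.toOrd (ToType.mk (⟨_, hdiv x⟩ : Set.Iio α)) = ⟨_, hdiv x⟩ := by simp
    change (ToType.toOrd (ToType.mk (⟨_, hdiv x⟩ : Set.Iio α)) : Ordinal.{0}) = _
    rw [h3]
  refine ⟨fun ξ => {x | d x ∈ S ξ}, fun ξ => ?_, fun x => hS2 (d x)⟩
  refine lt_of_le_of_lt ?_ (mul_lt_mul_of_pos_left (hS1 ξ) hβ)
  conv_rhs => rw [← Ordinal.type_toType β]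
  rw [← Ordinal.type_prod_lex, Ordinal.type_le_iff']
  refine ⟨RelEmbedding.ofMonotone (fun x : {x | d x ∈ S ξ} => ((⟨d x.1, x.2⟩ : S ξ),
    (ToType.mk (⟨(ToType.toOrd x.1 : Ordinal.{0}) % β, Ordinal.mod_lt _ hβ.ne'⟩ : Set.Iio β)))) ?_⟩
  intro a b hab
  have hab' : (ToType.toOrd a.1 : Ordinal.{0}) < ToType.toOrd b.1 := toOrd_lt_toOrd.2 hab
  have h1 : (ToType.toOrd a.1 : Ordinal.{0}) / β ≤ (ToType.toOrd b.1 : Ordinal.{0}) / β :=
    (Ordinal.le_div hβ.ne').2 ((Ordinal.mul_div_le _ _).trans hab'.le)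
  rw [Prod.lex_def]
  rcases h1.lt_or_eq with h2 | h2
  · left
    change d a.1 < d b.1
    rw [← toOrd_lt_toOrd, hd, hd]
    exact h2
  · right
    refine ⟨?_, ?_⟩
    · apply Subtype.ext
      change d a.1 = d b.1
      apply ToType.mk.symm.injective
      apply Subtype.ext
      change (ToType.toOrd (d a.1) : Ordinal.{0}) = ToType.toOrd (d b.1)
      rw [hd, hd, h2]
    · change ToType.mk _ < ToType.mk _
      rw [OrderIso.lt_iff_lt]
      change (ToType.toOrd a.1 : Ordinal.{0}) % β < (ToType.toOrd b.1 : Ordinal.{0}) % β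
      have h3 := Ordinal.div_add_mod (ToType.toOrd a.1 : Ordinal.{0}) β
      have h4 := Ordinal.div_add_mod (ToType.toOrd b.1 : Ordinal.{0}) β
      rw [h2] at h3
      have h5 : β * ((ToType.toOrd b.1 : Ordinal.{0}) / β) + (ToType.toOrd a.1 : Ordinal.{0}) % β <
          β * ((ToType.toOrd b.1 : Ordinal.{0}) / β) + (ToType.toOrd b.1 : Ordinal.{0}) % β := by
        rw [h3, h4]
        exact hab'
      exact (add_lt_add_iff_left _).1 h5

end Pool.Agent.TH764.OG
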