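import Mathlib
import Pool.Agent.TH764.OG.Neg2
import Pool.Agent.TH764.OG.Fam2

/-!
# The relation `α → (α, infinite path)²` below `ω₂ ^ ω₂` under `2 ^ ℵ₀ = ℵ₁`, `2 ^ ℵ₁ = ℵ₂`
-/

set_option autoImplicit false

namespace Pool.Agent.TH764.OG

open Set Cardinal Ordinal

lemma aleph_two : (ℵ_ 2 : Cardinal.{0}) = Order.succ ℵ₁ := by
  rw [Cardinal.succ_aleph, one_add_one_eq_two]

lemma omega_two : (ω_ 2 : Ordinal.{0}) = (Order.succ (ℵ₁ : Cardinal.{0})).ord := by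
  rw [← aleph_two, Cardinal.ord_aleph]

/-- Failures. -/
theorem not_rel_interval (h2 : (2 : Cardinal.{0}) ^ (ℵ₁ : Cardinal.{0}) = ℵ_ 2)
    {τ α : Ordinal.{0}} (hτ : τ < ω_ 3) (hdvd : ω_ 2 ∣ α) (hα1 : ω_ 2 ^ (ω_ 1 + 2) ≤ α)
    (hα2 : α < ω_ 2 ^ ω_ 2) : ¬ Rel (ω_ 2 ^ τ * α) := by
  have hμ : ℵ₀ ≤ (ℵ₁ : Cardinal.{0}) := Cardinal.aleph0_le_aleph 1
  have hs : ℵ₀ ≤ Order.succ (ℵ₁ : Cardinal.{0}) := hμ.trans (Order.le_succ _)
  have hpos : (0 : Ordinal.{0}) < ω_ 2 := Ordinal.omega_pos 2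
  have hcard2 : (ω_ 2 : Ordinal.{0}).card = Order.succ ℵ₁ := by
    rw [omega_two, Cardinal.card_ord]
  have h3 : (ω_ 3 : Ordinal.{0}) = (Order.succ (Order.succ (ℵ₁ : Cardinal.{0}))).ord := by
    rw [← aleph_two, Cardinal.succ_aleph, ← Cardinal.ord_aleph]
    congr 2
  refine not_rel_of_smallCover hμ (by rw [h2, aleph_two]) ?_ ?_ ?_
  · rw [← omega_two]
    rcases eq_or_ne τ 0 with rfl | h0
    · rwa [Ordinal.opow_zero, one_mul]
    · have h1 : 1 ≤ τ := by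
        rw [Order.one_le_iff_pos]
        exact pos_iff_ne_zero.2 h0
      obtain ⟨δ, hδ⟩ : ∃ δ, τ = 1 + δ := ⟨τ - 1, (Ordinal.add_sub_cancel_of_le h1).symm⟩
      rw [hδ, Ordinal.opow_add, Ordinal.opow_one, mul_assoc]
      exact dvd_mul_right _ _
  · rw [Ordinal.card_mul]
    have h4 : (ω_ 2 ^ τ : Ordinal.{0}).card ≤ Order.succ ℵ₁ := by
      refine (Ordinal.card_opow_le _ _).trans (max_le hs (max_le hcard2.le ?_))
      rw [h3, Cardinal.lt_ord] at hτ
      exact Order.lt_succ_iff.1 hτ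
    have h5 : α.card ≤ Order.succ ℵ₁ := by
      refine (Ordinal.card_le_card hα2.le).trans ?_
      exact (Ordinal.card_opow_le _ _).trans (max_le hs (max_le hcard2.le hcard2.le))
    exact (mul_le_mul' h4 h5).trans (Cardinal.mul_eq_self hs).le
  · refine SmallCover.mul_left (Ordinal.opow_pos _ hpos) (smallCover_interval rfl ?_ ?_)
    · rw [← omega_two]
      exact hα1
    · rw [← omega_two]
      exact hα2

/-- The exact answer below `ω₂ ^ ω₂`. -/
theorem exact_below (hCH : (2 : Cardinal.{0}) ^ (ℵ₀ : Cardinal.{0}) = ℵ₁)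
    (h2 : (2 : Cardinal.{0}) ^ (ℵ₁ : Cardinal.{0}) = ℵ_ 2) {α : Ordinal.{0}}
    (hα : Order.IsSuccLimit α) (hlt : α < ω_ 2 ^ ω_ 2) :
    Rel α ↔ ∀ γ ∈ (CNF ω α).map Prod.fst,
      ω ^ γ < ω_ 1 ^ (ω + 2) ∨ (ω_ 2 ≤ ω ^ γ ∧ ω ^ γ < ω_ 2 ^ (ω_ 1 + 2)) := by
  have hμ : ℵ₀ ≤ (ℵ₁ : Cardinal.{0}) := Cardinal.aleph0_le_aleph 1
  have hs : ℵ₀ ≤ Order.succ (ℵ₁ : Cardinal.{0}) := hμ.trans (Order.le_succ _)
  have hcard1 : (ω_ 1 : Ordinal.{0}).card = ℵ₁ := Ordinal.card_omega 1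
  have hcard2 : (ω_ 2 : Ordinal.{0}).card = ℵ_ 2 := Ordinal.card_omega 2
  have h12 : (ℵ₁ : Cardinal.{0}) < ℵ_ 2 := by
    rw [aleph_two]
    exact Order.lt_succ _
  have hc2 : (2 : Ordinal.{0}).card ≤ ℵ₀ := by
    have h := Ordinal.card_le_card (show (2 : Ordinal.{0}) ≤ ω from by
      exact_mod_cast (Ordinal.nat_lt_omega0 2).le)
    rwa [Ordinal.card_omega0] at h
  constructor
  · intro hR γ hγ
    have hRγ := (rel_iff_terms hα).1 hR γ hγ
    obtain ⟨β, δ, h3, _⟩ := cnf_split α γ hγ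
    have hle : ω ^ γ ≤ α := by
      rw [h3]
      exact le_add_self.trans le_self_add
    by_contra hcon
    rw [not_or, not_lt] at hcon
    obtain ⟨hc1, hc2⟩ := hcon
    rcases lt_or_ge (ω ^ γ) (ω_ 2) with h4 | h4
    · obtain ⟨G, hG1, hG2⟩ := Results.MP_820435_lc.NeverProvableAbove.main2
        (by rw [hCH, Cardinal.succ_aleph0]) (ω ^ γ) h4
      rcases hRγ G with ⟨Y, hY1, hY2⟩ | hp
      · have h5 := hG2 Y (by
          intro x hx y hy hxy
          exact hY1 hx hy (G.ne_of_adj hxy) hxy)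
        rw [hY2] at h5
        exact absurd h5 (not_lt.2 hc1)
      · exact hG1 hp
    · have h5 : ω_ 2 ^ (ω_ 1 + 2) ≤ ω ^ γ := by
        by_contra h6
        exact hc2 ⟨h4, not_le.1 h6⟩
      have h6 : ω_ 2 ∣ ω ^ γ := by
        rw [omega_two]
        exact dvd_of_le_opow hs (by rw [← omega_two]; exact h4)
      have h7 := not_rel_interval h2 (τ := 0) (Ordinal.omega_pos 3) h6 h5 (hle.trans_lt hlt)
      rw [Ordinal.opow_zero, one_mul] at h7
      exact h7 hRγ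
  · intro h
    refine main_zfc hα ?_
    intro γ hγ hc
    rcases h γ hγ with h3 | ⟨h3, h4⟩
    · have h5 : (ω ^ γ).card = ℵ₁ := by
        refine le_antisymm ?_ ?_
        · refine (Ordinal.card_le_card h3.le).trans ?_
          refine (Ordinal.card_opow_le _ _).trans (max_le hμ (max_le hcard1.le ?_))
          rw [Ordinal.card_add, Ordinal.card_omega0]
          refine Cardinal.add_le_of_le hμ hμ ?_
          exact hc2.trans hμ
        · exact Cardinal.aleph_one_le_iff.2 hc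
      refine ⟨ℵ₀, le_rfl, hc, ?_⟩
      rw [h5, Cardinal.ord_aleph0, Cardinal.ord_aleph]
      exact h3
    · have h5 : (ω ^ γ).card = ℵ_ 2 := by
        refine le_antisymm ?_ ?_
        · refine (Ordinal.card_le_card h4.le).trans ?_
          refine (Ordinal.card_opow_le _ _).trans (max_le (hμ.trans h12.le)
            (max_le hcard2.le ?_))
          rw [Ordinal.card_add, hcard1]
          refine Cardinal.add_le_of_le (hμ.trans h12.le) h12.le ?_
          exact hc2.trans (hμ.trans h12.le)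
        · rw [← hcard2]
          exact Ordinal.card_le_card h3
      refine ⟨ℵ₁, hμ, ?_, ?_⟩
      · rw [h5]
        exact h12
      · rw [h5, Cardinal.ord_aleph, Cardinal.ord_aleph]
        exact h4

end Pool.Agent.TH764.OG
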