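import Mathlib
import Pool.Agent.TH764.OG.Exact

/-!
# Failures of `α → (α, infinite path)²` for arbitrarily large `α < ω₃` under `2 ^ ℵ₁ = ℵ₂`
-/

set_option autoImplicit false

namespace Pool.Agent.TH764.OG

open Set Cardinal Ordinal

/-- Failures of the relation in terms of the base `ω₂` exponents of the Cantor terms. -/
theorem not_rel_exponent (h2 : (2 : Cardinal.{0}) ^ (ℵ₁ : Cardinal.{0}) = ℵ_ 2) {α : Ordinal.{0}}
    (hα : Order.IsSuccLimit α) (hlt : α < ω_ 3) {γ : Ordinal.{0}}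
    (hγ : γ ∈ (CNF ω α).map Prod.fst)
    (hexp : ω_ 1 + 2 ≤ log (ω_ 2) (ω ^ γ) % ω_ 2) : ¬ Rel α := by
  intro hR
  have hRγ := (rel_iff_terms hα).1 hR γ hγ
  obtain ⟨β, δ, h3, _⟩ := cnf_split α γ hγ
  have hle : ω ^ γ ≤ α := by
    rw [h3]
    exact le_add_self.trans le_self_add
  have hμ : ℵ₀ ≤ (ℵ₁ : Cardinal.{0}) := Cardinal.aleph0_le_aleph 1
  have hs : ℵ₀ ≤ Order.succ (ℵ₁ : Cardinal.{0}) := hμ.trans (Order.le_succ _)
  have hpos : (0 : Ordinal.{0}) < ω_ 2 := Ordinal.omega_pos 2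
  have hK1 : (1 : Ordinal.{0}) < ω_ 2 := Ordinal.one_lt_omega0.trans_le (Ordinal.omega0_le_omega 2)
  have hω : (0 : Ordinal.{0}) < ω ^ γ := Ordinal.opow_pos _ Ordinal.omega0_pos
  have he0 : (0 : Ordinal.{0}) < log (ω_ 2) (ω ^ γ) := by
    rw [pos_iff_ne_zero]
    intro h0
    rw [h0, Ordinal.zero_mod] at hexp
    exact absurd (lt_of_lt_of_le (Ordinal.omega_pos 1) (le_self_add.trans hexp)) (lt_irrefl _)
  have hge : (Order.succ (ℵ₁ : Cardinal.{0})).ord ≤ ω ^ γ := by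
    rw [← omega_two]
    have h4 := Ordinal.opow_log_le_self (ω_ 2) hω.ne'
    refine le_trans ?_ h4
    conv_lhs => rw [← Ordinal.opow_one (ω_ 2)]
    exact Ordinal.opow_le_opow_right hpos (Order.one_le_iff_pos.2 he0)
  obtain ⟨ν, q, hν1, hq0, hq, h5⟩ := opow_decomp hs hge
  rw [← omega_two] at hq h5
  have hlog : log (ω_ 2) (ω ^ γ) = ν := by
    rw [h5, Ordinal.log_opow_mul hK1 _ hq0.ne', Ordinal.log_eq_zero hq, add_zero]
  rw [hlog] at hexp he0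
  have h6 : ω_ 2 * (ν / ω_ 2) + ν % ω_ 2 = ν := Ordinal.div_add_mod ν (ω_ 2)
  have h7 : ν % ω_ 2 < ω_ 2 := Ordinal.mod_lt ν hpos.ne'
  have h8 : ω ^ γ = ω_ 2 ^ (ω_ 2 * (ν / ω_ 2)) * (ω_ 2 ^ (ν % ω_ 2) * q) := by
    rw [h5, ← mul_assoc, ← Ordinal.opow_add, h6]
  rw [h8] at hRγ
  refine not_rel_interval h2 ?_ ?_ ?_ ?_ hRγ
  · have h9 : ω_ 2 * (ν / ω_ 2) ≤ ν := Ordinal.mul_div_le _ _
    refine h9.trans_lt (lt_of_le_of_lt ?_ (hle.trans_lt hlt))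
    rw [h5]
    exact (Ordinal.right_le_opow ν hK1).trans (le_mul_of_one_le_right' (Order.one_le_iff_pos.2 hq0))
  · have h10 : 1 ≤ ν % ω_ 2 := (Order.one_le_iff_pos.2 (Ordinal.omega_pos 1)).trans
      (le_self_add.trans hexp)
    obtain ⟨δ', hδ'⟩ : ∃ δ', ν % ω_ 2 = 1 + δ' :=
      ⟨ν % ω_ 2 - 1, (Ordinal.add_sub_cancel_of_le h10).symm⟩
    rw [hδ', Ordinal.opow_add, Ordinal.opow_one, mul_assoc]
    exact dvd_mul_right _ _
  · exact (Ordinal.opow_le_opow_right hpos hexp).trans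
      (le_mul_of_one_le_right' (Order.one_le_iff_pos.2 hq0))
  · have hlim : Order.IsSuccLimit (ω_ 2 : Ordinal.{0}) := isSuccLimit_omega 2
    calc ω_ 2 ^ (ν % ω_ 2) * q < ω_ 2 ^ (ν % ω_ 2) * ω_ 2 :=
          mul_lt_mul_of_pos_left hq (Ordinal.opow_pos _ hpos)
      _ = ω_ 2 ^ (ν % ω_ 2 + 1) := by rw [Ordinal.opow_add, Ordinal.opow_one]
      _ ≤ ω_ 2 ^ ω_ 2 := Ordinal.opow_le_opow_right hpos (hlim.succ_lt h7).le

end Pool.Agent.TH764.OG
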