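import Mathlib
import Pool.Agent.TH764.OG.Fam2

/-!
# Ranks of functions modulo countable sets, and families of small subsets of `κ ^ ν`
-/

set_option autoImplicit false

namespace Pool.Agent.TH764.OG

open Set Cardinal Ordinal

variable {κ θ μ : Cardinal.{0}} {X : Type} [LinearOrder X] [WellFoundedLT X]

/-- `s < t` outside a countable set -/
def NRel (D : Type) (ρ : Ordinal.{0}) (s t : D → ρ.ToType) : Prop := {i | ¬ s i < t i}.Countable

lemma nrel_wf {D : Type} (hD : Uncountable D) (ρ : Ordinal.{0}) :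
    IsWellFounded (D → ρ.ToType) (NRel D ρ) := by
  refine ⟨wellFounded_iff_isEmpty_descending_chain.2 ⟨?_⟩⟩
  rintro ⟨f, hf⟩
  have h1 : (⋃ n, {i | ¬ f (n + 1) i < f n i}).Countable := Set.countable_iUnion hf
  have h2 : ∃ i, i ∉ ⋃ n, {i | ¬ f (n + 1) i < f n i} := by
    by_contra hcon
    have hcon' : ∀ i, i ∈ ⋃ n, {i | ¬ f (n + 1) i < f n i} := fun i =>
      by_contra (fun h => hcon ⟨i, h⟩)
    rw [Set.eq_univ_of_forall hcon'] at h1
    exact Set.not_countable_univ h1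
  obtain ⟨i, hi⟩ := h2
  simp only [Set.mem_iUnion, Set.mem_ofPred_eq, not_exists, not_not] at hi
  exact (wellFounded_iff_isEmpty_descending_chain.1
    (wellFounded_lt (α := ρ.ToType))).false ⟨fun n => f n i, hi⟩

/-- If `Z` many blocks contain a part of `A` of type at least `b`, the type of `A` is at least
`b * Z`. -/
lemma type_blocks' {B q b : Ordinal.{0}} (φ : Ordinal.{0} → X)
    (hφ : StrictMonoOn φ (Set.Iio (B * q))) (A : Set X) (Z : Set q.ToType)
    (hZ : ∀ ζ ∈ Z, b ≤ typeLT ((fun ξ => φ (B * (ToType.toOrd ζ : Ordinal.{0}) + ξ)) ''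
      Set.Iio B ∩ A : Set X)) : b * typeLT Z ≤ typeLT (φ '' Set.Iio (B * q) ∩ A : Set X) := by
  refine type_mul_le (ι := Z) (fun ζ =>
    ((fun ξ => φ (B * (ToType.toOrd ζ.1 : Ordinal.{0}) + ξ)) '' Set.Iio B ∩ A : Set X))
    (φ '' Set.Iio (B * q) ∩ A : Set X) ?_ ?_ b (fun ζ => hZ ζ.1 ζ.2)
  · intro i j hij a ha b hb
    obtain ⟨⟨ξ, hξ, rfl⟩, _⟩ := ha
    obtain ⟨⟨ζ, hζ, rfl⟩, _⟩ := hb
    exact hφ (mul_add_lt_mul (ToType.toOrd i.1).2 hξ)
      (mul_add_lt_mul (ToType.toOrd j.1).2 hζ)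
      (mul_add_lt_mul_add (toOrd_lt_toOrd.2 hij) hξ)
  · rintro j a ⟨⟨ξ, hξ, rfl⟩, ha⟩
    exact ⟨⟨_, mul_add_lt_mul (ToType.toOrd j.1).2 hξ, rfl⟩, ha⟩

omit [LinearOrder X] [WellFoundedLT X] in
lemma block_sub {B q : Ordinal.{0}} (φ : Ordinal.{0} → X) (A : Set X) (ζ : q.ToType) :
    ((fun ξ => φ (B * (ToType.toOrd ζ : Ordinal.{0}) + ξ)) '' Set.Iio B ∩ A : Set X) ⊆
      (φ '' Set.Iio (B * q) ∩ A : Set X) := by
  rintro a ⟨⟨ξ, hξ, rfl⟩, ha⟩
  exact ⟨⟨_, mul_add_lt_mul (ToType.toOrd ζ).2 hξ, rfl⟩, ha⟩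

lemma iUnion_lt_cof (hκ : ℵ₀ ≤ κ) {ι Y : Type} (hι : #ι < κ.ord.cof) (t : ι → Set Y)
    (ht : ∀ i, #(t i) < κ) : #(⋃ i, t i : Set Y) < κ := by
  refine lt_of_le_of_lt (Cardinal.mk_iUnion_le t) ?_
  exact Cardinal.mul_lt_of_lt hκ (hι.trans_le (Ordinal.cof_ord_le κ))
    (Cardinal.iSup_lt_of_lt_cof_ord hι ht)

/-- The norm lemma. -/
theorem norm_lemma (hκ : ℵ₀ ≤ κ) {D : Type} (hD1 : Uncountable D) (hD2 : #D < κ.ord.cof)
    (ρ : Ordinal.{0}) (ν : Ordinal.{0}) : ∀ (T : D → Set X) (φ : Ordinal.{0} → X),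
    StrictMonoOn φ (Set.Iio (κ.ord ^ ν)) → (∀ ξ < κ.ord ^ ν, {i | φ ξ ∉ T i}.Countable) →
    ∀ t : D → ρ.ToType, (∀ i, typeLT (φ '' Set.Iio (κ.ord ^ ν) ∩ T i : Set X) <
      κ.ord ^ (ToType.toOrd (t i) : Ordinal.{0})) →
    haveI := nrel_wf hD1 ρ
    ν ≤ IsWellFounded.rank (NRel D ρ) t := by
  classical
  have hwf := nrel_wf hD1 ρ
  have hK : (0 : Ordinal.{0}) < κ.ord := by
    rw [Cardinal.ord_pos]
    exact Cardinal.aleph0_pos.trans_le hκ
  induction ν using WellFoundedLT.induction with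
  | ind ν ih =>
  intro T φ hφ hT t ht
  rcases Ordinal.zero_or_succ_or_isSuccLimit ν with h0 | ⟨ν', hν'⟩ | hlim
  · subst h0
    exact zero_le
  · have hν'' : ν = ν' + 1 := by rw [← hν']; exact (Order.succ_eq_add_one ν')
    subst hν''
    have hlt : ν' < ν' + 1 := Order.lt_add_one_iff.2 le_rfl
    have hpow' : κ.ord ^ (ν' + 1) = κ.ord ^ ν' * κ.ord := by
      rw [Ordinal.opow_add, Ordinal.opow_one]
    have hpos : 0 < κ.ord ^ (ν' + 1) := Ordinal.opow_pos _ hK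
    -- the indices with value zero
    have hzero : ∀ i, (ToType.toOrd (t i) : Ordinal.{0}) = 0 → φ 0 ∉ T i := by
      intro i hi hmem
      have h2 := ht i
      rw [hi, Ordinal.opow_zero] at h2
      have h3 : (1 : Ordinal.{0}) ≤ typeLT (φ '' Set.Iio (κ.ord ^ (ν' + 1)) ∩ T i : Set X) := by
        rw [Order.one_le_iff_pos, pos_iff_ne_zero]
        intro h4
        rw [Ordinal.type_eq_zero_iff_isEmpty] at h4
        exact h4.false ⟨φ 0, ⟨0, hpos, rfl⟩, hmem⟩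
      exact absurd h2 (not_lt.2 h3)
    have hc : ∀ i, ∃ s : ρ.ToType, ((ToType.toOrd (t i) : Ordinal.{0}) ≠ 0 → s < t i) ∧
        #{ζ : κ.ord.ToType | κ.ord ^ (ToType.toOrd s : Ordinal.{0}) ≤
          typeLT ((fun ξ => φ (κ.ord ^ ν' * (ToType.toOrd ζ : Ordinal.{0}) + ξ)) ''
            Set.Iio (κ.ord ^ ν') ∩ T i : Set X)} < κ := by
      intro i
      have hall : ∀ s : ρ.ToType, typeLT (φ '' Set.Iio (κ.ord ^ (ν' + 1)) ∩ T i : Set X) <
          κ.ord ^ (ToType.toOrd s : Ordinal.{0}) →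
          #{ζ : κ.ord.ToType | κ.ord ^ (ToType.toOrd s : Ordinal.{0}) ≤
          typeLT ((fun ξ => φ (κ.ord ^ ν' * (ToType.toOrd ζ : Ordinal.{0}) + ξ)) ''
            Set.Iio (κ.ord ^ ν') ∩ T i : Set X)} < κ := by
        intro s hs
        have h1 : {ζ : κ.ord.ToType | κ.ord ^ (ToType.toOrd s : Ordinal.{0}) ≤
          typeLT ((fun ξ => φ (κ.ord ^ ν' * (ToType.toOrd ζ : Ordinal.{0}) + ξ)) ''
            Set.Iio (κ.ord ^ ν') ∩ T i : Set X)} = ∅ := by
          ext ζ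
          simp only [Set.mem_ofPred_eq, Set.mem_empty_iff_false, iff_false, not_le]
          rw [hpow'] at hs
          exact lt_of_le_of_lt (type_mono (block_sub φ (T i) ζ)) hs
        rw [h1, Cardinal.mk_eq_zero]
        exact Cardinal.aleph0_pos.trans_le hκ
      rcases Ordinal.zero_or_succ_or_isSuccLimit (ToType.toOrd (t i) : Ordinal.{0}) with
        h0 | ⟨c, hc⟩ | hl
      · exact ⟨t i, fun h => absurd h0 h, hall (t i) (ht i)⟩
      · have hc' : (ToType.toOrd (t i) : Ordinal.{0}) = c + 1 := by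
          rw [← hc]; exact (Order.succ_eq_add_one c)
        have hct : c < (ToType.toOrd (t i) : Ordinal.{0}) := by
          rw [hc']
          exact Order.lt_add_one_iff.2 le_rfl
        have hcρ : c < ρ := hct.trans (ToType.toOrd (t i)).2
        refine ⟨ToType.mk ⟨c, hcρ⟩, fun _ => ?_, ?_⟩
        · rw [← toOrd_lt_toOrd, toOrd_mk' hcρ, hc']
          exact Order.lt_add_one_iff.2 le_rfl
        · rw [toOrd_mk' hcρ]
          by_contra hcon
          rw [not_lt] at hcon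
          have h1 : κ.ord ≤ typeLT {ζ : κ.ord.ToType | κ.ord ^ c ≤
            typeLT ((fun ξ => φ (κ.ord ^ ν' * (ToType.toOrd ζ : Ordinal.{0}) + ξ)) ''
            Set.Iio (κ.ord ^ ν') ∩ T i : Set X)} :=
            (Cardinal.ord_le_ord.2 hcon).trans (Cardinal.ord_le_type _)
          have h2 := type_blocks' (b := κ.ord ^ c) φ (by rw [← hpow']; exact hφ) (T i)
            {ζ : κ.ord.ToType | κ.ord ^ c ≤
            typeLT ((fun ξ => φ (κ.ord ^ ν' * (ToType.toOrd ζ : Ordinal.{0}) + ξ)) ''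
            Set.Iio (κ.ord ^ ν') ∩ T i : Set X)} (fun ζ hζ => hζ)
          have h3 := ht i
          rw [hc', hpow', Ordinal.opow_add _ c 1, Ordinal.opow_one] at h3
          exact absurd ((mul_le_mul_right h1 _).trans h2) (not_le.2 h3)
      · obtain ⟨c, hc, hc'⟩ := (Ordinal.lt_opow_of_isSuccLimit hK.ne' hl).1 (ht i)
        have hcρ : c < ρ := hc.trans (ToType.toOrd (t i)).2
        refine ⟨ToType.mk ⟨c, hcρ⟩, fun _ => ?_, hall _ ?_⟩
        · rw [← toOrd_lt_toOrd, toOrd_mk' hcρ]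
          exact hc
        · rw [toOrd_mk' hcρ]
          exact hc'
    choose s hs1 hs2 using hc
    obtain ⟨ζ, hζ⟩ := exists_notMem_iUnion _ (iUnion_lt_cof hκ hD2 _ hs2)
    have hζ' : ∀ i, typeLT ((fun ξ => φ (κ.ord ^ ν' * (ToType.toOrd ζ : Ordinal.{0}) + ξ)) ''
            Set.Iio (κ.ord ^ ν') ∩ T i : Set X) < κ.ord ^ (ToType.toOrd (s i) : Ordinal.{0}) :=
      fun i => not_le.1 (hζ i)
    have h1 := ih ν' hlt T (fun ξ => φ (κ.ord ^ ν' * (ToType.toOrd ζ : Ordinal.{0}) + ξ)) (by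
        rw [hpow'] at hφ
        intro a ha b hb hab
        exact hφ (mul_add_lt_mul (ToType.toOrd ζ).2 ha) (mul_add_lt_mul (ToType.toOrd ζ).2 hb)
          ((add_lt_add_iff_left _).2 hab)) (by
        intro ξ hξ
        apply hT
        rw [hpow']
        exact mul_add_lt_mul (ToType.toOrd ζ).2 hξ) s hζ'
    have h2 : NRel D ρ s t := by
      refine Set.Countable.mono ?_ (hT 0 hpos)
      intro i hi
      apply hzero i
      by_contra h3
      exact hi (hs1 i h3)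
    exact Order.add_one_le_of_lt (lt_of_le_of_lt h1 (IsWellFounded.rank_lt_of_rel h2))
  · refine le_of_forall_lt (fun δ hδ => ?_)
    have hδ' : δ + 1 < ν := hlim.succ_lt hδ
    have hsub : Set.Iio (κ.ord ^ (δ + 1)) ⊆ Set.Iio (κ.ord ^ ν) :=
      Set.Iio_subset_Iio (Ordinal.opow_le_opow_right hK hδ'.le)
    have h1 := ih (δ + 1) hδ' T φ (hφ.mono hsub) (fun ξ hξ => hT ξ (hsub hξ)) t (fun i =>
      lt_of_le_of_lt (type_mono (Set.inter_subset_inter_left _ (Set.image_mono hsub))) (ht i))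
    exact lt_of_lt_of_le (Order.lt_add_one_iff.2 le_rfl) h1

/-- ranks are bounded -/
lemma rank_bound {D : Type} (hD1 : Uncountable D) (hκ : ℵ₀ ≤ κ) (hpow : κ ^ #D ≤ κ)
    {ρ : Ordinal.{0}} (hρ : ρ < (Order.succ κ).ord) :
    haveI := nrel_wf hD1 ρ
    ∃ b < (Order.succ κ).ord, ∀ t : D → ρ.ToType, IsWellFounded.rank (NRel D ρ) t < b := by
  have hwf := nrel_wf hD1 ρ
  have hF : #(D → ρ.ToType) ≤ κ := by
    rw [← Cardinal.power_def, Cardinal.mk_toType]
    have h1 : ρ.card ≤ κ := Order.lt_succ_iff.1 (Cardinal.lt_ord.1 hρ)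
    exact (Cardinal.power_le_power_right h1).trans hpow
  have hlim : Order.IsSuccLimit (Order.succ κ).ord :=
    Cardinal.isSuccLimit_ord (hκ.trans (Order.le_succ κ))
  have h1 : ∀ t : D → ρ.ToType, IsWellFounded.rank (NRel D ρ) t < (Order.succ κ).ord := by
    intro t
    rw [Cardinal.lt_ord, Order.lt_succ_iff]
    refine le_trans ?_ hF
    rw [← Cardinal.mk_toType]
    have h2 : ∀ o : (IsWellFounded.rank (NRel D ρ) t).ToType, ∃ s : D → ρ.ToType,
        IsWellFounded.rank (NRel D ρ) s = (ToType.toOrd o : Ordinal.{0}) := fun o =>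
      IsWellFounded.mem_range_rank_of_le (le_of_lt (ToType.toOrd o).2)
    choose s hs using h2
    refine Cardinal.mk_le_of_injective (f := s) ?_
    intro o o' hoo'
    have h3 : (ToType.toOrd o : Ordinal.{0}) = ToType.toOrd o' := by rw [← hs, ← hs, hoo']
    exact ToType.mk.symm.injective (Subtype.ext h3)
  refine ⟨⨆ t, (IsWellFounded.rank (NRel D ρ) t + 1), ?_, ?_⟩
  · refine Ordinal.iSup_lt_of_lt_cof ?_ (fun t => hlim.succ_lt (h1 t))
    rw [(Cardinal.isRegular_succ hκ).cof_ord]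
    exact Order.lt_succ_iff.2 hF
  · intro t
    refine lt_of_lt_of_le (Order.lt_add_one_iff.2 le_rfl)
      (Ordinal.le_iSup (fun t => IsWellFounded.rank (NRel D ρ) t + 1) t)

end Pool.Agent.TH764.OG
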