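import Mathlib
import Pool.Agent.TH764.OG.Norm

/-!
# Arbitrarily large `α < κ⁺` with `α → (α, infinite path)²`
-/

set_option autoImplicit false

namespace Pool.Agent.TH764.OG

open Set Cardinal Ordinal

/-- The pigeonhole property at exponent `ν`: among at least `θ` subsets of `κ ^ ν` of smaller type
there are `θ` many that omit a common point. -/
def NFp (X : Type) [LinearOrder X] [WellFoundedLT X] (κ θ : Cardinal.{0}) (ν : Ordinal.{0}) :
    Prop :=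
  ∀ (D : Type) (T : D → Set X) (φ : Ordinal.{0} → X), θ ≤ #D →
    StrictMonoOn φ (Set.Iio (κ.ord ^ ν)) →
    (∀ i, typeLT (φ '' Set.Iio (κ.ord ^ ν) ∩ T i : Set X) < κ.ord ^ ν) →
    ∃ ξ < κ.ord ^ ν, θ ≤ #{i | φ ξ ∉ T i}

variable {κ θ μ : Cardinal.{0}} {X : Type} [LinearOrder X] [WellFoundedLT X]

/-- a limit exponent `ν + η` -/
lemma lt_opow_add {K ν η δ : Ordinal.{0}} (hK : 0 < K) (hη : Order.IsSuccLimit η)
    (hδ : δ < K ^ (ν + η)) : ∃ c : η.ToType, δ < K ^ (ν + (ToType.toOrd c : Ordinal.{0})) := by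
  have hlim : Order.IsSuccLimit (ν + η) := Ordinal.isSuccLimit_add ν hη
  obtain ⟨c, hc, hc'⟩ := (Ordinal.lt_opow_of_isSuccLimit hK.ne' hlim).1 hδ
  have h1 : c - ν < η := by
    rcases lt_or_ge c ν with h | h
    · rw [Ordinal.sub_eq_zero_iff_le.2 h.le]
      exact pos_iff_ne_zero.2 hη.ne_bot
    · rw [← add_lt_add_iff_left ν, Ordinal.add_sub_cancel_of_le h]
      exact hc
  refine ⟨ToType.mk ⟨c - ν, h1⟩, ?_⟩
  rw [toOrd_mk' h1]
  exact lt_of_lt_of_le hc' (Ordinal.opow_le_opow_right hK (Ordinal.le_add_sub c ν))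

/-- from `ν` to `ν + η`, `η < θ` -/
theorem nf_add (hκ : ℵ₀ ≤ κ) (hθ : θ.IsRegular) (hS : Stab κ θ) {ν : Ordinal.{0}}
    (hbase : NFp X κ θ ν) (η : Ordinal.{0}) : η < θ.ord → NFp X κ θ (ν + η) := by
  classical
  have hK : (0 : Ordinal.{0}) < κ.ord := by
    rw [Cardinal.ord_pos]
    exact Cardinal.aleph0_pos.trans_le hκ
  induction η using WellFoundedLT.induction with
  | ind η ih =>
  intro hηθ
  rcases Ordinal.zero_or_succ_or_isSuccLimit η with h0 | ⟨η', hη'⟩ | hlim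
  · subst h0
    rwa [add_zero]
  · have hη'' : η = η' + 1 := by rw [← hη']; exact (Order.succ_eq_add_one η')
    subst hη''
    intro D T φ hD hφ hT
    have hlt : η' < η' + 1 := Order.lt_add_one_iff.2 le_rfl
    have hpow' : κ.ord ^ (ν + (η' + 1)) = κ.ord ^ (ν + η') * κ.ord := by
      rw [← add_assoc, Ordinal.opow_add _ (ν + η') 1, Ordinal.opow_one]
    have hT : ∀ i, typeLT (φ '' Set.Iio (κ.ord ^ (ν + (η' + 1))) ∩ T i : Set X) <
      κ.ord ^ (ν + (η' + 1)) := hT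
    rw [hpow'] at hφ hT ⊢
    let Z : D → Set κ.ord.ToType := fun i => {ζ | κ.ord ^ (ν + η') ≤
      typeLT ((fun ξ => φ (κ.ord ^ (ν + η') * (ToType.toOrd ζ : Ordinal.{0}) + ξ)) ''
        Set.Iio (κ.ord ^ (ν + η')) ∩ T i : Set X)}
    have hZ : ∀ i, #(Z i) < κ := by
      intro i
      by_contra hcon
      rw [not_lt] at hcon
      have h1 : κ.ord ≤ typeLT (Z i) :=
        (Cardinal.ord_le_ord.2 hcon).trans (Cardinal.ord_le_type _)
      have h2 := type_blocks φ hφ (T i) (Z i) (fun ζ hζ => hζ)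
      exact absurd ((mul_le_mul_right h1 _).trans h2) (not_le.2 (hT i))
    obtain ⟨D', hD', ζ, hζ⟩ := hS D Z hD hZ
    obtain ⟨ξ, hξ, hξ'⟩ := ih η' hlt (hlt.trans hηθ) D' (fun i => T i.1)
      (fun ξ => φ (κ.ord ^ (ν + η') * (ToType.toOrd ζ : Ordinal.{0}) + ξ)) hD' (by
        intro a ha b hb hab
        exact hφ (mul_add_lt_mul (ToType.toOrd ζ).2 ha) (mul_add_lt_mul (ToType.toOrd ζ).2 hb)
          ((add_lt_add_iff_left _).2 hab)) (fun i => not_le.1 (hζ i.1 i.2))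
    exact ⟨_, mul_add_lt_mul (ToType.toOrd ζ).2 hξ, hξ'.trans (mk_sub_type D' _)⟩
  · intro D T φ hD hφ hT
    have h1 : ∀ i, ∃ c : η.ToType, typeLT (φ '' Set.Iio (κ.ord ^ (ν + η)) ∩ T i : Set X) <
        κ.ord ^ (ν + (ToType.toOrd c : Ordinal.{0})) := fun i => lt_opow_add hK hlim (hT i)
    choose c hc using h1
    obtain ⟨a, ha⟩ := Cardinal.infinite_pigeonhole_card c θ hD hθ.aleph0_le
      (by rw [hθ.cof_ord, Cardinal.mk_toType]; exact Cardinal.lt_ord.1 hηθ)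
    have hsub : Set.Iio (κ.ord ^ (ν + (ToType.toOrd a : Ordinal.{0}))) ⊆
        Set.Iio (κ.ord ^ (ν + η)) :=
      Set.Iio_subset_Iio (Ordinal.opow_le_opow_right hK
        (add_le_add le_rfl (le_of_lt (ToType.toOrd a).2)))
    obtain ⟨ξ, hξ, hξ'⟩ := ih (ToType.toOrd a : Ordinal.{0}) (ToType.toOrd a).2
      (lt_trans (ToType.toOrd a).2 hηθ) (c ⁻¹' {a}) (fun i => T i.1) φ ha (hφ.mono hsub) (by
        intro i
        have h2 := hc i.1
        have h3 : c i.1 = a := i.2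
        rw [h3] at h2
        exact lt_of_le_of_lt (type_mono (Set.inter_subset_inter_left _ (Set.image_mono hsub))) h2)
    exact ⟨ξ, hsub hξ, hξ'.trans (mk_sub_type _ _)⟩

/-- the argument for exponent `ν + μ + 1` -/
lemma grow_top' (hκ : κ.IsRegular) (hμ : ℵ₀ ≤ μ) (hμκ : μ < κ) (ν : Ordinal.{0})
    (φ : Ordinal.{0} → X) (hφ : StrictMonoOn φ (Set.Iio (κ.ord ^ (ν + μ.ord) * κ.ord))) (A : Set X)
    (hA : ∀ (c : μ.ord.ToType) (k : κ.ord.ToType), ∃ j : κ.ord.ToType, k ≤ j ∧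
      κ.ord ^ (ν + (ToType.toOrd c : Ordinal.{0})) ≤ typeLT
      ((fun ξ => φ (κ.ord ^ (ν + μ.ord) * (ToType.toOrd j : Ordinal.{0}) + ξ)) ''
        Set.Iio (κ.ord ^ (ν + (ToType.toOrd c : Ordinal.{0}))) ∩ A : Set X)) :
    κ.ord ^ (ν + μ.ord) * κ.ord ≤
      typeLT (φ '' Set.Iio (κ.ord ^ (ν + μ.ord) * κ.ord) ∩ A : Set X) := by
  classical
  have hK : (0 : Ordinal.{0}) < κ.ord := by
    rw [Cardinal.ord_pos]
    exact Cardinal.aleph0_pos.trans_le hκ.aleph0_le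
  have hlim : Order.IsSuccLimit μ.ord := Cardinal.isSuccLimit_ord hμ
  have hcard : #μ.ord.ToType < κ := by
    rw [Cardinal.mk_ord_toType]
    exact hμκ
  have hsub : ∀ (i : μ.ord.ToType) (ξ : Ordinal.{0}),
      ξ < κ.ord ^ (ν + (ToType.toOrd i : Ordinal.{0})) → ξ < κ.ord ^ (ν + μ.ord) := fun i ξ hξ =>
    lt_of_lt_of_le hξ (Ordinal.opow_le_opow_right hK
      (add_le_add le_rfl (le_of_lt (ToType.toOrd i).2)))
  choose jf hjf1 hjf2 using hA
  have h1 : ∀ k : κ.ord.ToType, ∃ e, ∀ c : μ.ord.ToType, jf c k < e :=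
    fun k => bdd_of_lt hκ hcard (fun c => jf c k)
  choose F hF using h1
  obtain ⟨g, hg⟩ := exists_greedy hκ F
  let Tk : κ.ord.ToType → Set X := fun k => {x | x ∈ A ∧ ∃ j : κ.ord.ToType, k ≤ j ∧ j < F k ∧
    ∃ ξ < κ.ord ^ (ν + μ.ord), φ (κ.ord ^ (ν + μ.ord) * (ToType.toOrd j : Ordinal.{0}) + ξ) = x}
  have hTk : ∀ k, κ.ord ^ (ν + μ.ord) ≤ typeLT (Tk k) := by
    intro k
    refine le_of_forall_lt (fun δ hδ => ?_)
    obtain ⟨c, hc⟩ := lt_opow_add hK hlim hδ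
    refine lt_of_lt_of_le hc ((hjf2 c k).trans (type_mono ?_))
    rintro x ⟨⟨ξ, hξ, rfl⟩, hxA⟩
    exact ⟨hxA, jf c k, hjf1 c k, hF k c, ξ, hsub c ξ hξ, rfl⟩
  have h2 := type_mul_le (ι := κ.ord.ToType) (fun ξ => Tk (g ξ))
    (φ '' Set.Iio (κ.ord ^ (ν + μ.ord) * κ.ord) ∩ A : Set X) ?_ ?_ (κ.ord ^ (ν + μ.ord))
    (fun ξ => hTk (g ξ))
  · rwa [Ordinal.type_toType] at h2
  · intro η ξ hηξ a ha b hb
    obtain ⟨_, j, hj1, hj2, ζ, hζ, rfl⟩ := ha
    obtain ⟨_, j', hj1', hj2', ζ', hζ', rfl⟩ := hb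
    have h3 : j < j' := lt_of_lt_of_le hj2 ((hg ξ η hηξ).trans hj1')
    exact hφ (mul_add_lt_mul (ToType.toOrd j).2 hζ) (mul_add_lt_mul (ToType.toOrd j').2 hζ')
      (mul_add_lt_mul_add (toOrd_lt_toOrd.2 h3) hζ)
  · rintro ξ x ⟨hxA, j, _, _, ζ, hζ, rfl⟩
    exact ⟨⟨_, mul_add_lt_mul (ToType.toOrd j).2 hζ, rfl⟩, hxA⟩

/-- regular `κ`, exponents below `ν + μ + 2` -/
theorem nf_top (hκ : κ.IsRegular) (hμ : μ.IsRegular) (hμκ : μ < κ) {ν : Ordinal.{0}}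
    (hbase : NFp X κ μ ν) {η : Ordinal.{0}} (hη : η < μ.ord + 2) (D : Type) (T : D → Set X)
    (hD : κ ≤ #D) (φ : Ordinal.{0} → X) (hφ : StrictMonoOn φ (Set.Iio (κ.ord ^ (ν + η))))
    (hT : ∀ i, typeLT (φ '' Set.Iio (κ.ord ^ (ν + η)) ∩ T i : Set X) < κ.ord ^ (ν + η)) :
    ∃ ξ < κ.ord ^ (ν + η), ℵ₀ ≤ #{i | φ ξ ∉ T i} := by
  classical
  have hB := nf_add hκ.aleph0_le hμ (stab_regular hκ hμκ) hbase
  have hK : (0 : Ordinal.{0}) < κ.ord := by
    rw [Cardinal.ord_pos]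
    exact Cardinal.aleph0_pos.trans_le hκ.aleph0_le
  have hlim : Order.IsSuccLimit μ.ord := Cardinal.isSuccLimit_ord hμ.aleph0_le
  rcases lt_trichotomy η μ.ord with h | h | h
  · obtain ⟨ξ, hξ, hξ'⟩ := hB η h D T φ (hμκ.le.trans hD) hφ hT
    exact ⟨ξ, hξ, hμ.aleph0_le.trans hξ'⟩
  · subst h
    have h1 : ∀ i, ∃ c : μ.ord.ToType, typeLT (φ '' Set.Iio (κ.ord ^ (ν + μ.ord)) ∩ T i : Set X) <
        κ.ord ^ (ν + (ToType.toOrd c : Ordinal.{0})) := fun i => lt_opow_add hK hlim (hT i)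
    choose c hc using h1
    obtain ⟨a, ha⟩ := Cardinal.infinite_pigeonhole_card c κ hD hκ.aleph0_le
      (by rw [hκ.cof_ord, Cardinal.mk_ord_toType]; exact hμκ)
    have hsub : Set.Iio (κ.ord ^ (ν + (ToType.toOrd a : Ordinal.{0}))) ⊆
        Set.Iio (κ.ord ^ (ν + μ.ord)) :=
      Set.Iio_subset_Iio (Ordinal.opow_le_opow_right hK
        (add_le_add le_rfl (le_of_lt (ToType.toOrd a).2)))
    obtain ⟨ξ, hξ, hξ'⟩ := hB (ToType.toOrd a : Ordinal.{0}) (ToType.toOrd a).2 (c ⁻¹' {a})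
      (fun i => T i.1) φ (hμκ.le.trans ha) (hφ.mono hsub) (by
        intro i
        have h2 := hc i.1
        have h3 : c i.1 = a := i.2
        rw [h3] at h2
        exact lt_of_le_of_lt (type_mono (Set.inter_subset_inter_left _ (Set.image_mono hsub))) h2)
    exact ⟨ξ, hsub hξ, (hμ.aleph0_le.trans hξ').trans (mk_sub_type _ _)⟩
  · have h3 : η = μ.ord + 1 := by
      apply le_antisymm
      · have h4 : μ.ord + 2 = (μ.ord + 1) + 1 := by
          rw [add_assoc, one_add_one_eq_two]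
        rw [h4] at hη
        exact Order.lt_add_one_iff.1 hη
      · exact Order.add_one_le_of_lt h
    subst h3
    have h5 : κ.ord ^ (ν + (μ.ord + 1)) = κ.ord ^ (ν + μ.ord) * κ.ord := by
      rw [← add_assoc, Ordinal.opow_add _ (ν + μ.ord) 1, Ordinal.opow_one]
    rw [h5] at hφ hT ⊢
    have h6 : ∀ i, ∃ (c : μ.ord.ToType) (k : κ.ord.ToType), ∀ j : κ.ord.ToType, k ≤ j →
        typeLT ((fun ξ => φ (κ.ord ^ (ν + μ.ord) * (ToType.toOrd j : Ordinal.{0}) + ξ)) ''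
          Set.Iio (κ.ord ^ (ν + (ToType.toOrd c : Ordinal.{0}))) ∩ T i : Set X) <
          κ.ord ^ (ν + (ToType.toOrd c : Ordinal.{0})) := by
      intro i
      by_contra hcon
      push Not at hcon
      exact absurd (grow_top' hκ hμ.aleph0_le hμκ ν φ hφ (T i) hcon) (not_le.2 (hT i))
    choose c k hck using h6
    obtain ⟨a, ha⟩ := Cardinal.infinite_pigeonhole_card c κ hD hκ.aleph0_le
      (by rw [hκ.cof_ord, Cardinal.mk_ord_toType]; exact hμκ)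
    obtain ⟨D', hD'⟩ := Cardinal.le_mk_iff_exists_set.1 (hμκ.le.trans ha)
    obtain ⟨e, he⟩ := bdd_of_lt hκ (M := D') (by rw [hD']; exact hμκ) (fun i => k i.1.1)
    have hle : κ.ord ^ (ν + (ToType.toOrd a : Ordinal.{0})) ≤ κ.ord ^ (ν + μ.ord) :=
      Ordinal.opow_le_opow_right hK (add_le_add le_rfl (le_of_lt (ToType.toOrd a).2))
    obtain ⟨ξ, hξ, hξ'⟩ := hB (ToType.toOrd a : Ordinal.{0}) (ToType.toOrd a).2 D'
      (fun i => T i.1.1)
      (fun ξ => φ (κ.ord ^ (ν + μ.ord) * (ToType.toOrd e : Ordinal.{0}) + ξ)) hD'.ge (by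
        intro x hx y hy hxy
        exact hφ (mul_add_lt_mul (ToType.toOrd e).2 (lt_of_lt_of_le hx hle))
          (mul_add_lt_mul (ToType.toOrd e).2 (lt_of_lt_of_le hy hle))
          ((add_lt_add_iff_left _).2 hxy)) (by
        intro i
        have h2 := hck i.1.1 e (he i).le
        have h3 : c i.1.1 = a := i.1.2
        rwa [h3] at h2)
    have hlt : κ.ord ^ (ν + μ.ord) * (ToType.toOrd e : Ordinal.{0}) + ξ <
        κ.ord ^ (ν + μ.ord) * κ.ord :=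
      mul_add_lt_mul (ToType.toOrd e).2 (lt_of_lt_of_le hξ hle)
    refine ⟨κ.ord ^ (ν + μ.ord) * (ToType.toOrd e : Ordinal.{0}) + ξ, hlt,
      (hμ.aleph0_le.trans hξ').trans ?_⟩
    exact (mk_sub_type D' (fun i => φ (κ.ord ^ (ν + μ.ord) * (ToType.toOrd e : Ordinal.{0}) + ξ) ∉
      T i.1)).trans (mk_sub_type _ _)

end Pool.Agent.TH764.OG
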