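import Mathlib
import Pool.Agent.TH764.OG.Norm2

/-!
# Arbitrarily large `α < κ⁺` with `α → (α, infinite path)²`: closure ordinals
-/

set_option autoImplicit false

namespace Pool.Agent.TH764.OG

open Set Cardinal Ordinal

variable {κ : Cardinal.{0}}

/-- an index set of size `ℵ₁` -/
abbrev DD : Type := (ℵ₁ : Cardinal.{0}).ord.ToType

lemma mk_DD : #DD = ℵ₁ := Cardinal.mk_ord_toType _

lemma unc_DD : Uncountable DD := by
  rw [← Cardinal.aleph0_lt_mk_iff, mk_DD]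
  exact Cardinal.aleph0_lt_aleph_one

/-- the rank of a function on `ℵ₁` modulo countable sets -/
noncomputable def rk (ρ : Ordinal.{0}) (t : DD → ρ.ToType) : Ordinal.{0} :=
  haveI := nrel_wf unc_DD ρ
  IsWellFounded.rank (NRel DD ρ) t

lemma exists_closure (hκ : ℵ₀ ≤ κ) (hpow : κ ^ (ℵ₁ : Cardinal.{0}) ≤ κ) {β : Ordinal.{0}}
    (hβ : β < (Order.succ κ).ord) : ∃ ν, β < ν ∧ ν < (Order.succ κ).ord ∧ Order.IsSuccLimit ν ∧
      ∃ v : ℕ → Ordinal.{0}, (∀ c < ν, ∃ n, c ≤ v n) ∧ (∀ n, v n < ν) ∧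
        ∀ n (t : DD → (v n + 1).ToType), rk (v n + 1) t < ν := by
  classical
  have hreg := Cardinal.isRegular_succ hκ
  have hlim : Order.IsSuccLimit (Order.succ κ).ord := Cardinal.isSuccLimit_ord hreg.aleph0_le
  have h1 : ∀ o : Set.Iio (Order.succ κ).ord, ∃ b < (Order.succ κ).ord,
      ∀ t : DD → (o.1 + 1).ToType, rk (o.1 + 1) t < b := fun o =>
    rank_bound unc_DD hκ (by rw [mk_DD]; exact hpow) (hlim.succ_lt o.2)
  choose b hb1 hb2 using h1
  let step : Set.Iio (Order.succ κ).ord → Set.Iio (Order.succ κ).ord := fun o =>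
    ⟨max (b o) (o.1 + 1), max_lt (hb1 o) (hlim.succ_lt o.2)⟩
  let w : ℕ → Set.Iio (Order.succ κ).ord := fun n => step^[n] ⟨β, hβ⟩
  have hw : ∀ n, w (n + 1) = step (w n) := fun n => Function.iterate_succ_apply' step n _
  have hlt : ∀ n, (w n).1 < (w (n + 1)).1 := by
    intro n
    rw [hw n]
    exact lt_of_lt_of_le (Order.lt_add_one_iff.2 le_rfl) (le_max_right _ _)
  have hsup : ∀ n, (w n).1 < ⨆ n, (w n).1 := fun n =>
    lt_of_lt_of_le (hlt n) (Ordinal.le_iSup (fun n => (w n).1) (n + 1))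
  have hcof : ∀ c < ⨆ n, (w n).1, ∃ n, c < (w n).1 := fun c hc => by
    rwa [Ordinal.lt_iSup_iff] at hc
  refine ⟨⨆ n, (w n).1, hsup 0, ?_, ?_, fun n => (w n).1, fun c hc => ?_, hsup, ?_⟩
  · refine Ordinal.iSup_lt_of_lt_cof ?_ (fun n => (w n).2)
    rw [hreg.cof_ord, Cardinal.mk_nat]
    exact lt_of_le_of_lt hκ (Order.lt_succ κ)
  · refine ⟨?_, ?_⟩
    · rw [isMin_iff_eq_bot]
      intro h
      have := hsup 0
      rw [h] at this
      exact not_lt_bot this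
    · rw [Order.isSuccPrelimit_iff_succ_lt]
      intro c hc
      obtain ⟨n, hn⟩ := hcof c hc
      exact lt_of_le_of_lt (Order.succ_le_of_lt hn) (hsup n)
  · obtain ⟨n, hn⟩ := hcof c hc
    exact ⟨n, hn.le⟩
  · intro n t
    refine lt_of_lt_of_le (hb2 (w n) t) ?_
    have h2 : b (w n) ≤ (w (n + 1)).1 := by
      rw [hw n]
      exact le_max_left _ _
    exact h2.trans (hsup (n + 1)).le

/-- closure ordinals have the pigeonhole property -/
theorem closure_nf (hκ : ℵ₀ ≤ κ) (hcof : (ℵ₁ : Cardinal.{0}) < κ.ord.cof) {ν : Ordinal.{0}}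
    (hν : Order.IsSuccLimit ν) (v : ℕ → Ordinal.{0}) (hv1 : ∀ c < ν, ∃ n, c ≤ v n)
    (hv2 : ∀ n (t : DD → (v n + 1).ToType), rk (v n + 1) t < ν)
    (X : Type) [LinearOrder X] [WellFoundedLT X] : NFp X κ ℵ₁ ν := by
  classical
  have hK : (0 : Ordinal.{0}) < κ.ord := by
    rw [Cardinal.ord_pos]
    exact Cardinal.aleph0_pos.trans_le hκ
  intro D T φ hD hφ hT
  by_contra hcon
  push Not at hcon
  have h1 : ∀ i, ∃ n, typeLT (φ '' Set.Iio (κ.ord ^ ν) ∩ T i : Set X) < κ.ord ^ (v n) := by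
    intro i
    obtain ⟨c, hc, hc'⟩ := (Ordinal.lt_opow_of_isSuccLimit hK.ne' hν).1 (hT i)
    obtain ⟨n, hn⟩ := hv1 c hc
    exact ⟨n, lt_of_lt_of_le hc' (Ordinal.opow_le_opow_right hK hn)⟩
  choose f hf using h1
  obtain ⟨n, hn⟩ := Cardinal.infinite_pigeonhole_card f ℵ₁ hD Cardinal.aleph0_lt_aleph_one.le
    (by rw [Cardinal.isRegular_aleph_one.cof_ord, Cardinal.mk_nat]
        exact Cardinal.aleph0_lt_aleph_one)
  rw [← mk_DD] at hn
  obtain ⟨e⟩ := (Cardinal.le_def _ _).1 hn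
  have hlt : v n < v n + 1 := Order.lt_add_one_iff.2 le_rfl
  have h2 := norm_lemma hκ unc_DD (by rw [mk_DD]; exact hcof) (v n + 1) ν
    (fun i : DD => T (e i).1) φ hφ (by
      intro ξ hξ
      have h3 := hcon ξ hξ
      have h4 : {i | φ ξ ∉ T i}.Countable := by
        rw [← Set.countable_coe_iff, ← Cardinal.mk_le_aleph0_iff, ← Order.lt_succ_iff,
          Cardinal.succ_aleph0]
        exact h3
      refine (h4.preimage (f := fun i : DD => (e i).1) ?_)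
      intro i j hij
      exact e.injective (Subtype.ext hij)) (fun _ => ToType.mk ⟨v n, hlt⟩) (by
      intro i
      rw [toOrd_mk' hlt]
      have h3 := hf (e i).1
      have h4 : f (e i).1 = n := (e i).2
      rwa [h4] at h3)
  exact absurd (hv2 n (fun _ => ToType.mk ⟨v n, hlt⟩)) (not_lt.2 h2)

/-- No small covers from the pigeonhole property. -/
theorem no_smallCover_of (hκ : κ.IsRegular) {ε q : Ordinal.{0}}
    (hN : ∀ (D : Type) (T : D → Set (κ.ord ^ ε * q).ToType), κ ≤ #D →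
      ∀ φ : Ordinal.{0} → (κ.ord ^ ε * q).ToType, StrictMonoOn φ (Set.Iio (κ.ord ^ ε)) →
      (∀ i, typeLT (φ '' Set.Iio (κ.ord ^ ε) ∩ T i : Set _) < κ.ord ^ ε) →
      ∃ ξ < κ.ord ^ ε, ℵ₀ ≤ #{i | φ ξ ∉ T i})
    (hq : q < κ.ord) : ¬ SmallCover κ (κ.ord ^ ε * q) := by
  classical
  rintro ⟨S, hS1, hS2⟩
  have hne : Nonempty κ.ord.ToType := by
    rw [← Cardinal.mk_ne_zero_iff, Cardinal.mk_ord_toType]
    exact (Cardinal.aleph0_pos.trans_le hκ.aleph0_le).ne'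
  have h0 : κ.ord ^ ε * q ≠ 0 := fun h => by
    have h1 := hS1 hne.some
    have h2 : (0 : Ordinal.{0}) < κ.ord ^ ε * q := lt_of_le_of_lt zero_le h1
    exact h2.ne' h
  obtain ⟨φ, hφ⟩ := exists_enum' h0
  have h1 : ∀ i, ∃ ζ : q.ToType,
      typeLT ((fun ξ => φ (κ.ord ^ ε * (ToType.toOrd ζ : Ordinal.{0}) + ξ)) ''
        Set.Iio (κ.ord ^ ε) ∩ S i : Set _) < κ.ord ^ ε := by
    intro i
    by_contra hcon
    push Not at hcon
    have h2 := type_blocks φ hφ (S i) Set.univ (fun ζ _ => hcon ζ)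
    have h3 : typeLT (Set.univ : Set q.ToType) = q := by
      conv_rhs => rw [← Ordinal.type_toType q]
      exact Ordinal.type_eq.2 ⟨⟨Equiv.Set.univ _, Iff.rfl⟩⟩
    rw [h3] at h2
    exact absurd (h2.trans (type_mono Set.inter_subset_right)) (not_le.2 (hS1 i))
  choose f hf using h1
  have hqc : #q.ToType < κ := by
    rw [Cardinal.mk_toType]
    exact Cardinal.lt_ord.1 hq
  obtain ⟨a, ha⟩ := Cardinal.infinite_pigeonhole_card f κ (by rw [Cardinal.mk_ord_toType])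
    hκ.aleph0_le (by rw [hκ.cof_ord]; exact hqc)
  obtain ⟨ξ, hξ, h2⟩ := hN (f ⁻¹' {a}) (fun i => S i.1) ha
    (fun ξ => φ (κ.ord ^ ε * (ToType.toOrd a : Ordinal.{0}) + ξ)) (by
      intro x hx y hy hxy
      exact hφ (mul_add_lt_mul (ToType.toOrd a).2 hx) (mul_add_lt_mul (ToType.toOrd a).2 hy)
        ((add_lt_add_iff_left _).2 hxy)) (by
      intro i
      have h2 := hf i.1
      have h3 : f i.1 = a := i.2
      rwa [h3] at h2)
  have h3 := h2.trans (mk_sub_type (f ⁻¹' {a})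
    (fun i => φ (κ.ord ^ ε * (ToType.toOrd a : Ordinal.{0}) + ξ) ∉ S i))
  have h4 := hS2 (φ (κ.ord ^ ε * (ToType.toOrd a : Ordinal.{0}) + ξ))
  exact absurd (Cardinal.lt_aleph0_iff_finite.2 h4.to_subtype) (not_lt.2 h3)

/-- Arbitrarily large exponents. -/
theorem main_norm (hκ : κ.IsRegular) (hpow : κ ^ (ℵ₁ : Cardinal.{0}) = κ) {β : Ordinal.{0}}
    (hβ : β < (Order.succ κ).ord) : ∃ ν, β < ν ∧ ν < (Order.succ κ).ord ∧
      ∀ η < (ℵ₁ : Cardinal.{0}).ord + 2, ∀ q, 0 < q → q < κ.ord → Rel (κ.ord ^ (ν + η) * q) := by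
  have hκ0 := hκ.aleph0_le
  have hκ1 : (ℵ₁ : Cardinal.{0}) < κ := by
    rw [← hpow]
    refine lt_of_lt_of_le (Cardinal.cantor _) (Cardinal.power_le_power_right ?_)
    exact (Cardinal.natCast_lt_aleph0 (n := 2)).le.trans hκ0
  obtain ⟨ν, h1, h2, h3, v, h4, _, h5⟩ := exists_closure hκ0 hpow.le hβ
  refine ⟨ν, h1, h2, ?_⟩
  intro η hη q hq0 hq
  by_contra hR
  have hK : (0 : Ordinal.{0}) < κ.ord := by
    rw [Cardinal.ord_pos]
    exact Cardinal.aleph0_pos.trans_le hκ0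
  have hlim : Order.IsSuccLimit (Order.succ κ).ord :=
    Cardinal.isSuccLimit_ord (hκ0.trans (Order.le_succ κ))
  have hprin := Ordinal.isPrincipal_add_ord (hκ0.trans (Order.le_succ κ))
  have hκs : κ.ord < (Order.succ κ).ord := Cardinal.ord_lt_ord.2 (Order.lt_succ κ)
  have hη2 : η < (Order.succ κ).ord := by
    refine hη.trans ?_
    have h6 : (ℵ₁ : Cardinal.{0}).ord < (Order.succ κ).ord :=
      Cardinal.ord_lt_ord.2 (hκ1.trans (Order.lt_succ κ))
    rw [show (ℵ₁ : Cardinal.{0}).ord + 2 = (ℵ₁ : Cardinal.{0}).ord + 1 + 1 by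
      rw [add_assoc, one_add_one_eq_two]]
    exact hlim.succ_lt (hlim.succ_lt h6)
  have hsum : ν + η < (Order.succ κ).ord := hprin h2 hη2
  have hne : κ.ord ^ (ν + η) * q ≠ 0 := (mul_pos (Ordinal.opow_pos _ hK) hq0).ne'
  have hdvd : κ.ord ∣ κ.ord ^ (ν + η) * q := by
    have h7 : 1 ≤ ν + η := (Order.one_le_iff_pos.2 (lt_of_le_of_lt zero_le h1)).trans le_self_add
    obtain ⟨δ, hδ⟩ : ∃ δ, ν + η = 1 + δ := ⟨ν + η - 1, (Ordinal.add_sub_cancel_of_le h7).symm⟩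
    rw [hδ, Ordinal.opow_add, Ordinal.opow_one, mul_assoc]
    exact dvd_mul_right _ _
  have hcard : (κ.ord ^ (ν + η) * q).card ≤ κ := by
    rw [Ordinal.card_mul]
    have h8 : (κ.ord ^ (ν + η)).card ≤ κ := by
      refine (Ordinal.card_opow_le _ _).trans (max_le hκ0 (max_le ?_ ?_))
      · rw [Cardinal.card_ord]
      · exact Order.lt_succ_iff.1 (Cardinal.lt_ord.1 hsum)
    exact (mul_le_mul' h8 (Cardinal.lt_ord.1 hq).le).trans (Cardinal.mul_eq_self hκ0).le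
  refine no_smallCover_of hκ ?_ hq (smallCover_of_not_rel hκ0 hne hdvd hcard hR)
  intro D T hD φ hφ hT
  exact nf_top hκ Cardinal.isRegular_aleph_one hκ1
    (closure_nf hκ0 (by rw [hκ.cof_ord]; exact hκ1) h3 v h4 h5 _) hη D T hD φ hφ hT

end Pool.Agent.TH764.OG
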