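import Mathlib
import Pool.Agent.TH764.OG.Norm3

/-!
# Ranks of functions modulo sets of size `< θ`, over a base exponent
-/

set_option autoImplicit false

namespace Pool.Agent.TH764.OG

open Set Cardinal Ordinal

variable {κ θ μ σ χ : Cardinal.{0}} {X : Type} [LinearOrder X] [WellFoundedLT X]

/-- `s < t` outside a set of size `< θ` -/
def NRelC (θ : Cardinal.{0}) (D : Type) (ρ : Ordinal.{0}) (s t : D → ρ.ToType) : Prop :=
  #{i | ¬ s i < t i} < θ

lemma nrelC_wf (hθ : θ.IsRegular) (hθ0 : ℵ₀ < θ) {D : Type} (hD : θ ≤ #D) (ρ : Ordinal.{0}) :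
    IsWellFounded (D → ρ.ToType) (NRelC θ D ρ) := by
  refine ⟨wellFounded_iff_isEmpty_descending_chain.2 ⟨?_⟩⟩
  rintro ⟨f, hf⟩
  have h1 : #(⋃ n, {i | ¬ f (n + 1) i < f n i} : Set D) < θ :=
    iUnion_lt_cof hθ.aleph0_le (by rw [Cardinal.mk_nat, hθ.cof_ord]; exact hθ0) _ hf
  have h2 : ∃ i, i ∉ ⋃ n, {i | ¬ f (n + 1) i < f n i} := by
    by_contra hcon
    have hcon' : ∀ i, i ∈ ⋃ n, {i | ¬ f (n + 1) i < f n i} := fun i =>
      by_contra (fun h => hcon ⟨i, h⟩)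
    rw [Set.eq_univ_of_forall hcon', Cardinal.mk_univ] at h1
    exact absurd h1 (not_lt.2 hD)
  obtain ⟨i, hi⟩ := h2
  simp only [Set.mem_iUnion, Set.mem_ofPred_eq, not_exists, not_not] at hi
  exact (wellFounded_iff_isEmpty_descending_chain.1
    (wellFounded_lt (α := ρ.ToType))).false ⟨fun n => f n i, hi⟩

/-- The norm lemma over the base exponent `ν₀`. -/
theorem norm_lemma' (hκ : ℵ₀ ≤ κ) (hθ : θ.IsRegular) (hθ0 : ℵ₀ < θ) {D : Type} (hD1 : θ ≤ #D)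
    (hD2 : #D < κ.ord.cof) {ν₀ : Ordinal.{0}} (hbase : NFp X κ θ ν₀)
    (ρ : Ordinal.{0}) (ν : Ordinal.{0}) : ∀ (T : D → Set X) (φ : Ordinal.{0} → X),
    StrictMonoOn φ (Set.Iio (κ.ord ^ (ν₀ + ν))) →
    (∀ ξ < κ.ord ^ (ν₀ + ν), #{i | φ ξ ∉ T i} < θ) →
    ∀ t : D → ρ.ToType, (∀ i, typeLT (φ '' Set.Iio (κ.ord ^ (ν₀ + ν)) ∩ T i : Set X) <
      κ.ord ^ (ν₀ + (ToType.toOrd (t i) : Ordinal.{0}))) →
    haveI := nrelC_wf hθ hθ0 hD1 ρ
    ν ≤ IsWellFounded.rank (NRelC θ D ρ) t := by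
  classical
  have hwf := nrelC_wf hθ hθ0 hD1 ρ
  have hK : (0 : Ordinal.{0}) < κ.ord := by
    rw [Cardinal.ord_pos]
    exact Cardinal.aleph0_pos.trans_le hκ
  induction ν using WellFoundedLT.induction with
  | ind ν ih =>
  intro T φ hφ hT t ht
  rcases Ordinal.zero_or_succ_or_isSuccLimit ν with h0 | ⟨ν', hν'⟩ | hlim
  · subst h0
    exact zero_le
  · have hν'' : ν = ν' + 1 := by rw [← hν']; exact (Order.succ_eq_add_one ν')
    subst hν''
    have hlt : ν' < ν' + 1 := Order.lt_add_one_iff.2 le_rfl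
    have hpow' : κ.ord ^ (ν₀ + (ν' + 1)) = κ.ord ^ (ν₀ + ν') * κ.ord := by
      rw [← add_assoc, Ordinal.opow_add _ (ν₀ + ν') 1, Ordinal.opow_one]
    have hsub0 : Set.Iio (κ.ord ^ ν₀) ⊆ Set.Iio (κ.ord ^ (ν₀ + (ν' + 1))) :=
      Set.Iio_subset_Iio (Ordinal.opow_le_opow_right hK le_self_add)
    -- the indices with value zero
    have hzero : #{i | (ToType.toOrd (t i) : Ordinal.{0}) = 0} < θ := by
      by_contra hcon
      rw [not_lt] at hcon
      obtain ⟨ξ, hξ, hξ'⟩ := hbase {i | (ToType.toOrd (t i) : Ordinal.{0}) = 0}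
        (fun i => T i.1) φ hcon (hφ.mono hsub0) (by
          intro i
          have h2 := ht i.1
          have h3 : (ToType.toOrd (t i.1) : Ordinal.{0}) = 0 := i.2
          rw [h3, add_zero] at h2
          exact lt_of_le_of_lt (type_mono
            (Set.inter_subset_inter_left _ (Set.image_mono hsub0))) h2)
      exact absurd (hT ξ (hsub0 hξ)) (not_lt.2 (hξ'.trans (mk_sub_type _
        (fun i => φ ξ ∉ T i))))
    have hc : ∀ i, ∃ s : ρ.ToType, ((ToType.toOrd (t i) : Ordinal.{0}) ≠ 0 → s < t i) ∧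
        #{ζ : κ.ord.ToType | κ.ord ^ (ν₀ + (ToType.toOrd s : Ordinal.{0})) ≤
          typeLT ((fun ξ => φ (κ.ord ^ (ν₀ + ν') * (ToType.toOrd ζ : Ordinal.{0}) + ξ)) ''
            Set.Iio (κ.ord ^ (ν₀ + ν')) ∩ T i : Set X)} < κ := by
      intro i
      have hall : ∀ s : ρ.ToType, typeLT (φ '' Set.Iio (κ.ord ^ (ν₀ + (ν' + 1))) ∩ T i : Set X) <
          κ.ord ^ (ν₀ + (ToType.toOrd s : Ordinal.{0})) →
          #{ζ : κ.ord.ToType | κ.ord ^ (ν₀ + (ToType.toOrd s : Ordinal.{0})) ≤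
          typeLT ((fun ξ => φ (κ.ord ^ (ν₀ + ν') * (ToType.toOrd ζ : Ordinal.{0}) + ξ)) ''
            Set.Iio (κ.ord ^ (ν₀ + ν')) ∩ T i : Set X)} < κ := by
        intro s hs
        have h1 : {ζ : κ.ord.ToType | κ.ord ^ (ν₀ + (ToType.toOrd s : Ordinal.{0})) ≤
          typeLT ((fun ξ => φ (κ.ord ^ (ν₀ + ν') * (ToType.toOrd ζ : Ordinal.{0}) + ξ)) ''
            Set.Iio (κ.ord ^ (ν₀ + ν')) ∩ T i : Set X)} = ∅ := by
          ext ζ
          simp only [Set.mem_ofPred_eq, Set.mem_empty_iff_false, iff_false, not_le]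
          rw [hpow'] at hs
          exact lt_of_le_of_lt (type_mono (block_sub φ (T i) ζ)) hs
        rw [h1, Cardinal.mk_eq_zero]
        exact Cardinal.aleph0_pos.trans_le hκ
      rcases Ordinal.zero_or_succ_or_isSuccLimit (ToType.toOrd (t i) : Ordinal.{0}) with
        h0 | ⟨c, hc⟩ | hl
      · exact ⟨t i, fun h => absurd h0 h, hall (t i) (ht i)⟩
      · have hc' : (ToType.toOrd (t i) : Ordinal.{0}) = c + 1 := by
          rw [← hc]; exact (Order.succ_eq_add_one c)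
        have hct : c < (ToType.toOrd (t i) : Ordinal.{0}) := by
          rw [hc']
          exact Order.lt_add_one_iff.2 le_rfl
        have hcρ : c < ρ := hct.trans (ToType.toOrd (t i)).2
        refine ⟨ToType.mk ⟨c, hcρ⟩, fun _ => ?_, ?_⟩
        · rw [← toOrd_lt_toOrd, toOrd_mk' hcρ, hc']
          exact Order.lt_add_one_iff.2 le_rfl
        · rw [toOrd_mk' hcρ]
          by_contra hcon
          rw [not_lt] at hcon
          have h1 : κ.ord ≤ typeLT {ζ : κ.ord.ToType | κ.ord ^ (ν₀ + c) ≤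
            typeLT ((fun ξ => φ (κ.ord ^ (ν₀ + ν') * (ToType.toOrd ζ : Ordinal.{0}) + ξ)) ''
            Set.Iio (κ.ord ^ (ν₀ + ν')) ∩ T i : Set X)} :=
            (Cardinal.ord_le_ord.2 hcon).trans (Cardinal.ord_le_type _)
          have h2 := type_blocks' (b := κ.ord ^ (ν₀ + c)) φ (by rw [← hpow']; exact hφ) (T i)
            {ζ : κ.ord.ToType | κ.ord ^ (ν₀ + c) ≤
            typeLT ((fun ξ => φ (κ.ord ^ (ν₀ + ν') * (ToType.toOrd ζ : Ordinal.{0}) + ξ)) ''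
            Set.Iio (κ.ord ^ (ν₀ + ν')) ∩ T i : Set X)} (fun ζ hζ => hζ)
          have h3 := ht i
          rw [hc', hpow', ← add_assoc, Ordinal.opow_add _ (ν₀ + c) 1, Ordinal.opow_one] at h3
          exact absurd ((mul_le_mul_right h1 _).trans h2) (not_le.2 h3)
      · obtain ⟨c, hc'⟩ := lt_opow_add hK hl (ht i)
        have hct : (ToType.toOrd c : Ordinal.{0}) < (ToType.toOrd (t i) : Ordinal.{0}) :=
          (ToType.toOrd c).2
        have hcρ : (ToType.toOrd c : Ordinal.{0}) < ρ := hct.trans (ToType.toOrd (t i)).2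
        refine ⟨ToType.mk ⟨(ToType.toOrd c : Ordinal.{0}), hcρ⟩, fun _ => ?_, hall _ ?_⟩
        · rw [← toOrd_lt_toOrd, toOrd_mk' hcρ]
          exact hct
        · rw [toOrd_mk' hcρ]
          exact hc'
    choose s hs1 hs2 using hc
    obtain ⟨ζ, hζ⟩ := exists_notMem_iUnion _ (iUnion_lt_cof hκ hD2 _ hs2)
    have hζ' : ∀ i, typeLT ((fun ξ => φ (κ.ord ^ (ν₀ + ν') * (ToType.toOrd ζ : Ordinal.{0}) + ξ)) ''
            Set.Iio (κ.ord ^ (ν₀ + ν')) ∩ T i : Set X) <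
            κ.ord ^ (ν₀ + (ToType.toOrd (s i) : Ordinal.{0})) :=
      fun i => not_le.1 (hζ i)
    have h1 := ih ν' hlt T
      (fun ξ => φ (κ.ord ^ (ν₀ + ν') * (ToType.toOrd ζ : Ordinal.{0}) + ξ)) (by
        rw [hpow'] at hφ
        intro a ha b hb hab
        exact hφ (mul_add_lt_mul (ToType.toOrd ζ).2 ha) (mul_add_lt_mul (ToType.toOrd ζ).2 hb)
          ((add_lt_add_iff_left _).2 hab)) (by
        intro ξ hξ
        apply hT
        rw [hpow']
        exact mul_add_lt_mul (ToType.toOrd ζ).2 hξ) s hζ'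
    have h2 : NRelC θ D ρ s t := by
      refine lt_of_le_of_lt (Cardinal.mk_le_mk_of_subset ?_) hzero
      intro i hi
      by_contra h3
      exact hi (hs1 i h3)
    exact Order.add_one_le_of_lt (lt_of_le_of_lt h1 (IsWellFounded.rank_lt_of_rel h2))
  · refine le_of_forall_lt (fun δ hδ => ?_)
    have hδ' : δ + 1 < ν := hlim.succ_lt hδ
    have hsub : Set.Iio (κ.ord ^ (ν₀ + (δ + 1))) ⊆ Set.Iio (κ.ord ^ (ν₀ + ν)) :=
      Set.Iio_subset_Iio (Ordinal.opow_le_opow_right hK (add_le_add le_rfl hδ'.le))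
    have h1 := ih (δ + 1) hδ' T φ (hφ.mono hsub) (fun ξ hξ => hT ξ (hsub hξ)) t (fun i =>
      lt_of_le_of_lt (type_mono (Set.inter_subset_inter_left _ (Set.image_mono hsub))) (ht i))
    exact lt_of_lt_of_le (Order.lt_add_one_iff.2 le_rfl) h1

/-- ranks are below `μ` -/
lemma rankC_lt (hθ : θ.IsRegular) (hθ0 : ℵ₀ < θ) {D : Type} (hD : #D = θ)
    (hμ : ∀ ρ < μ, ρ ^ θ < μ) {ρ : Ordinal.{0}} (hρ : ρ < μ.ord) (t : D → ρ.ToType) :
    haveI := nrelC_wf hθ hθ0 hD.ge ρ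
    IsWellFounded.rank (NRelC θ D ρ) t < μ.ord := by
  have hwf := nrelC_wf hθ hθ0 hD.ge ρ
  have hF : #(D → ρ.ToType) < μ := by
    rw [← Cardinal.power_def, Cardinal.mk_toType, hD]
    exact hμ _ (Cardinal.lt_ord.1 hρ)
  rw [Cardinal.lt_ord]
  refine lt_of_le_of_lt ?_ hF
  rw [← Cardinal.mk_toType]
  have h2 : ∀ o : (IsWellFounded.rank (NRelC θ D ρ) t).ToType, ∃ s : D → ρ.ToType,
      IsWellFounded.rank (NRelC θ D ρ) s = (ToType.toOrd o : Ordinal.{0}) := fun o =>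
    IsWellFounded.mem_range_rank_of_le (le_of_lt (ToType.toOrd o).2)
  choose s hs using h2
  refine Cardinal.mk_le_of_injective (f := s) ?_
  intro o o' hoo'
  have h3 : (ToType.toOrd o : Ordinal.{0}) = ToType.toOrd o' := by rw [← hs, ← hs, hoo']
  exact ToType.mk.symm.injective (Subtype.ext h3)

/-- a bounded subfamily of size `θ` -/
lemma exists_bounded (hθ : θ.IsRegular) (hcof : μ.ord.cof ≠ θ) {D : Type}
    (hD : θ ≤ #D) (f : D → μ.ord.ToType) : ∃ D' : Set D, #D' = θ ∧ ∃ m, ∀ i ∈ D', f i ≤ m := by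
  classical
  rcases lt_or_gt_of_ne hcof with h | h
  · obtain ⟨s, hs, hs'⟩ := Order.exists_cof_eq (α := μ.ord.ToType)
    rw [Ordinal.cof_toType] at hs'
    have h1 : ∀ i, ∃ m : s, f i ≤ m.1 := by
      intro i
      obtain ⟨m, hm, hm'⟩ := hs (f i)
      exact ⟨⟨m, hm⟩, hm'⟩
    choose m hm using h1
    obtain ⟨a, ha⟩ := Cardinal.infinite_pigeonhole_card m θ hD hθ.aleph0_le
      (by rw [hθ.cof_ord, hs']; exact h)
    obtain ⟨D', hD'⟩ := Cardinal.le_mk_iff_exists_set.1 ha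
    refine ⟨Subtype.val '' D', ?_, a.1, ?_⟩
    · rw [Cardinal.mk_image_eq Subtype.val_injective, hD']
    · rintro _ ⟨i, hi, rfl⟩
      have h2 := hm i.1
      have h3 : m i.1 = a := i.2
      rwa [h3] at h2
  · obtain ⟨D', hD'⟩ := Cardinal.le_mk_iff_exists_set.1 hD
    have h1 : (⨆ i : D', ((ToType.toOrd (f i.1) : Ordinal.{0}))) < μ.ord :=
      Ordinal.iSup_lt_of_lt_cof (by rw [hD']; exact h) (fun i => (ToType.toOrd (f i.1)).2)
    refine ⟨D', hD', ToType.mk ⟨_, h1⟩, fun i hi => ?_⟩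
    rw [← toOrd_le_toOrd, toOrd_mk' h1]
    exact Ordinal.le_iSup (fun i : D' => ((ToType.toOrd (f i.1) : Ordinal.{0}))) ⟨i, hi⟩

/-- The closure theorem: from `ν₀` to `ν₀ + μ`. -/
theorem nf_closure (hκ : κ.IsRegular) (hθ : θ.IsRegular) (hθ0 : ℵ₀ < θ) (hθκ : θ < κ)
    (hμ0 : ℵ₀ ≤ μ) (hcof : μ.ord.cof ≠ θ) (hμ : ∀ ρ < μ, ρ ^ θ < μ) {ν₀ : Ordinal.{0}}
    (hbase : NFp X κ θ ν₀) : NFp X κ θ (ν₀ + μ.ord) := by
  classical
  have hK : (0 : Ordinal.{0}) < κ.ord := by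
    rw [Cardinal.ord_pos]
    exact Cardinal.aleph0_pos.trans_le hκ.aleph0_le
  have hlim : Order.IsSuccLimit μ.ord := Cardinal.isSuccLimit_ord hμ0
  intro D T φ hD hφ hT
  by_contra hcon
  push Not at hcon
  have h1 : ∀ i, ∃ c : μ.ord.ToType, typeLT (φ '' Set.Iio (κ.ord ^ (ν₀ + μ.ord)) ∩ T i : Set X) <
      κ.ord ^ (ν₀ + (ToType.toOrd c : Ordinal.{0})) := fun i => lt_opow_add hK hlim (hT i)
  choose f hf using h1
  obtain ⟨D', hD', m, hm⟩ := exists_bounded hθ hcof hD f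
  have hlt : (ToType.toOrd m : Ordinal.{0}) < (ToType.toOrd m : Ordinal.{0}) + 1 :=
    Order.lt_add_one_iff.2 le_rfl
  have hm1 : (ToType.toOrd m : Ordinal.{0}) + 1 < μ.ord := hlim.succ_lt (ToType.toOrd m).2
  have h2 := norm_lemma' hκ.aleph0_le hθ hθ0 hD'.ge (by rw [hD', hκ.cof_ord]; exact hθκ) hbase
    ((ToType.toOrd m : Ordinal.{0}) + 1) μ.ord (fun i : D' => T i.1) φ hφ (by
      intro ξ hξ
      exact lt_of_le_of_lt (mk_sub_type D' (fun i => φ ξ ∉ T i)) (hcon ξ hξ))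
    (fun _ => ToType.mk ⟨_, hlt⟩) (by
      intro i
      rw [toOrd_mk' hlt]
      refine lt_of_lt_of_le (hf i.1) (Ordinal.opow_le_opow_right hK (add_le_add le_rfl ?_))
      exact toOrd_le_toOrd.2 (hm i.1 i.2))
  exact absurd (rankC_lt hθ hθ0 hD' hμ hm1 (fun _ => ToType.mk ⟨_, hlt⟩)) (not_lt.2 h2)

end Pool.Agent.TH764.OG
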