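import Mathlib
import Pool.Agent.TH764.OG.Norm4

/-!
# Exponents below `μ * (θ + 1) + 2`
-/

set_option autoImplicit false

namespace Pool.Agent.TH764.OG

open Set Cardinal Ordinal

variable {κ θ μ σ χ : Cardinal.{0}}

/-- The pigeonhole property at exponent `ν`: among at least `σ` subsets of `κ ^ ν` of smaller type
there are at least `χ` many that omit a common point. -/
def NF (X : Type) [LinearOrder X] [WellFoundedLT X] (κ σ χ : Cardinal.{0}) (ν : Ordinal.{0}) :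
    Prop :=
  ∀ (D : Type) (T : D → Set X) (φ : Ordinal.{0} → X), σ ≤ #D →
    StrictMonoOn φ (Set.Iio (κ.ord ^ ν)) →
    (∀ i, typeLT (φ '' Set.Iio (κ.ord ^ ν) ∩ T i : Set X) < κ.ord ^ ν) →
    ∃ ξ < κ.ord ^ ν, χ ≤ #{i | φ ξ ∉ T i}

variable {X : Type} [LinearOrder X] [WellFoundedLT X]

lemma NF.mono {σ' : Cardinal.{0}} {ν : Ordinal.{0}} (h : NF X κ σ χ ν) (hσ : σ ≤ σ') :
    NF X κ σ' χ ν := fun D T φ hD hφ hT => h D T φ (hσ.trans hD) hφ hT

/-- successor exponents -/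
lemma nf_succ (hS : Stab κ σ) {ν : Ordinal.{0}} (h : NF X κ σ χ ν) : NF X κ σ χ (ν + 1) := by
  classical
  intro D T φ hD hφ hT
  have hpow' : κ.ord ^ (ν + 1) = κ.ord ^ ν * κ.ord := by
    rw [Ordinal.opow_add, Ordinal.opow_one]
  have hT' : ∀ i, typeLT (φ '' Set.Iio (κ.ord ^ (ν + 1)) ∩ T i : Set X) <
      κ.ord ^ (ν + 1) := hT
  rw [hpow'] at hφ hT' ⊢
  let Z : D → Set κ.ord.ToType := fun i => {ζ | κ.ord ^ ν ≤
    typeLT ((fun ξ => φ (κ.ord ^ ν * (ToType.toOrd ζ : Ordinal.{0}) + ξ)) ''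
      Set.Iio (κ.ord ^ ν) ∩ T i : Set X)}
  have hZ : ∀ i, #(Z i) < κ := by
    intro i
    by_contra hcon
    rw [not_lt] at hcon
    have h1 : κ.ord ≤ typeLT (Z i) :=
      (Cardinal.ord_le_ord.2 hcon).trans (Cardinal.ord_le_type _)
    have h2 := type_blocks φ hφ (T i) (Z i) (fun ζ hζ => hζ)
    exact absurd ((mul_le_mul_right h1 _).trans h2) (not_le.2 (hT' i))
  obtain ⟨D', hD', ζ, hζ⟩ := hS D Z hD hZ
  obtain ⟨ξ, hξ, hξ'⟩ := h D' (fun i => T i.1)
    (fun ξ => φ (κ.ord ^ ν * (ToType.toOrd ζ : Ordinal.{0}) + ξ)) hD' (by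
      intro a ha b hb hab
      exact hφ (mul_add_lt_mul (ToType.toOrd ζ).2 ha) (mul_add_lt_mul (ToType.toOrd ζ).2 hb)
        ((add_lt_add_iff_left _).2 hab)) (fun i => not_le.1 (hζ i.1 i.2))
  exact ⟨_, mul_add_lt_mul (ToType.toOrd ζ).2 hξ, hξ'.trans (mk_sub_type D' _)⟩

/-- limit exponents -/
lemma nf_limit (hκ : ℵ₀ ≤ κ) (hσ : σ.IsRegular) {ν : Ordinal.{0}} (hν : Order.IsSuccLimit ν)
    {I : Type} (hI : #I < σ) (u : I → Ordinal.{0}) (hu1 : ∀ i, u i < ν)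
    (hu2 : ∀ c < ν, ∃ i, c ≤ u i) (h : ∀ i, NF X κ σ χ (u i)) : NF X κ σ χ ν := by
  classical
  have hK : (0 : Ordinal.{0}) < κ.ord := by
    rw [Cardinal.ord_pos]
    exact Cardinal.aleph0_pos.trans_le hκ
  intro D T φ hD hφ hT
  have h1 : ∀ i, ∃ a : I, typeLT (φ '' Set.Iio (κ.ord ^ ν) ∩ T i : Set X) < κ.ord ^ (u a) := by
    intro i
    obtain ⟨c, hc, hc'⟩ := (Ordinal.lt_opow_of_isSuccLimit hK.ne' hν).1 (hT i)
    obtain ⟨a, ha⟩ := hu2 c hc
    exact ⟨a, lt_of_lt_of_le hc' (Ordinal.opow_le_opow_right hK ha)⟩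
  choose f hf using h1
  obtain ⟨a, ha⟩ := Cardinal.infinite_pigeonhole_card f σ hD hσ.aleph0_le
    (by rw [hσ.cof_ord]; exact hI)
  have hsub : Set.Iio (κ.ord ^ (u a)) ⊆ Set.Iio (κ.ord ^ ν) :=
    Set.Iio_subset_Iio (Ordinal.opow_le_opow_right hK (hu1 a).le)
  obtain ⟨ξ, hξ, hξ'⟩ := h a (f ⁻¹' {a}) (fun i => T i.1) φ ha (hφ.mono hsub) (by
    intro i
    have h2 := hf i.1
    have h3 : f i.1 = a := i.2
    rw [h3] at h2
    exact lt_of_le_of_lt (type_mono (Set.inter_subset_inter_left _ (Set.image_mono hsub))) h2)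
  exact ⟨ξ, hsub hξ, hξ'.trans (mk_sub_type _ _)⟩

/-- from `ν` to `ν + η`, `η < σ` -/
theorem nf_add' (hκ : ℵ₀ ≤ κ) (hσ : σ.IsRegular) (hS : Stab κ σ) {ν : Ordinal.{0}}
    (hbase : NF X κ σ χ ν) (η : Ordinal.{0}) : η < σ.ord → NF X κ σ χ (ν + η) := by
  classical
  induction η using WellFoundedLT.induction with
  | ind η ih =>
  intro hησ
  rcases Ordinal.zero_or_succ_or_isSuccLimit η with h0 | ⟨η', hη'⟩ | hlim
  · subst h0
    rwa [add_zero]
  · have hη'' : η = η' + 1 := by rw [← hη']; exact (Order.succ_eq_add_one η')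
    subst hη''
    have hlt : η' < η' + 1 := Order.lt_add_one_iff.2 le_rfl
    rw [← add_assoc]
    exact nf_succ hS (ih η' hlt (hlt.trans hησ))
  · refine nf_limit hκ hσ (Ordinal.isSuccLimit_add ν hlim) (I := η.ToType)
      (by rw [Cardinal.mk_toType]; exact Cardinal.lt_ord.1 hησ)
      (fun a => ν + (ToType.toOrd a : Ordinal.{0}))
      (fun a => (add_lt_add_iff_left _).2 (ToType.toOrd a).2) ?_
      (fun a => ih _ (ToType.toOrd a).2 (lt_trans (ToType.toOrd a).2 hησ))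
    intro c hc
    have h1 : c - ν < η := by
      rcases lt_or_ge c ν with h | h
      · rw [Ordinal.sub_eq_zero_iff_le.2 h.le]
        exact pos_iff_ne_zero.2 hlim.ne_bot
      · rw [← add_lt_add_iff_left ν, Ordinal.add_sub_cancel_of_le h]
        exact hc
    refine ⟨ToType.mk ⟨c - ν, h1⟩, ?_⟩
    rw [toOrd_mk' h1]
    exact Ordinal.le_add_sub c ν

/-- the top: exponents `ν + μ` and `ν + μ + 1` for `κ` many sets -/
theorem nf_top' (hκ : κ.IsRegular) (hμ : ℵ₀ ≤ μ) (hμκ : μ < κ) {ν : Ordinal.{0}}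
    (hB : ∀ c < μ.ord, NF X κ μ χ (ν + c)) {η : Ordinal.{0}} (hη : η < μ.ord + 2) :
    NF X κ κ χ (ν + η) := by
  classical
  have hK : (0 : Ordinal.{0}) < κ.ord := by
    rw [Cardinal.ord_pos]
    exact Cardinal.aleph0_pos.trans_le hκ.aleph0_le
  have hlim : Order.IsSuccLimit μ.ord := Cardinal.isSuccLimit_ord hμ
  rcases lt_trichotomy η μ.ord with h | h | h
  · exact (hB η h).mono hμκ.le
  · subst h
    refine nf_limit hκ.aleph0_le hκ (Ordinal.isSuccLimit_add ν hlim) (I := μ.ord.ToType)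
      (by rw [Cardinal.mk_ord_toType]; exact hμκ)
      (fun a => ν + (ToType.toOrd a : Ordinal.{0}))
      (fun a => (add_lt_add_iff_left _).2 (ToType.toOrd a).2) ?_
      (fun a => (hB _ (ToType.toOrd a).2).mono hμκ.le)
    intro c hc
    have h1 : c - ν < μ.ord := by
      rcases lt_or_ge c ν with h | h
      · rw [Ordinal.sub_eq_zero_iff_le.2 h.le]
        exact pos_iff_ne_zero.2 hlim.ne_bot
      · rw [← add_lt_add_iff_left ν, Ordinal.add_sub_cancel_of_le h]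
        exact hc
    refine ⟨ToType.mk ⟨c - ν, h1⟩, ?_⟩
    rw [toOrd_mk' h1]
    exact Ordinal.le_add_sub c ν
  · have h3 : η = μ.ord + 1 := by
      apply le_antisymm
      · have h4 : μ.ord + 2 = (μ.ord + 1) + 1 := by
          rw [add_assoc, one_add_one_eq_two]
        rw [h4] at hη
        exact Order.lt_add_one_iff.1 hη
      · exact Order.add_one_le_of_lt h
    subst h3
    intro D T φ hD hφ hT
    have h5 : κ.ord ^ (ν + (μ.ord + 1)) = κ.ord ^ (ν + μ.ord) * κ.ord := by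
      rw [← add_assoc, Ordinal.opow_add _ (ν + μ.ord) 1, Ordinal.opow_one]
    have hT' : ∀ i, typeLT (φ '' Set.Iio (κ.ord ^ (ν + (μ.ord + 1))) ∩ T i : Set X) <
        κ.ord ^ (ν + (μ.ord + 1)) := hT
    rw [h5] at hφ hT' ⊢
    have h6 : ∀ i, ∃ (c : μ.ord.ToType) (k : κ.ord.ToType), ∀ j : κ.ord.ToType, k ≤ j →
        typeLT ((fun ξ => φ (κ.ord ^ (ν + μ.ord) * (ToType.toOrd j : Ordinal.{0}) + ξ)) ''
          Set.Iio (κ.ord ^ (ν + (ToType.toOrd c : Ordinal.{0}))) ∩ T i : Set X) <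
          κ.ord ^ (ν + (ToType.toOrd c : Ordinal.{0})) := by
      intro i
      by_contra hcon
      push Not at hcon
      exact absurd (grow_top' hκ hμ hμκ ν φ hφ (T i) hcon) (not_le.2 (hT' i))
    choose c k hck using h6
    obtain ⟨a, ha⟩ := Cardinal.infinite_pigeonhole_card c κ hD hκ.aleph0_le
      (by rw [hκ.cof_ord, Cardinal.mk_ord_toType]; exact hμκ)
    obtain ⟨D', hD'⟩ := Cardinal.le_mk_iff_exists_set.1 (hμκ.le.trans ha)
    obtain ⟨e, he⟩ := bdd_of_lt hκ (M := D') (by rw [hD']; exact hμκ) (fun i => k i.1.1)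
    have hle : κ.ord ^ (ν + (ToType.toOrd a : Ordinal.{0})) ≤ κ.ord ^ (ν + μ.ord) :=
      Ordinal.opow_le_opow_right hK (add_le_add le_rfl (le_of_lt (ToType.toOrd a).2))
    obtain ⟨ξ, hξ, hξ'⟩ := hB (ToType.toOrd a : Ordinal.{0}) (ToType.toOrd a).2 D'
      (fun i => T i.1.1)
      (fun ξ => φ (κ.ord ^ (ν + μ.ord) * (ToType.toOrd e : Ordinal.{0}) + ξ)) hD'.ge (by
        intro x hx y hy hxy
        exact hφ (mul_add_lt_mul (ToType.toOrd e).2 (lt_of_lt_of_le hx hle))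
          (mul_add_lt_mul (ToType.toOrd e).2 (lt_of_lt_of_le hy hle))
          ((add_lt_add_iff_left _).2 hxy)) (by
        intro i
        have h2 := hck i.1.1 e (he i).le
        have h3 : c i.1.1 = a := i.1.2
        rwa [h3] at h2)
    have hlt : κ.ord ^ (ν + μ.ord) * (ToType.toOrd e : Ordinal.{0}) + ξ <
        κ.ord ^ (ν + μ.ord) * κ.ord :=
      mul_add_lt_mul (ToType.toOrd e).2 (lt_of_lt_of_le hξ hle)
    refine ⟨κ.ord ^ (ν + μ.ord) * (ToType.toOrd e : Ordinal.{0}) + ξ, hlt,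
      hξ'.trans ?_⟩
    exact (mk_sub_type D' (fun i => φ (κ.ord ^ (ν + μ.ord) * (ToType.toOrd e : Ordinal.{0}) + ξ) ∉
      T i.1)).trans (mk_sub_type _ _)

/-- multiples of `μ` below `μ * θ` -/
theorem nf_mul (hκ : κ.IsRegular) (hθ : θ.IsRegular) (hθ0 : ℵ₀ < θ) (hθκ : θ < κ)
    (hμ0 : ℵ₀ ≤ μ) (hcof : μ.ord.cof ≠ θ) (hμ : ∀ ρ < μ, ρ ^ θ < μ) (δ : Ordinal.{0}) :
    δ < θ.ord → NF X κ θ θ (μ.ord * δ) := by
  have hpos : (0 : Ordinal.{0}) < μ.ord := by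
    rw [Cardinal.ord_pos]
    exact Cardinal.aleph0_pos.trans_le hμ0
  induction δ using WellFoundedLT.induction with
  | ind δ ih =>
  intro hδθ
  rcases Ordinal.zero_or_succ_or_isSuccLimit δ with h0 | ⟨δ', hδ'⟩ | hlim
  · subst h0
    rw [mul_zero]
    intro D T φ hD hφ hT
    exact nf_lt hκ.aleph0_le hθ (stab_regular hκ hθκ) 0 (by
      rw [Cardinal.ord_pos]
      exact Cardinal.aleph0_pos.trans hθ0) D T hD φ hφ hT
  · have hδ'' : δ = δ' + 1 := by rw [← hδ']; exact (Order.succ_eq_add_one δ')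
    subst hδ''
    have hlt : δ' < δ' + 1 := Order.lt_add_one_iff.2 le_rfl
    rw [mul_add_one]
    exact nf_closure hκ hθ hθ0 hθκ hμ0 hcof hμ (ih δ' hlt (hlt.trans hδθ))
  · refine nf_limit hκ.aleph0_le hθ (Ordinal.isSuccLimit_mul_right hpos hlim) (I := δ.ToType)
      (by rw [Cardinal.mk_toType]; exact Cardinal.lt_ord.1 hδθ)
      (fun a => μ.ord * (ToType.toOrd a : Ordinal.{0}))
      (fun a => mul_lt_mul_of_pos_left (ToType.toOrd a).2 hpos) ?_
      (fun a => ih _ (ToType.toOrd a).2 (lt_trans (ToType.toOrd a).2 hδθ))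
    intro c hc
    obtain ⟨d, hd, hd'⟩ := (Ordinal.lt_mul_iff_of_isSuccLimit hlim).1 hc
    exact ⟨ToType.mk ⟨d, hd⟩, by rw [toOrd_mk' hd]; exact hd'.le⟩

end Pool.Agent.TH764.OG
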