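import Mathlib
import Pool.Agent.TH764.OG.Norm5

/-!
# The relation at `κ ^ ν * q`, `ν < μ * (θ + 1) + 2`
-/

set_option autoImplicit false

namespace Pool.Agent.TH764.OG

open Set Cardinal Ordinal

variable {κ θ μ σ χ : Cardinal.{0}}

/-- from the pigeonhole property to the relation -/
theorem rel_of_nf (hκ : κ.IsRegular) {ν : Ordinal.{0}} (hν0 : 0 < ν)
    (hν : ν < (Order.succ κ).ord) {q : Ordinal.{0}} (hq0 : 0 < q) (hq : q < κ.ord)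
    (hN : NF (κ.ord ^ ν * q).ToType κ κ ℵ₀ ν) : Rel (κ.ord ^ ν * q) := by
  by_contra hR
  have hκ0 := hκ.aleph0_le
  have hK : (0 : Ordinal.{0}) < κ.ord := by
    rw [Cardinal.ord_pos]
    exact Cardinal.aleph0_pos.trans_le hκ0
  have hne : κ.ord ^ ν * q ≠ 0 := (mul_pos (Ordinal.opow_pos _ hK) hq0).ne'
  have hdvd : κ.ord ∣ κ.ord ^ ν * q := by
    have h7 : 1 ≤ ν := Order.one_le_iff_pos.2 hν0
    obtain ⟨δ, hδ⟩ : ∃ δ, ν = 1 + δ := ⟨ν - 1, (Ordinal.add_sub_cancel_of_le h7).symm⟩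
    rw [hδ, Ordinal.opow_add, Ordinal.opow_one, mul_assoc]
    exact dvd_mul_right _ _
  have hcard : (κ.ord ^ ν * q).card ≤ κ := by
    rw [Ordinal.card_mul]
    have h8 : (κ.ord ^ ν).card ≤ κ := by
      refine (Ordinal.card_opow_le _ _).trans (max_le hκ0 (max_le ?_ ?_))
      · rw [Cardinal.card_ord]
      · exact Order.lt_succ_iff.1 (Cardinal.lt_ord.1 hν)
    exact (mul_le_mul' h8 (Cardinal.lt_ord.1 hq).le).trans (Cardinal.mul_eq_self hκ0).le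
  exact no_smallCover_of hκ (ε := ν) (q := q) (fun D T hD φ hφ hT => hN D T φ hD hφ hT) hq
    (smallCover_of_not_rel hκ0 hne hdvd hcard hR)

/-- exponents below `μ * (θ + 1)` for `μ` many sets -/
theorem nf_long {X : Type} [LinearOrder X] [WellFoundedLT X]
    (hκ : κ.IsRegular) (hθ : θ.IsRegular) (hθ0 : ℵ₀ < θ) (hμκ : μ < κ)
    (hcof : μ.ord.cof ≠ θ) (hμ : ∀ ρ < μ, ρ ^ θ < μ) (hμ0 : ℵ₀ ≤ μ) {δ c : Ordinal.{0}}
    (hδ : δ ≤ θ.ord) (hc : c < μ.ord) : NF X κ μ θ (μ.ord * δ + c) := by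
  have h2μ : (2 : Cardinal.{0}) < μ := (Cardinal.natCast_lt_aleph0 (n := 2)).trans_le hμ0
  have hθμ : θ < μ := (Cardinal.cantor θ).trans (hμ 2 h2μ)
  have hpos : (0 : Ordinal.{0}) < μ.ord := by
    rw [Cardinal.ord_pos]
    exact Cardinal.aleph0_pos.trans_le hμ0
  have hθκ : θ < κ := hθμ.trans hμκ
  obtain ⟨σ, hσ, hσμ, hσ'⟩ := exists_regular hμ0 (max_lt hc (Cardinal.ord_lt_ord.2 hθμ))
  have hcσ : c < σ.ord := (le_max_left _ _).trans_lt hσ'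
  have hθσ : θ < σ := Cardinal.ord_lt_ord.1 ((le_max_right _ _).trans_lt hσ')
  have hbase : NF X κ σ θ (μ.ord * δ) := by
    rcases hδ.lt_or_eq with h | h
    · exact (nf_mul hκ hθ hθ0 hθκ hμ0 hcof hμ δ h).mono hθσ.le
    · subst h
      have hlim : Order.IsSuccLimit θ.ord := Cardinal.isSuccLimit_ord hθ.aleph0_le
      refine nf_limit hκ.aleph0_le hσ (Ordinal.isSuccLimit_mul_right hpos hlim)
        (I := θ.ord.ToType) (by rw [Cardinal.mk_ord_toType]; exact hθσ)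
        (fun a => μ.ord * (ToType.toOrd a : Ordinal.{0}))
        (fun a => mul_lt_mul_of_pos_left (ToType.toOrd a).2 hpos) ?_
        (fun a => (nf_mul hκ hθ hθ0 hθκ hμ0 hcof hμ _ (ToType.toOrd a).2).mono hθσ.le)
      intro c hc
      obtain ⟨d, hd, hd'⟩ := (Ordinal.lt_mul_iff_of_isSuccLimit hlim).1 hc
      exact ⟨ToType.mk ⟨d, hd⟩, by rw [toOrd_mk' hd]; exact hd'.le⟩
  exact (nf_add' hκ.aleph0_le hσ (stab_regular hκ (hσμ.trans_lt hμκ)) hbase c hcσ).mono hσμ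

/-- The relation holds at `κ ^ ν * q` for `0 < ν < μ * (θ + 1) + 2`. -/
theorem main_long (hκ : κ.IsRegular) (hθ : θ.IsRegular) (hθ0 : ℵ₀ < θ) (hμκ : μ < κ)
    (hcof : μ.ord.cof ≠ θ) (hμ : ∀ ρ < μ, ρ ^ θ < μ) (hμ0 : ℵ₀ ≤ μ) {ν q : Ordinal.{0}}
    (hν0 : 0 < ν) (hν : ν < μ.ord * (θ.ord + 1) + 2) (hq0 : 0 < q) (hq : q < κ.ord) :
    Rel (κ.ord ^ ν * q) := by
  have h2μ : (2 : Cardinal.{0}) < μ := (Cardinal.natCast_lt_aleph0 (n := 2)).trans_le hμ0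
  have hθμ : θ < μ := (Cardinal.cantor θ).trans (hμ 2 h2μ)
  have hpos : (0 : Ordinal.{0}) < μ.ord := by
    rw [Cardinal.ord_pos]
    exact Cardinal.aleph0_pos.trans_le hμ0
  have hlim : Order.IsSuccLimit κ.ord := Cardinal.isSuccLimit_ord hκ.aleph0_le
  have hmul := Ordinal.isPrincipal_mul_ord hκ.aleph0_le
  have hνκ : ν < κ.ord := by
    refine hν.trans ?_
    rw [show μ.ord * (θ.ord + 1) + 2 = μ.ord * (θ.ord + 1) + 1 + 1 by
      rw [add_assoc, one_add_one_eq_two]]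
    exact hlim.succ_lt (hlim.succ_lt (hmul (Cardinal.ord_lt_ord.2 hμκ)
      (hlim.succ_lt (Cardinal.ord_lt_ord.2 (hθμ.trans hμκ)))))
  refine rel_of_nf hκ hν0 (hνκ.trans (Cardinal.ord_lt_ord.2 (Order.lt_succ κ))) hq0 hq ?_
  -- `ν = μ * δ + η`, `δ ≤ θ`, `η < μ + 2`
  obtain ⟨δ, η, hδ, hη, hνeq⟩ : ∃ δ η : Ordinal.{0}, δ ≤ θ.ord ∧ η < μ.ord + 2 ∧
      ν = μ.ord * δ + η := by
    rcases le_or_gt (μ.ord * θ.ord) ν with h | h
    · refine ⟨θ.ord, ν - μ.ord * θ.ord, le_rfl, ?_, (Ordinal.add_sub_cancel_of_le h).symm⟩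
      rw [← add_lt_add_iff_left (μ.ord * θ.ord), Ordinal.add_sub_cancel_of_le h, ← add_assoc,
        ← mul_add_one]
      exact hν
    · refine ⟨ν / μ.ord, ν % μ.ord, ?_, ?_, (Ordinal.div_add_mod ν μ.ord).symm⟩
      · exact ((Ordinal.lt_mul_iff_div_lt hpos.ne').1 h).le
      · exact (Ordinal.mod_lt ν hpos.ne').trans_le le_self_add
  rw [hνeq]
  intro D T φ hD hφ hT
  obtain ⟨ξ, hξ, hξ'⟩ := nf_top' hκ hμ0 hμκ (fun c hc => nf_long hκ hθ hθ0 hμκ hcof hμ hμ0 hδ hc)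
    hη D T φ hD hφ hT
  exact ⟨ξ, hξ, hθ0.le.trans hξ'⟩

/-- The relation for all limit ordinals whose uncountable terms are below
`κ ^ (μ * (θ + 1) + 2)`. -/
theorem main_long_terms {α : Ordinal.{0}} (hα : Order.IsSuccLimit α)
    (h : ∀ γ ∈ (CNF ω α).map Prod.fst, ℵ₀ < (ω ^ γ).card → (ω ^ γ).card.IsRegular ∧
      ∃ μ θ : Cardinal.{0}, θ.IsRegular ∧ ℵ₀ < θ ∧ θ < μ ∧ μ < (ω ^ γ).card ∧
        μ.ord.cof ≠ θ ∧ (∀ ρ < μ, ρ ^ θ < μ) ∧
        ω ^ γ < (ω ^ γ).card.ord ^ (μ.ord * (θ.ord + 1) + 2)) : Rel α := by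
  rw [rel_iff_terms hα]
  intro γ hγ
  rcases le_or_gt (ω ^ γ).card ℵ₀ with h1 | h1
  · exact rel_opow_countable (one_le_of_mem hα hγ) h1
  · obtain ⟨hκ, μ, θ, hθ, hθ0, hθμ, hμκ, hcof, hμ, hlt⟩ := h γ hγ h1
    have hle : (ω ^ γ).card.ord ≤ ω ^ γ := Cardinal.ord_card_le _
    obtain ⟨ν, q, hν1, hq0, hq, h3⟩ := opow_decomp hκ.aleph0_le hle
    have hK1 : (1 : Ordinal.{0}) < (ω ^ γ).card.ord := by
      rw [Cardinal.lt_ord, Ordinal.card_one]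
      exact Cardinal.one_lt_aleph0.trans h1
    have hν : ν < μ.ord * (θ.ord + 1) + 2 := by
      have h4 : (ω ^ γ).card.ord ^ ν ≤ ω ^ γ := by
        conv_rhs => rw [h3]
        exact le_mul_of_one_le_right' (Order.one_le_iff_pos.2 hq0)
      exact (Ordinal.opow_lt_opow_iff_right hK1).1 (h4.trans_lt hlt)
    have h5 := main_long hκ hθ hθ0 hμκ hcof hμ (hθ0.le.trans hθμ.le)
      (Order.one_le_iff_pos.1 hν1) hν hq0 hq
    rwa [← h3] at h5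

end Pool.Agent.TH764.OG
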