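import Mathlib
import Pool.Agent.TH764.OG.Norm6

/-!
# The Milner–Rado decomposition for all cardinals
-/

set_option autoImplicit false

namespace Pool.Agent.TH764.OG

open Set Cardinal Ordinal

open Results.MP_820435_lc.NeverProvableAbove (Sm Sm.mono sm_empty sm_singleton sm_append sm_block
  rho rho_spec exists_surj)

variable {κ : Cardinal.{0}}

theorem exists_enumK {α : Ordinal.{0}} (hα : α < (Order.succ κ).ord) (h0 : α ≠ 0) :
    ∃ g : Ordinal.{0} → Ordinal.{0}, (∀ ζ, g ζ < α) ∧ ∀ x, x < α → ∃ ζ, ζ < κ.ord ∧ g ζ = x := by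
  classical
  have hc : α.card ≤ κ := Order.lt_succ_iff.1 (Cardinal.lt_ord.1 hα)
  have h1 : #(Set.Iio α) ≤ #(Set.Iio (κ.ord : Ordinal.{0})) := by
    rw [Cardinal.mk_Iio_ordinal, Cardinal.mk_Iio_ordinal, Cardinal.card_ord]
    exact Cardinal.lift_le.mpr hc
  haveI : Nonempty (Set.Iio α) := ⟨⟨0, pos_iff_ne_zero.mpr h0⟩⟩
  obtain ⟨q, hq⟩ := exists_surj h1
  refine ⟨fun ζ => if hζ : ζ < κ.ord then (q ⟨ζ, hζ⟩).1 else 0, ?_, ?_⟩
  · intro ζ
    by_cases hζ : ζ < κ.ord
    · simp only [dif_pos hζ]; exact (q ⟨ζ, hζ⟩).2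
    · simp only [dif_neg hζ]; exact pos_iff_ne_zero.mpr h0
  · intro x hx
    obtain ⟨⟨ζ, hζ⟩, h2⟩ := hq ⟨x, hx⟩
    have hζ' : ζ < κ.ord := hζ
    refine ⟨ζ, hζ', ?_⟩
    simp only [dif_pos hζ', h2]

theorem rho_factsK {K α : Ordinal.{0}} {g : Ordinal.{0} → Ordinal.{0}}
    (hg : ∀ x, x < α → ∃ ζ, ζ < K ∧ g ζ = x) {x : Ordinal.{0}} (hx : x < α) :
    x ≤ g (rho g x) ∧ rho g x < K := by
  obtain ⟨ζ, hζ, h⟩ := hg x hx
  obtain ⟨h1, h2⟩ := rho_spec (g := g) h.ge
  exact ⟨h1, h2.trans_lt hζ⟩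

theorem rho_monoK {K α : Ordinal.{0}} {g : Ordinal.{0} → Ordinal.{0}}
    (hg : ∀ x, x < α → ∃ ζ, ζ < K ∧ g ζ = x) {x y : Ordinal.{0}} (hxy : x ≤ y) (hy : y < α) :
    rho g x ≤ rho g y :=
  (rho_spec (hxy.trans (rho_factsK hg hy).1)).2

theorem two_mul_ord (hκ : ℵ₀ ≤ κ) : (2 : Ordinal.{0}) * κ.ord = κ.ord := by
  refine isPrincipal_mul_iff_mul_left_eq.mp (Ordinal.isPrincipal_mul_ord hκ) 2 (by norm_num) ?_
  rw [Cardinal.lt_ord]
  refine lt_of_lt_of_le ?_ hκ
  have h : (2 : Ordinal.{0}).card < ℵ₀ := by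
    rw [← Cardinal.lt_ord, Cardinal.ord_aleph0]
    exact nat_lt_omega0 2
  exact h

/-- The Milner and Rado decomposition. -/
theorem milner_rado_K (hκ : ℵ₀ ≤ κ) (α : Ordinal.{0}) (hα : α < (Order.succ κ).ord) :
    ∃ n : Ordinal.{0} → ℕ, ∀ m : ℕ, Sm {x | x < α ∧ n x ≤ m} (κ.ord ^ (m : Ordinal.{0})) := by
  classical
  have hK : (0 : Ordinal.{0}) < κ.ord := by
    rw [Cardinal.ord_pos]
    exact Cardinal.aleph0_pos.trans_le hκ
  induction α using WellFoundedLT.induction with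
  | ind α IH =>
    by_cases h0 : α = 0
    · subst h0
      exact ⟨fun _ => 0, fun m => sm_empty _ (fun x hx => not_lt_bot hx.1)⟩
    obtain ⟨g, hgα, hg⟩ := exists_enumK hα h0
    choose n hn using fun ζ => IH (g ζ) (hgα ζ) ((hgα ζ).trans hα)
    refine ⟨fun x => if x < g (rho g x) then n (rho g x) x + 1 else 1, ?_⟩
    intro m
    cases m with
    | zero =>
      refine sm_empty _ ?_
      rintro x ⟨-, hx⟩
      by_cases h : x < g (rho g x)
      · simp [if_pos h] at hx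
      · simp [if_neg h] at hx
    | succ m =>
      have hpos : (1 : Ordinal.{0}) ≤ κ.ord ^ (m : Ordinal.{0}) := by
        rw [Order.one_le_iff_pos]
        exact opow_pos _ hK
      have h1 : Sm {x | x < α ∧ (if x < g (rho g x) then n (rho g x) x + 1 else 1) ≤ m + 1}
          ((κ.ord ^ (m : Ordinal.{0}) + 1) * κ.ord) := by
        refine sm_block (ρ := rho g) ?_ ?_ ?_
        · rintro x ⟨hx, -⟩ y ⟨hy, -⟩ hxy
          exact rho_monoK hg hxy.le hy
        · rintro x ⟨hx, -⟩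
          exact (rho_factsK hg hx).2
        · intro ζ hζ
          refine sm_append (c := fun x => x < g ζ) ?_ ?_ ?_
          · intro x _ y _ hxy hy
            exact hxy.trans hy
          · refine (hn ζ m).mono ?_ le_rfl
            rintro x ⟨⟨⟨hxα, hx1⟩, hx2⟩, hx3⟩
            subst hx2
            have hx3' : x < g (rho g x) := hx3
            simp only [if_pos hx3'] at hx1
            exact ⟨hx3, by omega⟩
          · refine (sm_singleton (g ζ)).mono ?_ le_rfl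
            rintro x ⟨⟨⟨hxα, hx1⟩, hx2⟩, hx3⟩
            subst hx2
            exact le_antisymm (rho_factsK hg hxα).1 (not_lt.mp hx3)
      refine h1.mono (fun x hx => hx) ?_
      calc (κ.ord ^ (m : Ordinal.{0}) + 1) * κ.ord
          ≤ (κ.ord ^ (m : Ordinal.{0}) * 2) * κ.ord := by
            refine mul_le_mul_left ?_ _
            rw [← one_add_one_eq_two, mul_add, mul_one]
            exact add_le_add le_rfl hpos
        _ = κ.ord ^ ((m + 1 : ℕ) : Ordinal.{0}) := by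
            rw [mul_assoc, two_mul_ord hκ, Nat.cast_succ, opow_add, opow_one]

end Pool.Agent.TH764.OG
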