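import Mathlib
import Pool.Agent.TH764.OG.MRado
import Pool.Agent.TH764.OG.Neg2

/-!
# Families of subsets of `κ ^ ν` from functions of rank `ν`
-/

set_option autoImplicit false

namespace Pool.Agent.TH764.OG

open Set Cardinal Ordinal

open Results.MP_820435_lc.NeverProvableAbove (Sm Sm.mono sm_empty sm_singleton sm_append sm_block
  rho rho_spec)

variable {κ : Cardinal.{0}}

lemma exists_lower {ρ : Ordinal.{0}} {t : DD → ρ.ToType} {δ : Ordinal.{0}} (h : δ < rk ρ t) :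
    ∃ s, NRel DD ρ s t ∧ δ ≤ rk ρ s := by
  have hwf := nrel_wf unc_DD ρ
  unfold rk at h
  rw [IsWellFounded.rank_eq, Ordinal.lt_iSup_iff] at h
  obtain ⟨⟨s, hs⟩, h⟩ := h
  exact ⟨s, hs, Order.lt_succ_iff.1 h⟩

lemma rk_lt {ρ : Ordinal.{0}} {s t : DD → ρ.ToType} (h : NRel DD ρ s t) : rk ρ s < rk ρ t := by
  have hwf := nrel_wf unc_DD ρ
  exact IsWellFounded.rank_lt_of_rel h

lemma opow_lt_succ (hκ : ℵ₀ ≤ κ) {ν : Ordinal.{0}} (hν : ν < (Order.succ κ).ord) :
    κ.ord ^ ν < (Order.succ κ).ord := by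
  rw [Cardinal.lt_ord, Order.lt_succ_iff]
  refine (Ordinal.card_opow_le _ _).trans (max_le hκ (max_le ?_ ?_))
  · rw [Cardinal.card_ord]
  · exact Order.lt_succ_iff.1 (Cardinal.lt_ord.1 hν)

/-- The omitted sets: `E` outside `X`, and the first elements of `X`. -/
def Emix (X : Set DD) (k : DD → ℕ) (n : ℕ) (E : Set DD) : Set DD :=
  {i | i ∉ X ∧ i ∈ E} ∪ {i | i ∈ X ∧ k i < n}

lemma Emix_finite {X : Set DD} {k : DD → ℕ} (hk : Set.InjOn k X) (n : ℕ) {E : Set DD}
    (hE : E.Finite) : (Emix X k n E).Finite := by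
  refine Set.Finite.union (hE.subset (fun i hi => hi.2)) ?_
  refine Set.Finite.of_finite_image (f := k) ?_ ?_
  · refine (Set.finite_Iio n).subset ?_
    rintro _ ⟨i, ⟨_, hi⟩, rfl⟩
    exact hi
  · intro a ha b hb hab
    exact hk ha.1 hb.1 hab

/-- The family theorem. -/
theorem family1 (hκ : ℵ₀ ≤ κ) (ν : Ordinal.{0}) : ν < (Order.succ κ).ord →
    ∀ (ρ : Ordinal.{0}) (t : DD → ρ.ToType), ν ≤ rk ρ t →
    ∃ E : Ordinal.{0} → Set DD, (∀ y, (E y).Finite) ∧
      ∀ i, Sm {y | y < κ.ord ^ ν ∧ i ∉ E y} (κ.ord ^ (ω + (ToType.toOrd (t i) : Ordinal.{0}) + 1)) := by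
  classical
  have hK1 : (1 : Ordinal.{0}) < κ.ord := by
    rw [Cardinal.lt_ord, Ordinal.card_one]
    exact Cardinal.one_lt_aleph0.trans_le hκ
  have hK : (0 : Ordinal.{0}) < κ.ord := zero_lt_one.trans hK1
  have hnat : ∀ (m : ℕ) (c : Ordinal.{0}), κ.ord ^ (m : Ordinal.{0}) ≤ κ.ord ^ (ω + c) :=
    fun m c => Ordinal.opow_le_opow_right hK ((Ordinal.nat_lt_omega0 m).le.trans le_self_add)
  induction ν using WellFoundedLT.induction with
  | ind ν ih =>
  intro hν ρ t ht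
  obtain ⟨n, hn⟩ := milner_rado_K hκ (κ.ord ^ ν) (opow_lt_succ hκ hν)
  rcases Ordinal.zero_or_succ_or_isSuccLimit ν with h0 | ⟨ν', hν'⟩ | hlim
  · subst h0
    refine ⟨fun _ => ∅, fun _ => Set.finite_empty, fun i => ?_⟩
    refine (sm_singleton 0).mono ?_ (Order.one_le_iff_pos.2 (Ordinal.opow_pos _ hK))
    rintro y ⟨hy, _⟩
    rw [Ordinal.opow_zero, Ordinal.lt_one_iff_zero] at hy
    exact hy
  · have hν'' : ν = ν' + 1 := by rw [← hν']; exact (Order.succ_eq_add_one ν')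
    subst hν''
    have hlt : ν' < ν' + 1 := Order.lt_add_one_iff.2 le_rfl
    obtain ⟨s, hs, hs'⟩ := exists_lower (hlt.trans_le ht)
    obtain ⟨E', hE1, hE2⟩ := ih ν' hlt (hlt.trans hν) ρ s hs'
    obtain ⟨k, hk⟩ := Set.countable_iff_exists_injOn.1 hs
    refine ⟨fun y => Emix {i | ¬ s i < t i} k (n y) (E' (y % κ.ord ^ ν')),
      fun y => Emix_finite hk _ (hE1 _), fun i => ?_⟩
    by_cases hi : s i < t i
    · have hst : (ToType.toOrd (s i) : Ordinal.{0}) + 1 ≤ ToType.toOrd (t i) :=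
        Order.add_one_le_of_lt (toOrd_lt_toOrd.2 hi)
      have hpow' : κ.ord ^ (ν' + 1) = κ.ord ^ ν' * κ.ord := by
        rw [Ordinal.opow_add, Ordinal.opow_one]
      have h1 : Sm {y | y < κ.ord ^ (ν' + 1) ∧
          i ∉ Emix {i | ¬ s i < t i} k (n y) (E' (y % κ.ord ^ ν'))}
          (κ.ord ^ (ω + (ToType.toOrd (s i) : Ordinal.{0}) + 1) * κ.ord) := by
        refine sm_coeff hK1 (e := ν') (lam := κ.ord) ?_ ?_
        · rintro y ⟨hy, _⟩
          rw [hpow'] at hy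
          exact (Ordinal.lt_mul_iff_div_lt (Ordinal.opow_pos ν' hK).ne').1 hy
        · intro c _
          refine ⟨_, hE2 i, ?_⟩
          rintro y ⟨_, hy⟩ _
          refine ⟨mod_lt' hK1 y ν', fun hmem => hy (Or.inl ⟨?_, hmem⟩)⟩
          exact fun h => h hi
      refine h1.mono subset_rfl ?_
      have he : κ.ord ^ (ω + (ToType.toOrd (s i) : Ordinal.{0}) + 1) * κ.ord =
          κ.ord ^ (ω + (ToType.toOrd (s i) : Ordinal.{0}) + 1 + 1) := by
        rw [Ordinal.opow_add _ (ω + (ToType.toOrd (s i) : Ordinal.{0}) + 1) 1, Ordinal.opow_one]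
      rw [he]
      refine Ordinal.opow_le_opow_right hK ?_
      rw [add_assoc ω (ToType.toOrd (s i) : Ordinal.{0}) 1]
      exact add_le_add (add_le_add le_rfl hst) le_rfl
    · refine Sm.mono (hn (k i)) ?_ ?_
      · rintro y ⟨hy, hy'⟩
        refine ⟨hy, ?_⟩
        by_contra hcon
        exact hy' (Or.inr ⟨hi, not_le.1 hcon⟩)
      · rw [add_assoc]
        exact hnat _ _
  · have hν0 : 0 < ν := pos_iff_ne_zero.2 hlim.ne_bot
    obtain ⟨g, hg1, hg2⟩ := exists_enumK hν hν0.ne'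
    have hd : ∀ ζ, g ζ + 1 < ν := fun ζ => hlim.succ_lt (hg1 ζ)
    choose s hs hs' using fun ζ => exists_lower ((hd ζ).trans_le ht)
    choose E' hE1 hE2 using fun ζ => ih (g ζ + 1) (hd ζ) ((hd ζ).trans hν) ρ (s ζ) (hs' ζ)
    choose k hk using fun ζ => Set.countable_iff_exists_injOn.1 (hs ζ)
    refine ⟨fun y => Emix {i | ¬ s (rho g (log κ.ord y)) i < t i} (k (rho g (log κ.ord y))) (n y)
      (E' (rho g (log κ.ord y)) y), fun y => Emix_finite (hk _) _ (hE1 _ _), fun i => ?_⟩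
    rw [Ordinal.opow_add _ (ω + _) 1, Ordinal.opow_one]
    refine sm_block (ρ := fun y => rho g (log κ.ord y)) ?_ ?_ ?_
    · rintro x ⟨hx, _⟩ y ⟨hy, _⟩ hxy
      exact rho_monoK hg2 (Ordinal.log_mono_right _ hxy.le) (log_lt_of_lt hK1 hν0 hy)
    · rintro y ⟨hy, _⟩
      exact (rho_factsK hg2 (log_lt_of_lt hK1 hν0 hy)).2
    · intro ζ _
      by_cases hi : s ζ i < t i
      · have hst : (ToType.toOrd (s ζ i) : Ordinal.{0}) + 1 ≤ ToType.toOrd (t i) :=
          Order.add_one_le_of_lt (toOrd_lt_toOrd.2 hi)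
        refine Sm.mono (hE2 ζ i) ?_ ?_
        · rintro y ⟨⟨hy, hy'⟩, hz⟩
          subst hz
          refine ⟨?_, fun hmem => hy' (Or.inl ⟨fun h => h hi, hmem⟩)⟩
          have h1 := (rho_factsK hg2 (log_lt_of_lt hK1 hν0 hy)).1
          refine (Ordinal.lt_opow_succ_log_self hK1 y).trans_le ?_
          rw [Order.succ_eq_add_one]
          exact Ordinal.opow_le_opow_right hK (add_le_add h1 le_rfl)
        · refine Ordinal.opow_le_opow_right hK ?_
          rw [add_assoc]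
          exact add_le_add le_rfl hst
      · refine Sm.mono (hn (k ζ i)) ?_ (hnat _ _)
        rintro y ⟨⟨hy, hy'⟩, hz⟩
        refine ⟨hy, ?_⟩
        by_contra hcon
        have hz' : rho g (log κ.ord y) = ζ := hz
        refine hy' (Or.inr ?_)
        rw [hz']
        exact ⟨hi, not_le.1 hcon⟩

end Pool.Agent.TH764.OG
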