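import Mathlib
import Pool.Agent.TH764.OG.Rank2

/-!
# Small covers from functions of large rank
-/

set_option autoImplicit false

namespace Pool.Agent.TH764.OG

open Set Cardinal Ordinal

open Results.MP_820435_lc.NeverProvableAbove (Sm Sm.mono sm_empty sm_singleton sm_append sm_block
  rho rho_spec)

variable {κ : Cardinal.{0}}

lemma exists_inj_DD {c : Ordinal.{0}} (hc : c < (Order.succ (ℵ₁ : Cardinal.{0})).ord) :
    ∃ f : Ordinal.{0} → DD, Set.InjOn f (Set.Iio c) := by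
  obtain ⟨f, hf1, hf2⟩ := exists_inj_omega1 hc
  have hω : (ℵ₁ : Cardinal.{0}).ord = ω₁ := Cardinal.ord_aleph 1
  have hf3 : ∀ ξ, f ξ < (ℵ₁ : Cardinal.{0}).ord := fun ξ => by rw [hω]; exact hf2 ξ
  refine ⟨fun ξ => ToType.mk ⟨f ξ, hf3 ξ⟩, ?_⟩
  intro x hx y hy hxy
  have h1 := ToType.mk.injective hxy
  exact hf1 hx hy (congrArg Subtype.val h1)

/-- from a family indexed by `ω₁` with uniformly small sets to a family indexed by `ω₂` -/
theorem family2 (hκ : κ = Order.succ ℵ₁) {A C : Ordinal.{0}} (hC : 1 ≤ C)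
    (E : Ordinal.{0} → Set DD) (hE : ∀ y, (E y).Finite) (hS : ∀ i, Sm {y | y < A ∧ i ∉ E y} C)
    (α : Ordinal.{0}) : α < (Order.succ κ).ord → α ≤ A →
    ∃ Kf : Ordinal.{0} → Set Ordinal.{0}, (∀ y, (Kf y).Finite) ∧
      ∀ ξ < κ.ord, ∃ δ < κ.ord, Sm {y | y < α ∧ ξ ∉ Kf y} (C * κ.ord * δ) := by
  classical
  have hreg : κ.IsRegular := by
    rw [hκ]
    exact Cardinal.isRegular_succ (Cardinal.aleph0_le_aleph 1)
  have hK1 : (1 : Ordinal.{0}) < κ.ord := by
    rw [Cardinal.lt_ord, Ordinal.card_one]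
    exact Cardinal.one_lt_aleph0.trans_le hreg.aleph0_le
  have hK : (0 : Ordinal.{0}) < κ.ord := zero_lt_one.trans hK1
  have hlim : Order.IsSuccLimit κ.ord := Cardinal.isSuccLimit_ord hreg.aleph0_le
  have hmul := Ordinal.isPrincipal_mul_ord hreg.aleph0_le
  have hCK : 1 ≤ C * κ.ord := by
    rw [Order.one_le_iff_pos]
    exact mul_pos (Order.one_le_iff_pos.1 hC) hK
  have hh : ∀ ζ : Ordinal.{0}, ∃ h : Ordinal.{0} → DD, ζ < κ.ord → Set.InjOn h (Set.Iio ζ) := by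
    intro ζ
    by_cases hζ : ζ < κ.ord
    · obtain ⟨h, hh⟩ := exists_inj_DD (by rw [← hκ]; exact hζ)
      exact ⟨h, fun _ => hh⟩
    · obtain ⟨h, _⟩ := exists_inj_DD (c := 0) (by
        rw [← hκ]
        exact hK)
      exact ⟨h, fun h' => absurd h' hζ⟩
  choose h hh using hh
  induction α using WellFoundedLT.induction with
  | ind α IH =>
  intro hα hαA
  by_cases h0 : α = 0
  · subst h0
    exact ⟨fun _ => ∅, fun _ => Set.finite_empty, fun ξ _ => ⟨0, hK,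
      sm_empty _ (fun x hx => not_lt_bot hx.1)⟩⟩
  obtain ⟨g, hgα, hg⟩ := exists_enumK hα h0
  choose Kg hKg1 hKg2 using fun ζ => IH (g ζ) (hgα ζ) ((hgα ζ).trans hα) ((hgα ζ).le.trans hαA)
  refine ⟨fun x => (if x < g (rho g x) then Kg (rho g x) x else ∅) ∪
    {ξ | ξ < rho g x ∧ rho g x < κ.ord ∧ h (rho g x) ξ ∈ E x}, fun x => ?_, ?_⟩
  · refine Set.Finite.union ?_ ?_
    · split_ifs
      · exact hKg1 _ _
      · exact Set.finite_empty
    · by_cases hx : rho g x < κ.ord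
      · refine Set.Finite.of_finite_image (f := h (rho g x)) ?_ ?_
        · refine (hE x).subset ?_
          rintro _ ⟨i, ⟨_, _, hi⟩, rfl⟩
          exact hi
        · intro a ha b hb hab
          exact hh _ hx ha.1 hb.1 hab
      · refine Set.finite_empty.subset ?_
        rintro i ⟨_, h', _⟩
        exact absurd h' hx
  · intro ξ hξ
    choose D hD1 hD2 using fun ζ => hKg2 ζ ξ hξ
    have hξ1 : ξ + 1 < κ.ord := hlim.succ_lt hξ
    obtain ⟨δ, hδ, hδ'⟩ : ∃ δ < κ.ord, ∀ ζ ≤ ξ, D ζ ≤ δ := by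
      refine ⟨⨆ i : (ξ + 1).ToType, D (ToType.toOrd i : Ordinal.{0}), ?_, ?_⟩
      · refine Ordinal.iSup_lt_of_lt_cof ?_ (fun i => hD1 _)
        rw [hreg.cof_ord, Cardinal.mk_toType]
        exact Cardinal.lt_ord.1 hξ1
      · intro ζ hζ
        have hζ' : ζ < ξ + 1 := Order.lt_add_one_iff.2 hζ
        have h1 := Ordinal.le_iSup
          (fun i : (ξ + 1).ToType => D (ToType.toOrd i : Ordinal.{0})) (ToType.mk ⟨ζ, hζ'⟩)
        rwa [toOrd_mk' hζ'] at h1
    refine ⟨(δ + 1) * (ξ + 1) + 1, hlim.succ_lt (hmul (hlim.succ_lt hδ) hξ1), ?_⟩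
    rw [mul_add, mul_one, ← mul_assoc]
    refine sm_append (c := fun x => rho g x ≤ ξ) ?_ ?_ ?_
    · rintro x ⟨hx, -⟩ y ⟨hy, -⟩ hxy hc
      exact (rho_monoK hg hxy.le hy).trans hc
    · -- early blocks
      refine sm_block (ρ := rho g) ?_ ?_ ?_
      · rintro x ⟨⟨hx, -⟩, -⟩ y ⟨⟨hy, -⟩, -⟩ hxy
        exact rho_monoK hg hxy.le hy
      · rintro x ⟨-, hx⟩
        exact Order.lt_add_one_iff.2 hx
      · intro ζ hζ
        rw [Order.lt_add_one_iff] at hζ
        have h1 : C * κ.ord * D ζ + 1 ≤ C * κ.ord * (δ + 1) := by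
          rw [mul_add, mul_one]
          exact add_le_add (mul_le_mul_right (hδ' ζ hζ) _) hCK
        refine Sm.mono ?_ (fun x hx => hx) h1
        refine sm_append (c := fun x => x < g ζ) ?_ ?_ ?_
        · intro x _ y _ hxy hy
          exact hxy.trans hy
        · refine (hD2 ζ).mono ?_ le_rfl
          rintro x ⟨⟨⟨⟨hxα, hx1⟩, hx4⟩, hx2⟩, hx3⟩
          subst hx2
          have hx3' : x < g (rho g x) := hx3
          refine ⟨hx3, fun hcon => hx1 (Or.inl ?_)⟩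
          rw [if_pos hx3']
          exact hcon
        · refine (sm_singleton (g ζ)).mono ?_ le_rfl
          rintro x ⟨⟨⟨⟨hxα, hx1⟩, hx4⟩, hx2⟩, hx3⟩
          subst hx2
          exact le_antisymm (rho_factsK hg hxα).1 (not_lt.mp hx3)
    · -- late blocks
      refine sm_block (ρ := rho g) ?_ ?_ ?_
      · rintro x ⟨⟨hx, -⟩, -⟩ y ⟨⟨hy, -⟩, -⟩ hxy
        exact rho_monoK hg hxy.le hy
      · rintro x ⟨⟨hx, -⟩, -⟩
        exact (rho_factsK hg hx).2
      · intro ζ hζ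
        rcases le_or_gt ζ ξ with hζξ | hζξ
        · refine sm_empty _ ?_
          rintro x ⟨⟨_, hx⟩, hx2⟩
          have hx2' : rho g x = ζ := hx2
          exact hx (by rw [hx2']; exact hζξ)
        · refine (hS (h ζ ξ)).mono ?_ le_rfl
          rintro x ⟨⟨⟨hxα, hx1⟩, hx4⟩, hx2⟩
          subst hx2
          exact ⟨hxα.trans_le hαA, fun hcon => hx1 (Or.inr ⟨hζξ, hζ, hcon⟩)⟩

/-- Small covers from functions of large rank. -/
theorem smallCover_of_rank (hκ : κ = Order.succ ℵ₁) {ν ρ α : Ordinal.{0}}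
    (hν : ν < (Order.succ κ).ord) (t : DD → ρ.ToType) (ht : ν ≤ rk ρ t)
    (h1 : κ.ord ^ (ω + ρ + 2) ≤ α) (h2 : α ≤ κ.ord ^ ν) : SmallCover κ α := by
  have hreg : κ.IsRegular := by
    rw [hκ]
    exact Cardinal.isRegular_succ (Cardinal.aleph0_le_aleph 1)
  have hK1 : (1 : Ordinal.{0}) < κ.ord := by
    rw [Cardinal.lt_ord, Ordinal.card_one]
    exact Cardinal.one_lt_aleph0.trans_le hreg.aleph0_le
  have hK0 : (0 : Ordinal.{0}) < κ.ord := zero_lt_one.trans hK1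
  obtain ⟨E, hE1, hE2⟩ := family1 hreg.aleph0_le ν hν ρ t ht
  have hE3 : ∀ i, Sm {y | y < κ.ord ^ ν ∧ i ∉ E y} (κ.ord ^ (ω + ρ)) := fun i =>
    (hE2 i).mono subset_rfl (Ordinal.opow_le_opow_right hK0 (by
      rw [add_assoc]
      exact add_le_add le_rfl (Order.add_one_le_of_lt (ToType.toOrd (t i)).2)))
  obtain ⟨Kf, hfin, hsm⟩ := family2 hκ (Order.one_le_iff_pos.2 (Ordinal.opow_pos _ hK0)) E hE1 hE3 α
    (h2.trans_lt (opow_lt_succ hreg.aleph0_le hν)) h2
  refine ⟨fun ξ => {x : α.ToType | (ToType.toOrd ξ : Ordinal.{0}) ∉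
    Kf (ToType.toOrd x : Ordinal.{0})}, ?_, ?_⟩
  · intro ξ
    obtain ⟨δ, hδ, hS⟩ := hsm (ToType.toOrd ξ : Ordinal.{0}) (ToType.toOrd ξ).2
    refine lt_of_le_of_lt (type_le_of_sm (P := fun y => (ToType.toOrd ξ : Ordinal.{0}) ∉ Kf y)
      hS) ?_
    refine lt_of_lt_of_le ?_ h1
    rw [show (ω + ρ + 2 : Ordinal.{0}) = (ω + ρ + 1) + 1 by
        rw [add_assoc (ω + ρ) 1 1, one_add_one_eq_two],
      Ordinal.opow_add _ (ω + ρ + 1) 1, Ordinal.opow_add _ (ω + ρ) 1, Ordinal.opow_one]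
    exact mul_lt_mul_of_pos_left hδ (mul_pos (Ordinal.opow_pos _ hK0) hK0)
  · intro x
    refine Set.Finite.subset ((hfin (ToType.toOrd x : Ordinal.{0})).preimage
      (f := fun ξ : κ.ord.ToType => (ToType.toOrd ξ : Ordinal.{0})) ?_) ?_
    · intro a _ b _ hab
      exact ToType.mk.symm.injective (Subtype.ext hab)
    · intro ξ hξ
      exact Set.notMem_compl_iff.1 (fun h => hξ h)

end Pool.Agent.TH764.OG
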