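import Mathlib
import Pool.Agent.TH764.OG.Rank3

/-!
# Ranks of functions on `ω₁` modulo countable sets
-/

set_option autoImplicit false

namespace Pool.Agent.TH764.OG

open Set Cardinal Ordinal

open Results.MP_820435_lc.NeverProvableAbove (countable_Iic principal_add)

/-- `λ` is closed: all functions on `ω₁` with values below some `ρ < λ` have rank `< λ`. -/
def Cld (l : Ordinal.{0}) : Prop := ∀ ρ < l, ∀ t : DD → ρ.ToType, rk ρ t < l

/-- change of the range -/
lemma rk_le_comp {ρ l : Ordinal.{0}} (f : ρ.ToType → l.ToType) (hf : StrictMono f)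
    (t : DD → ρ.ToType) : rk ρ t ≤ rk l (fun i => f (t i)) := by
  have hwf := nrel_wf unc_DD ρ
  have hwf' := nrel_wf unc_DD l
  induction t using IsWellFounded.induction (NRel DD ρ) with
  | ind t ih =>
  unfold rk
  rw [IsWellFounded.rank_eq]
  refine Ordinal.iSup_le ?_
  rintro ⟨s, hs⟩
  rw [Order.succ_le_iff]
  refine lt_of_le_of_lt (ih s hs) (IsWellFounded.rank_lt_of_rel ?_)
  refine Set.Countable.mono ?_ hs
  intro i hi
  have hi' : ¬ f (s i) < f (t i) := hi
  rw [hf.lt_iff_lt] at hi'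
  exact hi'

/-- inclusion -/
noncomputable def liftT {ρ l : Ordinal.{0}} (h : ρ ≤ l) (x : ρ.ToType) : l.ToType :=
  ToType.mk ⟨(ToType.toOrd x : Ordinal.{0}), lt_of_lt_of_le (Set.mem_Iio.1 (ToType.toOrd x).2) h⟩

lemma toOrd_liftT {ρ l : Ordinal.{0}} (h : ρ ≤ l) (x : ρ.ToType) :
    (ToType.toOrd (liftT h x) : Ordinal.{0}) = ToType.toOrd x := by
  unfold liftT
  rw [toOrd_mk']

lemma liftT_mono {ρ l : Ordinal.{0}} (h : ρ ≤ l) : StrictMono (liftT h) := by
  intro x y hxy
  rw [← toOrd_lt_toOrd, toOrd_liftT, toOrd_liftT]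
  exact toOrd_lt_toOrd.2 hxy

/-- `t + m` as a function into `l` -/
noncomputable def shiftm {ρ l : Ordinal.{0}} (t : DD → ρ.ToType) (m : ℕ)
    (h : ∀ i, (ToType.toOrd (t i) : Ordinal.{0}) + m < l) : DD → l.ToType :=
  fun i => ToType.mk ⟨(ToType.toOrd (t i) : Ordinal.{0}) + m, h i⟩

lemma rk_shift {ρ l : Ordinal.{0}} (t : DD → ρ.ToType) (m : ℕ)
    (h : ∀ i, (ToType.toOrd (t i) : Ordinal.{0}) + m < l) (hρ : ρ ≤ l) :
    rk ρ t + m ≤ rk l (shiftm t m h) := by
  induction m with
  | zero =>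
    rw [Nat.cast_zero, add_zero]
    refine (rk_le_comp (liftT hρ) (liftT_mono hρ) t).trans (le_of_eq ?_)
    congr 1
    funext i
    unfold shiftm liftT
    congr 1
    apply Subtype.ext
    simp
  | succ m ih =>
    have h' : ∀ i, (ToType.toOrd (t i) : Ordinal.{0}) + m < l := fun i => by
      refine lt_of_lt_of_le ?_ (h i).le
      rw [Nat.cast_succ, ← add_assoc]
      exact Order.lt_add_one_iff.2 le_rfl
    have h1 : NRel DD l (shiftm t m h') (shiftm t (m + 1) h) := by
      have h2 : {i | ¬ shiftm t m h' i < shiftm t (m + 1) h i} = ∅ := by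
        ext i
        simp only [Set.mem_ofPred_eq, Set.mem_empty_iff_false, iff_false, not_not]
        unfold shiftm
        rw [← toOrd_lt_toOrd, toOrd_mk', toOrd_mk', Nat.cast_succ, ← add_assoc]
        exact Order.lt_add_one_iff.2 le_rfl
      unfold NRel
      rw [h2]
      exact Set.countable_empty
    rw [Nat.cast_succ, ← add_assoc]
    exact Order.add_one_le_of_lt (lt_of_le_of_lt (ih h') (rk_lt h1))

/-- constant functions -/
lemma le_rk_const {l : Ordinal.{0}} (c : Ordinal.{0}) : ∀ hc : c < l,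
    c ≤ rk l (fun _ => ToType.mk ⟨c, hc⟩) := by
  induction c using WellFoundedLT.induction with
  | ind c ih =>
  intro hc
  refine le_of_forall_lt (fun d hd => ?_)
  refine lt_of_le_of_lt (ih d hd (hd.trans hc)) (rk_lt ?_)
  have h2 : {i : DD | ¬ ((ToType.mk ⟨d, hd.trans hc⟩ : l.ToType) < ToType.mk ⟨c, hc⟩)} = ∅ := by
    ext i
    simp only [Set.mem_ofPred_eq, Set.mem_empty_iff_false, iff_false, not_not]
    rw [← toOrd_lt_toOrd, toOrd_mk', toOrd_mk']
    exact hd
  change Set.Countable _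
  rw [h2]
  exact Set.countable_empty

/-- cofinality `ω₁` -/
lemma exists_rk_cof {l : Ordinal.{0}} (hl : Order.IsSuccLimit l) (hcof : l.cof = ℵ₁) :
    ∃ t : DD → l.ToType, l ≤ rk l t := by
  classical
  obtain ⟨s, hs, hs'⟩ := Order.exists_cof_eq (α := l.ToType)
  rw [Ordinal.cof_toType, hcof] at hs'
  have hcard : #DD = #s := by rw [mk_DD, hs']
  obtain ⟨e⟩ := Cardinal.eq.1 hcard
  have hsmall : ∀ i : DD, #(Set.Iic i) < (ℵ₁ : Cardinal.{0}) := by
    intro i
    have h1 : #(Set.Iio i) < (ℵ₁ : Cardinal.{0}) := by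
      have h := Cardinal.mk_Iio_lt i (by simp)
      rwa [mk_DD] at h
    have h2 : Set.Iic i = insert i (Set.Iio i) := by
      ext x
      simp [le_iff_eq_or_lt]
    rw [h2]
    refine lt_of_le_of_lt (Cardinal.mk_insert_le) ?_
    exact Cardinal.add_lt_of_lt (Cardinal.aleph0_le_aleph 1) h1
      (Cardinal.one_lt_aleph0.trans Cardinal.aleph0_lt_aleph_one)
  have hb : ∀ i : DD, (⨆ j : Set.Iic i, (ToType.toOrd (e j.1).1 : Ordinal.{0})) < l := fun i =>
    Ordinal.iSup_lt_of_lt_cof (by rw [hcof]; exact hsmall i) (fun j => (ToType.toOrd _).2)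
  refine ⟨fun i => ToType.mk ⟨_, hb i⟩, ?_⟩
  refine le_of_forall_lt (fun c hc => ?_)
  have hc1 : c + 1 < l := hl.succ_lt hc
  obtain ⟨m, hm, hm'⟩ := hs (ToType.mk ⟨c + 1, hc1⟩)
  refine lt_of_le_of_lt (le_rk_const c hc) (rk_lt ?_)
  change Set.Countable _
  have hcount : (Set.Iio (e.symm ⟨m, hm⟩)).Countable := by
    have h := Cardinal.mk_Iio_lt (e.symm ⟨m, hm⟩) (by simp)
    rw [mk_DD] at h
    have h' : #(Set.Iio (e.symm ⟨m, hm⟩)) < Order.succ ℵ₀ :=
      lt_of_lt_of_eq h Cardinal.succ_aleph0.symm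
    rw [Order.lt_succ_iff] at h'
    exact Cardinal.mk_le_aleph0_iff.1 h'
  refine hcount.mono ?_
  intro i hi
  by_contra hcon
  rw [Set.mem_Iio, not_lt] at hcon
  apply hi
  rw [← toOrd_lt_toOrd, toOrd_mk', toOrd_mk']
  have h3 := toOrd_le_toOrd.2 hm'
  rw [toOrd_mk'] at h3
  have h4 := Ordinal.le_iSup (fun j : Set.Iic i => (ToType.toOrd (e j.1).1 : Ordinal.{0}))
    ⟨e.symm ⟨m, hm⟩, hcon⟩
  simp only [Equiv.apply_symm_apply] at h4
  exact lt_of_lt_of_le (Order.lt_add_one_iff.2 le_rfl) (h3.trans h4)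

/-- countable values -/
lemma rk_le_of_unc {ρ : Ordinal.{0}} (c : Ordinal.{0}) : c < ω₁ → ∀ t : DD → ρ.ToType,
    ¬ {i | (ToType.toOrd (t i) : Ordinal.{0}) ≤ c}.Countable → rk ρ t ≤ c := by
  induction c using WellFoundedLT.induction with
  | ind c ih =>
  intro hc t ht
  by_contra hcon
  rw [not_le] at hcon
  obtain ⟨s, hs, hs'⟩ := exists_lower hcon
  have h1 : ∃ d < c, ¬ {i | (ToType.toOrd (s i) : Ordinal.{0}) ≤ d}.Countable := by
    by_contra hcon'
    push Not at hcon'
    apply ht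
    have h2 : {i | (ToType.toOrd (t i) : Ordinal.{0}) ≤ c} ⊆ {i | ¬ s i < t i} ∪
        ⋃ d ∈ Set.Iio c, {i | (ToType.toOrd (s i) : Ordinal.{0}) ≤ d} := by
      intro i hi
      by_cases hst : s i < t i
      · right
        simp only [Set.mem_iUnion, Set.mem_ofPred_eq]
        exact ⟨_, (toOrd_lt_toOrd.2 hst).trans_le hi, le_rfl⟩
      · exact Or.inl hst
    refine Set.Countable.mono h2 (Set.Countable.union hs ?_)
    refine Set.Countable.biUnion ?_ (fun d hd => hcon' d hd)
    have := countable_Iic hc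
    exact (Set.countable_coe_iff.1 this).mono
      Set.Iio_subset_Iic_self
  obtain ⟨d, hd, hd'⟩ := h1
  exact absurd (hs'.trans (ih d hd (hd.trans hc) s hd')) (not_le.2 hd)

/-- ordinals up to `ω₁` are closed -/
lemma cld_of_le {l : Ordinal.{0}} (hl : l ≤ ω₁) : Cld l := by
  intro ρ hρ t
  have hρ1 : ρ < ω₁ := hρ.trans_le hl
  have h1 : ∃ d < ρ, ¬ {i | (ToType.toOrd (t i) : Ordinal.{0}) ≤ d}.Countable := by
    by_contra hcon'
    push Not at hcon'
    have h2 : (Set.univ : Set DD) ⊆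
        ⋃ d ∈ Set.Iio ρ, {i | (ToType.toOrd (t i) : Ordinal.{0}) ≤ d} := by
      intro i _
      simp only [Set.mem_iUnion, Set.mem_ofPred_eq]
      exact ⟨_, (ToType.toOrd (t i)).2, le_rfl⟩
    have h3 : (Set.univ : Set DD).Countable := by
      refine Set.Countable.mono h2 (Set.Countable.biUnion ?_ (fun d hd => hcon' d hd))
      have := countable_Iic hρ1
      exact (Set.countable_coe_iff.1 this).mono
        Set.Iio_subset_Iic_self
    have := unc_DD
    exact Set.not_countable_univ h3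
  obtain ⟨d, hd, hd'⟩ := h1
  exact (rk_le_of_unc d (hd.trans hρ1) t hd').trans_lt (hd.trans hρ)

lemma omega_add_eq {x : Ordinal.{0}} (hx : ω₁ ≤ x) : ω + x = x := by
  obtain ⟨y, rfl⟩ : ∃ y, x = ω₁ + y := ⟨x - ω₁, (Ordinal.add_sub_cancel_of_le hx).symm⟩
  rw [← add_assoc]
  congr 1
  exact (Ordinal.isPrincipal_add_iff_add_left_eq_self.1 principal_add) ω
    Ordinal.omega0_lt_omega_one

/-- The functions used at bad exponents. -/
theorem bad_exponent {l : Ordinal.{0}} (hl : Order.IsSuccLimit l) (n : ℕ)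
    (h : ¬ Cld l ∨ (l.cof = ℵ₁ ∧ 2 ≤ n)) : ∃ ρ, ω + ρ + 2 ≤ l + n ∧
      ∃ t : DD → ρ.ToType, l + (n + 1 : ℕ) ≤ rk ρ t := by
  rcases h with h | ⟨hcof, hn⟩
  · have hl1 : ω₁ < l := by
      by_contra hcon
      exact h (cld_of_le (not_lt.1 hcon))
    unfold Cld at h
    push Not at h
    obtain ⟨ρ, hρ, t, ht⟩ := h
    have hρn : ρ + (n + 1 : ℕ) < l := by
      have h1 : ∀ m : ℕ, ρ + m < l := by
        intro m
        induction m with
        | zero => simpa using hρ
        | succ m ih =>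
          rw [Nat.cast_succ, ← add_assoc]
          exact hl.succ_lt ih
      exact h1 (n + 1)
    have hsh : ∀ i, (ToType.toOrd (t i) : Ordinal.{0}) + (n + 1 : ℕ) < ρ + (n + 1 : ℕ) := by
      intro i
      have h1 : (ToType.toOrd (t i) : Ordinal.{0}) < ρ := (ToType.toOrd (t i)).2
      have h2 : ∀ m : ℕ, (ToType.toOrd (t i) : Ordinal.{0}) + m < ρ + m := by
        intro m
        induction m with
        | zero => simpa using h1
        | succ m ih =>
          rw [Nat.cast_succ, ← add_assoc, ← add_assoc]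
          exact Order.lt_add_one_iff.2 (Order.add_one_le_of_lt ih)
      exact h2 (n + 1)
    refine ⟨ρ + (n + 1 : ℕ), ?_, shiftm t (n + 1) hsh, ?_⟩
    · have h1 : ω + (ρ + (n + 1 : ℕ)) < l := by
        rcases lt_or_ge (ρ + (n + 1 : ℕ)) ω₁ with h2 | h2
        · exact (principal_add Ordinal.omega0_lt_omega_one h2).trans hl1
        · rw [omega_add_eq h2]
          exact hρn
      rw [show (2 : Ordinal.{0}) = 1 + 1 from one_add_one_eq_two.symm, ← add_assoc]
      exact (hl.succ_lt (hl.succ_lt h1)).le.trans le_self_add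
    · exact (add_le_add ht le_rfl).trans (rk_shift t (n + 1) hsh le_self_add)
  · obtain ⟨t, ht⟩ := exists_rk_cof hl hcof
    have hsh : ∀ i, (ToType.toOrd (t i) : Ordinal.{0}) + (n + 1 : ℕ) < l := by
      intro i
      have h2 : ∀ m : ℕ, (ToType.toOrd (t i) : Ordinal.{0}) + m < l := by
        intro m
        induction m with
        | zero =>
          rw [Nat.cast_zero, add_zero]
          exact (ToType.toOrd (t i)).2
        | succ m ih =>
          rw [Nat.cast_succ, ← add_assoc]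
          exact hl.succ_lt ih
      exact h2 (n + 1)
    refine ⟨l, ?_, shiftm t (n + 1) hsh, (add_le_add ht le_rfl).trans
      (rk_shift t (n + 1) hsh le_rfl)⟩
    have hl1 : ω₁ ≤ l := by
      have h1 : (ℵ₁ : Cardinal.{0}) ≤ l.card := by
        rw [← hcof]
        exact Ordinal.cof_le_card l
      rw [← Cardinal.ord_aleph]
      exact Cardinal.ord_le.2 h1
    rw [omega_add_eq hl1]
    exact add_le_add le_rfl (by exact_mod_cast hn)

end Pool.Agent.TH764.OG
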