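import Mathlib
import Pool.Agent.TH764.OG.Rank4

/-!
# The positive side: closed exponents
-/

set_option autoImplicit false

namespace Pool.Agent.TH764.OG

open Set Cardinal Ordinal

variable {κ θ σ χ : Cardinal.{0}} {X : Type} [LinearOrder X] [WellFoundedLT X]

/-- a bounded subfamily of size `θ` -/
lemma exists_bounded' {l : Ordinal.{0}} (hθ : θ.IsRegular) (hcof : l.cof ≠ θ) {D : Type}
    (hD : θ ≤ #D) (f : D → l.ToType) : ∃ D' : Set D, #D' = θ ∧ ∃ m, ∀ i ∈ D', f i ≤ m := by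
  classical
  rcases lt_or_gt_of_ne hcof with h | h
  · obtain ⟨s, hs, hs'⟩ := Order.exists_cof_eq (α := l.ToType)
    rw [Ordinal.cof_toType] at hs'
    have h1 : ∀ i, ∃ m : s, f i ≤ m.1 := by
      intro i
      obtain ⟨m, hm, hm'⟩ := hs (f i)
      exact ⟨⟨m, hm⟩, hm'⟩
    choose m hm using h1
    obtain ⟨a, ha⟩ := Cardinal.infinite_pigeonhole_card m θ hD hθ.aleph0_le
      (by rw [hθ.cof_ord, hs']; exact h)
    obtain ⟨D', hD'⟩ := Cardinal.le_mk_iff_exists_set.1 ha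
    refine ⟨Subtype.val '' D', ?_, a.1, ?_⟩
    · rw [Cardinal.mk_image_eq Subtype.val_injective, hD']
    · rintro _ ⟨i, hi, rfl⟩
      have h2 := hm i.1
      have h3 : m i.1 = a := i.2
      rwa [h3] at h2
  · obtain ⟨D', hD'⟩ := Cardinal.le_mk_iff_exists_set.1 hD
    have h1 : (⨆ i : D', ((ToType.toOrd (f i.1) : Ordinal.{0}))) < l :=
      Ordinal.iSup_lt_of_lt_cof (by rw [hD']; exact h) (fun i => (ToType.toOrd (f i.1)).2)
    refine ⟨D', hD', ToType.mk ⟨_, h1⟩, fun i hi => ?_⟩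
    rw [← toOrd_le_toOrd, toOrd_mk' h1]
    exact Ordinal.le_iSup (fun i : D' => ((ToType.toOrd (f i.1) : Ordinal.{0}))) ⟨i, hi⟩

/-- closed limit exponents of cofinality other than `ω₁` -/
theorem nf_closed (hκ : κ.IsRegular) (hκ1 : (ℵ₁ : Cardinal.{0}) < κ) {l : Ordinal.{0}}
    (hl : Order.IsSuccLimit l) (hcof : l.cof ≠ ℵ₁) (hcl : Cld l) : NF X κ ℵ₁ ℵ₁ l := by
  classical
  have hK : (0 : Ordinal.{0}) < κ.ord := by
    rw [Cardinal.ord_pos]
    exact Cardinal.aleph0_pos.trans_le hκ.aleph0_le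
  intro D T φ hD hφ hT
  by_contra hcon
  push Not at hcon
  have h1 : ∀ i, ∃ c : l.ToType, typeLT (φ '' Set.Iio (κ.ord ^ l) ∩ T i : Set X) <
      κ.ord ^ (ToType.toOrd c : Ordinal.{0}) := by
    intro i
    obtain ⟨c, hc, hc'⟩ := (Ordinal.lt_opow_of_isSuccLimit hK.ne' hl).1 (hT i)
    exact ⟨ToType.mk ⟨c, hc⟩, by rwa [toOrd_mk' hc]⟩
  choose f hf using h1
  obtain ⟨D', hD', m, hm⟩ := exists_bounded' Cardinal.isRegular_aleph_one hcof hD f
  obtain ⟨e⟩ : Nonempty (DD ≃ D') := Cardinal.eq.1 (by rw [mk_DD, hD'])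
  have hlt : (ToType.toOrd m : Ordinal.{0}) < (ToType.toOrd m : Ordinal.{0}) + 1 :=
    Order.lt_add_one_iff.2 le_rfl
  have hm1 : (ToType.toOrd m : Ordinal.{0}) + 1 < l := hl.succ_lt (ToType.toOrd m).2
  have h2 := norm_lemma hκ.aleph0_le unc_DD (by rw [mk_DD, hκ.cof_ord]; exact hκ1)
    ((ToType.toOrd m : Ordinal.{0}) + 1) l (fun i : DD => T (e i).1) φ hφ (by
      intro ξ hξ
      have h3 := hcon ξ hξ
      have h4 : {i | φ ξ ∉ T i}.Countable := by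
        rw [← Set.countable_coe_iff, ← Cardinal.mk_le_aleph0_iff, ← Order.lt_succ_iff,
          Cardinal.succ_aleph0]
        exact h3
      refine (h4.preimage (f := fun i : DD => (e i).1) ?_)
      intro i j hij
      exact e.injective (Subtype.ext hij)) (fun _ => ToType.mk ⟨_, hlt⟩) (by
      intro i
      rw [toOrd_mk' hlt]
      refine lt_of_lt_of_le (hf (e i).1) (Ordinal.opow_le_opow_right hK ?_)
      exact toOrd_le_toOrd.2 (hm (e i).1 (e i).2))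
  exact absurd (hcl _ hm1 (fun _ => ToType.mk ⟨_, hlt⟩)) (not_lt.2 h2)

/-- closed exponents of cofinality `ω₁` are limits of closed exponents of cofinality `ω` -/
theorem exists_closed_below {l : Ordinal.{0}} (hl : Order.IsSuccLimit l) (hcof : l.cof = ℵ₁)
    (hcl : Cld l) {β : Ordinal.{0}} (hβ : β < l) :
    ∃ l' < l, β ≤ l' ∧ Order.IsSuccLimit l' ∧ l'.cof ≠ ℵ₁ ∧ Cld l' := by
  classical
  have hlt1 : ∀ o : Ordinal.{0}, o < o + 1 := fun o => Order.lt_add_one_iff.2 le_rfl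
  let step : Set.Iio l → Set.Iio l := fun o =>
    ⟨max (rk (o.1 + 1) (fun _ => ToType.mk ⟨o.1, hlt1 o.1⟩)) o.1 + 1,
      hl.succ_lt (max_lt (hcl _ (hl.succ_lt o.2) _) o.2)⟩
  let w : ℕ → Set.Iio l := fun n => step^[n] ⟨β, hβ⟩
  have hw : ∀ n, w (n + 1) = step (w n) := fun n => Function.iterate_succ_apply' step n _
  have hlt : ∀ n, (w n).1 < (w (n + 1)).1 := by
    intro n
    rw [hw n]
    exact Order.lt_add_one_iff.2 (le_max_right _ _)
  have hsup : ∀ n, (w n).1 < ⨆ n, (w n).1 := fun n =>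
    lt_of_lt_of_le (hlt n) (Ordinal.le_iSup (fun n => (w n).1) (n + 1))
  have hcofin : ∀ c < ⨆ n, (w n).1, ∃ n, c < (w n).1 := fun c hc => by
    rwa [Ordinal.lt_iSup_iff] at hc
  refine ⟨⨆ n, (w n).1, ?_, (hsup 0).le, ?_, ?_, ?_⟩
  · refine Ordinal.iSup_lt_of_lt_cof ?_ (fun n => (w n).2)
    rw [hcof, Cardinal.mk_nat]
    exact Cardinal.aleph0_lt_aleph_one
  · refine ⟨?_, ?_⟩
    · rw [isMin_iff_eq_bot]
      intro h
      have := hsup 0
      rw [h] at this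
      exact not_lt_bot this
    · rw [Order.isSuccPrelimit_iff_succ_lt]
      intro c hc
      obtain ⟨n, hn⟩ := hcofin c hc
      exact lt_of_le_of_lt (Order.succ_le_of_lt hn) (hsup n)
  · intro h
    have h1 : (⨆ n, (w n).1) < ⨆ n, (w n).1 := by
      refine Ordinal.iSup_lt_of_lt_cof ?_ hsup
      rw [h, Cardinal.mk_nat]
      exact Cardinal.aleph0_lt_aleph_one
    exact lt_irrefl _ h1
  · intro ρ hρ t
    obtain ⟨n, hn⟩ := hcofin ρ hρ
    have hle : ρ ≤ (w n).1 + 1 := hn.le.trans (hlt1 _).le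
    refine lt_of_le_of_lt (rk_le_comp (liftT hle) (liftT_mono hle) t) ?_
    have h1 : NRel DD _ (fun i => liftT hle (t i)) (fun _ => ToType.mk ⟨(w n).1, hlt1 _⟩) := by
      have h2 : {i | ¬ liftT hle (t i) < ToType.mk ⟨(w n).1, hlt1 _⟩} = ∅ := by
        ext i
        simp only [Set.mem_ofPred_eq, Set.mem_empty_iff_false, iff_false, not_not]
        rw [← toOrd_lt_toOrd, toOrd_mk', toOrd_liftT]
        exact lt_trans (Set.mem_Iio.1 (ToType.toOrd (t i)).2) hn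
      change Set.Countable _
      rw [h2]
      exact Set.countable_empty
    refine lt_trans (rk_lt h1) (lt_of_le_of_lt ?_ (hsup (n + 1)))
    rw [hw n]
    exact (le_max_left _ _).trans (hlt1 _).le

/-- the argument for exponent `l + 1` -/
lemma grow_top_u (hκ : κ.IsRegular) {I : Type} (hI : #I < κ) {l : Ordinal.{0}}
    (hl : Order.IsSuccLimit l) (u : I → Ordinal.{0}) (hu1 : ∀ i, u i < l)
    (hu2 : ∀ c < l, ∃ i, c ≤ u i)
    (φ : Ordinal.{0} → X) (hφ : StrictMonoOn φ (Set.Iio (κ.ord ^ l * κ.ord))) (A : Set X)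
    (hA : ∀ (c : I) (k : κ.ord.ToType), ∃ j : κ.ord.ToType, k ≤ j ∧
      κ.ord ^ (u c) ≤ typeLT
      ((fun ξ => φ (κ.ord ^ l * (ToType.toOrd j : Ordinal.{0}) + ξ)) ''
        Set.Iio (κ.ord ^ (u c)) ∩ A : Set X)) :
    κ.ord ^ l * κ.ord ≤ typeLT (φ '' Set.Iio (κ.ord ^ l * κ.ord) ∩ A : Set X) := by
  classical
  have hK : (0 : Ordinal.{0}) < κ.ord := by
    rw [Cardinal.ord_pos]
    exact Cardinal.aleph0_pos.trans_le hκ.aleph0_le
  have hsub : ∀ (i : I) (ξ : Ordinal.{0}), ξ < κ.ord ^ (u i) → ξ < κ.ord ^ l := fun i ξ hξ =>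
    lt_of_lt_of_le hξ (Ordinal.opow_le_opow_right hK (hu1 i).le)
  choose jf hjf1 hjf2 using hA
  have h1 : ∀ k : κ.ord.ToType, ∃ e, ∀ c : I, jf c k < e :=
    fun k => bdd_of_lt hκ hI (fun c => jf c k)
  choose F hF using h1
  obtain ⟨g, hg⟩ := exists_greedy hκ F
  let Tk : κ.ord.ToType → Set X := fun k => {x | x ∈ A ∧ ∃ j : κ.ord.ToType, k ≤ j ∧ j < F k ∧
    ∃ ξ < κ.ord ^ l, φ (κ.ord ^ l * (ToType.toOrd j : Ordinal.{0}) + ξ) = x}
  have hTk : ∀ k, κ.ord ^ l ≤ typeLT (Tk k) := by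
    intro k
    refine le_of_forall_lt (fun δ hδ => ?_)
    obtain ⟨c', hc', hc''⟩ := (Ordinal.lt_opow_of_isSuccLimit hK.ne' hl).1 hδ
    obtain ⟨c, hc⟩ := hu2 c' hc'
    refine lt_of_lt_of_le (hc''.trans_le (Ordinal.opow_le_opow_right hK hc))
      ((hjf2 c k).trans (type_mono ?_))
    rintro x ⟨⟨ξ, hξ, rfl⟩, hxA⟩
    exact ⟨hxA, jf c k, hjf1 c k, hF k c, ξ, hsub c ξ hξ, rfl⟩
  have h2 := type_mul_le (ι := κ.ord.ToType) (fun ξ => Tk (g ξ))
    (φ '' Set.Iio (κ.ord ^ l * κ.ord) ∩ A : Set X) ?_ ?_ (κ.ord ^ l)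
    (fun ξ => hTk (g ξ))
  · rwa [Ordinal.type_toType] at h2
  · intro η ξ hηξ a ha b hb
    obtain ⟨_, j, hj1, hj2, ζ, hζ, rfl⟩ := ha
    obtain ⟨_, j', hj1', hj2', ζ', hζ', rfl⟩ := hb
    have h3 : j < j' := lt_of_lt_of_le hj2 ((hg ξ η hηξ).trans hj1')
    exact hφ (mul_add_lt_mul (ToType.toOrd j).2 hζ) (mul_add_lt_mul (ToType.toOrd j').2 hζ')
      (mul_add_lt_mul_add (toOrd_lt_toOrd.2 h3) hζ)
  · rintro ξ x ⟨hxA, j, _, _, ζ, hζ, rfl⟩
    exact ⟨⟨_, mul_add_lt_mul (ToType.toOrd j).2 hζ, rfl⟩, hxA⟩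

/-- the exponent `l + 1` for `κ` many sets -/
theorem nf_top_u (hκ : κ.IsRegular) (hσκ : σ < κ) {I : Type} (hI : #I < κ) {l : Ordinal.{0}}
    (hl : Order.IsSuccLimit l) (u : I → Ordinal.{0}) (hu1 : ∀ i, u i < l)
    (hu2 : ∀ c < l, ∃ i, c ≤ u i) (hB : ∀ i, NF X κ σ χ (u i)) : NF X κ κ χ (l + 1) := by
  classical
  have hK : (0 : Ordinal.{0}) < κ.ord := by
    rw [Cardinal.ord_pos]
    exact Cardinal.aleph0_pos.trans_le hκ.aleph0_le
  intro D T φ hD hφ hT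
  have h5 : κ.ord ^ (l + 1) = κ.ord ^ l * κ.ord := by
    rw [Ordinal.opow_add, Ordinal.opow_one]
  have hT' : ∀ i, typeLT (φ '' Set.Iio (κ.ord ^ (l + 1)) ∩ T i : Set X) <
      κ.ord ^ (l + 1) := hT
  rw [h5] at hφ hT' ⊢
  have h6 : ∀ i, ∃ (c : I) (k : κ.ord.ToType), ∀ j : κ.ord.ToType, k ≤ j →
      typeLT ((fun ξ => φ (κ.ord ^ l * (ToType.toOrd j : Ordinal.{0}) + ξ)) ''
        Set.Iio (κ.ord ^ (u c)) ∩ T i : Set X) < κ.ord ^ (u c) := by
    intro i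
    by_contra hcon
    push Not at hcon
    exact absurd (grow_top_u hκ hI hl u hu1 hu2 φ hφ (T i) hcon) (not_le.2 (hT' i))
  choose c k hck using h6
  obtain ⟨a, ha⟩ := Cardinal.infinite_pigeonhole_card c κ hD hκ.aleph0_le
    (by rw [hκ.cof_ord]; exact hI)
  obtain ⟨D', hD'⟩ := Cardinal.le_mk_iff_exists_set.1 (hσκ.le.trans ha)
  obtain ⟨e, he⟩ := bdd_of_lt hκ (M := D') (by rw [hD']; exact hσκ) (fun i => k i.1.1)
  have hle : κ.ord ^ (u a) ≤ κ.ord ^ l := Ordinal.opow_le_opow_right hK (hu1 a).le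
  obtain ⟨ξ, hξ, hξ'⟩ := hB a D' (fun i => T i.1.1)
    (fun ξ => φ (κ.ord ^ l * (ToType.toOrd e : Ordinal.{0}) + ξ)) hD'.ge (by
      intro x hx y hy hxy
      exact hφ (mul_add_lt_mul (ToType.toOrd e).2 (lt_of_lt_of_le hx hle))
        (mul_add_lt_mul (ToType.toOrd e).2 (lt_of_lt_of_le hy hle))
        ((add_lt_add_iff_left _).2 hxy)) (by
      intro i
      have h2 := hck i.1.1 e (he i).le
      have h3 : c i.1.1 = a := i.1.2
      rwa [h3] at h2)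
  have hlt : κ.ord ^ l * (ToType.toOrd e : Ordinal.{0}) + ξ < κ.ord ^ l * κ.ord :=
    mul_add_lt_mul (ToType.toOrd e).2 (lt_of_lt_of_le hξ hle)
  refine ⟨κ.ord ^ l * (ToType.toOrd e : Ordinal.{0}) + ξ, hlt, hξ'.trans ?_⟩
  exact (mk_sub_type D' (fun i => φ (κ.ord ^ l * (ToType.toOrd e : Ordinal.{0}) + ξ) ∉
    T i.1)).trans (mk_sub_type _ _)

/-- Good exponents have the pigeonhole property. -/
theorem nf_good (hκ : κ.IsRegular) (hκ1 : (ℵ₁ : Cardinal.{0}) < κ) {l : Ordinal.{0}}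
    (hl : l = 0 ∨ Order.IsSuccLimit l) (n : ℕ) (hcl : Cld l) (hn : l.cof ≠ ℵ₁ ∨ n < 2) :
    NF X κ κ ℵ₁ (l + n) := by
  classical
  have hθ := Cardinal.isRegular_aleph_one
  have hS := stab_regular hκ hκ1
  have hn1 : (n : Ordinal.{0}) < (ℵ₁ : Cardinal.{0}).ord := by
    rw [Cardinal.ord_aleph]
    exact (Ordinal.nat_lt_omega0 n).trans Ordinal.omega0_lt_omega_one
  rcases hl with rfl | hl
  · rw [zero_add]
    intro D T φ hD hφ hT
    exact nf_lt hκ.aleph0_le hθ hS _ hn1 D T (hκ1.le.trans hD) φ hφ hT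
  · by_cases hcof : l.cof = ℵ₁
    · have hn2 : n < 2 := hn.resolve_left (fun h => h hcof)
      -- a cofinal set of closed exponents
      obtain ⟨s, hs, hs'⟩ := Order.exists_cof_eq (α := l.ToType)
      rw [Ordinal.cof_toType, hcof] at hs'
      choose u hu1 hu2 hu3 hu4 hu5 using fun i : s =>
        exists_closed_below hl hcof hcl (β := (ToType.toOrd i.1 : Ordinal.{0}))
          (Set.mem_Iio.1 (ToType.toOrd i.1).2)
      have hcofin : ∀ c < l, ∃ i, c ≤ u i := by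
        intro c hc
        obtain ⟨m, hm, hm'⟩ := hs (ToType.mk ⟨c, hc⟩)
        refine ⟨⟨m, hm⟩, le_trans ?_ (hu2 ⟨m, hm⟩)⟩
        have h3 := toOrd_le_toOrd.2 hm'
        rwa [toOrd_mk'] at h3
      have hB : ∀ i, NF X κ ℵ₁ ℵ₁ (u i) := fun i => nf_closed hκ hκ1 (hu3 i) (hu4 i) (hu5 i)
      have hI : #s < κ := by rw [hs']; exact hκ1
      interval_cases n
      · rw [Nat.cast_zero, add_zero]
        exact nf_limit hκ.aleph0_le hκ hl hI u hu1 hcofin (fun i => (hB i).mono hκ1.le)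
      · rw [Nat.cast_one]
        exact nf_top_u hκ hκ1 hI hl u hu1 hcofin hB
    · exact (nf_add' hκ.aleph0_le hθ hS (nf_closed hκ hκ1 hl hcof hcl) _ hn1).mono hκ1.le

end Pool.Agent.TH764.OG
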