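import Mathlib
import Pool.Agent.TH764.OG.Rank5
import Pool.Agent.TH764.OG.Exact2

/-!
# The relation `α → (α, infinite path)²` for all limit `α < ω₃`, under `2 ^ ℵ₀ = ℵ₁`, `2 ^ ℵ₁ = ℵ₂`
-/

set_option autoImplicit false

namespace Pool.Agent.TH764.OG

open Set Cardinal Ordinal

/-- Good exponents: `e = l + n`, `l` zero or a limit, `n` finite. -/
def GoodE (e : Ordinal.{0}) : Prop :=
  Cld (ω * (e / ω)) ∧ ((ω * (e / ω)).cof ≠ ℵ₁ ∨ e % ω < 2)

lemma lt_omega_three {e : Ordinal.{0}} :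
    e < ω_ 3 ↔ e < (Order.succ (Order.succ (ℵ₁ : Cardinal.{0}))).ord := by
  have h3 : (ω_ 3 : Ordinal.{0}) = (Order.succ (Order.succ (ℵ₁ : Cardinal.{0}))).ord := by
    rw [← aleph_two, Cardinal.succ_aleph, ← Cardinal.ord_aleph]
    congr 2
  rw [h3]

/-- The relation at `ω₂ ^ e * q`. -/
theorem rel_iff_good (h2 : (2 : Cardinal.{0}) ^ (ℵ₁ : Cardinal.{0}) = ℵ_ 2) {e q : Ordinal.{0}}
    (he0 : 0 < e) (he : e < ω_ 3) (hq0 : 0 < q) (hq : q < ω_ 2) :
    Rel (ω_ 2 ^ e * q) ↔ GoodE e := by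
  have hμ : ℵ₀ ≤ (ℵ₁ : Cardinal.{0}) := Cardinal.aleph0_le_aleph 1
  have hs : ℵ₀ ≤ Order.succ (ℵ₁ : Cardinal.{0}) := hμ.trans (Order.le_succ _)
  have hreg : (Order.succ (ℵ₁ : Cardinal.{0})).IsRegular := Cardinal.isRegular_succ hμ
  have hK : (0 : Ordinal.{0}) < (Order.succ (ℵ₁ : Cardinal.{0})).ord := by
    rw [Cardinal.ord_pos]
    exact Cardinal.aleph0_pos.trans_le hs
  rw [lt_omega_three] at he
  rw [omega_two] at hq ⊢
  obtain ⟨n, hn⟩ := Ordinal.lt_omega0.1 (Ordinal.mod_lt e Ordinal.omega0_ne_zero)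
  have hl : ω * (e / ω) = 0 ∨ Order.IsSuccLimit (ω * (e / ω)) := by
    rcases eq_or_ne (e / ω) 0 with h | h
    · left
      rw [h, mul_zero]
    · right
      exact Ordinal.isSuccLimit_mul_left Ordinal.isSuccLimit_omega0 (pos_iff_ne_zero.2 h)
  have hen : ω * (e / ω) + n = e := by
    rw [← hn]
    exact Ordinal.div_add_mod e ω
  constructor
  · intro hR
    by_contra hbad
    have hbad' : ¬ Cld (ω * (e / ω)) ∨ ((ω * (e / ω)).cof = ℵ₁ ∧ 2 ≤ n) := by
      by_contra hcon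
      rw [not_or, not_not, not_and_or, not_le] at hcon
      refine hbad ⟨hcon.1, hcon.2.imp id (fun h => ?_)⟩
      rw [hn]
      exact_mod_cast h
    have hlim : Order.IsSuccLimit (ω * (e / ω)) := by
      rcases hl with h | h
      · exfalso
        rw [h] at hbad'
        rcases hbad' with h' | h'
        · exact h' (fun ρ hρ => absurd hρ (not_lt.2 zero_le))
        · rw [Ordinal.cof_zero] at h'
          exact absurd h'.1.symm (Cardinal.aleph_pos 1).ne'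
      · exact h
    obtain ⟨ρ, hρ, t, ht⟩ := bad_exponent hlim n hbad'
    rw [hen] at hρ
    have hlim2 : Order.IsSuccLimit (Order.succ (Order.succ (ℵ₁ : Cardinal.{0}))).ord :=
      Cardinal.isSuccLimit_ord (hs.trans (Order.le_succ _))
    have hen1 : ω * (e / ω) + (n + 1 : ℕ) = e + 1 := by
      rw [Nat.cast_succ, ← add_assoc, hen]
    rw [hen1] at ht
    have hpow : (Order.succ (ℵ₁ : Cardinal.{0})).ord ^ (e + 1) =
        (Order.succ (ℵ₁ : Cardinal.{0})).ord ^ e * (Order.succ (ℵ₁ : Cardinal.{0})).ord := by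
      rw [Ordinal.opow_add, Ordinal.opow_one]
    have hle : (Order.succ (ℵ₁ : Cardinal.{0})).ord ^ e * q ≤
        (Order.succ (ℵ₁ : Cardinal.{0})).ord ^ (e + 1) := by
      rw [hpow]
      exact (mul_lt_mul_of_pos_left hq (Ordinal.opow_pos _ hK)).le
    have hSC := smallCover_of_rank rfl (hlim2.succ_lt he) t ht
      ((Ordinal.opow_le_opow_right hK hρ).trans
        (le_mul_of_one_le_right' (Order.one_le_iff_pos.2 hq0))) hle
    refine not_rel_of_smallCover hμ (by rw [h2, aleph_two]) ?_ ?_ hSC hR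
    · obtain ⟨δ, hδ⟩ : ∃ δ, e = 1 + δ :=
        ⟨e - 1, (Ordinal.add_sub_cancel_of_le (Order.one_le_iff_pos.2 he0)).symm⟩
      rw [hδ, Ordinal.opow_add, Ordinal.opow_one, mul_assoc]
      exact dvd_mul_right _ _
    · have h6 := hle.trans_lt (opow_lt_succ hs (hlim2.succ_lt he))
      exact Order.lt_succ_iff.1 (Cardinal.lt_ord.1 h6)
  · rintro ⟨hcl, hn2⟩
    rw [hn] at hn2
    have h7 : (ω * (e / ω)).cof ≠ ℵ₁ ∨ n < 2 := hn2.imp id (fun h => by exact_mod_cast h)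
    refine rel_of_nf hreg he0 he hq0 hq ?_
    have h8 := nf_good (X := ((Order.succ (ℵ₁ : Cardinal.{0})).ord ^ e * q).ToType) hreg
      (Order.lt_succ _) hl n hcl h7
    rw [hen] at h8
    intro D T φ hD hφ hT
    obtain ⟨ξ, hξ, hξ'⟩ := h8 D T φ hD hφ hT
    exact ⟨ξ, hξ, hμ.trans hξ'⟩

/-- one term -/
theorem rel_opow_iff (hCH : (2 : Cardinal.{0}) ^ (ℵ₀ : Cardinal.{0}) = ℵ₁)
    (h2 : (2 : Cardinal.{0}) ^ (ℵ₁ : Cardinal.{0}) = ℵ_ 2) {γ : Ordinal.{0}} (hγ : 1 ≤ γ)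
    (hlt : ω ^ γ < ω_ 3) : Rel (ω ^ γ) ↔
      (ω ^ γ < ω_ 1 ^ (ω + 2) ∨ (ω_ 2 ≤ ω ^ γ ∧ GoodE (log (ω_ 2) (ω ^ γ)))) := by
  have hμ : ℵ₀ ≤ (ℵ₁ : Cardinal.{0}) := Cardinal.aleph0_le_aleph 1
  have hs : ℵ₀ ≤ Order.succ (ℵ₁ : Cardinal.{0}) := hμ.trans (Order.le_succ _)
  have hK1 : (1 : Ordinal.{0}) < ω_ 2 := Ordinal.one_lt_omega0.trans_le (Ordinal.omega0_le_omega 2)
  have hcard1 : (ω_ 1 : Ordinal.{0}).card = ℵ₁ := Ordinal.card_omega 1
  -- uncountable terms below `ω₁ ^ (ω + 2)`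
  have hsmall : ω ^ γ < ω_ 1 ^ (ω + 2) → Rel (ω ^ γ) := by
    intro h3
    rcases le_or_gt (ω ^ γ).card ℵ₀ with hc | hc
    · exact rel_opow_countable hγ hc
    · have h5 : (ω ^ γ).card = ℵ₁ := by
        refine le_antisymm ?_ ?_
        · refine (Ordinal.card_le_card h3.le).trans ?_
          refine (Ordinal.card_opow_le _ _).trans (max_le hμ (max_le hcard1.le ?_))
          rw [Ordinal.card_add, Ordinal.card_omega0]
          refine Cardinal.add_le_of_le hμ hμ ?_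
          have h := Ordinal.card_le_card (show (2 : Ordinal.{0}) ≤ ω from by
            exact_mod_cast (Ordinal.nat_lt_omega0 2).le)
          rw [Ordinal.card_omega0] at h
          exact h.trans hμ
        · exact Cardinal.aleph_one_le_iff.2 hc
      refine rel_opow le_rfl hc ?_
      rw [h5, Cardinal.ord_aleph0, Cardinal.ord_aleph]
      exact h3
  rcases lt_or_ge (ω ^ γ) (ω_ 2) with h4 | h4
  · constructor
    · intro hR
      left
      by_contra hcon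
      obtain ⟨G, hG1, hG2⟩ := Results.MP_820435_lc.NeverProvableAbove.main2
        (by rw [hCH, Cardinal.succ_aleph0]) (ω ^ γ) h4
      rcases hR G with ⟨Y, hY1, hY2⟩ | hp
      · have h5 := hG2 Y (by
          intro x hx y hy hxy
          exact hY1 hx hy (G.ne_of_adj hxy) hxy)
        rw [hY2] at h5
        exact absurd h5 hcon
      · exact hG1 hp
    · rintro (h | ⟨h, _⟩)
      · exact hsmall h
      · exact absurd h (not_le.2 h4)
  · have h4' : (Order.succ (ℵ₁ : Cardinal.{0})).ord ≤ ω ^ γ := by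
      rw [← omega_two]
      exact h4
    obtain ⟨ν, q, hν1, hq0, hq, h5⟩ := opow_decomp hs h4'
    rw [← omega_two] at hq h5
    have hlog : log (ω_ 2) (ω ^ γ) = ν := by
      rw [h5, Ordinal.log_opow_mul hK1 _ hq0.ne', Ordinal.log_eq_zero hq, add_zero]
    have hν : ν < ω_ 3 := by
      refine lt_of_le_of_lt ?_ hlt
      rw [h5]
      exact (Ordinal.right_le_opow ν hK1).trans (le_mul_of_one_le_right'
        (Order.one_le_iff_pos.2 hq0))
    have hiff := rel_iff_good h2 (Order.one_le_iff_pos.1 hν1) hν hq0 hq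
    rw [← h5] at hiff
    rw [hlog, hiff]
    constructor
    · exact fun h => Or.inr ⟨h4, h⟩
    · rintro (h | h)
      · exact hiff.1 (hsmall h)
      · exact h.2

/-- The exact answer below `ω₃`. -/
theorem exact_omega3 (hCH : (2 : Cardinal.{0}) ^ (ℵ₀ : Cardinal.{0}) = ℵ₁)
    (h2 : (2 : Cardinal.{0}) ^ (ℵ₁ : Cardinal.{0}) = ℵ_ 2) {α : Ordinal.{0}}
    (hα : Order.IsSuccLimit α) (hlt : α < ω_ 3) :
    Rel α ↔ ∀ γ ∈ (CNF ω α).map Prod.fst,
      ω ^ γ < ω_ 1 ^ (ω + 2) ∨ (ω_ 2 ≤ ω ^ γ ∧ GoodE (log (ω_ 2) (ω ^ γ))) := by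
  have hle : ∀ γ ∈ (CNF ω α).map Prod.fst, ω ^ γ < ω_ 3 := by
    intro γ hγ
    obtain ⟨β, δ, h3, _⟩ := cnf_split α γ hγ
    refine lt_of_le_of_lt ?_ hlt
    rw [h3]
    exact le_add_self.trans le_self_add
  rw [rel_iff_terms hα]
  constructor
  · intro h γ hγ
    exact (rel_opow_iff hCH h2 (one_le_of_mem hα hγ) (hle γ hγ)).1 (h γ hγ)
  · intro h γ hγ
    exact (rel_opow_iff hCH h2 (one_le_of_mem hα hγ) (hle γ hγ)).2 (h γ hγ)

/-- `Cld` without ranks. -/
theorem cld_iff (l : Ordinal.{0}) : Cld l ↔ ∀ ρ < l, ∃ r : (DD → ρ.ToType) → l.ToType,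
    ∀ s t, {i | ¬ s i < t i}.Countable → r s < r t := by
  constructor
  · intro h ρ hρ
    refine ⟨fun t => ToType.mk ⟨rk ρ t, h ρ hρ t⟩, fun s t hst => ?_⟩
    rw [← toOrd_lt_toOrd, toOrd_mk', toOrd_mk']
    exact rk_lt hst
  · intro h ρ hρ t
    obtain ⟨r, hr⟩ := h ρ hρ
    have key : ∀ t : DD → ρ.ToType, rk ρ t ≤ (ToType.toOrd (r t) : Ordinal.{0}) := by
      intro t
      have hwf := nrel_wf unc_DD ρ
      induction t using IsWellFounded.induction (NRel DD ρ) with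
      | ind t ih =>
      unfold rk
      rw [IsWellFounded.rank_eq]
      refine Ordinal.iSup_le ?_
      rintro ⟨s, hs⟩
      rw [Order.succ_le_iff]
      exact lt_of_le_of_lt (ih s hs) (toOrd_lt_toOrd.2 (hr s t hs))
    exact lt_of_le_of_lt (key t) (ToType.toOrd (r t)).2

end Pool.Agent.TH764.OG
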