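import Mathlib
import Pool.Agent.TH764.OG.Rank6

/-!
# Ranks of functions modulo finite sets
-/

set_option autoImplicit false

namespace Pool.Agent.TH764.OG

open Set Cardinal Ordinal

open Results.MP_820435_lc.NeverProvableAbove (Sm Sm.mono sm_empty sm_singleton sm_append sm_block
  rho rho_spec)

/-- `Wf D t ν`: the rank of `t`, in the order of functions modulo finite sets, is at least `ν`
(possibly undefined, that is, `∞`). -/
inductive Wf (D : Type) {ρ : Ordinal.{0}} : (D → ρ.ToType) → Ordinal.{0} → Prop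
  | mk (t : D → ρ.ToType) (ν : Ordinal.{0}) (f : ∀ δ, δ < ν → (D → ρ.ToType))
      (h1 : ∀ δ h, {i | ¬ f δ h i < t i}.Finite) (h2 : ∀ δ h, Wf D (f δ h) δ) : Wf D t ν

variable {D : Type} {ρ l : Ordinal.{0}} {κ μ : Cardinal.{0}}

lemma Wf.exists_lower {t : D → ρ.ToType} {ν δ : Ordinal.{0}} (h : Wf D t ν) (hδ : δ < ν) :
    ∃ s : D → ρ.ToType, {i | ¬ s i < t i}.Finite ∧ Wf D s δ := by
  cases h with
  | mk t ν f h1 h2 => exact ⟨f δ hδ, h1 δ hδ, h2 δ hδ⟩

lemma Wf.intro {t : D → ρ.ToType} {ν : Ordinal.{0}}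
    (h : ∀ δ < ν, ∃ s : D → ρ.ToType, {i | ¬ s i < t i}.Finite ∧ Wf D s δ) : Wf D t ν := by
  choose f h1 h2 using h
  exact Wf.mk t ν f h1 h2

lemma Wf.mono {t : D → ρ.ToType} {ν ν' : Ordinal.{0}} (h : Wf D t ν) (hle : ν' ≤ ν) :
    Wf D t ν' := Wf.intro fun _ hδ => h.exists_lower (hδ.trans_le hle)

lemma Wf.zero (t : D → ρ.ToType) : Wf D t 0 :=
  Wf.intro fun _ hδ => absurd hδ (not_lt.2 zero_le)

lemma Wf.succ {s t : D → ρ.ToType} {ν : Ordinal.{0}} (hst : {i | ¬ s i < t i}.Finite)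
    (hs : Wf D s ν) : Wf D t (ν + 1) :=
  Wf.intro fun _ hδ => ⟨s, hst, hs.mono (Order.lt_add_one_iff.1 hδ)⟩

lemma Wf.limit {t : D → ρ.ToType} {ν : Ordinal.{0}} (hν : Order.IsSuccLimit ν)
    (h : ∀ δ < ν, Wf D t δ) : Wf D t ν :=
  Wf.intro fun δ hδ => (h (δ + 1) (hν.succ_lt hδ)).exists_lower (Order.lt_add_one_iff.2 le_rfl)

/-- ranks and order preserving maps -/
theorem exists_ranking (h : ∀ t : D → ρ.ToType, ¬ Wf D t l) :
    ∃ r : (D → ρ.ToType) → l.ToType, ∀ s t, {i | ¬ s i < t i}.Finite → r s < r t := by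
  classical
  have h1 : ∀ t : D → ρ.ToType, ∃ o, o < l ∧ Wf D t o ∧ ¬ Wf D t (o + 1) := by
    intro t
    have hne : {ν | ¬ Wf D t ν}.Nonempty := ⟨l, h t⟩
    obtain ⟨m, hm⟩ : ∃ m, m = sInf {ν | ¬ Wf D t ν} := ⟨_, rfl⟩
    have hm1 : ¬ Wf D t m := by
      rw [hm]
      exact csInf_mem hne
    have hm2 : ∀ o < m, Wf D t o := fun o ho => by
      by_contra hcon
      rw [hm] at ho
      exact absurd (csInf_le' hcon) (not_le.2 ho)
    have hml : m ≤ l := by
      rw [hm]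
      exact csInf_le' (h t)
    rcases Ordinal.zero_or_succ_or_isSuccLimit m with h0 | ⟨o, ho⟩ | hlim
    · rw [h0] at hm1
      exact absurd (Wf.zero t) hm1
    · have ho' : m = o + 1 := by rw [← ho]; exact (Order.succ_eq_add_one o)
      have hlt : o < m := by
        rw [ho']
        exact Order.lt_add_one_iff.2 le_rfl
      exact ⟨o, hlt.trans_le hml, hm2 o hlt, by rw [← ho']; exact hm1⟩
    · exact absurd (Wf.limit hlim hm2) hm1
  choose r hr1 hr2 hr3 using h1
  refine ⟨fun t => ToType.mk ⟨r t, hr1 t⟩, fun s t hst => ?_⟩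
  rw [← toOrd_lt_toOrd, toOrd_mk', toOrd_mk']
  by_contra hcon
  rw [not_lt] at hcon
  exact hr3 t ((Wf.succ hst (hr2 s)).mono (add_le_add hcon le_rfl))

theorem Wf.le_ranking {r : (D → ρ.ToType) → l.ToType}
    (hr : ∀ s t, {i | ¬ s i < t i}.Finite → r s < r t) (ν : Ordinal.{0}) :
    ∀ t : D → ρ.ToType, Wf D t ν → ν ≤ (ToType.toOrd (r t) : Ordinal.{0}) := by
  induction ν using WellFoundedLT.induction with
  | ind ν ih =>
  intro t ht
  refine le_of_forall_lt (fun δ hδ => ?_)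
  obtain ⟨s, hs1, hs2⟩ := ht.exists_lower hδ
  exact lt_of_le_of_lt (ih δ hδ s hs2) (toOrd_lt_toOrd.2 (hr s t hs1))

theorem not_wf_iff : (∀ t : D → ρ.ToType, ¬ Wf D t l) ↔
    ∃ r : (D → ρ.ToType) → l.ToType, ∀ s t, {i | ¬ s i < t i}.Finite → r s < r t := by
  constructor
  · exact exists_ranking
  · rintro ⟨r, hr⟩ t ht
    exact absurd (Wf.le_ranking hr l t ht) (not_le.2 (Set.mem_Iio.1 (ToType.toOrd (r t)).2))

/-- change of the range -/
lemma Wf.lift (h : ρ ≤ l) (ν : Ordinal.{0}) : ∀ t : D → ρ.ToType, Wf D t ν →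
    Wf D (fun i => liftT h (t i)) ν := by
  induction ν using WellFoundedLT.induction with
  | ind ν ih =>
  intro t ht
  refine Wf.intro fun δ hδ => ?_
  obtain ⟨s, hs1, hs2⟩ := ht.exists_lower hδ
  refine ⟨fun i => liftT h (s i), hs1.subset ?_, ih δ hδ s hs2⟩
  intro i hi
  have hi' : ¬ liftT h (s i) < liftT h (t i) := hi
  rw [(liftT_mono h).lt_iff_lt] at hi'
  exact hi'

/-- change of the index set -/
lemma Wf.comp {D' : Type} (e : D' → D) (he : Function.Injective e) (ν : Ordinal.{0}) :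
    ∀ t : D → ρ.ToType, Wf D t ν → Wf D' (fun i => t (e i)) ν := by
  induction ν using WellFoundedLT.induction with
  | ind ν ih =>
  intro t ht
  refine Wf.intro fun δ hδ => ?_
  obtain ⟨s, hs1, hs2⟩ := ht.exists_lower hδ
  exact ⟨fun i => s (e i), hs1.preimage he.injOn, ih δ hδ s hs2⟩

/-- `t + m` as a function into `l` -/
noncomputable def shiftF (t : D → ρ.ToType) (m : ℕ)
    (h : ∀ i, (ToType.toOrd (t i) : Ordinal.{0}) + m < l) : D → l.ToType :=
  fun i => ToType.mk ⟨(ToType.toOrd (t i) : Ordinal.{0}) + m, h i⟩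

lemma Wf.shift {t : D → ρ.ToType} {ν : Ordinal.{0}} (ht : Wf D t ν) (m : ℕ)
    (h : ∀ i, (ToType.toOrd (t i) : Ordinal.{0}) + m < l) (hρ : ρ ≤ l) :
    Wf D (shiftF t m h) (ν + m) := by
  induction m with
  | zero =>
    rw [Nat.cast_zero, add_zero]
    have h1 := Wf.lift hρ ν t ht
    have h2 : (fun i => liftT hρ (t i)) = shiftF t 0 h := by
      funext i
      unfold shiftF liftT
      congr 1
      apply Subtype.ext
      simp
    rwa [h2] at h1
  | succ m ih =>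
    have h' : ∀ i, (ToType.toOrd (t i) : Ordinal.{0}) + m < l := fun i => by
      refine lt_of_lt_of_le ?_ (h i).le
      rw [Nat.cast_succ, ← add_assoc]
      exact Order.lt_add_one_iff.2 le_rfl
    have h2 : {i | ¬ shiftF t m h' i < shiftF t (m + 1) h i} = ∅ := by
      ext i
      simp only [Set.mem_ofPred_eq, Set.mem_empty_iff_false, iff_false, not_not]
      unfold shiftF
      rw [← toOrd_lt_toOrd, toOrd_mk', toOrd_mk', Nat.cast_succ, ← add_assoc]
      exact Order.lt_add_one_iff.2 le_rfl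
    rw [Nat.cast_succ, ← add_assoc]
    exact Wf.succ (by rw [h2]; exact Set.finite_empty) (ih h')

/-- The norm lemma, modulo finite sets. -/
theorem norm_fin {X : Type} [LinearOrder X] [WellFoundedLT X] (hκ : ℵ₀ ≤ κ)
    (hD2 : #D < κ.ord.cof) (ρ : Ordinal.{0}) (ν : Ordinal.{0}) :
    ∀ (T : D → Set X) (φ : Ordinal.{0} → X),
    StrictMonoOn φ (Set.Iio (κ.ord ^ ν)) → (∀ ξ < κ.ord ^ ν, {i | φ ξ ∉ T i}.Finite) →
    ∀ t : D → ρ.ToType, (∀ i, typeLT (φ '' Set.Iio (κ.ord ^ ν) ∩ T i : Set X) <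
      κ.ord ^ (ToType.toOrd (t i) : Ordinal.{0})) → Wf D t ν := by
  classical
  have hK : (0 : Ordinal.{0}) < κ.ord := by
    rw [Cardinal.ord_pos]
    exact Cardinal.aleph0_pos.trans_le hκ
  induction ν using WellFoundedLT.induction with
  | ind ν ih =>
  intro T φ hφ hT t ht
  rcases Ordinal.zero_or_succ_or_isSuccLimit ν with h0 | ⟨ν', hν'⟩ | hlim
  · subst h0
    exact Wf.zero t
  · have hν'' : ν = ν' + 1 := by rw [← hν']; exact (Order.succ_eq_add_one ν')
    subst hν''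
    have hlt : ν' < ν' + 1 := Order.lt_add_one_iff.2 le_rfl
    have hpow' : κ.ord ^ (ν' + 1) = κ.ord ^ ν' * κ.ord := by
      rw [Ordinal.opow_add, Ordinal.opow_one]
    have hpos : 0 < κ.ord ^ (ν' + 1) := Ordinal.opow_pos _ hK
    -- the indices with value zero
    have hzero : ∀ i, (ToType.toOrd (t i) : Ordinal.{0}) = 0 → φ 0 ∉ T i := by
      intro i hi hmem
      have h2 := ht i
      rw [hi, Ordinal.opow_zero] at h2
      have h3 : (1 : Ordinal.{0}) ≤ typeLT (φ '' Set.Iio (κ.ord ^ (ν' + 1)) ∩ T i : Set X) := by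
        rw [Order.one_le_iff_pos, pos_iff_ne_zero]
        intro h4
        rw [Ordinal.type_eq_zero_iff_isEmpty] at h4
        exact h4.false ⟨φ 0, ⟨0, hpos, rfl⟩, hmem⟩
      exact absurd h2 (not_lt.2 h3)
    have hc : ∀ i, ∃ s : ρ.ToType, ((ToType.toOrd (t i) : Ordinal.{0}) ≠ 0 → s < t i) ∧
        #{ζ : κ.ord.ToType | κ.ord ^ (ToType.toOrd s : Ordinal.{0}) ≤
          typeLT ((fun ξ => φ (κ.ord ^ ν' * (ToType.toOrd ζ : Ordinal.{0}) + ξ)) ''
            Set.Iio (κ.ord ^ ν') ∩ T i : Set X)} < κ := by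
      intro i
      have hall : ∀ s : ρ.ToType, typeLT (φ '' Set.Iio (κ.ord ^ (ν' + 1)) ∩ T i : Set X) <
          κ.ord ^ (ToType.toOrd s : Ordinal.{0}) →
          #{ζ : κ.ord.ToType | κ.ord ^ (ToType.toOrd s : Ordinal.{0}) ≤
          typeLT ((fun ξ => φ (κ.ord ^ ν' * (ToType.toOrd ζ : Ordinal.{0}) + ξ)) ''
            Set.Iio (κ.ord ^ ν') ∩ T i : Set X)} < κ := by
        intro s hs
        have h1 : {ζ : κ.ord.ToType | κ.ord ^ (ToType.toOrd s : Ordinal.{0}) ≤
          typeLT ((fun ξ => φ (κ.ord ^ ν' * (ToType.toOrd ζ : Ordinal.{0}) + ξ)) ''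
            Set.Iio (κ.ord ^ ν') ∩ T i : Set X)} = ∅ := by
          ext ζ
          simp only [Set.mem_ofPred_eq, Set.mem_empty_iff_false, iff_false, not_le]
          rw [hpow'] at hs
          exact lt_of_le_of_lt (type_mono (block_sub φ (T i) ζ)) hs
        rw [h1, Cardinal.mk_eq_zero]
        exact Cardinal.aleph0_pos.trans_le hκ
      rcases Ordinal.zero_or_succ_or_isSuccLimit (ToType.toOrd (t i) : Ordinal.{0}) with
        h0 | ⟨c, hc⟩ | hl
      · exact ⟨t i, fun h => absurd h0 h, hall (t i) (ht i)⟩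
      · have hc' : (ToType.toOrd (t i) : Ordinal.{0}) = c + 1 := by
          rw [← hc]; exact (Order.succ_eq_add_one c)
        have hct : c < (ToType.toOrd (t i) : Ordinal.{0}) := by
          rw [hc']
          exact Order.lt_add_one_iff.2 le_rfl
        have hcρ : c < ρ := hct.trans (ToType.toOrd (t i)).2
        refine ⟨ToType.mk ⟨c, hcρ⟩, fun _ => ?_, ?_⟩
        · rw [← toOrd_lt_toOrd, toOrd_mk' hcρ, hc']
          exact Order.lt_add_one_iff.2 le_rfl
        · rw [toOrd_mk' hcρ]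
          by_contra hcon
          rw [not_lt] at hcon
          have h1 : κ.ord ≤ typeLT {ζ : κ.ord.ToType | κ.ord ^ c ≤
            typeLT ((fun ξ => φ (κ.ord ^ ν' * (ToType.toOrd ζ : Ordinal.{0}) + ξ)) ''
            Set.Iio (κ.ord ^ ν') ∩ T i : Set X)} :=
            (Cardinal.ord_le_ord.2 hcon).trans (Cardinal.ord_le_type _)
          have h2 := type_blocks' (b := κ.ord ^ c) φ (by rw [← hpow']; exact hφ) (T i)
            {ζ : κ.ord.ToType | κ.ord ^ c ≤
            typeLT ((fun ξ => φ (κ.ord ^ ν' * (ToType.toOrd ζ : Ordinal.{0}) + ξ)) ''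
            Set.Iio (κ.ord ^ ν') ∩ T i : Set X)} (fun ζ hζ => hζ)
          have h3 := ht i
          rw [hc', hpow', Ordinal.opow_add _ c 1, Ordinal.opow_one] at h3
          exact absurd ((mul_le_mul_right h1 _).trans h2) (not_le.2 h3)
      · obtain ⟨c, hc, hc'⟩ := (Ordinal.lt_opow_of_isSuccLimit hK.ne' hl).1 (ht i)
        have hcρ : c < ρ := hc.trans (ToType.toOrd (t i)).2
        refine ⟨ToType.mk ⟨c, hcρ⟩, fun _ => ?_, hall _ ?_⟩
        · rw [← toOrd_lt_toOrd, toOrd_mk' hcρ]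
          exact hc
        · rw [toOrd_mk' hcρ]
          exact hc'
    choose s hs1 hs2 using hc
    obtain ⟨ζ, hζ⟩ := exists_notMem_iUnion _ (iUnion_lt_cof hκ hD2 _ hs2)
    have hζ' : ∀ i, typeLT ((fun ξ => φ (κ.ord ^ ν' * (ToType.toOrd ζ : Ordinal.{0}) + ξ)) ''
            Set.Iio (κ.ord ^ ν') ∩ T i : Set X) < κ.ord ^ (ToType.toOrd (s i) : Ordinal.{0}) :=
      fun i => not_le.1 (hζ i)
    have h1 := ih ν' hlt T (fun ξ => φ (κ.ord ^ ν' * (ToType.toOrd ζ : Ordinal.{0}) + ξ)) (by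
        rw [hpow'] at hφ
        intro a ha b hb hab
        exact hφ (mul_add_lt_mul (ToType.toOrd ζ).2 ha) (mul_add_lt_mul (ToType.toOrd ζ).2 hb)
          ((add_lt_add_iff_left _).2 hab)) (by
        intro ξ hξ
        apply hT
        rw [hpow']
        exact mul_add_lt_mul (ToType.toOrd ζ).2 hξ) s hζ'
    refine Wf.succ ((hT 0 hpos).subset ?_) h1
    intro i hi
    apply hzero i
    by_contra h3
    exact hi (hs1 i h3)
  · refine Wf.limit hlim (fun δ hδ => ?_)
    have hsub : Set.Iio (κ.ord ^ δ) ⊆ Set.Iio (κ.ord ^ ν) :=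
      Set.Iio_subset_Iio (Ordinal.opow_le_opow_right hK hδ.le)
    exact ih δ hδ T φ (hφ.mono hsub) (fun ξ hξ => hT ξ (hsub hξ)) t (fun i =>
      lt_of_le_of_lt (type_mono (Set.inter_subset_inter_left _ (Set.image_mono hsub))) (ht i))

/-- The family theorem, modulo finite sets. -/
theorem family_fin (hκ : ℵ₀ ≤ κ) (ν : Ordinal.{0}) : ν < (Order.succ κ).ord →
    ∀ (ρ : Ordinal.{0}) (t : D → ρ.ToType), Wf D t ν →
    ∃ E : Ordinal.{0} → Set D, (∀ y, (E y).Finite) ∧
      ∀ i, Sm {y | y < κ.ord ^ ν ∧ i ∉ E y} (κ.ord ^ ((ToType.toOrd (t i) : Ordinal.{0}) + 1)) := by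
  classical
  have hK1 : (1 : Ordinal.{0}) < κ.ord := by
    rw [Cardinal.lt_ord, Ordinal.card_one]
    exact Cardinal.one_lt_aleph0.trans_le hκ
  have hK : (0 : Ordinal.{0}) < κ.ord := zero_lt_one.trans hK1
  induction ν using WellFoundedLT.induction with
  | ind ν ih =>
  intro hν ρ t ht
  rcases Ordinal.zero_or_succ_or_isSuccLimit ν with h0 | ⟨ν', hν'⟩ | hlim
  · subst h0
    refine ⟨fun _ => ∅, fun _ => Set.finite_empty, fun i => ?_⟩
    refine (sm_singleton 0).mono ?_ (Order.one_le_iff_pos.2 (Ordinal.opow_pos _ hK))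
    rintro y ⟨hy, _⟩
    rw [Ordinal.opow_zero, Ordinal.lt_one_iff_zero] at hy
    exact hy
  · have hν'' : ν = ν' + 1 := by rw [← hν']; exact (Order.succ_eq_add_one ν')
    subst hν''
    have hlt : ν' < ν' + 1 := Order.lt_add_one_iff.2 le_rfl
    obtain ⟨s, hs, hs'⟩ := ht.exists_lower hlt
    obtain ⟨E', hE1, hE2⟩ := ih ν' hlt (hlt.trans hν) ρ s hs'
    refine ⟨fun y => {i | ¬ s i < t i} ∪ E' (y % κ.ord ^ ν'),
      fun y => hs.union (hE1 _), fun i => ?_⟩
    by_cases hi : s i < t i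
    · have hst : (ToType.toOrd (s i) : Ordinal.{0}) + 1 ≤ ToType.toOrd (t i) :=
        Order.add_one_le_of_lt (toOrd_lt_toOrd.2 hi)
      have hpow' : κ.ord ^ (ν' + 1) = κ.ord ^ ν' * κ.ord := by
        rw [Ordinal.opow_add, Ordinal.opow_one]
      have h1 : Sm {y | y < κ.ord ^ (ν' + 1) ∧
          i ∉ ({i | ¬ s i < t i} ∪ E' (y % κ.ord ^ ν') : Set D)}
          (κ.ord ^ ((ToType.toOrd (s i) : Ordinal.{0}) + 1) * κ.ord) := by
        refine sm_coeff hK1 (e := ν') (lam := κ.ord) ?_ ?_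
        · rintro y ⟨hy, _⟩
          rw [hpow'] at hy
          exact (Ordinal.lt_mul_iff_div_lt (Ordinal.opow_pos ν' hK).ne').1 hy
        · intro c _
          refine ⟨_, hE2 i, ?_⟩
          rintro y ⟨_, hy⟩ _
          exact ⟨mod_lt' hK1 y ν', fun hmem => hy (Or.inr hmem)⟩
      refine h1.mono subset_rfl ?_
      have he : κ.ord ^ ((ToType.toOrd (s i) : Ordinal.{0}) + 1) * κ.ord =
          κ.ord ^ ((ToType.toOrd (s i) : Ordinal.{0}) + 1 + 1) := by
        rw [Ordinal.opow_add _ ((ToType.toOrd (s i) : Ordinal.{0}) + 1) 1, Ordinal.opow_one]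
      rw [he]
      exact Ordinal.opow_le_opow_right hK (add_le_add hst le_rfl)
    · refine sm_empty _ ?_
      rintro y ⟨_, hy⟩
      exact hy (Or.inl hi)
  · have hν0 : 0 < ν := pos_iff_ne_zero.2 hlim.ne_bot
    obtain ⟨g, hg1, hg2⟩ := exists_enumK hν hν0.ne'
    have hd : ∀ ζ, g ζ + 1 < ν := fun ζ => hlim.succ_lt (hg1 ζ)
    choose s hs hs' using fun ζ => ht.exists_lower (hd ζ)
    choose E' hE1 hE2 using fun ζ => ih (g ζ + 1) (hd ζ) ((hd ζ).trans hν) ρ (s ζ) (hs' ζ)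
    refine ⟨fun y => {i | ¬ s (rho g (log κ.ord y)) i < t i} ∪ E' (rho g (log κ.ord y)) y,
      fun y => (hs _).union (hE1 _ _), fun i => ?_⟩
    rw [Ordinal.opow_add _ _ 1, Ordinal.opow_one]
    refine sm_block (ρ := fun y => rho g (log κ.ord y)) ?_ ?_ ?_
    · rintro x ⟨hx, _⟩ y ⟨hy, _⟩ hxy
      exact rho_monoK hg2 (Ordinal.log_mono_right _ hxy.le) (log_lt_of_lt hK1 hν0 hy)
    · rintro y ⟨hy, _⟩
      exact (rho_factsK hg2 (log_lt_of_lt hK1 hν0 hy)).2
    · intro ζ _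
      by_cases hi : s ζ i < t i
      · have hst : (ToType.toOrd (s ζ i) : Ordinal.{0}) + 1 ≤ ToType.toOrd (t i) :=
          Order.add_one_le_of_lt (toOrd_lt_toOrd.2 hi)
        refine Sm.mono (hE2 ζ i) ?_ ?_
        · rintro y ⟨⟨hy, hy'⟩, hz⟩
          subst hz
          refine ⟨?_, fun hmem => hy' (Or.inr hmem)⟩
          have h1 := (rho_factsK hg2 (log_lt_of_lt hK1 hν0 hy)).1
          refine (Ordinal.lt_opow_succ_log_self hK1 y).trans_le ?_
          rw [Order.succ_eq_add_one]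
          exact Ordinal.opow_le_opow_right hK (add_le_add h1 le_rfl)
        · exact Ordinal.opow_le_opow_right hK hst
      · refine sm_empty _ ?_
        rintro y ⟨⟨_, hy'⟩, hz⟩
        have hz' : rho g (log κ.ord y) = ζ := hz
        refine hy' (Or.inl ?_)
        rw [hz']
        exact hi

end Pool.Agent.TH764.OG
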