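import Mathlib
import Pool.Agent.TH764.OG.Fin2

/-!
# The relation for terms of cardinality `μ⁺`, `μ` regular, `2 ^ μ = μ⁺`
-/

set_option autoImplicit false

namespace Pool.Agent.TH764.OG

open Set Cardinal Ordinal

variable {κ μ : Cardinal.{0}} {X : Type} [LinearOrder X] [WellFoundedLT X]

/-- closed ordinals -/
def CldF (μ : Cardinal.{0}) (l : Ordinal.{0}) : Prop :=
  ∀ ρ < l, ∀ t : DM μ → ρ.ToType, ¬ Wf (DM μ) t l

/-- strongly closed ordinals -/
def SCldF (μ : Cardinal.{0}) (l : Ordinal.{0}) : Prop :=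
  ∀ t : DM μ → l.ToType, ¬ Wf (DM μ) t l

lemma add_nat_lt {l ρ : Ordinal.{0}} (hl : Order.IsSuccLimit l) (hρ : ρ < l) (m : ℕ) :
    ρ + m < l := by
  induction m with
  | zero =>
    rw [Nat.cast_zero, add_zero]
    exact hρ
  | succ m ih =>
    rw [Nat.cast_succ, ← add_assoc]
    exact hl.succ_lt ih

/-- The functions used at bad exponents. -/
theorem bad_exponentF {l : Ordinal.{0}} (hl : Order.IsSuccLimit l) (n : ℕ)
    (h : ¬ CldF μ l ∨ (¬ SCldF μ l ∧ 2 ≤ n)) : ∃ ρ, ρ + 2 ≤ l + n ∧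
      ∃ t : DM μ → ρ.ToType, Wf (DM μ) t (l + (n + 1 : ℕ)) := by
  rcases h with h | ⟨h, hn⟩
  · unfold CldF at h
    push Not at h
    obtain ⟨ρ, hρ, t, ht⟩ := h
    have hsh : ∀ i, (ToType.toOrd (t i) : Ordinal.{0}) + (n + 1 : ℕ) < ρ + (n + 1 : ℕ) := by
      intro i
      have h1 : (ToType.toOrd (t i) : Ordinal.{0}) < ρ := (ToType.toOrd (t i)).2
      have h2 : ∀ m : ℕ, (ToType.toOrd (t i) : Ordinal.{0}) + m < ρ + m := by
        intro m
        induction m with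
        | zero => simpa using h1
        | succ m ih =>
          rw [Nat.cast_succ, ← add_assoc, ← add_assoc]
          exact Order.lt_add_one_iff.2 (Order.add_one_le_of_lt ih)
      exact h2 (n + 1)
    refine ⟨ρ + (n + 1 : ℕ), ?_, shiftF t (n + 1) hsh, ht.shift (n + 1) hsh le_self_add⟩
    rw [show (2 : Ordinal.{0}) = 1 + 1 from one_add_one_eq_two.symm, ← add_assoc]
    exact (hl.succ_lt (hl.succ_lt (add_nat_lt hl hρ (n + 1)))).le.trans le_self_add
  · unfold SCldF at h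
    push Not at h
    obtain ⟨t, ht⟩ := h
    have hsh : ∀ i, (ToType.toOrd (t i) : Ordinal.{0}) + (n + 1 : ℕ) < l := fun i =>
      add_nat_lt hl (Set.mem_Iio.1 (ToType.toOrd (t i)).2) (n + 1)
    exact ⟨l, add_le_add le_rfl (by exact_mod_cast hn), shiftF t (n + 1) hsh,
      ht.shift (n + 1) hsh le_rfl⟩

lemma fin_of_lt {D : Type} {S : Set D} (h : #S < ℵ₀) : S.Finite :=
  Set.finite_coe_iff.1 (Cardinal.lt_aleph0_iff_finite.1 h)

/-- strongly closed exponents -/
theorem nf_sclosed (hκ : κ.IsRegular) (hμκ : μ < κ) {l : Ordinal.{0}}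
    (hl : Order.IsSuccLimit l) (hcl : SCldF μ l) : NF X κ μ ℵ₀ l := by
  classical
  have hK : (0 : Ordinal.{0}) < κ.ord := by
    rw [Cardinal.ord_pos]
    exact Cardinal.aleph0_pos.trans_le hκ.aleph0_le
  intro D T φ hD hφ hT
  by_contra hcon
  push Not at hcon
  have h1 : ∀ i, ∃ c : l.ToType, typeLT (φ '' Set.Iio (κ.ord ^ l) ∩ T i : Set X) <
      κ.ord ^ (ToType.toOrd c : Ordinal.{0}) := by
    intro i
    obtain ⟨c, hc, hc'⟩ := (Ordinal.lt_opow_of_isSuccLimit hK.ne' hl).1 (hT i)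
    exact ⟨ToType.mk ⟨c, hc⟩, by rwa [toOrd_mk' hc]⟩
  choose f hf using h1
  obtain ⟨e⟩ : Nonempty (DM μ ↪ D) := (Cardinal.le_def _ _).1 (by rw [mk_DM]; exact hD)
  exact hcl _ (norm_fin hκ.aleph0_le (by rw [mk_DM, hκ.cof_ord]; exact hμκ) l l
    (fun i : DM μ => T (e i)) φ hφ (fun ξ hξ =>
      (fin_of_lt (hcon ξ hξ)).preimage e.injective.injOn)
    (fun i => f (e i)) (fun i => hf (e i)))

/-- closed exponents of cofinality other than `μ` -/
theorem nf_closedF (hκ : κ.IsRegular) (hμ : μ.IsRegular) (hμκ : μ < κ) {l : Ordinal.{0}}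
    (hl : Order.IsSuccLimit l) (hcof : l.cof ≠ μ) (hcl : CldF μ l) : NF X κ μ ℵ₀ l := by
  classical
  have hK : (0 : Ordinal.{0}) < κ.ord := by
    rw [Cardinal.ord_pos]
    exact Cardinal.aleph0_pos.trans_le hκ.aleph0_le
  intro D T φ hD hφ hT
  by_contra hcon
  push Not at hcon
  have h1 : ∀ i, ∃ c : l.ToType, typeLT (φ '' Set.Iio (κ.ord ^ l) ∩ T i : Set X) <
      κ.ord ^ (ToType.toOrd c : Ordinal.{0}) := by
    intro i
    obtain ⟨c, hc, hc'⟩ := (Ordinal.lt_opow_of_isSuccLimit hK.ne' hl).1 (hT i)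
    exact ⟨ToType.mk ⟨c, hc⟩, by rwa [toOrd_mk' hc]⟩
  choose f hf using h1
  obtain ⟨D', hD', m, hm⟩ := exists_bounded' hμ hcof hD f
  obtain ⟨e⟩ : Nonempty (DM μ ≃ D') := Cardinal.eq.1 (by rw [mk_DM, hD'])
  have hlt : (ToType.toOrd m : Ordinal.{0}) < (ToType.toOrd m : Ordinal.{0}) + 1 :=
    Order.lt_add_one_iff.2 le_rfl
  have hm1 : (ToType.toOrd m : Ordinal.{0}) + 1 < l := hl.succ_lt (ToType.toOrd m).2
  have hinj : Function.Injective (fun i : DM μ => (e i).1) := fun i j hij =>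
    e.injective (Subtype.ext hij)
  exact hcl _ hm1 _ (norm_fin hκ.aleph0_le (by rw [mk_DM, hκ.cof_ord]; exact hμκ)
    ((ToType.toOrd m : Ordinal.{0}) + 1) l
    (fun i : DM μ => T (e i).1) φ hφ (fun ξ hξ =>
      (fin_of_lt (hcon ξ hξ)).preimage hinj.injOn)
    (fun _ => ToType.mk ⟨_, hlt⟩) (fun i => by
      rw [toOrd_mk' hlt]
      refine lt_of_lt_of_le (hf (e i).1) (Ordinal.opow_le_opow_right hK ?_)
      exact toOrd_le_toOrd.2 (hm (e i).1 (e i).2)))

/-- closed exponents of cofinality `μ` are limits of closed exponents of cofinality `ω` -/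
theorem exists_closed_belowF (hμ : ℵ₀ < μ) {l : Ordinal.{0}} (hl : Order.IsSuccLimit l)
    (hcof : l.cof = μ) (hcl : CldF μ l) {β : Ordinal.{0}} (hβ : β < l) :
    ∃ l' < l, β ≤ l' ∧ Order.IsSuccLimit l' ∧ l'.cof ≠ μ ∧ CldF μ l' := by
  classical
  have hlt1 : ∀ o : Ordinal.{0}, o < o + 1 := fun o => Order.lt_add_one_iff.2 le_rfl
  have hr : ∀ o : Set.Iio l, ∃ r : (DM μ → (o.1 + 1).ToType) → l.ToType,
      ∀ s t, {i | ¬ s i < t i}.Finite → r s < r t := fun o =>
    exists_ranking (hcl _ (hl.succ_lt o.2))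
  choose r hr using hr
  let cst : (o : Ordinal.{0}) → (DM μ → (o + 1).ToType) := fun o _ => ToType.mk ⟨o, hlt1 o⟩
  let step : Set.Iio l → Set.Iio l := fun o =>
    ⟨max (ToType.toOrd (r o (cst o.1)) : Ordinal.{0}) o.1 + 1,
      hl.succ_lt (max_lt (Set.mem_Iio.1 (ToType.toOrd (r o (cst o.1))).2) o.2)⟩
  let w : ℕ → Set.Iio l := fun n => step^[n] ⟨β, hβ⟩
  have hw : ∀ n, w (n + 1) = step (w n) := fun n => Function.iterate_succ_apply' step n _
  have hlt : ∀ n, (w n).1 < (w (n + 1)).1 := by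
    intro n
    rw [hw n]
    exact Order.lt_add_one_iff.2 (le_max_right _ _)
  have hsup : ∀ n, (w n).1 < ⨆ n, (w n).1 := fun n =>
    lt_of_lt_of_le (hlt n) (Ordinal.le_iSup (fun n => (w n).1) (n + 1))
  have hcofin : ∀ c < ⨆ n, (w n).1, ∃ n, c < (w n).1 := fun c hc => by
    rwa [Ordinal.lt_iSup_iff] at hc
  refine ⟨⨆ n, (w n).1, ?_, (hsup 0).le, ?_, ?_, ?_⟩
  · refine Ordinal.iSup_lt_of_lt_cof ?_ (fun n => (w n).2)
    rw [hcof, Cardinal.mk_nat]
    exact hμ
  · refine ⟨?_, ?_⟩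
    · rw [isMin_iff_eq_bot]
      intro h
      have := hsup 0
      rw [h] at this
      exact not_lt_bot this
    · rw [Order.isSuccPrelimit_iff_succ_lt]
      intro c hc
      obtain ⟨n, hn⟩ := hcofin c hc
      exact lt_of_le_of_lt (Order.succ_le_of_lt hn) (hsup n)
  · intro h
    have h1 : (⨆ n, (w n).1) < ⨆ n, (w n).1 := by
      refine Ordinal.iSup_lt_of_lt_cof ?_ hsup
      rw [h, Cardinal.mk_nat]
      exact hμ
    exact lt_irrefl _ h1
  · intro ρ hρ t ht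
    obtain ⟨n, hn⟩ := hcofin ρ hρ
    have hle : ρ ≤ (w n).1 + 1 := hn.le.trans (hlt1 _).le
    have h1 := Wf.lift hle _ t ht
    have h2 : {i | ¬ liftT hle (t i) < cst (w n).1 i} = ∅ := by
      ext i
      simp only [Set.mem_ofPred_eq, Set.mem_empty_iff_false, iff_false, not_not]
      rw [← toOrd_lt_toOrd, toOrd_mk', toOrd_liftT]
      exact lt_trans (Set.mem_Iio.1 (ToType.toOrd (t i)).2) hn
    have h3 := Wf.succ (s := fun i => liftT hle (t i)) (t := cst (w n).1)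
      (by rw [h2]; exact Set.finite_empty) h1
    have h4 := Wf.le_ranking (hr (w n)) _ _ h3
    have h5 : (ToType.toOrd (r (w n) (cst (w n).1)) : Ordinal.{0}) < (w (n + 1)).1 := by
      rw [hw n]
      exact Order.lt_add_one_iff.2 (le_max_left _ _)
    exact absurd (h4.trans h5.le) (not_le.2 ((hsup (n + 1)).trans (hlt1 _)))

lemma nf_nat {σ χ : Cardinal.{0}} (hS : Stab κ σ) {ν : Ordinal.{0}} (h : NF X κ σ χ ν) (n : ℕ) :
    NF X κ σ χ (ν + n) := by
  induction n with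
  | zero =>
    rw [Nat.cast_zero, add_zero]
    exact h
  | succ n ih =>
    rw [Nat.cast_succ, ← add_assoc]
    exact nf_succ hS ih

/-- Good exponents have the pigeonhole property. -/
theorem nf_goodF (hκ : κ.IsRegular) (hμ : μ.IsRegular) (hμ0 : ℵ₀ < μ) (hμκ : μ < κ)
    {l : Ordinal.{0}} (hl : l = 0 ∨ Order.IsSuccLimit l) (n : ℕ)
    (h : SCldF μ l ∨ (CldF μ l ∧ n < 2)) : NF X κ κ ℵ₀ (l + n) := by
  classical
  have hS := stab_regular hκ hμκ
  rcases hl with rfl | hl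
  · rw [zero_add]
    intro D T φ hD hφ hT
    exact nf_lt hκ.aleph0_le Cardinal.isRegular_aleph0 (stab_regular hκ (hμ0.trans hμκ)) n
      (by rw [Cardinal.ord_aleph0]; exact Ordinal.nat_lt_omega0 n) D T
      ((hμ0.trans hμκ).le.trans hD) φ hφ hT
  · rcases h with h | ⟨hcl, hn⟩
    · exact (nf_nat hS (nf_sclosed hκ hμκ hl h) n).mono hμκ.le
    · by_cases hcof : l.cof = μ
      · -- a cofinal set of closed exponents
        obtain ⟨s, hs, hs'⟩ := Order.exists_cof_eq (α := l.ToType)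
        rw [Ordinal.cof_toType, hcof] at hs'
        choose u hu1 hu2 hu3 hu4 hu5 using fun i : s =>
          exists_closed_belowF hμ0 hl hcof hcl (β := (ToType.toOrd i.1 : Ordinal.{0}))
            (Set.mem_Iio.1 (ToType.toOrd i.1).2)
        have hcofin : ∀ c < l, ∃ i, c ≤ u i := by
          intro c hc
          obtain ⟨m, hm, hm'⟩ := hs (ToType.mk ⟨c, hc⟩)
          refine ⟨⟨m, hm⟩, le_trans ?_ (hu2 ⟨m, hm⟩)⟩
          have h3 := toOrd_le_toOrd.2 hm'
          rwa [toOrd_mk'] at h3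
        have hB : ∀ i, NF X κ μ ℵ₀ (u i) := fun i =>
          nf_closedF hκ hμ hμκ (hu3 i) (hu4 i) (hu5 i)
        have hI : #s < κ := by rw [hs']; exact hμκ
        interval_cases n
        · rw [Nat.cast_zero, add_zero]
          exact nf_limit hκ.aleph0_le hκ hl hI u hu1 hcofin (fun i => (hB i).mono hμκ.le)
        · rw [Nat.cast_one]
          exact nf_top_u hκ hμκ hI hl u hu1 hcofin hB
      · exact (nf_nat hS (nf_closedF hκ hμ hμκ hl hcof hcl) n).mono hμκ.le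

/-- For `μ = ω` there are functions of infinite rank. -/
theorem wf_omega : ∃ t : DM ℵ₀ → (ω : Ordinal.{0}).ToType, ∀ ν, Wf (DM ℵ₀) t ν := by
  classical
  obtain ⟨e⟩ : Nonempty (DM ℵ₀ ≃ ℕ) := Cardinal.eq.1 (by rw [mk_DM, Cardinal.mk_nat])
  let t : ℕ → DM ℵ₀ → (ω : Ordinal.{0}).ToType := fun k i =>
    ToType.mk ⟨((e i - k : ℕ) : Ordinal.{0}), Ordinal.nat_lt_omega0 _⟩
  have hfin : ∀ k, {i | ¬ t (k + 1) i < t k i}.Finite := by
    intro k
    refine Set.Finite.subset (((Set.finite_Iic k).preimage e.injective.injOn)) ?_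
    intro i hi
    by_contra hcon
    apply hi
    have h1 : k < e i := by
      by_contra h2
      exact hcon (not_lt.1 h2)
    rw [← toOrd_lt_toOrd, toOrd_mk', toOrd_mk']
    exact_mod_cast (by omega : e i - (k + 1) < e i - k)
  have key : ∀ ν k, Wf (DM ℵ₀) (t k) ν := by
    intro ν
    induction ν using WellFoundedLT.induction with
    | ind ν ih =>
    intro k
    exact Wf.intro fun δ hδ => ⟨t (k + 1), hfin k, ih δ hδ (k + 1)⟩
  exact ⟨t 0, fun ν => key ν 0⟩

lemma omega_le_of_limit {l : Ordinal.{0}} (hl : Order.IsSuccLimit l) : ω ≤ l :=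
  Ordinal.omega0_le_of_isSuccLimit hl

/-- good exponents for `μ = ω` -/
theorem lt_of_good_omega {l : Ordinal.{0}} (hl : l = 0 ∨ Order.IsSuccLimit l) (n : ℕ)
    (h : SCldF ℵ₀ l ∨ (CldF ℵ₀ l ∧ n < 2)) : l + n < ω + 2 := by
  obtain ⟨t, ht⟩ := wf_omega
  rcases hl with rfl | hl
  · rw [zero_add]
    exact (Ordinal.nat_lt_omega0 n).trans_le le_self_add
  · rcases h with h | ⟨h, hn⟩
    · exact absurd (Wf.lift (omega_le_of_limit hl) l t (ht l)) (h _)
    · have h1 : l ≤ ω := by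
        by_contra hcon
        exact h ω (not_le.1 hcon) t (ht l)
      have h2 : (n : Ordinal.{0}) < 2 := by exact_mod_cast hn
      exact (add_le_add h1 le_rfl).trans_lt ((add_lt_add_iff_left _).2 h2)

end Pool.Agent.TH764.OG
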