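import Mathlib
import Pool.Agent.TH764.OG.Fin3

/-!
# The relation `α → (α, infinite path)²` when all uncountable terms have cardinality `μ⁺`, `μ`
regular and `2 ^ μ = μ⁺`
-/

set_option autoImplicit false

namespace Pool.Agent.TH764.OG

open Set Cardinal Ordinal

variable {μ : Cardinal.{0}}

/-- Good exponents: `e = l + n`, `l` zero or a limit, `n` finite. -/
def GoodF (μ : Cardinal.{0}) (e : Ordinal.{0}) : Prop :=
  SCldF μ (ω * (e / ω)) ∨ (CldF μ (ω * (e / ω)) ∧ e % ω < 2)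

/-- The relation at `κ ^ e * q`, `κ = μ⁺`. -/
theorem rel_iff_goodF (hμ : μ.IsRegular) (h2 : (2 : Cardinal.{0}) ^ μ = Order.succ μ)
    {e q : Ordinal.{0}} (he0 : 0 < e) (he : e < (Order.succ (Order.succ μ)).ord) (hq0 : 0 < q)
    (hq : q < (Order.succ μ).ord) :
    Rel ((Order.succ μ).ord ^ e * q) ↔ GoodF μ e := by
  have hμ0 : ℵ₀ ≤ μ := hμ.aleph0_le
  have hs : ℵ₀ ≤ Order.succ μ := hμ0.trans (Order.le_succ _)
  have hreg : (Order.succ μ).IsRegular := Cardinal.isRegular_succ hμ0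
  have hμκ : μ < Order.succ μ := Order.lt_succ μ
  have hK : (0 : Ordinal.{0}) < (Order.succ μ).ord := by
    rw [Cardinal.ord_pos]
    exact Cardinal.aleph0_pos.trans_le hs
  obtain ⟨n, hn⟩ := Ordinal.lt_omega0.1 (Ordinal.mod_lt e Ordinal.omega0_ne_zero)
  have hl : ω * (e / ω) = 0 ∨ Order.IsSuccLimit (ω * (e / ω)) := by
    rcases eq_or_ne (e / ω) 0 with h | h
    · left
      rw [h, mul_zero]
    · right
      exact Ordinal.isSuccLimit_mul_left Ordinal.isSuccLimit_omega0 (pos_iff_ne_zero.2 h)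
  have hen : ω * (e / ω) + n = e := by
    rw [← hn]
    exact Ordinal.div_add_mod e ω
  have hgood : GoodF μ e ↔ SCldF μ (ω * (e / ω)) ∨ (CldF μ (ω * (e / ω)) ∧ n < 2) := by
    unfold GoodF
    rw [hn]
    have h3 : ((n : Ordinal.{0}) < 2) ↔ n < 2 := by exact_mod_cast Iff.rfl
    rw [h3]
  have hdvd : (Order.succ μ).ord ∣ (Order.succ μ).ord ^ e * q := by
    obtain ⟨δ, hδ⟩ : ∃ δ, e = 1 + δ :=
      ⟨e - 1, (Ordinal.add_sub_cancel_of_le (Order.one_le_iff_pos.2 he0)).symm⟩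
    rw [hδ, Ordinal.opow_add, Ordinal.opow_one, mul_assoc]
    exact dvd_mul_right _ _
  have hlim2 : Order.IsSuccLimit (Order.succ (Order.succ μ)).ord :=
    Cardinal.isSuccLimit_ord (hs.trans (Order.le_succ _))
  have hpow : (Order.succ μ).ord ^ (e + 1) = (Order.succ μ).ord ^ e * (Order.succ μ).ord := by
    rw [Ordinal.opow_add, Ordinal.opow_one]
  have hle : (Order.succ μ).ord ^ e * q ≤ (Order.succ μ).ord ^ (e + 1) := by
    rw [hpow]
    exact (mul_lt_mul_of_pos_left hq (Ordinal.opow_pos _ hK)).le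
  have hcard : ((Order.succ μ).ord ^ e * q).card ≤ Order.succ μ := by
    have h6 := hle.trans_lt (opow_lt_succ hs (hlim2.succ_lt he))
    exact Order.lt_succ_iff.1 (Cardinal.lt_ord.1 h6)
  rw [hgood]
  constructor
  · intro hR
    by_contra hbad
    rw [not_or, not_and_or, not_lt] at hbad
    have hlim : Order.IsSuccLimit (ω * (e / ω)) := by
      rcases hl with h | h
      · exfalso
        apply hbad.1
        rw [h]
        intro t
        obtain ⟨i⟩ : Nonempty (DM μ) := by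
          rw [← Cardinal.mk_ne_zero_iff, mk_DM]
          exact (Cardinal.aleph0_pos.trans_le hμ0).ne'
        exact absurd (Set.mem_Iio.1 (ToType.toOrd (t i)).2) (not_lt.2 zero_le)
      · exact h
    have hbad' : ¬ CldF μ (ω * (e / ω)) ∨ (¬ SCldF μ (ω * (e / ω)) ∧ 2 ≤ n) :=
      hbad.2.imp id (fun h => ⟨hbad.1, h⟩)
    obtain ⟨ρ, hρ, t, ht⟩ := bad_exponentF hlim n hbad'
    rw [hen] at hρ
    have hen1 : ω * (e / ω) + (n + 1 : ℕ) = e + 1 := by
      rw [Nat.cast_succ, ← add_assoc, hen]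
    rw [hen1] at ht
    have hSC := smallCover_of_wf hμ0 rfl (hlim2.succ_lt he) t ht
      ((Ordinal.opow_le_opow_right hK hρ).trans
        (le_mul_of_one_le_right' (Order.one_le_iff_pos.2 hq0))) hle
    exact not_rel_of_smallCover hμ0 h2 hdvd hcard hSC hR
  · intro h
    rcases hμ0.lt_or_eq with h0 | h0
    · refine rel_of_nf hreg he0 he hq0 hq ?_
      have h8 := nf_goodF (X := ((Order.succ μ).ord ^ e * q).ToType) hreg hμ h0 hμκ hl n h
      rw [hen] at h8
      exact h8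
    · subst h0
      have h5 := lt_of_good_omega hl n h
      rw [hen] at h5
      by_contra hR
      refine no_smallCover (ν := e) (q := q) le_rfl hμκ
        (by rw [Cardinal.ord_aleph0]; exact h5) hq ?_
      exact smallCover_of_not_rel hs (mul_pos (Ordinal.opow_pos _ hK) hq0).ne' hdvd hcard hR

/-- one term -/
theorem rel_opow_iffF (hμ : μ.IsRegular) (h2 : (2 : Cardinal.{0}) ^ μ = Order.succ μ)
    {γ : Ordinal.{0}} (hc : (ω ^ γ).card = Order.succ μ) :
    Rel (ω ^ γ) ↔ GoodF μ (log (Order.succ μ).ord (ω ^ γ)) := by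
  have hμ0 : ℵ₀ ≤ μ := hμ.aleph0_le
  have hs : ℵ₀ ≤ Order.succ μ := hμ0.trans (Order.le_succ _)
  have hK1 : (1 : Ordinal.{0}) < (Order.succ μ).ord := by
    rw [Cardinal.lt_ord, Ordinal.card_one]
    exact Cardinal.one_lt_aleph0.trans_le hs
  have h4 : (Order.succ μ).ord ≤ ω ^ γ := by
    rw [← hc]
    exact Cardinal.ord_card_le _
  obtain ⟨ν, q, hν1, hq0, hq, h5⟩ := opow_decomp hs h4
  have hlog : log (Order.succ μ).ord (ω ^ γ) = ν := by
    rw [h5, Ordinal.log_opow_mul hK1 _ hq0.ne', Ordinal.log_eq_zero hq, add_zero]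
  have hν : ν < (Order.succ (Order.succ μ)).ord := by
    have h6 : ω ^ γ < (Order.succ (Order.succ μ)).ord := by
      rw [Cardinal.lt_ord, hc]
      exact Order.lt_succ _
    refine lt_of_le_of_lt ?_ h6
    rw [h5]
    exact (Ordinal.right_le_opow ν hK1).trans (le_mul_of_one_le_right'
      (Order.one_le_iff_pos.2 hq0))
  have hiff := rel_iff_goodF hμ h2 (Order.one_le_iff_pos.1 hν1) hν hq0 hq
  rw [← h5] at hiff
  rw [hlog, hiff]

/-- The exact answer for all limit ordinals whose uncountable terms have cardinality `μ⁺`, `μ`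
regular and `2 ^ μ = μ⁺`. -/
theorem exact_regular {α : Ordinal.{0}} (hα : Order.IsSuccLimit α)
    (h : ∀ γ ∈ (CNF ω α).map Prod.fst, ℵ₀ < (ω ^ γ).card → ∃ μ : Cardinal.{0}, μ.IsRegular ∧
      (2 : Cardinal.{0}) ^ μ = Order.succ μ ∧ (ω ^ γ).card = Order.succ μ) :
    Rel α ↔ ∀ γ ∈ (CNF ω α).map Prod.fst, ∀ μ : Cardinal.{0}, ℵ₀ ≤ μ →
      (ω ^ γ).card = Order.succ μ → GoodF μ (log (Order.succ μ).ord (ω ^ γ)) := by
  rw [rel_iff_terms hα]
  constructor
  · intro hR γ hγ μ hμ hc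
    obtain ⟨μ', hμ', h2, hc'⟩ := h γ hγ (by
      rw [hc]
      exact lt_of_le_of_lt hμ (Order.lt_succ μ))
    have h3 : μ = μ' := Order.succ_injective (hc.symm.trans hc')
    subst h3
    exact (rel_opow_iffF hμ' h2 hc).1 (hR γ hγ)
  · intro hG γ hγ
    rcases le_or_gt (ω ^ γ).card ℵ₀ with hc | hc
    · exact rel_opow_countable (one_le_of_mem hα hγ) hc
    · obtain ⟨μ, hμ, h2, hc'⟩ := h γ hγ hc
      exact (rel_opow_iffF hμ h2 hc').2 (hG γ hγ μ hμ.aleph0_le hc')

end Pool.Agent.TH764.OG
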