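import Mathlib
import Pool.Agent.TH764.OG.Fin4

/-!
# The relation for terms of cardinality `μ⁺`, `2 ^ μ = μ⁺`, `μ` any infinite cardinal
-/

set_option autoImplicit false

namespace Pool.Agent.TH764.OG

open Set Cardinal Ordinal

variable {κ μ : Cardinal.{0}} {X : Type} [LinearOrder X] [WellFoundedLT X]

/-- If `l` is closed then `μ` subsets of `κ ^ l` of types below a fixed smaller power of `κ` omit
a common point infinitely often. -/
lemma omit_of_cld (hκ : κ.IsRegular) (hμκ : μ < κ) {l ρ : Ordinal.{0}} (hl : Order.IsSuccLimit l)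
    (hcl : CldF μ l) (hρ : ρ < l) {D : Type} (hD : μ ≤ #D) (T : D → Set X) (φ : Ordinal.{0} → X)
    (hφ : StrictMonoOn φ (Set.Iio (κ.ord ^ l)))
    (hT : ∀ i, typeLT (φ '' Set.Iio (κ.ord ^ l) ∩ T i : Set X) < κ.ord ^ ρ) :
    ∃ ξ < κ.ord ^ l, ℵ₀ ≤ #{i | φ ξ ∉ T i} := by
  classical
  by_contra hcon
  push Not at hcon
  obtain ⟨e⟩ : Nonempty (DM μ ↪ D) := (Cardinal.le_def _ _).1 (by rw [mk_DM]; exact hD)
  have hlt : ρ < ρ + 1 := Order.lt_add_one_iff.2 le_rfl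
  exact hcl (ρ + 1) (hl.succ_lt hρ) _ (norm_fin hκ.aleph0_le
    (by rw [mk_DM, hκ.cof_ord]; exact hμκ) (ρ + 1) l
    (fun i : DM μ => T (e i)) φ hφ (fun ξ hξ =>
      (fin_of_lt (hcon ξ hξ)).preimage e.injective.injOn)
    (fun _ => ToType.mk ⟨ρ, hlt⟩) (fun i => by
      rw [toOrd_mk' hlt]
      exact hT (e i)))

/-- bounding `μ` many values below `l` when `μ < cf l` -/
lemma exists_bounded_cof {l : Ordinal.{0}} (hcof : μ < l.cof) {D : Type}
    (hD : μ ≤ #D) (f : D → l.ToType) : ∃ D' : Set D, #D' = μ ∧ ∃ m, ∀ i ∈ D', f i ≤ m := by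
  classical
  obtain ⟨D', hD'⟩ := Cardinal.le_mk_iff_exists_set.1 hD
  have h1 : (⨆ i : D', ((ToType.toOrd (f i.1) : Ordinal.{0}))) < l :=
    Ordinal.iSup_lt_of_lt_cof (by rw [hD']; exact hcof) (fun i => (ToType.toOrd (f i.1)).2)
  refine ⟨D', hD', ToType.mk ⟨_, h1⟩, fun i hi => ?_⟩
  rw [← toOrd_le_toOrd, toOrd_mk' h1]
  exact Ordinal.le_iSup (fun i : D' => ((ToType.toOrd (f i.1) : Ordinal.{0}))) ⟨i, hi⟩

lemma nf_of_bounded (hκ : κ.IsRegular) (hμκ : μ < κ) {σ : Cardinal.{0}} {l : Ordinal.{0}}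
    (hl : Order.IsSuccLimit l) (hcl : CldF μ l)
    (hb : ∀ (D : Type) (f : D → l.ToType), σ ≤ #D →
      ∃ D' : Set D, μ ≤ #D' ∧ ∃ m, ∀ i ∈ D', f i ≤ m) : NF X κ σ ℵ₀ l := by
  classical
  have hK : (0 : Ordinal.{0}) < κ.ord := by
    rw [Cardinal.ord_pos]
    exact Cardinal.aleph0_pos.trans_le hκ.aleph0_le
  intro D T φ hD hφ hT
  have h1 : ∀ i, ∃ c : l.ToType, typeLT (φ '' Set.Iio (κ.ord ^ l) ∩ T i : Set X) <
      κ.ord ^ (ToType.toOrd c : Ordinal.{0}) := by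
    intro i
    obtain ⟨c, hc, hc'⟩ := (Ordinal.lt_opow_of_isSuccLimit hK.ne' hl).1 (hT i)
    exact ⟨ToType.mk ⟨c, hc⟩, by rwa [toOrd_mk' hc]⟩
  choose f hf using h1
  obtain ⟨D', hD', m, hm⟩ := hb D f hD
  obtain ⟨ξ, hξ, hξ'⟩ := omit_of_cld hκ hμκ hl hcl (Set.mem_Iio.1 (ToType.toOrd m).2) hD'
    (fun i => T i.1) φ hφ (fun i => lt_of_lt_of_le (hf i.1)
      (Ordinal.opow_le_opow_right hK (toOrd_le_toOrd.2 (hm i.1 i.2))))
  exact ⟨ξ, hξ, hξ'.trans (mk_sub_type D' (fun i => φ ξ ∉ T i))⟩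

/-- closed exponents -/
theorem nf_zeroG (hκ : κ.IsRegular) (hμκ : μ < κ) {l : Ordinal.{0}}
    (hl : Order.IsSuccLimit l) (hcl : CldF μ l) : NF X κ κ ℵ₀ l := by
  refine nf_of_bounded hκ hμκ hl hcl (fun D f hD => ?_)
  rcases eq_or_ne l.cof κ with hcof | hcof
  · obtain ⟨D', hD', h⟩ := exists_bounded_cof (by rw [hcof]; exact hμκ) (hμκ.le.trans hD) f
    exact ⟨D', hD'.ge, h⟩
  · obtain ⟨D', hD', h⟩ := exists_bounded' hκ hcof hD f
    exact ⟨D', by rw [hD']; exact hμκ.le, h⟩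

/-- the argument for exponent `l + 1`, whole blocks -/
lemma grow_top_v (hκ : κ.IsRegular) {I : Type} (hI : #I < κ) {l : Ordinal.{0}}
    (hl : Order.IsSuccLimit l) (u : I → Ordinal.{0})
    (hu2 : ∀ c < l, ∃ i, c ≤ u i)
    (φ : Ordinal.{0} → X) (hφ : StrictMonoOn φ (Set.Iio (κ.ord ^ l * κ.ord))) (A : Set X)
    (hA : ∀ (c : I) (k : κ.ord.ToType), ∃ j : κ.ord.ToType, k ≤ j ∧
      κ.ord ^ (u c) ≤ typeLT
      ((fun ξ => φ (κ.ord ^ l * (ToType.toOrd j : Ordinal.{0}) + ξ)) ''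
        Set.Iio (κ.ord ^ l) ∩ A : Set X)) :
    κ.ord ^ l * κ.ord ≤ typeLT (φ '' Set.Iio (κ.ord ^ l * κ.ord) ∩ A : Set X) := by
  classical
  have hK : (0 : Ordinal.{0}) < κ.ord := by
    rw [Cardinal.ord_pos]
    exact Cardinal.aleph0_pos.trans_le hκ.aleph0_le
  choose jf hjf1 hjf2 using hA
  have h1 : ∀ k : κ.ord.ToType, ∃ e, ∀ c : I, jf c k < e :=
    fun k => bdd_of_lt hκ hI (fun c => jf c k)
  choose F hF using h1
  obtain ⟨g, hg⟩ := exists_greedy hκ F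
  let Tk : κ.ord.ToType → Set X := fun k => {x | x ∈ A ∧ ∃ j : κ.ord.ToType, k ≤ j ∧ j < F k ∧
    ∃ ξ < κ.ord ^ l, φ (κ.ord ^ l * (ToType.toOrd j : Ordinal.{0}) + ξ) = x}
  have hTk : ∀ k, κ.ord ^ l ≤ typeLT (Tk k) := by
    intro k
    refine le_of_forall_lt (fun δ hδ => ?_)
    obtain ⟨c', hc', hc''⟩ := (Ordinal.lt_opow_of_isSuccLimit hK.ne' hl).1 hδ
    obtain ⟨c, hc⟩ := hu2 c' hc'
    refine lt_of_lt_of_le (hc''.trans_le (Ordinal.opow_le_opow_right hK hc))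
      ((hjf2 c k).trans (type_mono ?_))
    rintro x ⟨⟨ξ, hξ, rfl⟩, hxA⟩
    exact ⟨hxA, jf c k, hjf1 c k, hF k c, ξ, hξ, rfl⟩
  have h2 := type_mul_le (ι := κ.ord.ToType) (fun ξ => Tk (g ξ))
    (φ '' Set.Iio (κ.ord ^ l * κ.ord) ∩ A : Set X) ?_ ?_ (κ.ord ^ l)
    (fun ξ => hTk (g ξ))
  · rwa [Ordinal.type_toType] at h2
  · intro η ξ hηξ a ha b hb
    obtain ⟨_, j, hj1, hj2, ζ, hζ, rfl⟩ := ha
    obtain ⟨_, j', hj1', hj2', ζ', hζ', rfl⟩ := hb
    have h3 : j < j' := lt_of_lt_of_le hj2 ((hg ξ η hηξ).trans hj1')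
    exact hφ (mul_add_lt_mul (ToType.toOrd j).2 hζ) (mul_add_lt_mul (ToType.toOrd j').2 hζ')
      (mul_add_lt_mul_add (toOrd_lt_toOrd.2 h3) hζ)
  · rintro ξ x ⟨hxA, j, _, _, ζ, hζ, rfl⟩
    exact ⟨⟨_, mul_add_lt_mul (ToType.toOrd j).2 hζ, rfl⟩, hxA⟩

/-- the exponent `l + 1` for `κ` many sets, `cf l < κ` -/
theorem nf_top_v (hκ : κ.IsRegular) (hμκ : μ < κ) {l : Ordinal.{0}}
    (hl : Order.IsSuccLimit l) (hcof : l.cof < κ) (hcl : CldF μ l) : NF X κ κ ℵ₀ (l + 1) := by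
  classical
  have hK : (0 : Ordinal.{0}) < κ.ord := by
    rw [Cardinal.ord_pos]
    exact Cardinal.aleph0_pos.trans_le hκ.aleph0_le
  obtain ⟨s, hs, hs'⟩ := Order.exists_cof_eq (α := l.ToType)
  rw [Ordinal.cof_toType] at hs'
  have hI : #s < κ := by rw [hs']; exact hcof
  have hu2 : ∀ c < l, ∃ i : s, c ≤ (ToType.toOrd i.1 : Ordinal.{0}) := by
    intro c hc
    obtain ⟨m, hm, hm'⟩ := hs (ToType.mk ⟨c, hc⟩)
    refine ⟨⟨m, hm⟩, ?_⟩
    have h3 := toOrd_le_toOrd.2 hm'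
    rwa [toOrd_mk'] at h3
  intro D T φ hD hφ hT
  have h5 : κ.ord ^ (l + 1) = κ.ord ^ l * κ.ord := by
    rw [Ordinal.opow_add, Ordinal.opow_one]
  have hT' : ∀ i, typeLT (φ '' Set.Iio (κ.ord ^ (l + 1)) ∩ T i : Set X) <
      κ.ord ^ (l + 1) := hT
  rw [h5] at hφ hT' ⊢
  have h6 : ∀ i, ∃ (c : s) (k : κ.ord.ToType), ∀ j : κ.ord.ToType, k ≤ j →
      typeLT ((fun ξ => φ (κ.ord ^ l * (ToType.toOrd j : Ordinal.{0}) + ξ)) ''
        Set.Iio (κ.ord ^ l) ∩ T i : Set X) < κ.ord ^ (ToType.toOrd c.1 : Ordinal.{0}) := by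
    intro i
    by_contra hcon
    push Not at hcon
    exact absurd (grow_top_v hκ hI hl (fun c : s => (ToType.toOrd c.1 : Ordinal.{0})) hu2 φ hφ
      (T i) hcon) (not_le.2 (hT' i))
  choose c k hck using h6
  obtain ⟨a, ha⟩ := Cardinal.infinite_pigeonhole_card c κ hD hκ.aleph0_le
    (by rw [hκ.cof_ord]; exact hI)
  obtain ⟨D', hD'⟩ := Cardinal.le_mk_iff_exists_set.1 (hμκ.le.trans ha)
  obtain ⟨e, he⟩ := bdd_of_lt hκ (M := D') (by rw [hD']; exact hμκ) (fun i => k i.1.1)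
  obtain ⟨ξ, hξ, hξ'⟩ := omit_of_cld hκ hμκ hl hcl (Set.mem_Iio.1 (ToType.toOrd a.1).2) hD'.ge
    (fun i => T i.1.1)
    (fun ξ => φ (κ.ord ^ l * (ToType.toOrd e : Ordinal.{0}) + ξ)) (by
      intro x hx y hy hxy
      exact hφ (mul_add_lt_mul (ToType.toOrd e).2 hx)
        (mul_add_lt_mul (ToType.toOrd e).2 hy)
        ((add_lt_add_iff_left _).2 hxy)) (by
      intro i
      have h2 := hck i.1.1 e (he i).le
      have h3 : c i.1.1 = a := i.1.2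
      rwa [h3] at h2)
  have hlt : κ.ord ^ l * (ToType.toOrd e : Ordinal.{0}) + ξ < κ.ord ^ l * κ.ord :=
    mul_add_lt_mul (ToType.toOrd e).2 hξ
  refine ⟨κ.ord ^ l * (ToType.toOrd e : Ordinal.{0}) + ξ, hlt, hξ'.trans ?_⟩
  exact (mk_sub_type D' (fun i => φ (κ.ord ^ l * (ToType.toOrd e : Ordinal.{0}) + ξ) ∉
    T i.1)).trans (mk_sub_type _ _)

/-- the exponent `l + 1` -/
theorem nf_oneG (hκ : κ.IsRegular) (hμκ : μ < κ) {l : Ordinal.{0}}
    (hl : Order.IsSuccLimit l) (hcl : CldF μ l) : NF X κ κ ℵ₀ (l + 1) := by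
  rcases lt_or_ge μ l.cof with hcof | hcof
  · refine (nf_succ (stab_regular hκ hμκ) (nf_of_bounded hκ hμκ hl hcl (fun D f hD => ?_))).mono
      hμκ.le
    obtain ⟨D', hD', h⟩ := exists_bounded_cof hcof hD f
    exact ⟨D', hD'.ge, h⟩
  · exact nf_top_v hκ hμκ hl (hcof.trans_lt hμκ) hcl

/-- Good exponents have the pigeonhole property. -/
theorem nf_goodG (hμ0 : ℵ₀ ≤ μ) (hs : κ = Order.succ μ)
    {l : Ordinal.{0}} (hl : l = 0 ∨ Order.IsSuccLimit l) (n : ℕ)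
    (h : SCldF μ l ∨ (CldF μ l ∧ n < 2)) : NF X κ κ ℵ₀ (l + n) := by
  classical
  have hκ : κ.IsRegular := by
    rw [hs]
    exact Cardinal.isRegular_succ hμ0
  have hμκ : μ < κ := by
    rw [hs]
    exact Order.lt_succ μ
  have hS := stab_regular hκ hμκ
  rcases hl with rfl | hl
  · rw [zero_add]
    intro D T φ hD hφ hT
    exact nf_lt hκ.aleph0_le Cardinal.isRegular_aleph0 (stab_regular hκ (hμ0.trans_lt hμκ)) n
      (by rw [Cardinal.ord_aleph0]; exact Ordinal.nat_lt_omega0 n) D T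
      ((hμ0.trans_lt hμκ).le.trans hD) φ hφ hT
  · rcases h with h | ⟨hcl, hn⟩
    · exact (nf_nat hS (nf_sclosed hκ hμκ hl h) n).mono hμκ.le
    · interval_cases n
      · rw [Nat.cast_zero, add_zero]
        exact nf_zeroG hκ hμκ hl hcl
      · rw [Nat.cast_one]
        exact nf_oneG hκ hμκ hl hcl

/-- The relation at `κ ^ e * q`, `κ = μ⁺`. -/
theorem rel_iff_goodG (hμ0 : ℵ₀ ≤ μ) (h2 : (2 : Cardinal.{0}) ^ μ = Order.succ μ)
    {e q : Ordinal.{0}} (he0 : 0 < e) (he : e < (Order.succ (Order.succ μ)).ord) (hq0 : 0 < q)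
    (hq : q < (Order.succ μ).ord) :
    Rel ((Order.succ μ).ord ^ e * q) ↔ GoodF μ e := by
  have hs : ℵ₀ ≤ Order.succ μ := hμ0.trans (Order.le_succ _)
  have hreg : (Order.succ μ).IsRegular := Cardinal.isRegular_succ hμ0
  have hμκ : μ < Order.succ μ := Order.lt_succ μ
  have hK : (0 : Ordinal.{0}) < (Order.succ μ).ord := by
    rw [Cardinal.ord_pos]
    exact Cardinal.aleph0_pos.trans_le hs
  obtain ⟨n, hn⟩ := Ordinal.lt_omega0.1 (Ordinal.mod_lt e Ordinal.omega0_ne_zero)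
  have hl : ω * (e / ω) = 0 ∨ Order.IsSuccLimit (ω * (e / ω)) := by
    rcases eq_or_ne (e / ω) 0 with h | h
    · left
      rw [h, mul_zero]
    · right
      exact Ordinal.isSuccLimit_mul_left Ordinal.isSuccLimit_omega0 (pos_iff_ne_zero.2 h)
  have hen : ω * (e / ω) + n = e := by
    rw [← hn]
    exact Ordinal.div_add_mod e ω
  have hgood : GoodF μ e ↔ SCldF μ (ω * (e / ω)) ∨ (CldF μ (ω * (e / ω)) ∧ n < 2) := by
    unfold GoodF
    rw [hn]
    have h3 : ((n : Ordinal.{0}) < 2) ↔ n < 2 := by exact_mod_cast Iff.rfl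
    rw [h3]
  have hdvd : (Order.succ μ).ord ∣ (Order.succ μ).ord ^ e * q := by
    obtain ⟨δ, hδ⟩ : ∃ δ, e = 1 + δ :=
      ⟨e - 1, (Ordinal.add_sub_cancel_of_le (Order.one_le_iff_pos.2 he0)).symm⟩
    rw [hδ, Ordinal.opow_add, Ordinal.opow_one, mul_assoc]
    exact dvd_mul_right _ _
  have hlim2 : Order.IsSuccLimit (Order.succ (Order.succ μ)).ord :=
    Cardinal.isSuccLimit_ord (hs.trans (Order.le_succ _))
  have hpow : (Order.succ μ).ord ^ (e + 1) = (Order.succ μ).ord ^ e * (Order.succ μ).ord := by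
    rw [Ordinal.opow_add, Ordinal.opow_one]
  have hle : (Order.succ μ).ord ^ e * q ≤ (Order.succ μ).ord ^ (e + 1) := by
    rw [hpow]
    exact (mul_lt_mul_of_pos_left hq (Ordinal.opow_pos _ hK)).le
  have hcard : ((Order.succ μ).ord ^ e * q).card ≤ Order.succ μ := by
    have h6 := hle.trans_lt (opow_lt_succ hs (hlim2.succ_lt he))
    exact Order.lt_succ_iff.1 (Cardinal.lt_ord.1 h6)
  rw [hgood]
  constructor
  · intro hR
    by_contra hbad
    rw [not_or, not_and_or, not_lt] at hbad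
    have hlim : Order.IsSuccLimit (ω * (e / ω)) := by
      rcases hl with h | h
      · exfalso
        apply hbad.1
        rw [h]
        intro t
        obtain ⟨i⟩ : Nonempty (DM μ) := by
          rw [← Cardinal.mk_ne_zero_iff, mk_DM]
          exact (Cardinal.aleph0_pos.trans_le hμ0).ne'
        exact absurd (Set.mem_Iio.1 (ToType.toOrd (t i)).2) (not_lt.2 zero_le)
      · exact h
    have hbad' : ¬ CldF μ (ω * (e / ω)) ∨ (¬ SCldF μ (ω * (e / ω)) ∧ 2 ≤ n) :=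
      hbad.2.imp id (fun h => ⟨hbad.1, h⟩)
    obtain ⟨ρ, hρ, t, ht⟩ := bad_exponentF hlim n hbad'
    rw [hen] at hρ
    have hen1 : ω * (e / ω) + (n + 1 : ℕ) = e + 1 := by
      rw [Nat.cast_succ, ← add_assoc, hen]
    rw [hen1] at ht
    have hSC := smallCover_of_wf hμ0 rfl (hlim2.succ_lt he) t ht
      ((Ordinal.opow_le_opow_right hK hρ).trans
        (le_mul_of_one_le_right' (Order.one_le_iff_pos.2 hq0))) hle
    exact not_rel_of_smallCover hμ0 h2 hdvd hcard hSC hR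
  · intro h
    refine rel_of_nf hreg he0 he hq0 hq ?_
    have h8 := nf_goodG (X := ((Order.succ μ).ord ^ e * q).ToType) hμ0 rfl hl n h
    rw [hen] at h8
    exact h8

/-- one term -/
theorem rel_opow_iffG (hμ0 : ℵ₀ ≤ μ) (h2 : (2 : Cardinal.{0}) ^ μ = Order.succ μ)
    {γ : Ordinal.{0}} (hc : (ω ^ γ).card = Order.succ μ) :
    Rel (ω ^ γ) ↔ GoodF μ (log (Order.succ μ).ord (ω ^ γ)) := by
  have hs : ℵ₀ ≤ Order.succ μ := hμ0.trans (Order.le_succ _)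
  have hK1 : (1 : Ordinal.{0}) < (Order.succ μ).ord := by
    rw [Cardinal.lt_ord, Ordinal.card_one]
    exact Cardinal.one_lt_aleph0.trans_le hs
  have h4 : (Order.succ μ).ord ≤ ω ^ γ := by
    rw [← hc]
    exact Cardinal.ord_card_le _
  obtain ⟨ν, q, hν1, hq0, hq, h5⟩ := opow_decomp hs h4
  have hlog : log (Order.succ μ).ord (ω ^ γ) = ν := by
    rw [h5, Ordinal.log_opow_mul hK1 _ hq0.ne', Ordinal.log_eq_zero hq, add_zero]
  have hν : ν < (Order.succ (Order.succ μ)).ord := by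
    have h6 : ω ^ γ < (Order.succ (Order.succ μ)).ord := by
      rw [Cardinal.lt_ord, hc]
      exact Order.lt_succ _
    refine lt_of_le_of_lt ?_ h6
    rw [h5]
    exact (Ordinal.right_le_opow ν hK1).trans (le_mul_of_one_le_right'
      (Order.one_le_iff_pos.2 hq0))
  have hiff := rel_iff_goodG hμ0 h2 (Order.one_le_iff_pos.1 hν1) hν hq0 hq
  rw [← h5] at hiff
  rw [hlog, hiff]

end Pool.Agent.TH764.OG
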