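import Mathlib
import Pool.Agent.TH764.OG.Fin5

/-!
# The exact answer for all limit ordinals whose terms of limit cardinality are small
-/

set_option autoImplicit false

namespace Pool.Agent.TH764.OG

open Set Cardinal Ordinal

/-- terms of limit cardinality `κ` below `κ ^ κ` -/
theorem rel_opow_limit {γ : Ordinal.{0}} (hc : ℵ₀ < (ω ^ γ).card)
    (hlim : Order.IsSuccLimit (ω ^ γ).card)
    (h : ω ^ γ < (ω ^ γ).card.ord ^ (ω ^ γ).card.ord) : Rel (ω ^ γ) := by
  have hK : (0 : Ordinal.{0}) < (ω ^ γ).card.ord := by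
    rw [Cardinal.ord_pos]
    exact Cardinal.aleph0_pos.trans hc
  obtain ⟨c, hc1, hc2⟩ := (Ordinal.lt_opow_of_isSuccLimit hK.ne'
    (Cardinal.isSuccLimit_ord hc.le)).1 h
  have h1 : max c.card ℵ₀ < (ω ^ γ).card := max_lt (Cardinal.lt_ord.1 hc1) hc
  have h2 : Order.succ (max c.card ℵ₀) < (ω ^ γ).card := hlim.succ_lt h1
  refine rel_opow (μ := Order.succ (max c.card ℵ₀))
    ((le_max_right _ _).trans (Order.le_succ _)) h2 (hc2.trans_le ?_)
  refine Ordinal.opow_le_opow_right hK ?_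
  refine le_trans ?_ (le_self_add (a := (Order.succ (max c.card ℵ₀)).ord) (b := (2 : Ordinal.{0})))
  refine le_of_lt (Cardinal.lt_ord.2 ?_)
  exact lt_of_le_of_lt (le_max_left _ _) (Order.lt_succ _)

/-- The exact answer: terms of cardinality `μ⁺` with `2 ^ μ = μ⁺`, terms of limit cardinality `κ`
below `κ ^ κ`. -/
theorem exact_all {α : Ordinal.{0}} (hα : Order.IsSuccLimit α)
    (h : ∀ γ ∈ (CNF ω α).map Prod.fst, ℵ₀ < (ω ^ γ).card →
      (∃ μ : Cardinal.{0}, (2 : Cardinal.{0}) ^ μ = Order.succ μ ∧ (ω ^ γ).card = Order.succ μ) ∨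
      (Order.IsSuccLimit (ω ^ γ).card ∧ ω ^ γ < (ω ^ γ).card.ord ^ (ω ^ γ).card.ord)) :
    Rel α ↔ ∀ γ ∈ (CNF ω α).map Prod.fst, ∀ μ : Cardinal.{0}, ℵ₀ ≤ μ →
      (ω ^ γ).card = Order.succ μ → GoodF μ (log (Order.succ μ).ord (ω ^ γ)) := by
  rw [rel_iff_terms hα]
  constructor
  · intro hR γ hγ μ hμ hc
    rcases h γ hγ (by
      rw [hc]
      exact lt_of_le_of_lt hμ (Order.lt_succ μ)) with ⟨μ', h2, hc'⟩ | ⟨hlim, _⟩
    · have h3 : μ = μ' := Order.succ_injective (hc.symm.trans hc')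
      subst h3
      exact (rel_opow_iffG hμ h2 hc).1 (hR γ hγ)
    · exfalso
      rw [hc] at hlim
      exact absurd (hlim.succ_lt (Order.lt_succ μ)) (lt_irrefl _)
  · intro hG γ hγ
    rcases le_or_gt (ω ^ γ).card ℵ₀ with hc | hc
    · exact rel_opow_countable (one_le_of_mem hα hγ) hc
    · rcases h γ hγ hc with ⟨μ, h2, hc'⟩ | ⟨hlim, hlt⟩
      · have hμ : ℵ₀ ≤ μ := by
          rw [hc'] at hc
          exact Order.lt_succ_iff.1 hc
        exact (rel_opow_iffG hμ h2 hc').2 (hG γ hγ μ hμ hc')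
      · exact rel_opow_limit hc hlim hlt

end Pool.Agent.TH764.OG
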