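import Mathlib
import Pool.Agent.TH764.OG.Fin6

/-!
# Ranks of functions modulo sets of size `< θ`, `κ` possibly singular
-/

set_option autoImplicit false

namespace Pool.Agent.TH764.OG

open Set Cardinal Ordinal

variable {κ θ μ : Cardinal.{0}} {X : Type} [LinearOrder X] [WellFoundedLT X]

/-- `θ` many subsets of `κ` of size `< κ` split into fewer than `θ` families each of which omits a
common point. -/
def Part (κ θ : Cardinal.{0}) : Prop :=
  ∀ (D : Type) (Z : D → Set κ.ord.ToType), #D ≤ θ → (∀ i, #(Z i) < κ) →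
    ∃ (J : Type) (p : D → J) (ζ : J → κ.ord.ToType), #J < θ ∧ ∀ i, ζ (p i) ∉ Z i

lemma part_regular (hκ : κ.IsRegular) (hθκ : θ < κ) (hθ : ℵ₀ ≤ θ) : Part κ θ := by
  intro D Z hD hZ
  obtain ⟨ζ, hζ⟩ := exists_notMem_iUnion Z (iUnion_lt hκ (hD.trans_lt hθκ) _ hZ)
  refine ⟨Unit, fun _ => (), fun _ => ζ, ?_, fun i => hζ i⟩
  rw [Cardinal.mk_fintype, Fintype.card_unit, Nat.cast_one]
  exact Cardinal.one_lt_aleph0.trans_le hθ

lemma part_singular (hκ : ℵ₀ ≤ κ) (hcof : κ.ord.cof < θ) (hθκ : θ < κ) : Part κ θ := by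
  classical
  intro D Z hD hZ
  obtain ⟨s, hs, hs'⟩ := Order.exists_cof_eq (α := κ.ord.ToType)
  rw [Ordinal.cof_toType] at hs'
  have h1 : ∀ i, ∃ m : s, (#(Z i)).ord ≤ (ToType.toOrd m.1 : Ordinal.{0}) := by
    intro i
    have h2 : (#(Z i)).ord < κ.ord := Cardinal.ord_lt_ord.2 (hZ i)
    obtain ⟨m, hm, hm'⟩ := hs (ToType.mk (⟨_, h2⟩ : Set.Iio κ.ord))
    refine ⟨⟨m, hm⟩, ?_⟩
    have h3 := toOrd_le_toOrd.2 hm'
    simpa using h3
  choose m hm using h1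
  have h2 : ∀ a : s, ∃ ζ, ∀ i : {i // m i = a}, ζ ∉ Z i.1 := by
    intro a
    apply exists_notMem_iUnion (fun i : {i // m i = a} => Z i.1)
    refine lt_of_le_of_lt (Cardinal.mk_iUnion_le_sum_mk.trans
      (Cardinal.sum_le_sum _ (fun _ => ((ToType.toOrd a.1 : Ordinal.{0})).card) ?_)) ?_
    · intro i
      have h4 : m i.1 = a := i.2
      have h5 := hm i.1
      rw [h4] at h5
      have := Ordinal.card_le_card h5
      rwa [Cardinal.card_ord] at this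
    · rw [Cardinal.sum_const, Cardinal.lift_id, Cardinal.lift_id]
      exact Cardinal.mul_lt_of_lt hκ (lt_of_le_of_lt ((Cardinal.mk_subtype_le _).trans hD) hθκ)
        (Cardinal.lt_ord.1 (ToType.toOrd a.1).2)
  choose ζ hζ using h2
  exact ⟨s, m, ζ, by rw [hs']; exact hcof, fun i => hζ (m i) ⟨i, rfl⟩⟩

/-- the rank of `t` modulo sets of size `< θ` is at least `ν` -/
inductive WfC (θ : Cardinal.{0}) (D : Type) {ρ : Ordinal.{0}} :
    (D → ρ.ToType) → Ordinal.{0} → Prop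
  | mk (t : D → ρ.ToType) (ν : Ordinal.{0}) (f : ∀ δ, δ < ν → (D → ρ.ToType))
      (h1 : ∀ δ h, #{i | ¬ f δ h i < t i} < θ) (h2 : ∀ δ h, WfC θ D (f δ h) δ) : WfC θ D t ν

variable {D : Type} {ρ : Ordinal.{0}}

lemma WfC.exists_lower {t : D → ρ.ToType} {ν δ : Ordinal.{0}} (h : WfC θ D t ν) (hδ : δ < ν) :
    ∃ s : D → ρ.ToType, #{i | ¬ s i < t i} < θ ∧ WfC θ D s δ := by
  cases h with
  | mk t ν f h1 h2 => exact ⟨f δ hδ, h1 δ hδ, h2 δ hδ⟩

lemma WfC.intro {t : D → ρ.ToType} {ν : Ordinal.{0}}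
    (h : ∀ δ < ν, ∃ s : D → ρ.ToType, #{i | ¬ s i < t i} < θ ∧ WfC θ D s δ) : WfC θ D t ν := by
  choose f h1 h2 using h
  exact WfC.mk t ν f h1 h2

lemma WfC.mono {t : D → ρ.ToType} {ν ν' : Ordinal.{0}} (h : WfC θ D t ν) (hle : ν' ≤ ν) :
    WfC θ D t ν' := WfC.intro fun _ hδ => h.exists_lower (hδ.trans_le hle)

lemma WfC.succ {s t : D → ρ.ToType} {ν : Ordinal.{0}} (hst : #{i | ¬ s i < t i} < θ)
    (hs : WfC θ D s ν) : WfC θ D t (ν + 1) :=
  WfC.intro fun _ hδ => ⟨s, hst, hs.mono (Order.lt_add_one_iff.1 hδ)⟩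

lemma WfC.limit {t : D → ρ.ToType} {ν : Ordinal.{0}} (hν : Order.IsSuccLimit ν)
    (h : ∀ δ < ν, WfC θ D t δ) : WfC θ D t ν :=
  WfC.intro fun δ hδ => (h (δ + 1) (hν.succ_lt hδ)).exists_lower (Order.lt_add_one_iff.2 le_rfl)

lemma WfC.pieces (hθ : θ.IsRegular) {J : Type} (hJ : #J < θ) (p : D → J) (ν : Ordinal.{0}) :
    ∀ t : D → ρ.ToType, (∀ j, WfC θ {i // p i = j} (fun i => t i.1) ν) → WfC θ D t ν := by
  classical
  induction ν using WellFoundedLT.induction with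
  | ind ν ih =>
  intro t h
  refine WfC.intro fun δ hδ => ?_
  choose u hu1 hu2 using fun j => (h j).exists_lower hδ
  refine ⟨fun i => u (p i) ⟨i, rfl⟩, ?_, ih δ hδ _ (fun j => ?_)⟩
  · have hsub : {i | ¬ u (p i) ⟨i, rfl⟩ < t i} ⊆
        ⋃ j, (Subtype.val '' {i : {i // p i = j} | ¬ u j i < t i.1}) := by
      intro i hi
      exact Set.mem_iUnion.2 ⟨p i, ⟨i, rfl⟩, hi, rfl⟩
    refine lt_of_le_of_lt (Cardinal.mk_le_mk_of_subset hsub) (iUnion_lt hθ hJ _ (fun j => ?_))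
    exact lt_of_le_of_lt Cardinal.mk_image_le (hu1 j)
  · have h3 : (fun i : {i // p i = j} => u (p i.1) ⟨i.1, rfl⟩) = u j := by
      funext i
      obtain ⟨i, rfl⟩ := i
      rfl
    rw [h3]
    exact hu2 j

lemma WfC.le_rank (hθ : θ.IsRegular) (hθ0 : ℵ₀ < θ) (hD : θ ≤ #D) (ν : Ordinal.{0}) :
    haveI := nrelC_wf hθ hθ0 hD ρ
    ∀ t : D → ρ.ToType, WfC θ D t ν → ν ≤ IsWellFounded.rank (NRelC θ D ρ) t := by
  have hwf := nrelC_wf hθ hθ0 hD ρ
  induction ν using WellFoundedLT.induction with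
  | ind ν ih =>
  intro t ht
  refine le_of_forall_lt (fun δ hδ => ?_)
  obtain ⟨s, hs1, hs2⟩ := ht.exists_lower hδ
  exact lt_of_le_of_lt (ih δ hδ s hs2) (IsWellFounded.rank_lt_of_rel (r := NRelC θ D ρ) hs1)

/-- The norm lemma over the base exponent `ν₀`. -/
theorem norm_part (hκ : ℵ₀ ≤ κ) (hθ : θ.IsRegular) (hpart : Part κ θ)
    {ν₀ : Ordinal.{0}} (hbase : NFp X κ θ ν₀)
    (ρ : Ordinal.{0}) (ν : Ordinal.{0}) : ∀ (D : Type), #D ≤ θ → ∀ (T : D → Set X)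
    (φ : Ordinal.{0} → X),
    StrictMonoOn φ (Set.Iio (κ.ord ^ (ν₀ + ν))) →
    (∀ ξ < κ.ord ^ (ν₀ + ν), #{i | φ ξ ∉ T i} < θ) →
    ∀ t : D → ρ.ToType, (∀ i, typeLT (φ '' Set.Iio (κ.ord ^ (ν₀ + ν)) ∩ T i : Set X) <
      κ.ord ^ (ν₀ + (ToType.toOrd (t i) : Ordinal.{0}))) → WfC θ D t ν := by
  classical
  have hK : (0 : Ordinal.{0}) < κ.ord := by
    rw [Cardinal.ord_pos]
    exact Cardinal.aleph0_pos.trans_le hκ
  induction ν using WellFoundedLT.induction with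
  | ind ν ih =>
  intro D hDθ T φ hφ hT t ht
  rcases Ordinal.zero_or_succ_or_isSuccLimit ν with h0 | ⟨ν', hν'⟩ | hlim
  · subst h0
    exact WfC.intro fun δ hδ => absurd hδ (not_lt.2 zero_le)
  · have hν'' : ν = ν' + 1 := by rw [← hν']; exact (Order.succ_eq_add_one ν')
    subst hν''
    have hlt : ν' < ν' + 1 := Order.lt_add_one_iff.2 le_rfl
    have hpow' : κ.ord ^ (ν₀ + (ν' + 1)) = κ.ord ^ (ν₀ + ν') * κ.ord := by
      rw [← add_assoc, Ordinal.opow_add _ (ν₀ + ν') 1, Ordinal.opow_one]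
    have hsub0 : Set.Iio (κ.ord ^ ν₀) ⊆ Set.Iio (κ.ord ^ (ν₀ + (ν' + 1))) :=
      Set.Iio_subset_Iio (Ordinal.opow_le_opow_right hK le_self_add)
    -- the indices with value zero
    have hzero : #{i | (ToType.toOrd (t i) : Ordinal.{0}) = 0} < θ := by
      by_contra hcon
      rw [not_lt] at hcon
      obtain ⟨ξ, hξ, hξ'⟩ := hbase {i | (ToType.toOrd (t i) : Ordinal.{0}) = 0}
        (fun i => T i.1) φ hcon (hφ.mono hsub0) (by
          intro i
          have h2 := ht i.1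
          have h3 : (ToType.toOrd (t i.1) : Ordinal.{0}) = 0 := i.2
          rw [h3, add_zero] at h2
          exact lt_of_le_of_lt (type_mono
            (Set.inter_subset_inter_left _ (Set.image_mono hsub0))) h2)
      exact absurd (hT ξ (hsub0 hξ)) (not_lt.2 (hξ'.trans (mk_sub_type _
        (fun i => φ ξ ∉ T i))))
    have hc : ∀ i, ∃ s : ρ.ToType, ((ToType.toOrd (t i) : Ordinal.{0}) ≠ 0 → s < t i) ∧
        #{ζ : κ.ord.ToType | κ.ord ^ (ν₀ + (ToType.toOrd s : Ordinal.{0})) ≤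
          typeLT ((fun ξ => φ (κ.ord ^ (ν₀ + ν') * (ToType.toOrd ζ : Ordinal.{0}) + ξ)) ''
            Set.Iio (κ.ord ^ (ν₀ + ν')) ∩ T i : Set X)} < κ := by
      intro i
      have hall : ∀ s : ρ.ToType, typeLT (φ '' Set.Iio (κ.ord ^ (ν₀ + (ν' + 1))) ∩ T i : Set X) <
          κ.ord ^ (ν₀ + (ToType.toOrd s : Ordinal.{0})) →
          #{ζ : κ.ord.ToType | κ.ord ^ (ν₀ + (ToType.toOrd s : Ordinal.{0})) ≤
          typeLT ((fun ξ => φ (κ.ord ^ (ν₀ + ν') * (ToType.toOrd ζ : Ordinal.{0}) + ξ)) ''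
            Set.Iio (κ.ord ^ (ν₀ + ν')) ∩ T i : Set X)} < κ := by
        intro s hs
        have h1 : {ζ : κ.ord.ToType | κ.ord ^ (ν₀ + (ToType.toOrd s : Ordinal.{0})) ≤
          typeLT ((fun ξ => φ (κ.ord ^ (ν₀ + ν') * (ToType.toOrd ζ : Ordinal.{0}) + ξ)) ''
            Set.Iio (κ.ord ^ (ν₀ + ν')) ∩ T i : Set X)} = ∅ := by
          ext ζ
          simp only [Set.mem_ofPred_eq, Set.mem_empty_iff_false, iff_false, not_le]
          rw [hpow'] at hs
          exact lt_of_le_of_lt (type_mono (block_sub φ (T i) ζ)) hs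
        rw [h1, Cardinal.mk_eq_zero]
        exact Cardinal.aleph0_pos.trans_le hκ
      rcases Ordinal.zero_or_succ_or_isSuccLimit (ToType.toOrd (t i) : Ordinal.{0}) with
        h0 | ⟨c, hc⟩ | hl
      · exact ⟨t i, fun h => absurd h0 h, hall (t i) (ht i)⟩
      · have hc' : (ToType.toOrd (t i) : Ordinal.{0}) = c + 1 := by
          rw [← hc]; exact (Order.succ_eq_add_one c)
        have hct : c < (ToType.toOrd (t i) : Ordinal.{0}) := by
          rw [hc']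
          exact Order.lt_add_one_iff.2 le_rfl
        have hcρ : c < ρ := hct.trans (ToType.toOrd (t i)).2
        refine ⟨ToType.mk ⟨c, hcρ⟩, fun _ => ?_, ?_⟩
        · rw [← toOrd_lt_toOrd, toOrd_mk' hcρ, hc']
          exact Order.lt_add_one_iff.2 le_rfl
        · rw [toOrd_mk' hcρ]
          by_contra hcon
          rw [not_lt] at hcon
          have h1 : κ.ord ≤ typeLT {ζ : κ.ord.ToType | κ.ord ^ (ν₀ + c) ≤
            typeLT ((fun ξ => φ (κ.ord ^ (ν₀ + ν') * (ToType.toOrd ζ : Ordinal.{0}) + ξ)) ''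
            Set.Iio (κ.ord ^ (ν₀ + ν')) ∩ T i : Set X)} :=
            (Cardinal.ord_le_ord.2 hcon).trans (Cardinal.ord_le_type _)
          have h2 := type_blocks' (b := κ.ord ^ (ν₀ + c)) φ (by rw [← hpow']; exact hφ) (T i)
            {ζ : κ.ord.ToType | κ.ord ^ (ν₀ + c) ≤
            typeLT ((fun ξ => φ (κ.ord ^ (ν₀ + ν') * (ToType.toOrd ζ : Ordinal.{0}) + ξ)) ''
            Set.Iio (κ.ord ^ (ν₀ + ν')) ∩ T i : Set X)} (fun ζ hζ => hζ)
          have h3 := ht i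
          rw [hc', hpow', ← add_assoc, Ordinal.opow_add _ (ν₀ + c) 1, Ordinal.opow_one] at h3
          exact absurd ((mul_le_mul_right h1 _).trans h2) (not_le.2 h3)
      · obtain ⟨c, hc'⟩ := lt_opow_add hK hl (ht i)
        have hct : (ToType.toOrd c : Ordinal.{0}) < (ToType.toOrd (t i) : Ordinal.{0}) :=
          (ToType.toOrd c).2
        have hcρ : (ToType.toOrd c : Ordinal.{0}) < ρ := hct.trans (ToType.toOrd (t i)).2
        refine ⟨ToType.mk ⟨(ToType.toOrd c : Ordinal.{0}), hcρ⟩, fun _ => ?_, hall _ ?_⟩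
        · rw [← toOrd_lt_toOrd, toOrd_mk' hcρ]
          exact hct
        · rw [toOrd_mk' hcρ]
          exact hc'
    choose s hs1 hs2 using hc
    obtain ⟨J, p, ζ, hJ, hζ⟩ := hpart D _ hDθ hs2
    have h1 : WfC θ D s ν' := by
      refine WfC.pieces hθ hJ p ν' s (fun j => ?_)
      refine ih ν' hlt {i // p i = j} ((Cardinal.mk_subtype_le _).trans hDθ) (fun i => T i.1)
        (fun ξ => φ (κ.ord ^ (ν₀ + ν') * (ToType.toOrd (ζ j) : Ordinal.{0}) + ξ)) ?_ ?_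
        (fun i => s i.1) ?_
      · rw [hpow'] at hφ
        intro a ha b hb hab
        exact hφ (mul_add_lt_mul (ToType.toOrd (ζ j)).2 ha)
          (mul_add_lt_mul (ToType.toOrd (ζ j)).2 hb) ((add_lt_add_iff_left _).2 hab)
      · intro ξ hξ
        refine lt_of_le_of_lt (mk_sub_type {i | p i = j} (fun i =>
          φ (κ.ord ^ (ν₀ + ν') * (ToType.toOrd (ζ j) : Ordinal.{0}) + ξ) ∉ T i)) (hT _ ?_)
        rw [hpow']
        exact mul_add_lt_mul (ToType.toOrd (ζ j)).2 hξ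
      · rintro ⟨i, rfl⟩
        exact not_le.1 (hζ i)
    refine WfC.succ (lt_of_le_of_lt (Cardinal.mk_le_mk_of_subset ?_) hzero) h1
    intro i hi
    by_contra h3
    exact hi (hs1 i h3)
  · refine WfC.limit hlim (fun δ hδ => ?_)
    have hsub : Set.Iio (κ.ord ^ (ν₀ + δ)) ⊆ Set.Iio (κ.ord ^ (ν₀ + ν)) :=
      Set.Iio_subset_Iio (Ordinal.opow_le_opow_right hK (add_le_add le_rfl hδ.le))
    exact ih δ hδ D hDθ T φ (hφ.mono hsub) (fun ξ hξ => hT ξ (hsub hξ)) t (fun i =>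
      lt_of_le_of_lt (type_mono (Set.inter_subset_inter_left _ (Set.image_mono hsub))) (ht i))

/-- The closure theorem: from `ν₀` to `ν₀ + μ`. -/
theorem nf_closureP (hκ : ℵ₀ ≤ κ) (hθ : θ.IsRegular) (hθ0 : ℵ₀ < θ) (hpart : Part κ θ)
    (hμ0 : ℵ₀ ≤ μ) (hcof : μ.ord.cof ≠ θ) (hμ : ∀ ρ < μ, ρ ^ θ < μ) {ν₀ : Ordinal.{0}}
    (hbase : NFp X κ θ ν₀) : NFp X κ θ (ν₀ + μ.ord) := by
  classical
  have hK : (0 : Ordinal.{0}) < κ.ord := by
    rw [Cardinal.ord_pos]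
    exact Cardinal.aleph0_pos.trans_le hκ
  have hlim : Order.IsSuccLimit μ.ord := Cardinal.isSuccLimit_ord hμ0
  intro D T φ hD hφ hT
  by_contra hcon
  push Not at hcon
  have h1 : ∀ i, ∃ c : μ.ord.ToType, typeLT (φ '' Set.Iio (κ.ord ^ (ν₀ + μ.ord)) ∩ T i : Set X) <
      κ.ord ^ (ν₀ + (ToType.toOrd c : Ordinal.{0})) := fun i => lt_opow_add hK hlim (hT i)
  choose f hf using h1
  obtain ⟨D', hD', m, hm⟩ := exists_bounded hθ hcof hD f
  have hlt : (ToType.toOrd m : Ordinal.{0}) < (ToType.toOrd m : Ordinal.{0}) + 1 :=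
    Order.lt_add_one_iff.2 le_rfl
  have hm1 : (ToType.toOrd m : Ordinal.{0}) + 1 < μ.ord := hlim.succ_lt (ToType.toOrd m).2
  have h2 := norm_part hκ hθ hpart hbase
    ((ToType.toOrd m : Ordinal.{0}) + 1) μ.ord D' hD'.le (fun i : D' => T i.1) φ hφ (by
      intro ξ hξ
      exact lt_of_le_of_lt (mk_sub_type D' (fun i => φ ξ ∉ T i)) (hcon ξ hξ))
    (fun _ => ToType.mk ⟨_, hlt⟩) (by
      intro i
      rw [toOrd_mk' hlt]
      refine lt_of_lt_of_le (hf i.1) (Ordinal.opow_le_opow_right hK (add_le_add le_rfl ?_))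
      exact toOrd_le_toOrd.2 (hm i.1 i.2))
  exact absurd (rankC_lt hθ hθ0 hD' hμ hm1 _) (not_lt.2 (WfC.le_rank hθ hθ0 hD'.ge μ.ord _ h2))

end Pool.Agent.TH764.OG
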