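import Mathlib
import Pool.Agent.TH764.OG.Lim1

/-!
# Few points outside of `θ` many small sets
-/

set_option autoImplicit false

namespace Pool.Agent.TH764.OG

open Set Cardinal Ordinal

variable {κ θ μ : Cardinal.{0}} {ε ρ : Ordinal.{0}}

/-- For at most `θ` subsets of `κ ^ ε` of smaller type there are fewer than `θ` points such that
none of the sets contains them all. -/
def Hit (κ θ : Cardinal.{0}) (ε : Ordinal.{0}) : Prop :=
  ∀ (X : Type) [LinearOrder X] [WellFoundedLT X] (D : Type) (W : D → Set X)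
    (φ : Ordinal.{0} → X), #D ≤ θ → StrictMonoOn φ (Set.Iio (κ.ord ^ ε)) →
    (∀ i, typeLT (φ '' Set.Iio (κ.ord ^ ε) ∩ W i : Set X) < κ.ord ^ ε) →
    ∃ (J : Type) (s : J → Ordinal.{0}), #J < θ ∧ (∀ j, s j < κ.ord ^ ε) ∧ ∀ i, ∃ j, φ (s j) ∉ W i

lemma mk_unit_lt (hθ : ℵ₀ ≤ θ) : #Unit < θ := by
  rw [Cardinal.mk_fintype, Fintype.card_unit, Nat.cast_one]
  exact Cardinal.one_lt_aleph0.trans_le hθ

lemma mk_sigma_lt (hθ : θ.IsRegular) {J : Type} (hJ : #J < θ) (K : J → Type)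
    (hK : ∀ j, #(K j) < θ) : #(Σ j, K j) < θ := by
  rw [Cardinal.mk_sigma]
  exact Cardinal.sum_lt_of_isRegular hθ hJ hK

lemma hit_zero (hθ : ℵ₀ ≤ θ) : Hit κ θ 0 := by
  intro X _ _ D W φ hD hφ hW
  refine ⟨Unit, fun _ => 0, mk_unit_lt hθ, fun _ => by
    rw [Ordinal.opow_zero]; exact zero_lt_one, fun i => ⟨(), fun hmem => ?_⟩⟩
  have h2 : typeLT (φ '' Set.Iio (κ.ord ^ (0 : Ordinal.{0})) ∩ W i : Set X) <
    κ.ord ^ (0 : Ordinal.{0}) := hW i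
  rw [Ordinal.opow_zero] at h2
  have h3 : (1 : Ordinal.{0}) ≤ typeLT (φ '' Set.Iio 1 ∩ W i : Set X) := by
    rw [Order.one_le_iff_pos, pos_iff_ne_zero]
    intro h4
    rw [Ordinal.type_eq_zero_iff_isEmpty] at h4
    exact h4.false ⟨φ 0, ⟨0, by simp, rfl⟩, hmem⟩
  exact absurd h2 (not_lt.2 h3)

lemma hit_limit (hκ : ℵ₀ ≤ κ) (hθ : θ.IsRegular) (hε : Order.IsSuccLimit ε) {I : Type}
    (hI : #I < θ) (u : I → Ordinal.{0}) (hu1 : ∀ i, u i < ε) (hu2 : ∀ c < ε, ∃ i, c ≤ u i)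
    (h : ∀ i, Hit κ θ (u i)) : Hit κ θ ε := by
  classical
  have hK : (0 : Ordinal.{0}) < κ.ord := by
    rw [Cardinal.ord_pos]
    exact Cardinal.aleph0_pos.trans_le hκ
  intro X _ _ D W φ hD hφ hW
  have h1 : ∀ i, ∃ a : I, typeLT (φ '' Set.Iio (κ.ord ^ ε) ∩ W i : Set X) < κ.ord ^ (u a) := by
    intro i
    obtain ⟨c, hc, hc'⟩ := (Ordinal.lt_opow_of_isSuccLimit hK.ne' hε).1 (hW i)
    obtain ⟨a, ha⟩ := hu2 c hc
    exact ⟨a, lt_of_lt_of_le hc' (Ordinal.opow_le_opow_right hK ha)⟩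
  choose f hf using h1
  have hsub : ∀ a, Set.Iio (κ.ord ^ (u a)) ⊆ Set.Iio (κ.ord ^ ε) := fun a =>
    Set.Iio_subset_Iio (Ordinal.opow_le_opow_right hK (hu1 a).le)
  have h2 : ∀ a, ∃ (J : Type) (s : J → Ordinal.{0}), #J < θ ∧ (∀ j, s j < κ.ord ^ (u a)) ∧
      ∀ i : {i // f i = a}, ∃ j, φ (s j) ∉ W i.1 := by
    intro a
    refine h a X {i // f i = a} (fun i => W i.1) φ ((Cardinal.mk_subtype_le _).trans hD)
      (hφ.mono (hsub a)) ?_
    rintro ⟨i, rfl⟩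
    exact lt_of_le_of_lt (type_mono (Set.inter_subset_inter_left _ (Set.image_mono (hsub _))))
      (hf i)
  choose J s hJ hs1 hs2 using h2
  refine ⟨Σ a, J a, fun x => s x.1 x.2, mk_sigma_lt hθ hI J hJ, fun x => hsub _ (hs1 x.1 x.2),
    fun i => ?_⟩
  obtain ⟨j, hj⟩ := hs2 (f i) ⟨i, rfl⟩
  exact ⟨⟨f i, j⟩, hj⟩

lemma hit_add (hκ : ℵ₀ ≤ κ) (hθ : θ.IsRegular) {ε₁ ε₂ : Ordinal.{0}} (h1 : Hit κ θ ε₁)
    (h2 : Hit κ θ ε₂) : Hit κ θ (ε₁ + ε₂) := by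
  classical
  have hK : (0 : Ordinal.{0}) < κ.ord := by
    rw [Cardinal.ord_pos]
    exact Cardinal.aleph0_pos.trans_le hκ
  intro X _ _ D W φ hD hφ hW
  have hq : κ.ord ^ ε₂ ≠ 0 := (Ordinal.opow_pos _ hK).ne'
  have hB : (0 : Ordinal.{0}) < κ.ord ^ ε₁ := Ordinal.opow_pos _ hK
  have hpow : κ.ord ^ (ε₁ + ε₂) = κ.ord ^ ε₁ * κ.ord ^ ε₂ := Ordinal.opow_add _ _ _
  have hW' : ∀ i, typeLT (φ '' Set.Iio (κ.ord ^ (ε₁ + ε₂)) ∩ W i : Set X) <
    κ.ord ^ (ε₁ + ε₂) := hW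
  rw [hpow] at hφ hW' ⊢
  let V : D → Set (κ.ord ^ ε₂).ToType := fun i => {ζ | κ.ord ^ ε₁ ≤
    typeLT ((fun ξ => φ (κ.ord ^ ε₁ * (ToType.toOrd ζ : Ordinal.{0}) + ξ)) ''
      Set.Iio (κ.ord ^ ε₁) ∩ W i : Set X)}
  have hV : ∀ i, typeLT (V i) < κ.ord ^ ε₂ := by
    intro i
    by_contra hcon
    rw [not_lt] at hcon
    have h3 := type_blocks φ hφ (W i) (V i) (fun ζ hζ => hζ)
    exact absurd ((mul_le_mul_right hcon _).trans h3) (not_le.2 (hW' i))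
  obtain ⟨ψ, hψ⟩ := exists_enum' hq
  obtain ⟨J, s, hJ, hs1, hs2⟩ := h2 _ D V ψ hD hψ (fun i =>
    lt_of_le_of_lt (type_mono Set.inter_subset_right) (hV i))
  have h4 : ∀ j, ∃ (J' : Type) (s' : J' → Ordinal.{0}), #J' < θ ∧ (∀ k, s' k < κ.ord ^ ε₁) ∧
      ∀ i : {i // ψ (s j) ∉ V i}, ∃ k,
        φ (κ.ord ^ ε₁ * (ToType.toOrd (ψ (s j)) : Ordinal.{0}) + s' k) ∉ W i.1 := by
    intro j
    refine h1 X {i // ψ (s j) ∉ V i} (fun i => W i.1)
      (fun ξ => φ (κ.ord ^ ε₁ * (ToType.toOrd (ψ (s j)) : Ordinal.{0}) + ξ))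
      ((Cardinal.mk_subtype_le _).trans hD) ?_ ?_
    · intro a ha b hb hab
      exact hφ (mul_add_lt_mul (ToType.toOrd (ψ (s j))).2 ha)
        (mul_add_lt_mul (ToType.toOrd (ψ (s j))).2 hb) ((add_lt_add_iff_left _).2 hab)
    · rintro ⟨i, hi⟩
      exact not_le.1 hi
  choose J' s' hJ' hs1' hs2' using h4
  refine ⟨Σ j, J' j, fun x => κ.ord ^ ε₁ * (ToType.toOrd (ψ (s x.1)) : Ordinal.{0}) + s' x.1 x.2,
    mk_sigma_lt hθ hJ J' hJ', fun x => mul_add_lt_mul (ToType.toOrd (ψ (s x.1))).2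
      (hs1' x.1 x.2), fun i => ?_⟩
  obtain ⟨j, hj⟩ := hs2 i
  obtain ⟨k, hk⟩ := hs2' j ⟨i, hj⟩
  exact ⟨⟨j, k⟩, hk⟩

lemma hit_one (hκ : ℵ₀ ≤ κ) (hpart : Part κ θ) : Hit κ θ 1 := by
  classical
  intro X _ _ D W φ hD hφ hW
  have hW' : ∀ i, typeLT (φ '' Set.Iio (κ.ord ^ (1 : Ordinal.{0})) ∩ W i : Set X) <
    κ.ord ^ (1 : Ordinal.{0}) := hW
  rw [Ordinal.opow_one] at hφ hW' ⊢
  let Z : D → Set κ.ord.ToType := fun i => {ζ | φ (ToType.toOrd ζ : Ordinal.{0}) ∈ W i}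
  have hZ : ∀ i, #(Z i) < κ := by
    intro i
    have h1 : #(φ '' Set.Iio κ.ord ∩ W i : Set X) < κ := by
      have h2 := Cardinal.lt_ord.1 (hW' i)
      rwa [Ordinal.card_type] at h2
    refine lt_of_le_of_lt ?_ h1
    refine Cardinal.mk_le_of_injective (f := fun ζ : Z i =>
      (⟨φ (ToType.toOrd ζ.1 : Ordinal.{0}), ⟨_, (ToType.toOrd ζ.1).2, rfl⟩, ζ.2⟩ :
        (φ '' Set.Iio κ.ord ∩ W i : Set X))) ?_
    intro a b hab
    have h3 := congrArg Subtype.val hab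
    have h4 := hφ.injOn (ToType.toOrd a.1).2 (ToType.toOrd b.1).2 h3
    exact Subtype.ext (ToType.mk.symm.injective (Subtype.ext h4))
  obtain ⟨J, p, ζ, hJ, hζ⟩ := hpart D Z hD hZ
  exact ⟨J, fun j => (ToType.toOrd (ζ j) : Ordinal.{0}), hJ, fun j => (ToType.toOrd (ζ j)).2,
    fun i => ⟨p i, hζ i⟩⟩

/-- an ideal closed under unions of fewer than `θ` sets -/
structure Idl (θ : Cardinal.{0}) {D : Type} (N : Set D → Prop) : Prop where
  mono : ∀ A B, N A → B ⊆ A → N B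
  union : ∀ (J : Type) (A : J → Set D), #J < θ → (∀ j, N (A j)) → N (⋃ j, A j)

lemma Idl.sub {D : Type} {N : Set D → Prop} (hN : Idl θ N) (P : D → Prop) :
    Idl θ (fun A : Set {i // P i} => N (Subtype.val '' A)) where
  mono := fun A B hA hBA => hN.mono _ _ hA (Set.image_mono hBA)
  union := fun J A hJ hA => by
    change N (Subtype.val '' ⋃ j, A j)
    rw [Set.image_iUnion]
    exact hN.union J _ hJ hA

/-- the rank of `t` modulo the ideal `N` is at least `ν` -/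
inductive WfI {D : Type} {ρ : Ordinal.{0}} (N : Set D → Prop) :
    (D → ρ.ToType) → Ordinal.{0} → Prop
  | mk (t : D → ρ.ToType) (ν : Ordinal.{0}) (f : ∀ δ, δ < ν → (D → ρ.ToType))
      (h1 : ∀ δ h, N {i | ¬ f δ h i < t i}) (h2 : ∀ δ h, WfI N (f δ h) δ) : WfI N t ν

variable {D : Type} {N : Set D → Prop}

lemma WfI.exists_lower {t : D → ρ.ToType} {ν δ : Ordinal.{0}} (h : WfI N t ν) (hδ : δ < ν) :
    ∃ s : D → ρ.ToType, N {i | ¬ s i < t i} ∧ WfI N s δ := by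
  cases h with
  | mk t ν f h1 h2 => exact ⟨f δ hδ, h1 δ hδ, h2 δ hδ⟩

lemma WfI.intro {t : D → ρ.ToType} {ν : Ordinal.{0}}
    (h : ∀ δ < ν, ∃ s : D → ρ.ToType, N {i | ¬ s i < t i} ∧ WfI N s δ) : WfI N t ν := by
  choose f h1 h2 using h
  exact WfI.mk t ν f h1 h2

lemma WfI.mono {t : D → ρ.ToType} {ν ν' : Ordinal.{0}} (h : WfI N t ν) (hle : ν' ≤ ν) :
    WfI N t ν' := WfI.intro fun _ hδ => h.exists_lower (hδ.trans_le hle)

lemma WfI.succ {s t : D → ρ.ToType} {ν : Ordinal.{0}} (hst : N {i | ¬ s i < t i})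
    (hs : WfI N s ν) : WfI N t (ν + 1) :=
  WfI.intro fun _ hδ => ⟨s, hst, hs.mono (Order.lt_add_one_iff.1 hδ)⟩

lemma WfI.limit {t : D → ρ.ToType} {ν : Ordinal.{0}} (hν : Order.IsSuccLimit ν)
    (h : ∀ δ < ν, WfI N t δ) : WfI N t ν :=
  WfI.intro fun δ hδ => (h (δ + 1) (hν.succ_lt hδ)).exists_lower (Order.lt_add_one_iff.2 le_rfl)

lemma WfI.pieces (hN : Idl θ N) {J : Type} (hJ : #J < θ) (p : D → J) (ν : Ordinal.{0}) :
    ∀ t : D → ρ.ToType, (∀ j, WfI (fun A : Set {i // p i = j} => N (Subtype.val '' A))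
      (fun i => t i.1) ν) → WfI N t ν := by
  classical
  induction ν using WellFoundedLT.induction with
  | ind ν ih =>
  intro t h
  refine WfI.intro fun δ hδ => ?_
  choose u hu1 hu2 using fun j => (h j).exists_lower hδ
  refine ⟨fun i => u (p i) ⟨i, rfl⟩, ?_, ih δ hδ _ (fun j => ?_)⟩
  · refine hN.mono _ _ (hN.union J _ hJ hu1) ?_
    intro i hi
    exact Set.mem_iUnion.2 ⟨p i, ⟨i, rfl⟩, hi, rfl⟩
  · have h3 : (fun i : {i // p i = j} => u (p i.1) ⟨i.1, rfl⟩) = u j := by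
      funext i
      obtain ⟨i, rfl⟩ := i
      rfl
    rw [h3]
    exact hu2 j

lemma WfI.card_lt (hN : Idl θ N) (hθ0 : ℵ₀ < θ) (hprop : ¬ N Set.univ)
    (hcard : #(D → ρ.ToType) < μ) (t : D → ρ.ToType) : ¬ WfI N t μ.ord := by
  have hwf : IsWellFounded (D → ρ.ToType) (fun s t => N {i | ¬ s i < t i}) := by
    refine ⟨wellFounded_iff_isEmpty_descending_chain.2 ⟨?_⟩⟩
    rintro ⟨f, hf⟩
    have h1 : N (⋃ n, {i | ¬ f (n + 1) i < f n i}) :=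
      hN.union ℕ _ (by rw [Cardinal.mk_nat]; exact hθ0) hf
    have h2 : ∃ i, i ∉ ⋃ n, {i | ¬ f (n + 1) i < f n i} := by
      by_contra hcon
      have hcon' : ∀ i, i ∈ ⋃ n, {i | ¬ f (n + 1) i < f n i} := fun i =>
        by_contra (fun h => hcon ⟨i, h⟩)
      rw [Set.eq_univ_of_forall hcon'] at h1
      exact hprop h1
    obtain ⟨i, hi⟩ := h2
    simp only [Set.mem_iUnion, Set.mem_ofPred_eq, not_exists, not_not] at hi
    exact (wellFounded_iff_isEmpty_descending_chain.1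
      (wellFounded_lt (α := ρ.ToType))).false ⟨fun n => f n i, hi⟩
  have key : ∀ ν : Ordinal.{0}, ∀ t : D → ρ.ToType, WfI N t ν →
      ν ≤ IsWellFounded.rank (fun s t : D → ρ.ToType => N {i | ¬ s i < t i}) t := by
    intro ν
    induction ν using WellFoundedLT.induction with
    | ind ν ih =>
    intro t ht
    refine le_of_forall_lt (fun δ hδ => ?_)
    obtain ⟨s, hs1, hs2⟩ := ht.exists_lower hδ
    exact lt_of_le_of_lt (ih δ hδ s hs2)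
      (IsWellFounded.rank_lt_of_rel (r := fun s t : D → ρ.ToType => N {i | ¬ s i < t i}) hs1)
  intro ht
  have h1 := key _ t ht
  refine absurd h1 (not_le.2 ?_)
  rw [Cardinal.lt_ord]
  refine lt_of_le_of_lt ?_ hcard
  rw [← Cardinal.mk_toType]
  have h2 : ∀ o : (IsWellFounded.rank (fun s t : D → ρ.ToType => N {i | ¬ s i < t i}) t).ToType,
      ∃ s : D → ρ.ToType,
      IsWellFounded.rank (fun s t : D → ρ.ToType => N {i | ¬ s i < t i}) s =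
        (ToType.toOrd o : Ordinal.{0}) := fun o =>
    IsWellFounded.mem_range_rank_of_le (le_of_lt (ToType.toOrd o).2)
  choose s hs using h2
  refine Cardinal.mk_le_of_injective (f := s) ?_
  intro o o' hoo'
  have h3 : (ToType.toOrd o : Ordinal.{0}) = ToType.toOrd o' := by rw [← hs, ← hs, hoo']
  exact ToType.mk.symm.injective (Subtype.ext h3)

end Pool.Agent.TH764.OG
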