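import Mathlib
import Pool.Agent.TH764.OG.Lim2

/-!
# From `κ ^ ε` to `κ ^ (ε * μ)`
-/

set_option autoImplicit false

namespace Pool.Agent.TH764.OG

open Set Cardinal Ordinal

variable {κ θ μ : Cardinal.{0}} {ε : Ordinal.{0}} {X : Type} [LinearOrder X] [WellFoundedLT X]

/-- The norm lemma with base `K = κ ^ ε`, modulo an ideal. -/
theorem norm_hit {K : Ordinal.{0}} (hKe : K = κ.ord ^ ε) (hK : (0 : Ordinal.{0}) < K)
    (hε : Hit κ θ ε) (ρ : Ordinal.{0}) (ν : Ordinal.{0}) :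
    ∀ (D : Type) (N : Set D → Prop), Idl θ N → #D ≤ θ → ∀ (T : D → Set X) (φ : Ordinal.{0} → X),
    StrictMonoOn φ (Set.Iio (K ^ ν)) → (∀ ξ < K ^ ν, N {i | φ ξ ∉ T i}) →
    ∀ t : D → ρ.ToType, (∀ i, typeLT (φ '' Set.Iio (K ^ ν) ∩ T i : Set X) <
      K ^ (ToType.toOrd (t i) : Ordinal.{0})) → WfI N t ν := by
  classical
  induction ν using WellFoundedLT.induction with
  | ind ν ih =>
  intro D N hN hDθ T φ hφ hT t ht
  rcases Ordinal.zero_or_succ_or_isSuccLimit ν with h0 | ⟨ν', hν'⟩ | hlim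
  · subst h0
    exact WfI.intro fun δ hδ => absurd hδ (not_lt.2 zero_le)
  · have hν'' : ν = ν' + 1 := by rw [← hν']; exact (Order.succ_eq_add_one ν')
    subst hν''
    have hlt : ν' < ν' + 1 := Order.lt_add_one_iff.2 le_rfl
    have hpow' : K ^ (ν' + 1) = K ^ ν' * K := by
      rw [Ordinal.opow_add _ ν' 1, Ordinal.opow_one]
    have hpos : 0 < K ^ (ν' + 1) := Ordinal.opow_pos _ hK
    -- the indices with value zero
    have hzero : ∀ i, (ToType.toOrd (t i) : Ordinal.{0}) = 0 → φ 0 ∉ T i := by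
      intro i hi hmem
      have h2 := ht i
      rw [hi, Ordinal.opow_zero] at h2
      have h3 : (1 : Ordinal.{0}) ≤ typeLT (φ '' Set.Iio (K ^ (ν' + 1)) ∩ T i : Set X) := by
        rw [Order.one_le_iff_pos, pos_iff_ne_zero]
        intro h4
        rw [Ordinal.type_eq_zero_iff_isEmpty] at h4
        exact h4.false ⟨φ 0, ⟨0, hpos, rfl⟩, hmem⟩
      exact absurd h2 (not_lt.2 h3)
    have hc : ∀ i, ∃ s : ρ.ToType, ((ToType.toOrd (t i) : Ordinal.{0}) ≠ 0 → s < t i) ∧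
        typeLT {ζ : K.ToType | K ^ (ToType.toOrd s : Ordinal.{0}) ≤
          typeLT ((fun ξ => φ (K ^ ν' * (ToType.toOrd ζ : Ordinal.{0}) + ξ)) ''
            Set.Iio (K ^ ν') ∩ T i : Set X)} < K := by
      intro i
      have hall : ∀ s : ρ.ToType, typeLT (φ '' Set.Iio (K ^ (ν' + 1)) ∩ T i : Set X) <
          K ^ (ToType.toOrd s : Ordinal.{0}) →
          typeLT {ζ : K.ToType | K ^ (ToType.toOrd s : Ordinal.{0}) ≤
          typeLT ((fun ξ => φ (K ^ ν' * (ToType.toOrd ζ : Ordinal.{0}) + ξ)) ''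
            Set.Iio (K ^ ν') ∩ T i : Set X)} < K := by
        intro s hs
        have h1 : IsEmpty {ζ : K.ToType | K ^ (ToType.toOrd s : Ordinal.{0}) ≤
          typeLT ((fun ξ => φ (K ^ ν' * (ToType.toOrd ζ : Ordinal.{0}) + ξ)) ''
            Set.Iio (K ^ ν') ∩ T i : Set X)} := by
          refine ⟨fun ζ => ?_⟩
          have h2 := ζ.2
          rw [hpow'] at hs
          exact absurd (h2.trans (type_mono (block_sub φ (T i) ζ.1))) (not_le.2 hs)
        have h2 := (Ordinal.type_eq_zero_iff_isEmpty (r := fun x1 x2 : {ζ : K.ToType |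
          K ^ (ToType.toOrd s : Ordinal.{0}) ≤
          typeLT ((fun ξ => φ (K ^ ν' * (ToType.toOrd ζ : Ordinal.{0}) + ξ)) ''
            Set.Iio (K ^ ν') ∩ T i : Set X)} => x1 < x2)).2 h1
        rw [h2]
        exact hK
      rcases Ordinal.zero_or_succ_or_isSuccLimit (ToType.toOrd (t i) : Ordinal.{0}) with
        h0 | ⟨c, hc⟩ | hl
      · exact ⟨t i, fun h => absurd h0 h, hall (t i) (ht i)⟩
      · have hc' : (ToType.toOrd (t i) : Ordinal.{0}) = c + 1 := by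
          rw [← hc]; exact (Order.succ_eq_add_one c)
        have hct : c < (ToType.toOrd (t i) : Ordinal.{0}) := by
          rw [hc']
          exact Order.lt_add_one_iff.2 le_rfl
        have hcρ : c < ρ := hct.trans (ToType.toOrd (t i)).2
        refine ⟨ToType.mk ⟨c, hcρ⟩, fun _ => ?_, ?_⟩
        · rw [← toOrd_lt_toOrd, toOrd_mk' hcρ, hc']
          exact Order.lt_add_one_iff.2 le_rfl
        · by_contra hcon
          rw [not_lt] at hcon
          have h2 := type_blocks' (b := K ^ (ToType.toOrd (ToType.mk (⟨c, hcρ⟩ : Set.Iio ρ)) :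
            Ordinal.{0})) φ (by rw [← hpow']; exact hφ) (T i)
            {ζ : K.ToType | K ^ (ToType.toOrd (ToType.mk (⟨c, hcρ⟩ : Set.Iio ρ)) : Ordinal.{0}) ≤
            typeLT ((fun ξ => φ (K ^ ν' * (ToType.toOrd ζ : Ordinal.{0}) + ξ)) ''
            Set.Iio (K ^ ν') ∩ T i : Set X)} (fun ζ hζ => hζ)
          have h3 := ht i
          have h4 := (mul_le_mul_right hcon _).trans h2
          rw [toOrd_mk' hcρ] at h4
          rw [hc', hpow', Ordinal.opow_add _ c 1, Ordinal.opow_one] at h3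
          exact absurd h4 (not_le.2 h3)
      · obtain ⟨c, hc, hc'⟩ := (Ordinal.lt_opow_of_isSuccLimit hK.ne' hl).1 (ht i)
        have hcρ : c < ρ := hc.trans (ToType.toOrd (t i)).2
        refine ⟨ToType.mk ⟨c, hcρ⟩, fun _ => ?_, hall _ ?_⟩
        · rw [← toOrd_lt_toOrd, toOrd_mk' hcρ]
          exact hc
        · rw [toOrd_mk' hcρ]
          exact hc'
    choose s hs1 hs2 using hc
    obtain ⟨ψ, hψ⟩ := exists_enum' hK.ne'
    obtain ⟨J, u, hJ, hu1, hu2⟩ := hε K.ToType D (fun i => {ζ : K.ToType |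
      K ^ (ToType.toOrd (s i) : Ordinal.{0}) ≤
          typeLT ((fun ξ => φ (K ^ ν' * (ToType.toOrd ζ : Ordinal.{0}) + ξ)) ''
            Set.Iio (K ^ ν') ∩ T i : Set X)}) ψ hDθ (by rw [← hKe]; exact hψ) (fun i => by
      refine lt_of_le_of_lt (type_mono Set.inter_subset_right) ?_
      have h5 := hs2 i
      exact lt_of_lt_of_eq h5 hKe)
    choose p hp using hu2
    have h1 : WfI N s ν' := by
      refine WfI.pieces hN hJ p ν' s (fun j => ?_)
      refine ih ν' hlt {i // p i = j} (fun A => N (Subtype.val '' A)) (hN.sub (fun i => p i = j))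
        ((Cardinal.mk_subtype_le _).trans hDθ) (fun i => T i.1)
        (fun ξ => φ (K ^ ν' * (ToType.toOrd (ψ (u j)) : Ordinal.{0}) + ξ)) ?_ ?_
        (fun i => s i.1) ?_
      · rw [hpow'] at hφ
        intro a ha b hb hab
        exact hφ (mul_add_lt_mul (ToType.toOrd (ψ (u j))).2 ha)
          (mul_add_lt_mul (ToType.toOrd (ψ (u j))).2 hb) ((add_lt_add_iff_left _).2 hab)
      · intro ξ hξ
        refine hN.mono _ _ (hT (K ^ ν' * (ToType.toOrd (ψ (u j)) : Ordinal.{0}) + ξ) ?_) ?_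
        · rw [hpow']
          exact mul_add_lt_mul (ToType.toOrd (ψ (u j))).2 hξ
        · rintro _ ⟨i, hi, rfl⟩
          exact hi
      · rintro ⟨i, rfl⟩
        exact not_le.1 (hp i)
    refine WfI.succ (hN.mono _ _ (hT 0 hpos) ?_) h1
    intro i hi
    apply hzero i
    by_contra h3
    exact hi (hs1 i h3)
  · refine WfI.limit hlim (fun δ hδ => ?_)
    have hsub : Set.Iio (K ^ δ) ⊆ Set.Iio (K ^ ν) :=
      Set.Iio_subset_Iio (Ordinal.opow_le_opow_right hK hδ.le)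
    exact ih δ hδ D N hN hDθ T φ (hφ.mono hsub) (fun ξ hξ => hT ξ (hsub hξ)) t (fun i =>
      lt_of_le_of_lt (type_mono (Set.inter_subset_inter_left _ (Set.image_mono hsub))) (ht i))

/-- splitting into bounded parts -/
lemma exists_split (hθ : ℵ₀ ≤ θ) (hcof : μ.ord.cof ≠ θ) {D : Type}
    (hD : #D ≤ θ) (f : D → μ.ord.ToType) : ∃ (J : Type) (p : D → J) (m : J → μ.ord.ToType),
      #J < θ ∧ ∀ i, f i ≤ m (p i) := by
  classical
  rcases lt_or_gt_of_ne hcof with h | h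
  · obtain ⟨s, hs, hs'⟩ := Order.exists_cof_eq (α := μ.ord.ToType)
    rw [Ordinal.cof_toType] at hs'
    have h1 : ∀ i, ∃ m : s, f i ≤ m.1 := by
      intro i
      obtain ⟨m, hm, hm'⟩ := hs (f i)
      exact ⟨⟨m, hm⟩, hm'⟩
    choose m hm using h1
    exact ⟨s, m, fun a => a.1, by rw [hs']; exact h, hm⟩
  · have h1 : (⨆ i : D, ((ToType.toOrd (f i) : Ordinal.{0}))) < μ.ord :=
      Ordinal.iSup_lt_of_lt_cof (hD.trans_lt h) (fun i => (ToType.toOrd (f i)).2)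
    refine ⟨Unit, fun _ => (), fun _ => ToType.mk ⟨_, h1⟩, mk_unit_lt hθ, fun i => ?_⟩
    rw [← toOrd_le_toOrd, toOrd_mk' h1]
    exact Ordinal.le_iSup (fun i : D => ((ToType.toOrd (f i) : Ordinal.{0}))) i

theorem hit_mul (hκ : ℵ₀ ≤ κ) (hθ : θ.IsRegular) (hθ0 : ℵ₀ < θ) (hε : Hit κ θ ε)
    (hμ0 : ℵ₀ ≤ μ) (hcof : μ.ord.cof ≠ θ) (hμ : ∀ ρ < μ, ρ ^ θ < μ) : Hit κ θ (ε * μ.ord) := by
  classical
  have hκ0 : (0 : Ordinal.{0}) < κ.ord := by
    rw [Cardinal.ord_pos]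
    exact Cardinal.aleph0_pos.trans_le hκ
  obtain ⟨K, hKe⟩ : ∃ K, K = κ.ord ^ ε := ⟨_, rfl⟩
  have hK : (0 : Ordinal.{0}) < K := by
    rw [hKe]
    exact Ordinal.opow_pos _ hκ0
  have hlim : Order.IsSuccLimit μ.ord := Cardinal.isSuccLimit_ord hμ0
  intro X _ _ D W φ hD hφ hW
  have hpow : κ.ord ^ (ε * μ.ord) = K ^ μ.ord := by
    rw [Ordinal.opow_mul, hKe]
  have hW' : ∀ i, typeLT (φ '' Set.Iio (κ.ord ^ (ε * μ.ord)) ∩ W i : Set X) <
    κ.ord ^ (ε * μ.ord) := hW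
  rw [hpow] at hφ hW' ⊢
  have h1 : ∀ i, ∃ c : μ.ord.ToType, typeLT (φ '' Set.Iio (K ^ μ.ord) ∩ W i : Set X) <
      K ^ (ToType.toOrd c : Ordinal.{0}) := by
    intro i
    obtain ⟨c, hc, hc'⟩ := (Ordinal.lt_opow_of_isSuccLimit hK.ne' hlim).1 (hW' i)
    exact ⟨ToType.mk ⟨c, hc⟩, by rwa [toOrd_mk' hc]⟩
  choose f hf using h1
  obtain ⟨J, p, m, hJ, hm⟩ := exists_split hθ.aleph0_le hcof hD f
  have key : ∀ j, ∃ (J' : Type) (s : J' → Ordinal.{0}), #J' < θ ∧ (∀ k, s k < K ^ μ.ord) ∧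
      ∀ i : {i // p i = j}, ∃ k, φ (s k) ∉ W i.1 := by
    intro j
    by_contra hcon
    let N : Set {i // p i = j} → Prop := fun A => ∃ (J' : Type) (s : J' → Ordinal.{0}),
      #J' < θ ∧ (∀ k, s k < K ^ μ.ord) ∧ ∀ i ∈ A, ∃ k, φ (s k) ∉ W i.1
    have hN : Idl θ N := by
      refine ⟨?_, ?_⟩
      · rintro A B ⟨J', s, h1, h2, h3⟩ hBA
        exact ⟨J', s, h1, h2, fun i hi => h3 i (hBA hi)⟩
      · intro L A hL hA
        choose J' s h1 h2 h3 using hA
        refine ⟨Σ a, J' a, fun x => s x.1 x.2, mk_sigma_lt hθ hL J' h1,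
          fun x => h2 x.1 x.2, fun i hi => ?_⟩
        obtain ⟨a, ha⟩ := Set.mem_iUnion.1 hi
        obtain ⟨k, hk⟩ := h3 a i ha
        exact ⟨⟨a, k⟩, hk⟩
    have hprop : ¬ N Set.univ := by
      rintro ⟨J', s, h1, h2, h3⟩
      exact hcon ⟨J', s, h1, h2, fun i => h3 i (Set.mem_univ i)⟩
    have hlt : (ToType.toOrd (m j) : Ordinal.{0}) < (ToType.toOrd (m j) : Ordinal.{0}) + 1 :=
      Order.lt_add_one_iff.2 le_rfl
    have hm1 : (ToType.toOrd (m j) : Ordinal.{0}) + 1 < μ.ord := hlim.succ_lt (ToType.toOrd (m j)).2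
    have hDj : #{i // p i = j} ≤ θ := (Cardinal.mk_subtype_le _).trans hD
    have h2 := norm_hit hKe hK hε ((ToType.toOrd (m j) : Ordinal.{0}) + 1) μ.ord
      {i // p i = j} N hN hDj (fun i => W i.1) φ hφ
      (fun ξ hξ => ⟨Unit, fun _ => ξ, mk_unit_lt hθ.aleph0_le, fun _ => hξ,
        fun i hi => ⟨(), hi⟩⟩)
      (fun _ => ToType.mk ⟨(ToType.toOrd (m j) : Ordinal.{0}), hlt⟩) (by
        intro i
        have h3 : p i.1 = j := i.2
        have h4 := hm i.1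
        rw [h3] at h4
        rw [toOrd_mk' hlt]
        exact lt_of_lt_of_le (hf i.1) (Ordinal.opow_le_opow_right hK (toOrd_le_toOrd.2 h4)))
    refine WfI.card_lt hN hθ0 hprop ?_ _ h2
    rw [← Cardinal.power_def, Cardinal.mk_toType]
    have hne : (((ToType.toOrd (m j) : Ordinal.{0}) + 1).card) ≠ 0 := by
      rw [Ne, Ordinal.card_eq_zero]
      exact (lt_of_le_of_lt zero_le hlt).ne'
    exact (Cardinal.power_le_power_left hne hDj).trans_lt (hμ _ (Cardinal.lt_ord.1 hm1))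
  choose J' s hJ' hs1 hs2 using key
  refine ⟨Σ j, J' j, fun x => s x.1 x.2, mk_sigma_lt hθ hJ J' hJ', fun x => hs1 x.1 x.2,
    fun i => ?_⟩
  obtain ⟨k, hk⟩ := hs2 (p i) ⟨i, rfl⟩
  exact ⟨⟨p i, k⟩, hk⟩

end Pool.Agent.TH764.OG
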