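import Mathlib
import Pool.Agent.TH764.OG.Lim3

/-!
# Terms of strong limit cardinality `κ` below `κ ^ (κ ^ κ)`
-/

set_option autoImplicit false

namespace Pool.Agent.TH764.OG

open Set Cardinal Ordinal

variable {κ θ μ : Cardinal.{0}} {ε ρ : Ordinal.{0}}

lemma hit_opow (hκ : ℵ₀ ≤ κ) (hθ : θ.IsRegular) (hθ0 : ℵ₀ < θ) (hpart : Part κ θ)
    (hcof : κ.ord.cof ≠ θ) (hs : ∀ ρ < κ, ρ ^ θ < κ) (c : Ordinal.{0}) :
    c < θ.ord → Hit κ θ (κ.ord ^ c) := by
  classical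
  have hK1 : (1 : Ordinal.{0}) < κ.ord := by
    rw [Cardinal.lt_ord, Ordinal.card_one]
    exact Cardinal.one_lt_aleph0.trans_le hκ
  have hK : (0 : Ordinal.{0}) < κ.ord := zero_lt_one.trans hK1
  induction c using WellFoundedLT.induction with
  | ind c ih =>
  intro hcθ
  rcases Ordinal.zero_or_succ_or_isSuccLimit c with h0 | ⟨c', hc'⟩ | hlim
  · subst h0
    rw [Ordinal.opow_zero]
    exact hit_one hκ hpart
  · have hc'' : c = c' + 1 := by rw [← hc']; exact (Order.succ_eq_add_one c')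
    subst hc''
    have hlt : c' < c' + 1 := Order.lt_add_one_iff.2 le_rfl
    rw [Ordinal.opow_add _ c' 1, Ordinal.opow_one]
    exact hit_mul hκ hθ hθ0 (ih c' hlt (hlt.trans hcθ)) hκ hcof hs
  · refine hit_limit hκ hθ (Ordinal.isSuccLimit_opow hK1 hlim) (I := c.ToType)
      (by rw [Cardinal.mk_toType]; exact Cardinal.lt_ord.1 hcθ)
      (fun a => κ.ord ^ (ToType.toOrd a : Ordinal.{0}))
      (fun a => (Ordinal.opow_lt_opow_iff_right hK1).2 (ToType.toOrd a).2) ?_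
      (fun a => ih _ (ToType.toOrd a).2 (lt_trans (ToType.toOrd a).2 hcθ))
    intro d hd
    obtain ⟨a, ha, ha'⟩ := (Ordinal.lt_opow_of_isSuccLimit hK.ne' hlim).1 hd
    exact ⟨ToType.mk ⟨a, ha⟩, by rw [toOrd_mk' ha]; exact ha'.le⟩

lemma hit_mul_lt (hκ : ℵ₀ ≤ κ) (hθ : θ.IsRegular) (hε : Hit κ θ ε) (hε0 : 0 < ε)
    (a : Ordinal.{0}) : a < θ.ord → Hit κ θ (ε * a) := by
  classical
  induction a using WellFoundedLT.induction with
  | ind a ih =>
  intro haθ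
  rcases Ordinal.zero_or_succ_or_isSuccLimit a with h0 | ⟨a', ha'⟩ | hlim
  · subst h0
    rw [mul_zero]
    exact hit_zero hθ.aleph0_le
  · have ha'' : a = a' + 1 := by rw [← ha']; exact (Order.succ_eq_add_one a')
    subst ha''
    have hlt : a' < a' + 1 := Order.lt_add_one_iff.2 le_rfl
    rw [mul_add_one]
    exact hit_add hκ hθ (ih a' hlt (hlt.trans haθ)) hε
  · refine hit_limit hκ hθ (Ordinal.isSuccLimit_mul_right hε0 hlim) (I := a.ToType)
      (by rw [Cardinal.mk_toType]; exact Cardinal.lt_ord.1 haθ)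
      (fun b => ε * (ToType.toOrd b : Ordinal.{0}))
      (fun b => mul_lt_mul_of_pos_left (ToType.toOrd b).2 hε0) ?_
      (fun b => ih _ (ToType.toOrd b).2 (lt_trans (ToType.toOrd b).2 haθ))
    intro d hd
    obtain ⟨b, hb, hb'⟩ := (Ordinal.lt_mul_iff_of_isSuccLimit hlim).1 hd
    exact ⟨ToType.mk ⟨b, hb⟩, by rw [toOrd_mk' hb]; exact hb'.le⟩

lemma strong_power (hs : κ.IsStrongLimit) (hκ : ℵ₀ < κ) (hθκ : θ < κ) : ∀ ρ < κ, ρ ^ θ < κ := by
  intro ρ hρ
  have hm : max (max ρ θ) ℵ₀ < κ := max_lt (max_lt hρ hθκ) hκ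
  have h1 : ρ ≤ 2 ^ max (max ρ θ) ℵ₀ :=
    (Cardinal.cantor ρ).le.trans (Cardinal.power_le_power_left two_ne_zero
      ((le_max_left _ _).trans (le_max_left _ _)))
  have h2 : ρ ^ θ ≤ 2 ^ max (max ρ θ) ℵ₀ := by
    calc ρ ^ θ ≤ (2 ^ max (max ρ θ) ℵ₀) ^ θ := Cardinal.power_le_power_right h1
      _ ≤ (2 ^ max (max ρ θ) ℵ₀) ^ max (max ρ θ) ℵ₀ := by
        refine Cardinal.power_le_power_left ?_ ((le_max_right _ _).trans (le_max_left _ _))
        exact (Cardinal.cantor _).ne_bot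
      _ = 2 ^ max (max ρ θ) ℵ₀ := by
        rw [← Cardinal.power_mul, Cardinal.mul_eq_self (le_max_right _ _)]
  exact h2.trans_lt (hs.isStrongPrelimit hm)

/-- All exponents below `κ ^ κ`. -/
theorem hit_lt_opow (hκ : ℵ₀ < κ) (hs : κ.IsStrongLimit) (ε : Ordinal.{0}) :
    ε < κ.ord ^ κ.ord → ∃ θ₀ < κ, ∀ θ : Cardinal.{0}, θ.IsRegular → ℵ₀ < θ → θ₀ ≤ θ → θ < κ →
      (κ.IsRegular ∨ κ.ord.cof < θ) → Hit κ θ ε := by
  classical
  have hK1 : (1 : Ordinal.{0}) < κ.ord := by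
    rw [Cardinal.lt_ord, Ordinal.card_one]
    exact Cardinal.one_lt_aleph0.trans hκ
  have hK : (0 : Ordinal.{0}) < κ.ord := zero_lt_one.trans hK1
  have hsucc : ∀ c < κ, Order.succ c < κ := fun c hc => hs.isSuccLimit.succ_lt hc
  induction ε using WellFoundedLT.induction with
  | ind ε ih =>
  intro hε
  rcases eq_or_ne ε 0 with h0 | h0
  · subst h0
    exact ⟨0, lt_of_le_of_lt zero_le hκ, fun θ hθ _ _ _ _ => hit_zero hθ.aleph0_le⟩
  · have hc : log κ.ord ε < κ.ord := (Ordinal.lt_opow_iff_log_lt hK1 h0).1 hε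
    have ha : ε / κ.ord ^ log κ.ord ε < κ.ord := Ordinal.div_opow_log_lt ε hK1
    have hr : ε % κ.ord ^ log κ.ord ε < ε := Ordinal.mod_opow_log_lt_self κ.ord h0
    obtain ⟨θ₁, hθ₁, h1⟩ := ih _ hr (hr.trans hε)
    refine ⟨max θ₁ (max (Order.succ (log κ.ord ε).card)
      (Order.succ (ε / κ.ord ^ log κ.ord ε).card)),
      max_lt hθ₁ (max_lt (hsucc _ (Cardinal.lt_ord.1 hc)) (hsucc _ (Cardinal.lt_ord.1 ha))), ?_⟩
    intro θ hθ hθ0 hle hθκ hcase
    have hcθ : log κ.ord ε < θ.ord := Cardinal.lt_ord.2 (lt_of_lt_of_le (Order.lt_succ _)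
      (((le_max_left _ _).trans (le_max_right _ _)).trans hle))
    have haθ : ε / κ.ord ^ log κ.ord ε < θ.ord := Cardinal.lt_ord.2
      (lt_of_lt_of_le (Order.lt_succ _)
      (((le_max_right _ _).trans (le_max_right _ _)).trans hle))
    have hpart : Part κ θ := by
      rcases hcase with h | h
      · exact part_regular h hθκ hθ.aleph0_le
      · exact part_singular hκ.le h hθκ
    have hcof : κ.ord.cof ≠ θ := by
      rcases hcase with h | h
      · rw [h.cof_ord]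
        exact hθκ.ne'
      · exact h.ne
    have h2 := hit_mul_lt hκ.le hθ (hit_opow hκ.le hθ hθ0 hpart hcof
      (strong_power hs hκ hθκ) _ hcθ) (Ordinal.opow_pos _ hK) _ haθ
    have h3 := hit_add hκ.le hθ h2 (h1 θ hθ hθ0 ((le_max_left _ _).trans hle) hθκ hcase)
    rwa [Ordinal.div_add_mod] at h3

/-- from `Hit` to the relation -/
theorem rel_of_hit (hκ : ℵ₀ ≤ κ) {ν : Ordinal.{0}} (hν0 : 0 < ν)
    (hν : ν < (Order.succ κ).ord) {q : Ordinal.{0}} (hq0 : 0 < q) (hq : q < κ.ord)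
    (hθ : θ.IsRegular) (hθκ : θ < κ) (hqθ : q.card < θ) (hH : Hit κ θ ν) :
    Rel (κ.ord ^ ν * q) := by
  classical
  by_contra hR
  have hK : (0 : Ordinal.{0}) < κ.ord := by
    rw [Cardinal.ord_pos]
    exact Cardinal.aleph0_pos.trans_le hκ
  have h0 : κ.ord ^ ν * q ≠ 0 := (mul_pos (Ordinal.opow_pos _ hK) hq0).ne'
  have hdvd : κ.ord ∣ κ.ord ^ ν * q := by
    have h7 : 1 ≤ ν := Order.one_le_iff_pos.2 hν0
    obtain ⟨δ, hδ⟩ : ∃ δ, ν = 1 + δ := ⟨ν - 1, (Ordinal.add_sub_cancel_of_le h7).symm⟩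
    rw [hδ, Ordinal.opow_add, Ordinal.opow_one, mul_assoc]
    exact dvd_mul_right _ _
  have hcard : (κ.ord ^ ν * q).card ≤ κ := by
    rw [Ordinal.card_mul]
    have h8 : (κ.ord ^ ν).card ≤ κ := by
      refine (Ordinal.card_opow_le _ _).trans (max_le hκ (max_le ?_ ?_))
      · rw [Cardinal.card_ord]
      · exact Order.lt_succ_iff.1 (Cardinal.lt_ord.1 hν)
    exact (mul_le_mul' h8 (Cardinal.lt_ord.1 hq).le).trans (Cardinal.mul_eq_self hκ).le
  obtain ⟨S, hS1, hS2⟩ := smallCover_of_not_rel hκ h0 hdvd hcard hR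
  obtain ⟨φ, hφ⟩ := exists_enum' h0
  have h1 : ∀ i, ∃ ζ : q.ToType,
      typeLT ((fun ξ => φ (κ.ord ^ ν * (ToType.toOrd ζ : Ordinal.{0}) + ξ)) ''
        Set.Iio (κ.ord ^ ν) ∩ S i : Set _) < κ.ord ^ ν := by
    intro i
    by_contra hcon
    push Not at hcon
    have h2 := type_blocks φ hφ (S i) Set.univ (fun ζ _ => hcon ζ)
    have h3 : typeLT (Set.univ : Set q.ToType) = q := by
      conv_rhs => rw [← Ordinal.type_toType q]
      exact Ordinal.type_eq.2 ⟨⟨Equiv.Set.univ _, Iff.rfl⟩⟩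
    rw [h3] at h2
    exact absurd (h2.trans (type_mono Set.inter_subset_right)) (not_le.2 (hS1 i))
  choose f hf using h1
  obtain ⟨a, ha⟩ := Cardinal.infinite_pigeonhole_card f θ
    (by rw [Cardinal.mk_ord_toType]; exact hθκ.le) hθ.aleph0_le
    (by rw [hθ.cof_ord, Cardinal.mk_toType]; exact hqθ)
  obtain ⟨D', hD'⟩ := Cardinal.le_mk_iff_exists_set.1 ha
  obtain ⟨J, s, hJ, hs1, hs2⟩ := hH _ D' (fun i => S i.1.1)
    (fun ξ => φ (κ.ord ^ ν * (ToType.toOrd a : Ordinal.{0}) + ξ)) hD'.le (by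
      intro x hx y hy hxy
      exact hφ (mul_add_lt_mul (ToType.toOrd a).2 hx) (mul_add_lt_mul (ToType.toOrd a).2 hy)
        ((add_lt_add_iff_left _).2 hxy)) (by
      intro i
      have h2 := hf i.1.1
      have h3 : f i.1.1 = a := i.1.2
      rwa [h3] at h2)
  choose g hg using hs2
  obtain ⟨j, hj⟩ := Cardinal.infinite_pigeonhole_card g θ hD'.ge hθ.aleph0_le
    (by rw [hθ.cof_ord]; exact hJ)
  have h4 := hS2 (φ (κ.ord ^ ν * (ToType.toOrd a : Ordinal.{0}) + s j))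
  have h5 : #(g ⁻¹' {j}) ≤ #{ξ | φ (κ.ord ^ ν * (ToType.toOrd a : Ordinal.{0}) + s j) ∉ S ξ} := by
    refine Cardinal.mk_le_of_injective (f := fun i : g ⁻¹' {j} =>
      (⟨i.1.1.1, ?_⟩ : {ξ | φ (κ.ord ^ ν * (ToType.toOrd a : Ordinal.{0}) + s j) ∉ S ξ})) ?_
    · have h6 := hg i.1
      have h7 : g i.1 = j := i.2
      rw [h7] at h6
      exact h6
    · intro x y hxy
      have h8 := congrArg Subtype.val hxy
      exact Subtype.ext (Subtype.ext (Subtype.ext h8))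
  exact absurd (Cardinal.lt_aleph0_iff_finite.2 h4.to_subtype)
    (not_lt.2 ((hθ.aleph0_le.trans hj).trans h5))

/-- terms of strong limit cardinality `κ` below `κ ^ (κ ^ κ)` -/
theorem rel_opow_strong {γ : Ordinal.{0}} (hc : ℵ₀ < (ω ^ γ).card)
    (hs : (ω ^ γ).card.IsStrongLimit)
    (h : ω ^ γ < (ω ^ γ).card.ord ^ ((ω ^ γ).card.ord ^ (ω ^ γ).card.ord)) : Rel (ω ^ γ) := by
  obtain ⟨κ, hκe⟩ : ∃ κ, κ = (ω ^ γ).card := ⟨_, rfl⟩
  rw [← hκe] at hc hs h
  have hK1 : (1 : Ordinal.{0}) < κ.ord := by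
    rw [Cardinal.lt_ord, Ordinal.card_one]
    exact Cardinal.one_lt_aleph0.trans hc
  have hle : κ.ord ≤ ω ^ γ := by
    rw [hκe]
    exact Cardinal.ord_card_le _
  obtain ⟨ν, q, hν1, hq0, hq, h3⟩ := opow_decomp hc.le hle
  have h4 : κ.ord ^ ν ≤ ω ^ γ := by
    rw [h3]
    exact le_mul_of_one_le_right' (Order.one_le_iff_pos.2 hq0)
  have hν : ν < κ.ord ^ κ.ord := (Ordinal.opow_lt_opow_iff_right hK1).1 (h4.trans_lt h)
  have hν2 : ν < (Order.succ κ).ord := by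
    refine ((Ordinal.right_le_opow ν hK1).trans h4).trans_lt ?_
    rw [Cardinal.lt_ord, ← hκe]
    exact Order.lt_succ _
  obtain ⟨θ₀, hθ₀, h5⟩ := hit_lt_opow hc hs ν hν
  rw [h3]
  have hsucc : ∀ c < κ, Order.succ c < κ := fun c hc => hs.isSuccLimit.succ_lt hc
  by_cases hreg : κ.IsRegular
  · have hm : max (max θ₀ ℵ₀) q.card < κ := max_lt (max_lt hθ₀ hc) (Cardinal.lt_ord.1 hq)
    have hθ : (Order.succ (max (max θ₀ ℵ₀) q.card)).IsRegular :=
      Cardinal.isRegular_succ ((le_max_right _ _).trans (le_max_left _ _))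
    refine rel_of_hit hc.le (Order.one_le_iff_pos.1 hν1) hν2 hq0 hq hθ (hsucc _ hm)
      (lt_of_le_of_lt (le_max_right _ _) (Order.lt_succ _)) (h5 _ hθ ?_ ?_ (hsucc _ hm)
      (Or.inl hreg))
    · exact lt_of_le_of_lt ((le_max_right _ _).trans (le_max_left _ _)) (Order.lt_succ _)
    · exact ((le_max_left _ _).trans (le_max_left _ _)).trans (Order.le_succ _)
  · have hcof : κ.ord.cof < κ := by
      by_contra hcon
      exact hreg ⟨hc.le, not_lt.1 hcon⟩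
    have hm : max (max (max θ₀ ℵ₀) q.card) κ.ord.cof < κ :=
      max_lt (max_lt (max_lt hθ₀ hc) (Cardinal.lt_ord.1 hq)) hcof
    have h6 : ℵ₀ ≤ max (max (max θ₀ ℵ₀) q.card) κ.ord.cof :=
      ((le_max_right _ _).trans (le_max_left _ _)).trans (le_max_left _ _)
    have hθ : (Order.succ (max (max (max θ₀ ℵ₀) q.card) κ.ord.cof)).IsRegular :=
      Cardinal.isRegular_succ h6
    refine rel_of_hit hc.le (Order.one_le_iff_pos.1 hν1) hν2 hq0 hq hθ (hsucc _ hm)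
      (lt_of_le_of_lt ((le_max_right _ _).trans (le_max_left _ _)) (Order.lt_succ _))
      (h5 _ hθ (lt_of_le_of_lt h6 (Order.lt_succ _)) ?_ (hsucc _ hm)
      (Or.inr (lt_of_le_of_lt (le_max_right _ _) (Order.lt_succ _))))
    exact (((le_max_left _ _).trans (le_max_left _ _)).trans (le_max_left _ _)).trans
      (Order.le_succ _)

end Pool.Agent.TH764.OG
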