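import Mathlib
import Pool.Agent.TH764.OG.Lim4

/-!
# The exact answer for all limit ordinals whose terms of limit cardinality are small
-/

set_option autoImplicit false

namespace Pool.Agent.TH764.OG

open Set Cardinal Ordinal

/-- The exact answer: terms of cardinality `μ⁺` with `2 ^ μ = μ⁺`, terms of limit cardinality `κ`
below `κ ^ κ`, terms of strong limit cardinality `κ` below `κ ^ (κ ^ κ)`. -/
theorem exact_all2 {α : Ordinal.{0}} (hα : Order.IsSuccLimit α)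
    (h : ∀ γ ∈ (CNF ω α).map Prod.fst, ℵ₀ < (ω ^ γ).card →
      (∃ μ : Cardinal.{0}, (2 : Cardinal.{0}) ^ μ = Order.succ μ ∧ (ω ^ γ).card = Order.succ μ) ∨
      ((ω ^ γ).card.IsStrongLimit ∧
        ω ^ γ < (ω ^ γ).card.ord ^ ((ω ^ γ).card.ord ^ (ω ^ γ).card.ord)) ∨
      (Order.IsSuccLimit (ω ^ γ).card ∧ ω ^ γ < (ω ^ γ).card.ord ^ (ω ^ γ).card.ord)) :
    Rel α ↔ ∀ γ ∈ (CNF ω α).map Prod.fst, ∀ μ : Cardinal.{0}, ℵ₀ ≤ μ →
      (ω ^ γ).card = Order.succ μ → GoodF μ (log (Order.succ μ).ord (ω ^ γ)) := by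
  rw [rel_iff_terms hα]
  constructor
  · intro hR γ hγ μ hμ hc
    have hnot : ¬ Order.IsSuccLimit (ω ^ γ).card := fun hlim => by
      rw [hc] at hlim
      exact absurd (hlim.succ_lt (Order.lt_succ μ)) (lt_irrefl _)
    rcases h γ hγ (by
      rw [hc]
      exact lt_of_le_of_lt hμ (Order.lt_succ μ)) with ⟨μ', h2, hc'⟩ | ⟨hs, _⟩ | ⟨hlim, _⟩
    · have h3 : μ = μ' := Order.succ_injective (hc.symm.trans hc')
      subst h3
      exact (rel_opow_iffG hμ h2 hc).1 (hR γ hγ)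
    · exact absurd hs.isSuccLimit hnot
    · exact absurd hlim hnot
  · intro hG γ hγ
    rcases le_or_gt (ω ^ γ).card ℵ₀ with hc | hc
    · exact rel_opow_countable (one_le_of_mem hα hγ) hc
    · rcases h γ hγ hc with ⟨μ, h2, hc'⟩ | ⟨hs, hlt⟩ | ⟨hlim, hlt⟩
      · have hμ : ℵ₀ ≤ μ := by
          rw [hc'] at hc
          exact Order.lt_succ_iff.1 hc
        exact (rel_opow_iffG hμ h2 hc').2 (hG γ hγ μ hμ hc')
      · exact rel_opow_strong hc hs hlt
      · exact rel_opow_limit hc hlim hlt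

end Pool.Agent.TH764.OG
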