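import Mathlib
import Pool.Agent.TH764.OG.RegTop
import Pool.Agent.TH764.OG.Cohen

/-!
# The relation `α → (α, infinite path)²` for multiples of a regular cardinal `κ` below `κ^(θ+2)`
-/

set_option autoImplicit false

namespace Pool.Agent.TH764.OG.OldRegularIntervals

open Cardinal Ordinal

/-- The relation `α → (α, infinite path)²`: for every partition of the pairs of a well-order of type
`α` into two classes, with the second class written as the edge set of a graph `G`, there is a set
of type `α` without pairs in the second class, or an injective sequence whose consecutive terms form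
pairs in the second class. -/
def Rel (α : Ordinal.{0}) : Prop :=
  ∀ G : SimpleGraph α.ToType,
    (∃ Y : Set α.ToType, G.IsIndepSet Y ∧ typeLT Y = α) ∨
    ∃ f : ℕ → α.ToType, Function.Injective f ∧ ∀ n, G.Adj (f n) (f (n + 1))

/-- Let `θ < κ` be infinite regular cardinals such that `l ^ m < κ` for all `l < κ` and `m < θ`.
Then `α → (α, infinite path)²` holds for every nonzero multiple `α` of (the initial ordinal of) `κ`
with `α < κ ^ (θ + 2)` (ordinal arithmetic). -/
theorem regular_intervals (κ θ : Cardinal.{0}) (hκ : κ.IsRegular) (hθ : θ.IsRegular) (hθκ : θ < κ)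
    (hpow : ∀ l < κ, ∀ m < θ, l ^ m < κ) (α : Ordinal.{0}) (h0 : α ≠ 0) (hdvd : κ.ord ∣ α)
    (hα : α < κ.ord ^ (θ.ord + 2)) : Rel α := by
  intro G
  by_cases hpath : ∃ v : ℕ → α.ToType, Function.Injective v ∧ ∀ n, G.Adj (v n) (v (n + 1))
  · exact Or.inr hpath
  left
  have : Nonempty α.ToType := by
    rw [← Cardinal.mk_ne_zero_iff, Cardinal.mk_toType]
    exact fun h => h0 (Ordinal.card_eq_zero.1 h)
  obtain ⟨pred, hT, hG⟩ := TH764.OG.exists_treeOrd G (by
    intro v hv hadj
    exact hpath ⟨v, hv, hadj⟩)
  classical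
  obtain ⟨x₀⟩ : Nonempty α.ToType := inferInstance
  have hP := TH764.OG.pq_mult hT hκ hθ hθκ hpow α hdvd hα
    (fun ξ => if h : ξ < α then ToType.mk (⟨ξ, h⟩ : Set.Iio α) else x₀) (by
      intro a ha b hb hab
      have ha' : a < α := ha
      have hb' : b < α := hb
      simp only [dif_pos ha', dif_pos hb']
      rw [OrderIso.lt_iff_lt]
      exact hab)
  obtain ⟨A, hA, htype⟩ := TH764.OG.exists_indep (Adm := fun R : Set α.ToType => #R < κ)
    hκ.aleph0_le (TH764.OG.gen_regular hκ α.ToType) pred (fun R hR => hR) _ hP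
  refine ⟨A, ?_, htype⟩
  intro x hx y hy _ hxy
  rcases hG x y hxy with h | h
  · exact hA x hx y hy h
  · exact hA y hy x hx h

end Pool.Agent.TH764.OG.OldRegularIntervals
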